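import Mathlib
import Pool.Agent.H80.AJ.Cover
import Pool.Agent.H80.AJ.Distort

/-!
# Module KOE: distortion of injective holomorphic functions

PROOF. `univ_cover` (H80/AJ/Cover): for `g` injective holomorphic on `ball z s`: `ball (g z) (s * ‖deriv g z‖ / 16) ⊆ g '' ball z s`. Let `V = g '' ball c R` (open, not the whole plane: otherwise the inverse of `g` would be a bounded entire function, constant), `δ z = infDist (g z) Vᶜ`.
(1) `(R - ‖z - c‖) ‖deriv g z‖ / 16 ≤ δ z` for `z ∈ ball c R` (`univ_cover` on `ball z (R - ‖z - c‖)`). (2) `δ z ≤ 2 (R - ‖z - c‖) ‖deriv g z‖`: the inverse function `h : ball (g z) (δ z) → ball c R` is holomorphic, `h (g z) = z`; by the Schwarz-Pick inequality (compose with the Möbius map of the disc sending `z` to `0`, or use that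
`ball c R ⊆ ` a half plane at distance `R - ‖z - c‖` from `z` and the Borel-Caratheodory/Schwarz inequality for the half plane) `‖deriv h (g z)‖ * δ z ≤ 2 (R - ‖z - c‖)`, and `deriv h (g z) = 1 / deriv g z` (`deriv g z ≠ 0` for injective `g`).
(3) On the segment `z_s = c + s (z - c)`, `0 ≤ s ≤ 1`: `s ↦ δ (z_s)` is Lipschitz with local constant `‖deriv g (z_s)‖ ‖z - c‖ ≤ 16 δ(z_s) ‖z - c‖ / (R - s ‖z - c‖)`. Gronwall: `δ (z) ≤ δ (c) (1 - ‖z - c‖/R) ^ (-16)` and `δ (z) ≥ δ c (1 - ‖z - c‖ / R) ^ 16`. (Instead of Gronwall: a discrete chain: if `‖z' - z‖ ≤ (R - ‖z - c‖) / 64` then `‖deriv g‖ ≤ 32 δ(z) / (R - ‖z - c‖) ..`, `δ z' ≤ 2 δ z`, `δ z ≤ 2 δ z'`; the number of steps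
from `c` to `z` is at most `100 (1 + log (1 / (1 - ρ/R)))`; this gives another exponent `N`, which is allowed.) With (1), (2) this gives the first two inequalities (`N = 17`, `C = 512`), the third by integration along the segment, the last one from `univ_cover` on `ball c s`, `s = ‖z - c‖`: `g z ∉ g '' ball c s` by injectivity.
-/

set_option autoImplicit false

open Filter Topology Metric Set

namespace Pool.Agent.H44.DN

open Pool.Agent.H80.AJ in
theorem koe_chain {g : ℂ → ℂ} {c : ℂ} {R : ℝ} (hR : 0 < R) (hg : DifferentiableOn ℂ g (ball c R))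
    (hi : InjOn g (ball c R)) (n : ℕ) : ∀ z : ℂ, ‖z - c‖ ≤ R * (1 - (1 / 2) ^ (n + 1)) →
      ‖deriv g z‖ ≤ KK ^ (n + 1) * ‖deriv g c‖ ∧ ‖deriv g c‖ ≤ KK ^ (n + 1) * ‖deriv g z‖ := by
  induction n with
  | zero =>
    intro z hz
    have h1 : z ∈ closedBall c (R / 2) := by
      rw [mem_closedBall, dist_eq_norm]
      norm_num at hz
      linarith
    have h2 : c ∈ closedBall c (R / 2) := mem_closedBall_self (by positivity)
    rw [zero_add, pow_one]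
    exact ⟨distort hR hg hi h1 h2, distort hR hg hi h2 h1⟩
  | succ n ih =>
    intro z hz
    obtain ⟨q, hq⟩ : ∃ q : ℝ, q = (1 / 2) ^ (n + 1) := ⟨_, rfl⟩
    have hq0 : 0 < q := by rw [hq]; positivity
    have hq1 : q ≤ 1 / 2 := by
      rw [hq, pow_succ]
      have : ((1 : ℝ) / 2) ^ n ≤ 1 := pow_le_one₀ (by norm_num) (by norm_num)
      linarith
    have hq2 : ((1 : ℝ) / 2) ^ (n + 1 + 1) = q / 2 := by rw [pow_succ, ← hq]; ring
    rw [hq2] at hz
    rw [← hq] at ih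
    obtain ⟨θ, hθ⟩ : ∃ θ : ℝ, θ = (1 - q) / (1 - q / 2) := ⟨_, rfl⟩
    have hd : 0 < 1 - q / 2 := by linarith
    have hθ0 : 0 ≤ θ := by rw [hθ]; exact div_nonneg (by linarith) hd.le
    have hθ1 : θ * (1 - q / 2) = 1 - q := by rw [hθ]; exact div_mul_cancel₀ _ hd.ne'
    have hθ2 : θ ≤ 1 := by rw [hθ, div_le_one hd]; linarith
    obtain ⟨w, hw⟩ : ∃ w : ℂ, w = c + (θ : ℂ) * (z - c) := ⟨_, rfl⟩
    have hwc : ‖w - c‖ ≤ R * (1 - q) := by
      rw [hw, add_sub_cancel_left, norm_mul, Complex.norm_real, Real.norm_of_nonneg hθ0]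
      calc θ * ‖z - c‖ ≤ θ * (R * (1 - q / 2)) := mul_le_mul_of_nonneg_left hz hθ0
        _ = R * (θ * (1 - q / 2)) := by ring
        _ = R * (1 - q) := by rw [hθ1]
    have hzw : ‖z - w‖ ≤ R * q / 2 := by
      have h1 : z - w = ((1 - θ : ℝ) : ℂ) * (z - c) := by rw [hw]; push_cast; ring
      rw [h1, norm_mul, Complex.norm_real, Real.norm_of_nonneg (by linarith)]
      calc (1 - θ) * ‖z - c‖ ≤ (1 - θ) * (R * (1 - q / 2)) :=
            mul_le_mul_of_nonneg_left hz (by linarith)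
        _ = R * ((1 - q / 2) - θ * (1 - q / 2)) := by ring
        _ = R * q / 2 := by rw [hθ1]; ring
    have hsub : ball w (R * q) ⊆ ball c R := by
      intro u hu
      rw [mem_ball, dist_eq_norm] at hu ⊢
      calc ‖u - c‖ = ‖(u - w) + (w - c)‖ := by rw [sub_add_sub_cancel]
        _ ≤ ‖u - w‖ + ‖w - c‖ := norm_add_le _ _
        _ < R * q + R * (1 - q) := by linarith
        _ = R := by ring
    have hRq : 0 < R * q := by positivity
    have h1 : z ∈ closedBall w (R * q / 2) := by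
      rw [mem_closedBall, dist_eq_norm]
      exact hzw
    have h2 : w ∈ closedBall w (R * q / 2) := mem_closedBall_self (by positivity)
    have h3 := distort hRq (hg.mono hsub) (hi.mono hsub) h1 h2
    have h4 := distort hRq (hg.mono hsub) (hi.mono hsub) h2 h1
    obtain ⟨h5, h6⟩ := ih w hwc
    have hK := KK_pos
    constructor
    · calc ‖deriv g z‖ ≤ KK * ‖deriv g w‖ := h3
        _ ≤ KK * (KK ^ (n + 1) * ‖deriv g c‖) := mul_le_mul_of_nonneg_left h5 hK.le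
        _ = KK ^ (n + 1 + 1) * ‖deriv g c‖ := by ring
    · calc ‖deriv g c‖ ≤ KK ^ (n + 1) * ‖deriv g w‖ := h6
        _ ≤ KK ^ (n + 1) * (KK * ‖deriv g z‖) := mul_le_mul_of_nonneg_left h4 (by positivity)
        _ = KK ^ (n + 1 + 1) * ‖deriv g z‖ := by ring

open Pool.Agent.H80.AJ in
theorem koe_exp (N : ℕ) (hN : KK ≤ 2 ^ N) (δ : ℝ) (h0 : 0 < δ) (h1 : δ ≤ 1) :
    ∃ n : ℕ, ((1 : ℝ) / 2) ^ (n + 1) ≤ δ ∧ KK ^ (n + 1) * δ ^ N ≤ KK := by
  have hK := KK_pos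
  have hex : ∃ n : ℕ, ((1 : ℝ) / 2) ^ (n + 1) ≤ δ := by
    obtain ⟨n, hn⟩ := exists_pow_lt_of_lt_one h0 (by norm_num : (1 : ℝ) / 2 < 1)
    exact ⟨n, (pow_le_pow_of_le_one (by norm_num) (by norm_num) (Nat.le_succ n)).trans hn.le⟩
  classical
  obtain ⟨n, hn, hmin⟩ : ∃ n, ((1 : ℝ) / 2) ^ (n + 1) ≤ δ ∧
      ∀ m < n, ¬ ((1 : ℝ) / 2) ^ (m + 1) ≤ δ :=
    ⟨Nat.find hex, Nat.find_spec hex, fun m hm => Nat.find_min hex hm⟩
  refine ⟨n, hn, ?_⟩
  rcases Nat.eq_zero_or_pos n with h2 | h2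
  · subst h2
    rw [zero_add, pow_one]
    exact mul_le_of_le_one_right hK.le (pow_le_one₀ h0.le h1)
  · obtain ⟨m, rfl⟩ : ∃ m, n = m + 1 := ⟨n - 1, by omega⟩
    have h3 := hmin m (by omega)
    push Not at h3
    have h4 : KK ^ (m + 1) ≤ (2 ^ (m + 1)) ^ N := by
      calc KK ^ (m + 1) ≤ (2 ^ N) ^ (m + 1) := pow_le_pow_left₀ hK.le hN _
        _ = (2 ^ (m + 1)) ^ N := by rw [← pow_mul, ← pow_mul, mul_comm]
    have h5 : δ ^ N ≤ (((1 : ℝ) / 2) ^ (m + 1)) ^ N := pow_le_pow_left₀ h0.le h3.le _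
    calc KK ^ (m + 1 + 1) * δ ^ N = KK * (KK ^ (m + 1) * δ ^ N) := by ring
      _ ≤ KK * ((2 ^ (m + 1)) ^ N * (((1 : ℝ) / 2) ^ (m + 1)) ^ N) := by
          apply mul_le_mul_of_nonneg_left _ hK.le
          exact mul_le_mul h4 h5 (by positivity) (by positivity)
      _ = KK := by
          rw [← mul_pow, ← mul_pow]
          norm_num

theorem koe : ∃ (C : ℝ) (N : ℕ), 1 ≤ C ∧ ∀ (g : ℂ → ℂ) (c : ℂ) (R : ℝ), 0 < R →
    DifferentiableOn ℂ g (ball c R) → InjOn g (ball c R) → ∀ ρ : ℝ, 0 ≤ ρ → ρ < R →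
      ∀ z ∈ closedBall c ρ,
        ‖deriv g z‖ * (1 - ρ / R) ^ N ≤ C * ‖deriv g c‖ ∧
        ‖deriv g c‖ * (1 - ρ / R) ^ N ≤ C * ‖deriv g z‖ ∧
        ‖g z - g c‖ * (1 - ρ / R) ^ N ≤ C * (‖deriv g c‖ * ‖z - c‖) ∧
        ‖deriv g c‖ * ‖z - c‖ ≤ C * ‖g z - g c‖ := by
  have hK := Pool.Agent.H80.AJ.KK_pos
  have hK1 := Pool.Agent.H80.AJ.one_le_KK
  obtain ⟨N, hN⟩ : ∃ N : ℕ, Pool.Agent.H80.AJ.KK ≤ 2 ^ N := by
    obtain ⟨N, hN⟩ := pow_unbounded_of_one_lt Pool.Agent.H80.AJ.KK (by norm_num : (1 : ℝ) < 2)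
    exact ⟨N, hN.le⟩
  refine ⟨Pool.Agent.H80.AJ.KK + 16, N, by linarith, ?_⟩
  intro g c R hR hg hi ρ hρ0 hρR
  obtain ⟨δ, hδ⟩ : ∃ δ : ℝ, δ = 1 - ρ / R := ⟨_, rfl⟩
  have hρR' : ρ / R < 1 := (div_lt_one hR).2 hρR
  have hδ0 : 0 < δ := by rw [hδ]; linarith
  have hδ1 : δ ≤ 1 := by
    rw [hδ]
    have : 0 ≤ ρ / R := by positivity
    linarith
  have hρδ : ρ = R * (1 - δ) := by rw [hδ]; field_simp; ring
  rw [← hδ]
  obtain ⟨n, hn1, hn2⟩ := koe_exp N hN δ hδ0 hδ1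
  have hch : ∀ z ∈ closedBall c ρ, ‖deriv g z‖ * δ ^ N ≤ Pool.Agent.H80.AJ.KK * ‖deriv g c‖ ∧
      ‖deriv g c‖ * δ ^ N ≤ Pool.Agent.H80.AJ.KK * ‖deriv g z‖ := by
    intro z hz
    rw [mem_closedBall, dist_eq_norm, hρδ] at hz
    obtain ⟨h1, h2⟩ := koe_chain hR hg hi n z
      (hz.trans (mul_le_mul_of_nonneg_left (by linarith) hR.le))
    have h3 : 0 < δ ^ N := by positivity
    constructor
    · calc ‖deriv g z‖ * δ ^ N ≤ Pool.Agent.H80.AJ.KK ^ (n + 1) * ‖deriv g c‖ * δ ^ N :=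
            mul_le_mul_of_nonneg_right h1 h3.le
        _ = (Pool.Agent.H80.AJ.KK ^ (n + 1) * δ ^ N) * ‖deriv g c‖ := by ring
        _ ≤ Pool.Agent.H80.AJ.KK * ‖deriv g c‖ := mul_le_mul_of_nonneg_right hn2 (norm_nonneg _)
    · calc ‖deriv g c‖ * δ ^ N ≤ Pool.Agent.H80.AJ.KK ^ (n + 1) * ‖deriv g z‖ * δ ^ N :=
            mul_le_mul_of_nonneg_right h2 h3.le
        _ = (Pool.Agent.H80.AJ.KK ^ (n + 1) * δ ^ N) * ‖deriv g z‖ := by ring
        _ ≤ Pool.Agent.H80.AJ.KK * ‖deriv g z‖ := mul_le_mul_of_nonneg_right hn2 (norm_nonneg _)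
  have hsub : closedBall c ρ ⊆ ball c R := closedBall_subset_ball hρR
  intro z hz
  obtain ⟨h1, h2⟩ := hch z hz
  have h0 := norm_nonneg (deriv g c)
  have h0' := norm_nonneg (deriv g z)
  refine ⟨by nlinarith, by nlinarith, ?_, ?_⟩
  · have h3 : 0 < δ ^ N := by positivity
    have hc : c ∈ closedBall c ρ := mem_closedBall_self hρ0
    have h4 : ‖g z - g c‖ ≤ (Pool.Agent.H80.AJ.KK * ‖deriv g c‖ / δ ^ N) * ‖z - c‖ := by
      refine Convex.norm_image_sub_le_of_norm_deriv_le (𝕜 := ℂ) (s := closedBall c ρ) ?_ ?_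
        (convex_closedBall c ρ) hc hz
      · intro u hu
        exact hg.differentiableAt (isOpen_ball.mem_nhds (hsub hu))
      · intro u hu
        rw [le_div_iff₀ h3]
        exact (hch u hu).1
    calc ‖g z - g c‖ * δ ^ N ≤ (Pool.Agent.H80.AJ.KK * ‖deriv g c‖ / δ ^ N) * ‖z - c‖ * δ ^ N :=
          mul_le_mul_of_nonneg_right h4 h3.le
      _ = Pool.Agent.H80.AJ.KK * (‖deriv g c‖ * ‖z - c‖) := by field_simp
      _ ≤ (Pool.Agent.H80.AJ.KK + 16) * (‖deriv g c‖ * ‖z - c‖) :=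
          mul_le_mul_of_nonneg_right (by linarith) (by positivity)
  · by_cases hzc : z = c
    · subst hzc
      simp
    · have hs : 0 < ‖z - c‖ := norm_pos_iff.2 (sub_ne_zero.2 hzc)
      have hsR : ball c ‖z - c‖ ⊆ ball c R := by
        apply ball_subset_ball
        rw [mem_closedBall, dist_eq_norm] at hz
        linarith
      have h3 := Pool.Agent.H80.AJ.univ_cover hs (hg.mono hsR) (hi.mono hsR)
      have h4 : ‖z - c‖ * ‖deriv g c‖ / 16 ≤ ‖g z - g c‖ := by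
        by_contra hcon
        push Not at hcon
        have h5 : g z ∈ ball (g c) (‖z - c‖ * ‖deriv g c‖ / 16) := by
          rw [mem_ball, dist_eq_norm]
          exact hcon
        obtain ⟨u, hu, hgu⟩ := h3 h5
        have h6 := hi (hsR hu) (hsub hz) hgu
        rw [h6, mem_ball, dist_eq_norm] at hu
        exact lt_irrefl _ hu
      have h7 := norm_nonneg (g z - g c)
      nlinarith

end Pool.Agent.H44.DN
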