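import Pool.Agent.H35.EX.Ascoli

/-!
# Module NNL: a limit of bounded holomorphic functions (Montel)

PROOF. Cauchy estimate: on `ball x ρ'` (convex) all `F k` are Lipschitz with the constant `B / (ρ - ρ')`. A diagonal argument over a countable dense subset, or Arzela-Ascoli (compare `lims_ascoli`, `lims` in H91/CE/LIMS: copy), gives a subsequence converging pointwise on `ball x ρ'`; by the equicontinuity the convergence is locally uniform (`TendstoLocallyUniformlyOn`), the limit is differentiable (`TendstoLocallyUniformlyOn.differentiableOn`).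
-/

set_option autoImplicit false

open Filter Topology Metric Set

namespace Pool.Agent.H44.DN

theorem montel1 {F : ℕ → ℂ → ℂ} {x : ℂ} {ρ ρ' B : ℝ} (hρ : 0 < ρ') (hρρ : ρ' < ρ)
    (hF : ∀ k, DifferentiableOn ℂ (F k) (ball x ρ)) (hB : ∀ k, ∀ z ∈ ball x ρ, ‖F k z‖ ≤ B) :
    ∃ (σ : ℕ → ℕ) (g : ℂ → ℂ), StrictMono σ ∧ DifferentiableOn ℂ g (ball x ρ') ∧
      ∀ z ∈ ball x ρ', Tendsto (fun w : ℕ × ℂ => F (σ w.1) w.2) (atTop ×ˢ 𝓝 z) (𝓝 (g z)) := by
  have hsub : ball x ρ' ⊆ ball x ρ := ball_subset_ball hρρ.le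
  have hd0 : 0 < ρ - ρ' := by linarith
  have hderiv : ∀ k, ∀ z ∈ ball x ρ', ‖deriv (F k) z‖ ≤ B / (ρ - ρ') := by
    intro k z hz
    have hcl : closedBall z (ρ - ρ') ⊆ ball x ρ := by
      intro w hw
      rw [mem_closedBall] at hw
      rw [mem_ball] at hz ⊢
      calc dist w x ≤ dist w z + dist z x := dist_triangle _ _ _
        _ < ρ := by linarith
    refine Complex.norm_deriv_le_of_forall_mem_sphere_norm_le hd0 ?_ ?_
    · refine DifferentiableOn.diffContOnCl ?_
      refine (hF k).mono ?_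
      rw [closure_ball _ hd0.ne']
      exact hcl
    · intro w hw
      exact hB k w (hcl (sphere_subset_closedBall hw))
  set Λ : ℝ := B / (ρ - ρ') with hΛ
  have hFL : ∀ k, ∀ z ∈ ball x ρ', ∀ w ∈ ball x ρ', ‖F k z - F k w‖ ≤ Λ * ‖z - w‖ := by
    intro k z hz w hw
    refine Convex.norm_image_sub_le_of_norm_deriv_le (𝕜 := ℂ) (s := ball x ρ') ?_
      (hderiv k) (convex_ball x ρ') hw hz
    intro y hy
    exact (hF k).differentiableAt (isOpen_ball.mem_nhds (hsub hy))
  have hmem : ∀ X ∈ ball (0 : ℂ) ρ', x + X ∈ ball x ρ' := by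
    intro X hX
    rw [mem_ball_zero_iff] at hX
    rw [mem_ball, dist_eq_norm]
    simpa using hX
  obtain ⟨σ, Ψ, hσ, hΨ⟩ := Pool.Agent.H35.EX.ascoli (Φ := fun k X => F k (x + X)) (R := ρ')
    (C := B) (L := Λ) hρ
    (Filter.Eventually.of_forall fun k X hX => hB k _ (hsub (hmem X hX)))
    (Filter.Eventually.of_forall fun k X hX Y hY => by
      have h1 := hFL k _ (hmem X hX) _ (hmem Y hY)
      have h2 : x + X - (x + Y) = X - Y := by ring
      rwa [h2] at h1)
  have hg : ∀ z ∈ ball x ρ', Tendsto (fun j => F (σ j) z) atTop (𝓝 (Ψ (z - x))) := by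
    intro z hz
    have h1 : z - x ∈ ball (0 : ℂ) ρ' := by
      rw [mem_ball_zero_iff]
      rwa [mem_ball, dist_eq_norm] at hz
    have h2 := hΨ (z - x) h1
    have h3 : x + (z - x) = z := by ring
    simp only [h3] at h2
    exact h2
  have hgL : ∀ z ∈ ball x ρ', ∀ w ∈ ball x ρ', ‖Ψ (z - x) - Ψ (w - x)‖ ≤ Λ * ‖z - w‖ := by
    intro z hz w hw
    exact le_of_tendsto ((hg z hz).sub (hg w hw)).norm
      (Filter.Eventually.of_forall fun j => hFL (σ j) z hz w hw)
  refine ⟨σ, fun z => Ψ (z - x), hσ, ?_, ?_⟩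
  · have hloc : TendstoLocallyUniformlyOn (fun j => F (σ j)) (fun z => Ψ (z - x)) atTop
        (ball x ρ') := by
      rw [Metric.tendstoLocallyUniformlyOn_iff]
      intro ε hε z hz
      have hδ : 0 < ε / (4 * (|Λ| + 1)) := by positivity
      refine ⟨ball z (ε / (4 * (|Λ| + 1))) ∩ ball x ρ',
        inter_mem (mem_nhdsWithin_of_mem_nhds (ball_mem_nhds z hδ)) self_mem_nhdsWithin, ?_⟩
      obtain ⟨N, hN⟩ := (Metric.tendsto_atTop.1 (hg z hz)) (ε / 2) (by positivity)
      filter_upwards [eventually_ge_atTop N] with j hj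
      rintro y ⟨hy1, hy2⟩
      have h2 := hN j hj
      rw [dist_eq_norm] at h2 ⊢
      rw [mem_ball, dist_eq_norm] at hy1
      have h3 := hgL y hy2 z hz
      have h4 := hFL (σ j) z hz y hy2
      have h5 : Λ * ‖y - z‖ ≤ ε / 4 := by
        calc Λ * ‖y - z‖ ≤ (|Λ| + 1) * ‖y - z‖ := by
              refine mul_le_mul_of_nonneg_right ?_ (norm_nonneg _)
              linarith [le_abs_self Λ]
          _ ≤ (|Λ| + 1) * (ε / (4 * (|Λ| + 1))) := by
              refine mul_le_mul_of_nonneg_left hy1.le (by positivity)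
          _ = ε / 4 := by field_simp
      rw [norm_sub_rev z y] at h4
      calc ‖Ψ (y - x) - F (σ j) y‖
          = ‖(Ψ (y - x) - Ψ (z - x)) + (Ψ (z - x) - F (σ j) z) + (F (σ j) z - F (σ j) y)‖ := by
            congr 1
            ring
        _ ≤ ‖(Ψ (y - x) - Ψ (z - x)) + (Ψ (z - x) - F (σ j) z)‖ + ‖F (σ j) z - F (σ j) y‖ :=
            norm_add_le _ _
        _ ≤ ‖Ψ (y - x) - Ψ (z - x)‖ + ‖Ψ (z - x) - F (σ j) z‖ + ‖F (σ j) z - F (σ j) y‖ :=
            add_le_add (norm_add_le _ _) le_rfl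
        _ < ε := by
            rw [norm_sub_rev (Ψ (z - x))]
            linarith
    refine hloc.differentiableOn (Filter.Eventually.of_forall fun j => ?_) isOpen_ball
    exact (hF (σ j)).mono hsub
  · intro z hz
    rw [tendsto_iff_norm_sub_tendsto_zero]
    have h1 : Tendsto (fun w : ℕ × ℂ => Λ * ‖w.2 - z‖ + ‖F (σ w.1) z - Ψ (z - x)‖)
        (atTop ×ˢ 𝓝 z) (𝓝 (Λ * 0 + 0)) := by
      refine Tendsto.add (Tendsto.const_mul _ ?_) ?_
      · have h2 : Tendsto (fun w : ℂ => ‖w - z‖) (𝓝 z) (𝓝 0) :=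
          tendsto_iff_norm_sub_tendsto_zero.1 tendsto_id
        exact h2.comp tendsto_snd
      · exact (tendsto_iff_norm_sub_tendsto_zero.1 (hg z hz)).comp tendsto_fst
    rw [mul_zero, add_zero] at h1
    refine squeeze_zero' (Filter.Eventually.of_forall fun w => norm_nonneg _) ?_ h1
    have h3 : ∀ᶠ w in 𝓝 z, w ∈ ball x ρ' := isOpen_ball.mem_nhds hz
    filter_upwards [h3.prod_inr (atTop : Filter ℕ)] with w hw
    calc ‖F (σ w.1) w.2 - Ψ (z - x)‖
        = ‖(F (σ w.1) w.2 - F (σ w.1) z) + (F (σ w.1) z - Ψ (z - x))‖ := by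
          rw [sub_add_sub_cancel]
      _ ≤ ‖F (σ w.1) w.2 - F (σ w.1) z‖ + ‖F (σ w.1) z - Ψ (z - x)‖ := norm_add_le _ _
      _ ≤ Λ * ‖w.2 - z‖ + ‖F (σ w.1) z - Ψ (z - x)‖ :=
          add_le_add (hFL (σ w.1) w.2 hw z hz) le_rfl

end Pool.Agent.H44.DN
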