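import Pool.Agent.H44.DN.TRK1

/-!
# Module TRK2: all stages of a good orbit

PROOF. `K ≥ K0`, `z ≤ z0`, `A, J` (`trk1`), `J', c1, C1` (`sn_spec`), `T` an upper bound of `τ` on `Cr`. `c4 = min (1/2) (c1 log q / (4 log 2))` (dimension: `q^(c1 j) = 2^(c1 j log q / log 2)`). Parameters: `κ, ε` given (`κ ≤ 1`). `κ' = κ / 2`, `N` with `(1 - c4)^N ≤ κ' / 2` (so `J1 (1 - c4)^N ≤ ⌊κ' J1⌋` for `J1 ≥ 4 / κ`); `e ≤ e1` where `e1 (N + 1) ≤ ε / 2` and `Mx e1 ≤ κ' c4`. `J1` large, `J0 = ⌊κ' J1⌋`, `lam = 2^(-e J1)`, `Kb = K (C1 J1 + 1)^2` (`≥ Kn K (sn c j)` for `j ≤ J1`).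
CLAIM(l), induction on `l`: for `c ∈ Cr`, `j ≤ J1`, `j (1 - c4)^l ≤ J0`, `w ∈ An c j`, `w ∈ thickening (δ/4) J`, `w ∉ Bd l c` there is `m ≤ l (C1 J1 + T)` with: points `f^[n] w ∈ thickening (δ/4) J` for `n ≤ m`, `∉ Cr` for `n < m`; `∑_{n<m} ‖deriv (f^[n]) w‖ / zt ≤ (2 A^2 / lam)^l 2^j`; `1 ≤ (2 A^2 Kb)^l ‖deriv (f^[n]) w‖` for `n ≤ m`; `z (1/2)^J0 2^j ≤ (A Kb)^l ‖deriv (f^[m]) w‖`.
If `j ≤ J0`: `m = 0` (`(1/2)^J0 2^j ≤ 1`, `z ≤ 1`). In particular `l = 0`. Otherwise `j > J0`, `w ∉ Bd l c`, `l ≥ 1`: by the definition of `Bd`: either `z ≤ ‖u - c'‖` (`u = f^[sn c j] w`, `c' = nc c j`): `m = sn c j`, `trk1`. Or `lam (..) ≤ ‖u - c'‖ < z` and `w' = f^[k] w ∉ Bd (l-1) c'`, `w' ∈ An c' j'`. The inequality of `trk1` for `j'`: `(1/2)^j' ≥ lam^μ q^n (1/2)^j / (A Kb^μ)`, `n ≥ c1 j`, `lam^μ ≥ 2^(-Mx e J1) ≥ 2^(-κ' c4 J1) ≥ 2^(-c4 j)` and `q^n ≥ 2^(4 c4 j)`,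
`A Kb^Mx ≤ 2^(c4 J0)` for large `J1`: `(1/2)^j' ≥ 2^(-j + 2 c4 j)`, so `j' ≤ (1 - 2 c4) j`; CLAIM(l-1) for `w'` gives `m'`; `m = k + m'`. Combine: derivatives by `it_add`: `‖deriv (f^[k+i]) w‖ = ‖deriv (f^[i]) w'‖ Λ'`, `Λ' = ‖deriv (f^[k]) w‖`, `2^(j - j') / (A Kb) ≤ Λ' ≤ (A / lam) 2^(j - j')` (and `2^(j-j') ≥ 1`). Sum: `(A/lam) 2^j + Λ' (2 A^2/lam)^(l-1) 2^j' ≤ (2 A^2/lam)^l 2^j`. Lower bound for `sn ≤ i ≤ k`: `≥ Λ' / A ≥ 1/(A^2 Kb)`.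
CONCLUSION: `l = N`, `j = J1`. `le`: `C = N (C1 + T + 1)` etc. `sum`: `(2 A^2)^N 2^(e N J1) 2^J1 ≤ 2^((1+ε) J1)`. `big`: `‖..‖ ≥ z 2^(-κ' J1) 2^J1 / (A Kb)^N ≥ 2^((1-κ) J1)` for large `J1`. `low`: for `n ≤ sn c J1`: `q^n ≤ A ‖..‖`. For larger `n`: the first passage gives `Λ' ≥ 2^(J1 - j') / (A Kb) ≥ 2^(2 c4 J1) / (A Kb)` and then `‖deriv (f^[k+i]) w‖ ≥ Λ' / (2 A^2 Kb)^N ≥ 2^(c4 J1)` for large `J1`
(and `≥ Λ'/A` for `sn ≤ n ≤ k`); so `c6 = c4` (depends only on `D`, `K`).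
-/

set_option autoImplicit false

open Filter Topology Metric Set

namespace Pool.Agent.H44.DN

private theorem t2_poly (P a s : ℝ) (p : ℕ) (ha : 0 ≤ a) (hs : 0 < s) :
    ∀ᶠ n : ℕ in atTop, P * (a * (n : ℝ) + 1) ^ p ≤ (2 : ℝ) ^ (s * (n : ℝ)) := by
  have hr : (1 : ℝ) < (2 : ℝ) ^ s := Real.one_lt_rpow (by norm_num) hs
  have hQ : 0 < |P| * (a + 1) ^ p + 1 := by positivity
  have h1 := (isLittleO_pow_const_const_pow_of_one_lt (R := ℝ) p hr).def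
    (c := 1 / (|P| * (a + 1) ^ p + 1)) (by positivity)
  filter_upwards [h1, eventually_ge_atTop 1] with n hn hn1
  have hn1' : (1 : ℝ) ≤ (n : ℝ) := by exact_mod_cast hn1
  have hn0 : (0 : ℝ) ≤ (n : ℝ) ^ p := by positivity
  have hrn : (0 : ℝ) < ((2 : ℝ) ^ s) ^ n := by positivity
  rw [Real.norm_of_nonneg hn0, Real.norm_of_nonneg hrn.le] at hn
  have h2 : (2 : ℝ) ^ (s * (n : ℝ)) = ((2 : ℝ) ^ s) ^ n := by
    rw [Real.rpow_mul (by norm_num), Real.rpow_natCast]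
  rw [h2]
  have h3 : (a * (n : ℝ) + 1) ^ p ≤ ((a + 1) * (n : ℝ)) ^ p :=
    pow_le_pow_left₀ (by positivity) (by linarith) p
  have h4 : P * (a * (n : ℝ) + 1) ^ p ≤ |P| * ((a + 1) * (n : ℝ)) ^ p :=
    mul_le_mul (le_abs_self P) h3 (by positivity) (abs_nonneg P)
  rw [mul_pow, ← mul_assoc] at h4
  have h5 : |P| * (a + 1) ^ p * (n : ℝ) ^ p ≤ (|P| * (a + 1) ^ p + 1) * (n : ℝ) ^ p := by
    linarith
  have h6 : (|P| * (a + 1) ^ p + 1) * (n : ℝ) ^ p ≤ ((2 : ℝ) ^ s) ^ n := by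
    have h7 := mul_le_mul_of_nonneg_left hn hQ.le
    have h8 : (|P| * (a + 1) ^ p + 1) * (1 / (|P| * (a + 1) ^ p + 1) * ((2 : ℝ) ^ s) ^ n) =
        ((2 : ℝ) ^ s) ^ n := by
      field_simp
    linarith
  linarith

private theorem t2_jj {lam A Kb Kx q c4 e : ℝ} {μ Mx j j' n J1 : ℕ} (hA : 0 ≤ A) (hKx : 0 ≤ Kx)
    (hKK : Kx ≤ Kb) (hKb : 1 ≤ Kb) (hμ : μ ≤ Mx) (he : 0 ≤ e)
    (hlam : lam = (2 : ℝ) ^ (-(e * (J1 : ℝ)))) (h1 : e * (Mx : ℝ) * (J1 : ℝ) ≤ c4 * (j : ℝ))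
    (hq : (2 : ℝ) ^ (4 * c4 * (j : ℝ)) ≤ q ^ n) (hAK : A * Kb ^ Mx ≤ (2 : ℝ) ^ (c4 * (j : ℝ)))
    (h : lam ^ μ * q ^ n * (1 / 2) ^ j ≤ A * Kx ^ μ * (1 / 2) ^ j') :
    (j' : ℝ) ≤ (1 - 2 * c4) * (j : ℝ) := by
  have h2 : (0 : ℝ) < 2 := by norm_num
  have hl : (2 : ℝ) ^ (-(c4 * (j : ℝ))) ≤ lam ^ μ := by
    rw [hlam, ← Real.rpow_natCast, ← Real.rpow_mul h2.le]
    apply Real.rpow_le_rpow_of_exponent_le (by norm_num)
    have h3 : (μ : ℝ) ≤ (Mx : ℝ) := by exact_mod_cast hμ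
    have h4 : e * (J1 : ℝ) * (μ : ℝ) ≤ e * (J1 : ℝ) * (Mx : ℝ) :=
      mul_le_mul_of_nonneg_left h3 (by positivity)
    nlinarith
  have hK : A * Kx ^ μ ≤ (2 : ℝ) ^ (c4 * (j : ℝ)) := by
    refine le_trans (mul_le_mul_of_nonneg_left ?_ hA) hAK
    exact (pow_le_pow_left₀ hKx hKK μ).trans (pow_le_pow_right₀ hKb hμ)
  have h5 : (2 : ℝ) ^ (-(c4 * (j : ℝ))) * (2 : ℝ) ^ (4 * c4 * (j : ℝ)) * (1 / 2) ^ j ≤
      (2 : ℝ) ^ (c4 * (j : ℝ)) * (1 / 2) ^ j' := by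
    refine le_trans ?_ (h.trans ?_)
    · apply mul_le_mul_of_nonneg_right _ (by positivity)
      exact mul_le_mul hl hq (by positivity) (le_trans (by positivity) hl)
    · exact mul_le_mul_of_nonneg_right hK (by positivity)
  have e1 : ∀ i : ℕ, ((1 : ℝ) / 2) ^ i = (2 : ℝ) ^ (-(i : ℝ)) := by
    intro i
    rw [Real.rpow_neg h2.le, Real.rpow_natCast, one_div, inv_pow]
  rw [e1, e1, ← Real.rpow_add h2, ← Real.rpow_add h2, ← Real.rpow_add h2,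
    Real.rpow_le_rpow_left_iff (by norm_num)] at h5
  linarith

private theorem t2_one {a b : ℝ} (ha : 1 ≤ a) (hab : a ≤ b) (l : ℕ) : a ≤ b ^ (l + 1) := by
  have h1 : 1 ≤ b := ha.trans hab
  have h2 : 1 ≤ b ^ l := one_le_pow₀ h1
  rw [pow_succ]
  nlinarith

private theorem t2_claim (D : Ds) {K lam z A C1 c4 Kb : ℝ} {J0 J1 T : ℕ}
    (hA : 1 ≤ A) (hl0 : 0 < lam) (hl1 : lam ≤ 1) (hz0 : 0 < z) (hz1 : z ≤ 1) (hC1 : 0 < C1)
    (hc4 : 0 < c4) (hc4' : c4 ≤ 1 / 2) (hKb : 1 ≤ Kb) (hT : ∀ c ∈ D.Cr, D.τ c ≤ T)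
    (hsn : ∀ c ∈ D.Cr, ∀ j : ℕ, J0 < j → j ≤ J1 → (sn D K c j : ℝ) ≤ C1 * (J1 : ℝ))
    (hKn : ∀ c ∈ D.Cr, ∀ j : ℕ, J0 < j → j ≤ J1 → Kn K (sn D K c j) ≤ Kb)
    (htrk : ∀ c ∈ D.Cr, ∀ j : ℕ, J0 < j → j ≤ J1 → ∀ w ∈ An D c j,
      (∀ i ≤ sn D K c j, D.f^[i] w ∈ thickening (D.δ / 4) D.J ∧ D.q ^ i ≤ A * ‖deriv (D.f^[i]) w‖) ∧
      (∀ i < sn D K c j, D.f^[i] w ∉ D.Cr) ∧
      (∑ i ∈ Finset.range (sn D K c j), ‖deriv (D.f^[i]) w‖ / D.zt (D.f^[i] w) ≤ A * 2 ^ j) ∧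
      (z ≤ ‖D.f^[sn D K c j] w - nc D K c j‖ →
        z * 2 ^ j ≤ A * Kn K (sn D K c j) * ‖deriv (D.f^[sn D K c j]) w‖) ∧
      (‖D.f^[sn D K c j] w - nc D K c j‖ < z →
        lam * ((1 / 2) ^ j * D.DD c (sn D K c j)) ≤ ‖D.f^[sn D K c j] w - nc D K c j‖ →
        ∃ (k j' : ℕ), k = sn D K c j + D.τ (nc D K c j) ∧ D.f^[k] w ∈ An D (nc D K c j) j' ∧
          (∀ i ≤ k, D.f^[i] w ∈ thickening (D.δ / 4) D.J) ∧ (∀ i < k, D.f^[i] w ∉ D.Cr) ∧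
          (∑ i ∈ Finset.range k, ‖deriv (D.f^[i]) w‖ / D.zt (D.f^[i] w) ≤ A / lam * 2 ^ j) ∧
          (1 / 2) ^ j' * (2 : ℝ) ^ j ≤ A * Kn K (sn D K c j) * ‖deriv (D.f^[k]) w‖ ∧
          lam * ‖deriv (D.f^[k]) w‖ ≤ A * ((1 / 2) ^ j' * (2 : ℝ) ^ j) ∧
          lam ^ D.M (nc D K c j) * D.q ^ (sn D K c j) * (1 / 2) ^ j ≤
            A * (Kn K (sn D K c j)) ^ D.M (nc D K c j) * (1 / 2) ^ j' ∧
          ∀ i, sn D K c j ≤ i → i ≤ k → ‖deriv (D.f^[k]) w‖ ≤ A * ‖deriv (D.f^[i]) w‖))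
    (hjj : ∀ c ∈ D.Cr, ∀ j : ℕ, J0 < j → j ≤ J1 → ∀ j' : ℕ,
      lam ^ D.M (nc D K c j) * D.q ^ (sn D K c j) * (1 / 2) ^ j ≤
            A * (Kn K (sn D K c j)) ^ D.M (nc D K c j) * (1 / 2) ^ j' →
        (j' : ℝ) ≤ (1 - 2 * c4) * (j : ℝ)) (l : ℕ) :
    ∀ c ∈ D.Cr, ∀ j ≤ J1, (j : ℝ) * (1 - c4) ^ l ≤ (J0 : ℝ) → ∀ w ∈ An D c j,
      w ∈ thickening (D.δ / 4) D.J → w ∉ Bd D K lam z J0 l c →
      ∃ m : ℕ, (m : ℝ) ≤ l * (C1 * (J1 : ℝ) + T) ∧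
        (∀ n ≤ m, D.f^[n] w ∈ thickening (D.δ / 4) D.J) ∧ (∀ n < m, D.f^[n] w ∉ D.Cr) ∧
        (∑ n ∈ Finset.range m, ‖deriv (D.f^[n]) w‖ / D.zt (D.f^[n] w) ≤
          (2 * A ^ 2 / lam) ^ l * 2 ^ j) ∧
        (∀ n ≤ m, 1 ≤ (2 * A ^ 2 * Kb) ^ l * ‖deriv (D.f^[n]) w‖) ∧
        (∀ n ≤ m, D.q ^ n ≤ A * ‖deriv (D.f^[n]) w‖ ∨
          (2 : ℝ) ^ (2 * c4 * (j : ℝ)) ≤ (2 * A ^ 2 * Kb) ^ l * ‖deriv (D.f^[n]) w‖) ∧
        z * (1 / 2) ^ J0 * 2 ^ j ≤ (A * Kb) ^ l * ‖deriv (D.f^[m]) w‖ := by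
  have hA2 : A ≤ A ^ 2 := by nlinarith
  have hB : A ≤ 2 * A ^ 2 / lam := by
    rw [le_div_iff₀ hl0]
    nlinarith
  have hB' : 1 ≤ 2 * A ^ 2 / lam := hA.trans hB
  have hE : 1 ≤ 2 * A ^ 2 * Kb := by nlinarith
  have hF : 1 ≤ A * Kb := by nlinarith
  -- the trivial case
  have triv : ∀ (l : ℕ) (j : ℕ) (w : ℂ), j ≤ J0 → w ∈ thickening (D.δ / 4) D.J →
      ∃ m : ℕ, (m : ℝ) ≤ l * (C1 * (J1 : ℝ) + T) ∧
        (∀ n ≤ m, D.f^[n] w ∈ thickening (D.δ / 4) D.J) ∧ (∀ n < m, D.f^[n] w ∉ D.Cr) ∧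
        (∑ n ∈ Finset.range m, ‖deriv (D.f^[n]) w‖ / D.zt (D.f^[n] w) ≤
          (2 * A ^ 2 / lam) ^ l * 2 ^ j) ∧
        (∀ n ≤ m, 1 ≤ (2 * A ^ 2 * Kb) ^ l * ‖deriv (D.f^[n]) w‖) ∧
        (∀ n ≤ m, D.q ^ n ≤ A * ‖deriv (D.f^[n]) w‖ ∨
          (2 : ℝ) ^ (2 * c4 * (j : ℝ)) ≤ (2 * A ^ 2 * Kb) ^ l * ‖deriv (D.f^[n]) w‖) ∧
        z * (1 / 2) ^ J0 * 2 ^ j ≤ (A * Kb) ^ l * ‖deriv (D.f^[m]) w‖ := by
    intro l j w hj hw
    have hd : ‖deriv (D.f^[0]) w‖ = 1 := by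
      rw [Function.iterate_zero]
      rw [show deriv (id : ℂ → ℂ) w = 1 from deriv_id w, norm_one]
    refine ⟨0, by push_cast; positivity, ?_, ?_, ?_, ?_, ?_, ?_⟩
    · intro n hn
      obtain rfl : n = 0 := by omega
      exact hw
    · intro n hn
      omega
    · rw [Finset.sum_range_zero]
      positivity
    · intro n hn
      obtain rfl : n = 0 := by omega
      rw [hd, mul_one]
      exact one_le_pow₀ hE
    · intro n hn
      obtain rfl : n = 0 := by omega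
      left
      rw [hd, pow_zero, mul_one]
      exact hA
    · rw [hd, mul_one]
      have h1 : (1 : ℝ) ≤ (A * Kb) ^ l := one_le_pow₀ hF
      have h2 : ((1 : ℝ) / 2) ^ J0 * 2 ^ j ≤ 1 := by
        have h3 : (2 : ℝ) ^ j ≤ 2 ^ J0 := pow_le_pow_right₀ (by norm_num) hj
        have h4 : ((1 : ℝ) / 2) ^ J0 * 2 ^ J0 = 1 := by
          rw [← mul_pow]
          norm_num
        have h5 : (0 : ℝ) ≤ (1 / 2) ^ J0 := by positivity
        nlinarith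
      have h6 : (0 : ℝ) ≤ (1 / 2) ^ J0 * 2 ^ j := by positivity
      rw [mul_assoc]
      nlinarith
  induction l with
  | zero =>
    intro c hc j hj hjl w hw hwt hwB
    rw [pow_zero, mul_one] at hjl
    exact triv 0 j w (by exact_mod_cast hjl) hwt
  | succ l ih =>
    intro c hc j hj hjl w hw hwt hwB
    rcases le_or_gt j J0 with hj0 | hj0
    · exact triv (l + 1) j w hj0 hwt
    obtain ⟨t1, t2, t3, t4, t5⟩ := htrk c hc j hj0 hj w hw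
    have hc'm : nc D K c j ∈ D.Cr := nr_mem D _
    have hKn' := hKn c hc j hj0 hj
    have hsn' := hsn c hc j hj0 hj
    have hjj' := hjj c hc j hj0 hj
    have hwB' : ¬ (‖D.f^[sn D K c j] w - nc D K c j‖ < z ∧
      (‖D.f^[sn D K c j] w - nc D K c j‖ < lam * ((1 / 2) ^ j * D.DD c (sn D K c j)) ∨
        D.f^[D.τ (nc D K c j)] (D.f^[sn D K c j] w) ∈ Bd D K lam z J0 l (nc D K c j))) := by
      intro hcon
      exact hwB ⟨j, hj0, hw, hcon⟩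
    generalize hn0 : sn D K c j = n0 at *
    generalize hc' : nc D K c j = c' at *
    have hKn0 : Kn K n0 ≤ Kb := hKn'
    have hq1 : ∀ i : ℕ, 1 ≤ D.q ^ i := fun i => one_le_pow₀ D.hq.le
    rcases le_or_gt z ‖D.f^[n0] w - c'‖ with hzz | hzz
    · -- arrival
      refine ⟨n0, ?_, fun n hn => (t1 n hn).1, t2, ?_, ?_, ?_, ?_⟩
      · have h1 : (0 : ℝ) ≤ (l : ℝ) := Nat.cast_nonneg l
        have h2 : (0 : ℝ) ≤ (T : ℝ) := Nat.cast_nonneg T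
        have h3 : (0 : ℝ) ≤ C1 * (J1 : ℝ) := by positivity
        push_cast
        nlinarith
      · refine t3.trans (mul_le_mul_of_nonneg_right (t2_one hA hB l) (by positivity))
      · intro n hn
        have h1 := (t1 n hn).2
        have h2 : A ≤ (2 * A ^ 2 * Kb) ^ (l + 1) := t2_one hA (by nlinarith) l
        have h3 := norm_nonneg (deriv (D.f^[n]) w)
        have h4 := mul_le_mul_of_nonneg_right h2 h3
        linarith [hq1 n]
      · intro n hn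
        exact Or.inl (t1 n hn).2
      · have h1 := t4 hzz
        have h2 : A * Kn K n0 ≤ (A * Kb) ^ (l + 1) := by
          have h3 : A * Kn K n0 ≤ A * Kb := mul_le_mul_of_nonneg_left hKn0 (by linarith)
          exact h3.trans (t2_one hF le_rfl l)
        have h4 := mul_le_mul_of_nonneg_right h2 (norm_nonneg (deriv (D.f^[n0]) w))
        have h5 : z * (1 / 2) ^ J0 * 2 ^ j ≤ z * 2 ^ j := by
          have h6 : ((1 : ℝ) / 2) ^ J0 ≤ 1 := pow_le_one₀ (by norm_num) (by norm_num)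
          have h7 : z * (1 / 2) ^ J0 ≤ z := by nlinarith
          exact mul_le_mul_of_nonneg_right h7 (by positivity)
        linarith
    · -- passage
      have hlo : lam * ((1 / 2) ^ j * D.DD c n0) ≤ ‖D.f^[n0] w - c'‖ := by
        by_contra hcon
        push Not at hcon
        exact hwB' ⟨hzz, Or.inl hcon⟩
      have hnB : D.f^[D.τ c'] (D.f^[n0] w) ∉ Bd D K lam z J0 l c' := fun hcon =>
        hwB' ⟨hzz, Or.inr hcon⟩
      obtain ⟨k, j', hk, s1, s2, s3, s4, s5, s6, s7, s8⟩ := t5 hzz hlo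
      have hjb := hjj' j' s7
      have hfk : D.f^[k] w = D.f^[D.τ c'] (D.f^[n0] w) := by
        rw [hk, add_comm, Function.iterate_add_apply]
      have hj1 : (j : ℝ) ≤ (J1 : ℝ) := by exact_mod_cast hj
      have hjn : (0 : ℝ) ≤ (j : ℝ) := Nat.cast_nonneg j
      have hj'j : (j' : ℝ) ≤ (j : ℝ) := by nlinarith
      have hj'jn : j' ≤ j := by exact_mod_cast hj'j
      have hpow : (0 : ℝ) ≤ (1 - c4) ^ l := pow_nonneg (by linarith) l
      obtain ⟨m', r1, r2, r3, r4, r5, r6, r7⟩ := ih c' hc'm j' (hj'jn.trans hj) (by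
        rw [pow_succ] at hjl
        have h1 : (j' : ℝ) ≤ (1 - c4) * (j : ℝ) := by nlinarith
        have h2 := mul_le_mul_of_nonneg_right h1 hpow
        nlinarith) (D.f^[k] w) s1 (s2 k le_rfl) (by rw [hfk]; exact hnB)
      obtain ⟨Λ, hΛ⟩ : ∃ Λ, Λ = ‖deriv (D.f^[k]) w‖ := ⟨_, rfl⟩
      rw [← hΛ] at s5 s6 s8
      have hG : ∀ i ≤ k + m', D.f^[i] w ∈ D.G := by
        intro i hi
        have h1 : ∀ y, y ∈ thickening (D.δ / 4) D.J → y ∈ D.G := fun y hy =>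
          D.hU (thickening_mono (by linarith [D.hδ]) _ hy)
        rcases le_or_gt i k with h2 | h2
        · exact h1 _ (s2 i h2)
        · obtain ⟨i', rfl⟩ : ∃ i', i = i' + k := ⟨i - k, by omega⟩
          rw [Function.iterate_add_apply]
          exact h1 _ (r2 i' (by omega))
      have hder : ∀ i ≤ m', ‖deriv (D.f^[k + i]) w‖ = ‖deriv (D.f^[i]) (D.f^[k] w)‖ * Λ := by
        intro i hi
        rw [it_add D (fun l hl => hG l (by omega)), norm_mul, hΛ]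
      have hit : ∀ i, D.f^[k + i] w = D.f^[i] (D.f^[k] w) := by
        intro i
        rw [add_comm, Function.iterate_add_apply]
      have hΛ0 : 0 ≤ Λ := by
        rw [hΛ]
        exact norm_nonneg _
      -- the power of two
      have hjj2 : (1 : ℝ) ≤ (1 / 2) ^ j' * (2 : ℝ) ^ j := by
        have h3 : (2 : ℝ) ^ j' ≤ 2 ^ j := pow_le_pow_right₀ (by norm_num) hj'jn
        have h4 : ((1 : ℝ) / 2) ^ j' * 2 ^ j' = 1 := by
          rw [← mul_pow]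
          norm_num
        have h5 : (0 : ℝ) < (1 / 2) ^ j' := by positivity
        nlinarith
      have hjj3 : (2 : ℝ) ^ (2 * c4 * (j : ℝ)) ≤ (1 / 2) ^ j' * (2 : ℝ) ^ j := by
        have e1 : ((1 : ℝ) / 2) ^ j' * (2 : ℝ) ^ j = (2 : ℝ) ^ (-(j' : ℝ) + (j : ℝ)) := by
          rw [Real.rpow_add (by norm_num), Real.rpow_neg (by norm_num), Real.rpow_natCast,
            Real.rpow_natCast, one_div, inv_pow]
        rw [e1]
        apply Real.rpow_le_rpow_of_exponent_le (by norm_num)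
        linarith
      have hAKΛ : (1 / 2) ^ j' * (2 : ℝ) ^ j ≤ A * Kb * Λ := by
        refine s5.trans (mul_le_mul_of_nonneg_right ?_ hΛ0)
        exact mul_le_mul_of_nonneg_left hKn0 (by linarith)
      have hEl : (1 : ℝ) ≤ (2 * A ^ 2 * Kb) ^ l := one_le_pow₀ hE
      have hEl0 : (0 : ℝ) ≤ (2 * A ^ 2 * Kb) ^ l := by linarith
      have hmid : ∀ n, n0 ≤ n → n ≤ k → (1 / 2) ^ j' * (2 : ℝ) ^ j ≤
          (2 * A ^ 2 * Kb) ^ (l + 1) * ‖deriv (D.f^[n]) w‖ := by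
        intro n hn1 hn2
        have h1 := s8 n hn1 hn2
        have h3 : A * Kb * Λ ≤ A * Kb * (A * ‖deriv (D.f^[n]) w‖) :=
          mul_le_mul_of_nonneg_left h1 (by positivity)
        have h4 : A * Kb * A ≤ (2 * A ^ 2 * Kb) ^ (l + 1) :=
          t2_one (by nlinarith) (by nlinarith) l
        have h5 := mul_le_mul_of_nonneg_right h4 (norm_nonneg (deriv (D.f^[n]) w))
        nlinarith
      have hend : ∀ i ≤ m', (1 / 2) ^ j' * (2 : ℝ) ^ j ≤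
          (2 * A ^ 2 * Kb) ^ (l + 1) * ‖deriv (D.f^[k + i]) w‖ := by
        intro i hi
        rw [hder i hi]
        have h1 := r5 i hi
        obtain ⟨x, hx⟩ : ∃ x, x = ‖deriv (D.f^[i]) (D.f^[k] w)‖ := ⟨_, rfl⟩
        rw [← hx] at h1 ⊢
        have hx0 : 0 ≤ x := by
          rw [hx]
          exact norm_nonneg _
        have h2 : (2 * A ^ 2 * Kb) ^ (l + 1) * (x * Λ) =
            ((2 * A ^ 2 * Kb) ^ l * x) * (2 * A ^ 2 * Kb * Λ) := by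
          rw [pow_succ]
          ring
        rw [h2]
        have h3 : A * Kb * Λ ≤ 2 * A ^ 2 * Kb * Λ := by
          apply mul_le_mul_of_nonneg_right _ hΛ0
          nlinarith
        have h4 : (0 : ℝ) ≤ 2 * A ^ 2 * Kb * Λ := by positivity
        nlinarith
      refine ⟨k + m', ?_, ?_, ?_, ?_, ?_, ?_, ?_⟩
      · have h1 : (D.τ c' : ℝ) ≤ (T : ℝ) := by exact_mod_cast hT c' hc'm
        rw [hk]
        push_cast
        nlinarith
      · intro n hn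
        rcases le_or_gt n k with h2 | h2
        · exact s2 n h2
        · obtain ⟨i', rfl⟩ : ∃ i', n = k + i' := ⟨n - k, by omega⟩
          rw [hit]
          exact r2 i' (by omega)
      · intro n hn
        rcases lt_or_ge n k with h2 | h2
        · exact s3 n h2
        · obtain ⟨i', rfl⟩ : ∃ i', n = k + i' := ⟨n - k, by omega⟩
          rw [hit]
          exact r3 i' (by omega)
      · rw [Finset.sum_range_add]
        have h1 : ∑ x ∈ Finset.range m', ‖deriv (D.f^[k + x]) w‖ / D.zt (D.f^[k + x] w) =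
            Λ * ∑ x ∈ Finset.range m', ‖deriv (D.f^[x]) (D.f^[k] w)‖ /
              D.zt (D.f^[x] (D.f^[k] w)) := by
          rw [Finset.mul_sum]
          apply Finset.sum_congr rfl
          intro i hi
          rw [hder i (Finset.mem_range.mp hi).le, hit]
          ring
        rw [h1]
        have h2 : Λ ≤ A / lam * ((1 / 2) ^ j' * (2 : ℝ) ^ j) := by
          rw [div_mul_eq_mul_div, le_div_iff₀ hl0]
          linarith
        have h3 := mul_le_mul_of_nonneg_left r4 hΛ0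
        have hBl : (1 : ℝ) ≤ (2 * A ^ 2 / lam) ^ l := one_le_pow₀ hB'
        have h4 : Λ * ((2 * A ^ 2 / lam) ^ l * 2 ^ j') ≤
            A / lam * 2 ^ j * (2 * A ^ 2 / lam) ^ l := by
          have h5 := mul_le_mul_of_nonneg_right h2
            (by positivity : (0 : ℝ) ≤ (2 * A ^ 2 / lam) ^ l * 2 ^ j')
          refine h5.trans (le_of_eq ?_)
          have h6 : ((1 : ℝ) / 2) ^ j' * 2 ^ j' = 1 := by
            rw [← mul_pow]
            norm_num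
          calc A / lam * ((1 / 2) ^ j' * (2 : ℝ) ^ j) * ((2 * A ^ 2 / lam) ^ l * 2 ^ j')
              = A / lam * 2 ^ j * (2 * A ^ 2 / lam) ^ l * (((1 : ℝ) / 2) ^ j' * 2 ^ j') := by ring
            _ = _ := by rw [h6, mul_one]
        have h7 : A / lam * 2 ^ j ≤ A / lam * 2 ^ j * (2 * A ^ 2 / lam) ^ l := by
          have : (0 : ℝ) ≤ A / lam * 2 ^ j := by positivity
          nlinarith
        have h8 : 2 * (A / lam * 2 ^ j * (2 * A ^ 2 / lam) ^ l) ≤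
            (2 * A ^ 2 / lam) ^ (l + 1) * 2 ^ j := by
          have h9 : 2 * A / lam ≤ 2 * A ^ 2 / lam := by
            apply div_le_div_of_nonneg_right _ hl0.le
            linarith
          have h10 : (0 : ℝ) ≤ 2 ^ j * (2 * A ^ 2 / lam) ^ l := by positivity
          have h11 := mul_le_mul_of_nonneg_right h9 h10
          calc 2 * (A / lam * 2 ^ j * (2 * A ^ 2 / lam) ^ l)
              = 2 * A / lam * (2 ^ j * (2 * A ^ 2 / lam) ^ l) := by ring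
            _ ≤ 2 * A ^ 2 / lam * (2 ^ j * (2 * A ^ 2 / lam) ^ l) := h11
            _ = _ := by rw [pow_succ]; ring
        linarith
      · intro n hn
        rcases le_or_gt n n0 with h1 | h1
        · have h2 := (t1 n h1).2
          have h3 : A ≤ (2 * A ^ 2 * Kb) ^ (l + 1) := t2_one hA (by nlinarith) l
          have h4 := mul_le_mul_of_nonneg_right h3 (norm_nonneg (deriv (D.f^[n]) w))
          linarith [hq1 n]
        · rcases le_or_gt n k with h2 | h2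
          · exact hjj2.trans (hmid n h1.le h2)
          · obtain ⟨i', rfl⟩ : ∃ i', n = k + i' := ⟨n - k, by omega⟩
            exact hjj2.trans (hend i' (by omega))
      · intro n hn
        rcases le_or_gt n n0 with h1 | h1
        · exact Or.inl (t1 n h1).2
        · right
          rcases le_or_gt n k with h2 | h2
          · exact hjj3.trans (hmid n h1.le h2)
          · obtain ⟨i', rfl⟩ : ∃ i', n = k + i' := ⟨n - k, by omega⟩
            exact hjj3.trans (hend i' (by omega))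
      · rw [hder m' le_rfl]
        have h1 := mul_le_mul r7 hAKΛ (by positivity) (by positivity)
        have h6 : ((1 : ℝ) / 2) ^ j' * 2 ^ j' = 1 := by
          rw [← mul_pow]
          norm_num
        calc z * (1 / 2) ^ J0 * 2 ^ j
            = z * (1 / 2) ^ J0 * 2 ^ j * (((1 : ℝ) / 2) ^ j' * 2 ^ j') := by rw [h6, mul_one]
          _ = z * (1 / 2) ^ J0 * 2 ^ j' * ((1 / 2) ^ j' * (2 : ℝ) ^ j) := by ring
          _ ≤ _ := h1
          _ = _ := by rw [pow_succ]; ring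

theorem trk2 (D : Ds) : ∃ K0 z0 : ℝ, 1 ≤ K0 ∧ 0 < z0 ∧ ∀ K : ℝ, K0 ≤ K → ∀ z : ℝ, 0 < z → z ≤ z0 →
    ∃ c6 : ℝ, 0 < c6 ∧ ∀ κ ε : ℝ, 0 < κ → κ < 1 → 0 < ε → ∃ (e1 C : ℝ) (N : ℕ), 0 < e1 ∧ 1 ≤ C ∧
      ∀ e : ℝ, 0 < e → e ≤ e1 → ∃ J2 : ℕ, ∀ J1 ≥ J2, ∀ c ∈ D.Cr, ∀ w ∈ An D c J1,
        w ∉ Bd D K ((2 : ℝ) ^ (-(e * (J1 : ℝ)))) z ⌊κ / 2 * (J1 : ℝ)⌋₊ N c →
          ∃ m : ℕ, Trk D w J1 C κ ε c6 m := by
  obtain ⟨K0, z0, hK0, hz0, hz0r, hmain⟩ := trk1 D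
  refine ⟨K0, z0, hK0, hz0, fun K hK z hz hzz => ?_⟩
  obtain ⟨A, J, hA, htrk⟩ := hmain K hK
  have hK1 : 1 ≤ K := hK0.trans hK
  obtain ⟨J', c1, C1, hc1, hC1, hsn⟩ := sn_spec D hK1
  have hlq : 0 < Real.log D.q := Real.log_pos D.hq
  have hl2 : 0 < Real.log 2 := Real.log_pos (by norm_num)
  obtain ⟨c4, hc4e⟩ : ∃ c4, c4 = min (1 / 2) (c1 * Real.log D.q / (4 * Real.log 2)) := ⟨_, rfl⟩
  have hc4 : 0 < c4 := by
    rw [hc4e]
    exact lt_min (by norm_num) (by positivity)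
  have hc4' : c4 ≤ 1 / 2 := by
    rw [hc4e]
    exact min_le_left _ _
  have hc4q : 4 * c4 * Real.log 2 ≤ c1 * Real.log D.q := by
    have h1 : c4 ≤ c1 * Real.log D.q / (4 * Real.log 2) := by
      rw [hc4e]
      exact min_le_right _ _
    rw [le_div_iff₀ (by positivity)] at h1
    linarith
  refine ⟨c4, hc4, fun κ ε hκ hκ1 hε => ?_⟩
  obtain ⟨N, hN⟩ : ∃ N : ℕ, (1 - c4) ^ N < κ / 4 :=
    exists_pow_lt_of_lt_one (by positivity) (by linarith)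
  obtain ⟨T, hTe⟩ : ∃ T, T = ∑ c ∈ D.Cr, D.τ c := ⟨_, rfl⟩
  have hT : ∀ c ∈ D.Cr, D.τ c ≤ T := by
    intro c hc
    rw [hTe]
    exact Finset.single_le_sum (f := fun c => D.τ c) (fun _ _ => Nat.zero_le _) hc
  have hz1 : z ≤ 1 := by
    have := D.hr1
    have := D.hδ1
    linarith
  refine ⟨min (ε / (2 * ((N : ℝ) + 1))) (κ * c4 / (2 * ((D.Mx : ℝ) + 1))),
    A + N * (C1 + T) + 1, N, ?_, ?_, fun e he he1 => ?_⟩
  · exact lt_min (by positivity) (by positivity)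
  · have : 0 ≤ (N : ℝ) * (C1 + T) := by positivity
    linarith
  have heN : e * (N : ℝ) ≤ ε / 2 := by
    have h1 := he1.trans (min_le_left _ _)
    rw [le_div_iff₀ (by positivity)] at h1
    nlinarith
  have heM : e * (D.Mx : ℝ) ≤ κ * c4 / 2 := by
    have h1 := he1.trans (min_le_right _ _)
    rw [le_div_iff₀ (by positivity)] at h1
    nlinarith
  have ev1 := t2_poly (A * K ^ D.Mx) C1 (c4 * κ / 2) (2 * D.Mx) hC1.le (by positivity)
  have ev2 := t2_poly ((2 * A ^ 2) ^ N) C1 (ε / 2) 0 hC1.le (by positivity)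
  have ev3 := t2_poly ((A * K) ^ N / z) C1 (κ / 2) (2 * N) hC1.le (by positivity)
  have ev4 := t2_poly ((2 * A ^ 2 * K) ^ N) C1 c4 (2 * N) hC1.le hc4
  obtain ⟨J2, hJ2⟩ := eventually_atTop.mp (ev1.and (ev2.and (ev3.and ev4)))
  obtain ⟨J3, hJ3⟩ := exists_nat_ge (4 / κ)
  obtain ⟨J4, hJ4⟩ := exists_nat_ge (2 * ((J : ℝ) + J' + 1) / κ)
  refine ⟨max (max J2 J3) (max J4 (max J 1)), fun J1 hJ1 c hc w hw hwB => ?_⟩
  have a2 : J2 ≤ J1 := ((le_max_left _ _).trans (le_max_left _ _)).trans hJ1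
  have a3 : J3 ≤ J1 := ((le_max_right _ _).trans (le_max_left _ _)).trans hJ1
  have a4 : J4 ≤ J1 := ((le_max_left _ _).trans (le_max_right _ _)).trans hJ1
  have a5 : J ≤ J1 := ((le_max_left J 1).trans ((le_max_right _ _).trans (le_max_right _ _))).trans hJ1
  have a6 : 1 ≤ J1 := ((le_max_right J 1).trans ((le_max_right _ _).trans (le_max_right _ _))).trans hJ1
  obtain ⟨b1, b2, b3, b4⟩ := hJ2 J1 a2
  have hJ1r : (1 : ℝ) ≤ (J1 : ℝ) := by exact_mod_cast a6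
  have hJ1κ : 4 ≤ κ * (J1 : ℝ) := by
    have h1 : (J3 : ℝ) ≤ (J1 : ℝ) := by exact_mod_cast a3
    have h2 := hJ3.trans h1
    rw [div_le_iff₀ hκ] at h2
    linarith
  obtain ⟨J0, hJ0e⟩ : ∃ J0, J0 = ⌊κ / 2 * (J1 : ℝ)⌋₊ := ⟨_, rfl⟩
  rw [← hJ0e] at hwB
  have hJ0a : (J0 : ℝ) ≤ κ / 2 * (J1 : ℝ) := by
    rw [hJ0e]
    exact Nat.floor_le (by positivity)
  have hJ0b : κ / 2 * (J1 : ℝ) < (J0 : ℝ) + 1 := by
    rw [hJ0e]
    exact Nat.lt_floor_add_one _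
  have hJJ0 : (J : ℝ) + J' < (J0 : ℝ) + 1 := by
    have h1 : (J4 : ℝ) ≤ (J1 : ℝ) := by exact_mod_cast a4
    have h2 := hJ4.trans h1
    rw [div_le_iff₀ hκ] at h2
    linarith
  have hJJn : J + J' < J0 + 1 := by exact_mod_cast hJJ0
  obtain ⟨lam, hlam⟩ : ∃ lam, lam = (2 : ℝ) ^ (-(e * (J1 : ℝ))) := ⟨_, rfl⟩
  rw [← hlam] at hwB
  have hl0 : 0 < lam := by
    rw [hlam]
    positivity
  have hl1 : lam ≤ 1 := by
    rw [hlam]
    apply Real.rpow_le_one_of_one_le_of_nonpos (by norm_num)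
    have : 0 ≤ e * (J1 : ℝ) := by positivity
    linarith
  obtain ⟨Kb, hKbe⟩ : ∃ Kb, Kb = K * (C1 * (J1 : ℝ) + 1) ^ 2 := ⟨_, rfl⟩
  have hX : 1 ≤ C1 * (J1 : ℝ) + 1 := by
    have : 0 ≤ C1 * (J1 : ℝ) := by positivity
    linarith
  have hKb : 1 ≤ Kb := by
    rw [hKbe]
    have : 1 ≤ (C1 * (J1 : ℝ) + 1) ^ 2 := one_le_pow₀ hX
    nlinarith
  have hsnb : ∀ c ∈ D.Cr, ∀ j : ℕ, J0 < j → j ≤ J1 → (sn D K c j : ℝ) ≤ C1 * (J1 : ℝ) := by
    intro c hc j hj hj1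
    obtain ⟨_, _, _, h1⟩ := hsn c hc j (by omega)
    have h2 : (j : ℝ) ≤ (J1 : ℝ) := by exact_mod_cast hj1
    exact h1.trans (mul_le_mul_of_nonneg_left h2 hC1.le)
  have hKnb : ∀ c ∈ D.Cr, ∀ j : ℕ, J0 < j → j ≤ J1 → Kn K (sn D K c j) ≤ Kb := by
    intro c hc j hj hj1
    have h1 := hsnb c hc j hj hj1
    rw [hKbe]
    unfold Kn
    apply mul_le_mul_of_nonneg_left _ (by linarith)
    apply pow_le_pow_left₀ (by positivity)
    linarith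
  have hC := t2_claim D (K := K) (lam := lam) (z := z) (A := A) (C1 := C1) (c4 := c4) (Kb := Kb)
    (J0 := J0) (J1 := J1) (T := T) hA hl0 hl1 hz hz1 hC1 hc4 hc4' hKb hT hsnb hKnb
    (fun c hc j hj hj1 w hw => htrk lam z hl0 hl1 hz hzz c hc j (by omega) w hw)
    (by
      intro c hc j hj hj1 j' hle
      have hjr : κ / 2 * (J1 : ℝ) ≤ (j : ℝ) := by
        have : (J0 : ℝ) + 1 ≤ (j : ℝ) := by exact_mod_cast hj
        linarith
      obtain ⟨_, _, h1, _⟩ := hsn c hc j (by omega)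
      have hncm : nc D K c j ∈ D.Cr := nr_mem D _
      refine t2_jj (lam := lam) (A := A) (Kb := Kb) (Kx := Kn K (sn D K c j)) (q := D.q) (c4 := c4)
        (e := e) (μ := D.M (nc D K c j)) (Mx := D.Mx) (n := sn D K c j) (J1 := J1) (by linarith)
        ?_ (hKnb c hc j hj hj1) hKb ?_ he.le hlam ?_ ?_ ?_ hle
      · unfold Kn
        positivity
      · unfold Ds.Mx
        exact Finset.single_le_sum (f := fun c => D.M c) (fun _ _ => Nat.zero_le _) hncm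
      · have h2 := mul_le_mul_of_nonneg_right heM (by linarith : (0 : ℝ) ≤ (J1 : ℝ))
        have h3 := mul_le_mul_of_nonneg_left hjr hc4.le
        nlinarith
      · rw [← Real.rpow_natCast, Real.rpow_def_of_pos (by norm_num),
          Real.rpow_def_of_pos (by linarith [D.hq])]
        apply Real.exp_le_exp.mpr
        have h2 : c1 * (j : ℝ) * Real.log D.q ≤ (sn D K c j : ℝ) * Real.log D.q :=
          mul_le_mul_of_nonneg_right h1 hlq.le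
        have h3 : 4 * c4 * Real.log 2 * (j : ℝ) ≤ c1 * Real.log D.q * (j : ℝ) :=
          mul_le_mul_of_nonneg_right hc4q (Nat.cast_nonneg j)
        nlinarith
      · have h2 : A * Kb ^ D.Mx ≤ (2 : ℝ) ^ (c4 * κ / 2 * (J1 : ℝ)) := by
          rw [hKbe, mul_pow, ← pow_mul, ← mul_assoc]
          exact b1
        refine h2.trans ?_
        apply Real.rpow_le_rpow_of_exponent_le (by norm_num)
        have h3 := mul_le_mul_of_nonneg_left hjr hc4.le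
        nlinarith) N
  have hwt : w ∈ thickening (D.δ / 4) D.J := by
    have h1 := (htrk lam z hl0 hl1 hz hzz c hc J1 a5 w hw).1 0 (Nat.zero_le _)
    exact h1.1
  obtain ⟨m, r1, r2, r3, r4, r5, r6, r7⟩ := hC c hc J1 le_rfl (by
    have h1 : (J1 : ℝ) * (1 - c4) ^ N ≤ (J1 : ℝ) * (κ / 4) :=
      mul_le_mul_of_nonneg_left hN.le (by linarith)
    nlinarith) w hw hwt hwB
  have hCA : A ≤ A + N * (C1 + T) + 1 := by
    have : 0 ≤ (N : ℝ) * (C1 + T) := by positivity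
    linarith
  refine ⟨m, ?_, r2, r3, ?_, ?_, ?_⟩
  · refine r1.trans ?_
    have h1 : C1 * (J1 : ℝ) + T ≤ (C1 + T) * (J1 : ℝ) := by
      have : (T : ℝ) ≤ T * (J1 : ℝ) := by
        have h0 : (0 : ℝ) ≤ (T : ℝ) := Nat.cast_nonneg T
        nlinarith
      nlinarith
    have h2 := mul_le_mul_of_nonneg_left h1 (Nat.cast_nonneg (α := ℝ) N)
    have h3 : 0 ≤ (A + 1) * (J1 : ℝ) := by positivity
    nlinarith
  · refine r4.trans ?_
    have h1 : (2 * A ^ 2 / lam) ^ N = (2 * A ^ 2) ^ N * (2 : ℝ) ^ (e * (N : ℝ) * (J1 : ℝ)) := by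
      rw [div_pow, hlam, ← Real.rpow_natCast ((2 : ℝ) ^ _), ← Real.rpow_mul (by norm_num),
        div_eq_mul_inv, ← Real.rpow_neg (by norm_num)]
      congr 2
      ring
    rw [h1]
    rw [pow_zero, mul_one] at b2
    have h2 : (2 : ℝ) ^ (e * (N : ℝ) * (J1 : ℝ)) ≤ (2 : ℝ) ^ (ε / 2 * (J1 : ℝ)) := by
      apply Real.rpow_le_rpow_of_exponent_le (by norm_num)
      exact mul_le_mul_of_nonneg_right heN (by linarith)
    have h3 := mul_le_mul b2 h2 (by positivity) (by positivity)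
    have h4 : (2 : ℝ) ^ ((1 + ε) * (J1 : ℝ)) =
        (2 : ℝ) ^ (ε / 2 * (J1 : ℝ)) * (2 : ℝ) ^ (ε / 2 * (J1 : ℝ)) * 2 ^ J1 := by
      rw [← Real.rpow_add (by norm_num), ← Real.rpow_natCast, ← Real.rpow_add (by norm_num)]
      congr 1
      ring
    rw [h4]
    exact mul_le_mul_of_nonneg_right h3 (by positivity)
  · intro n hn
    have hn0 := norm_nonneg (deriv (D.f^[n]) w)
    have hAn := mul_le_mul_of_nonneg_right hCA hn0
    rcases r6 n hn with h1 | h1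
    · exact (min_le_left _ _).trans (h1.trans hAn)
    · refine (min_le_right _ _).trans ?_
      have h2 : (2 * A ^ 2 * Kb) ^ N ≤ (2 : ℝ) ^ (c4 * (J1 : ℝ)) := by
        refine le_trans (le_of_eq ?_) b4
        rw [hKbe]
        rw [← mul_assoc, mul_pow (2 * A ^ 2 * K), ← pow_mul]
      have h3 := mul_le_mul_of_nonneg_right h2 hn0
      have h4 : (2 : ℝ) ^ (2 * c4 * (J1 : ℝ)) =
          (2 : ℝ) ^ (c4 * (J1 : ℝ)) * (2 : ℝ) ^ (c4 * (J1 : ℝ)) := by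
        rw [← Real.rpow_add (by norm_num)]
        congr 1
        ring
      rw [h4] at h1
      have h5 : (2 : ℝ) ^ (c4 * (J1 : ℝ)) ≤ ‖deriv (D.f^[n]) w‖ := by
        have h6 : (0 : ℝ) < (2 : ℝ) ^ (c4 * (J1 : ℝ)) := by positivity
        exact le_of_mul_le_mul_left (h1.trans h3) h6
      have h7 : ‖deriv (D.f^[n]) w‖ ≤ A * ‖deriv (D.f^[n]) w‖ := by nlinarith
      linarith
  · have h1 : (A * Kb) ^ N ≤ z * (2 : ℝ) ^ (κ / 2 * (J1 : ℝ)) := by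
      have h2 : (A * Kb) ^ N = z * ((A * K) ^ N / z * (C1 * (J1 : ℝ) + 1) ^ (2 * N)) := by
        rw [hKbe, ← mul_assoc, mul_pow (A * K), ← pow_mul]
        field_simp
      rw [h2]
      exact mul_le_mul_of_nonneg_left b3 hz.le
    have h3 := mul_le_mul_of_nonneg_right h1 (norm_nonneg (deriv (D.f^[m]) w))
    have h4 : (2 : ℝ) ^ ((1 - κ / 2) * (J1 : ℝ)) ≤ (1 / 2) ^ J0 * 2 ^ J1 := by
      have e1 : ((1 : ℝ) / 2) ^ J0 * (2 : ℝ) ^ J1 = (2 : ℝ) ^ (-(J0 : ℝ) + (J1 : ℝ)) := by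
        rw [Real.rpow_add (by norm_num), Real.rpow_neg (by norm_num), Real.rpow_natCast,
          Real.rpow_natCast, one_div, inv_pow]
      rw [e1]
      apply Real.rpow_le_rpow_of_exponent_le (by norm_num)
      linarith
    have h5 : z * (2 : ℝ) ^ ((1 - κ / 2) * (J1 : ℝ)) ≤
        z * ((2 : ℝ) ^ (κ / 2 * (J1 : ℝ)) * ‖deriv (D.f^[m]) w‖) := by
      have h6 := mul_le_mul_of_nonneg_left h4 hz.le
      nlinarith
    have h7 := le_of_mul_le_mul_left h5 hz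
    have h8 : (2 : ℝ) ^ ((1 - κ / 2) * (J1 : ℝ)) =
        (2 : ℝ) ^ (κ / 2 * (J1 : ℝ)) * (2 : ℝ) ^ ((1 - κ) * (J1 : ℝ)) := by
      rw [← Real.rpow_add (by norm_num)]
      congr 1
      ring
    rw [h8] at h7
    exact le_of_mul_le_mul_left h7 (by positivity)

end Pool.Agent.H44.DN
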