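import Mathlib

/-!
# Module PUL1: preimages under nearly affine maps: measure

PROOF. `‖deriv F w - a‖ ≤ ‖a‖ / 4` on the convex open ball: `F` is injective there (mean value inequality for `F w - a w`), `‖deriv F w‖ ≥ 3/4 ‖a‖`. Let `T = ball v ρ ∩ F ⁻¹' S`. It need not be measurable a priori: it is, since `F` is continuous on the open ball and `S` is measurable. `F '' T ⊆ S`. Change of variables: `volume (F '' T) = ∫⁻ w in T, ofReal |det (fderiv ℝ F w)|` (`lintegral_abs_det_fderiv_eq_addHaar_image`), the real determinant of the multiplication by `b` on `ℂ` is `‖b‖^2`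
(`Complex.det_...`; see H79/H41/H84 for uses: search `det` with `lsmul` or `mulLeft`, e.g. a lemma of the SmoothedFatou files), `≥ (9/16) ‖a‖^2 volume T`. So `volume T ≤ (16/9) / ‖a‖^2 volume S`.
-/

set_option autoImplicit false

open Filter Topology Metric Set

namespace Pool.Agent.H44.DN

private theorem pul1_det (c : ℂ) :
    |((ContinuousLinearMap.smulRight (1 : ℂ →L[ℂ] ℂ) c).restrictScalars ℝ).det| = ‖c‖ ^ 2 := by
  have h1 : ((ContinuousLinearMap.smulRight (1 : ℂ →L[ℂ] ℂ) c).restrictScalars ℝ).det =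
      LinearMap.det (((ContinuousLinearMap.smulRight (1 : ℂ →L[ℂ] ℂ) c : ℂ →L[ℂ] ℂ) :
        ℂ →ₗ[ℂ] ℂ).restrictScalars ℝ) := rfl
  rw [h1, LinearMap.det_restrictScalars, Algebra.norm_complex_eq]
  show |Complex.normSq _| = _
  rw [Complex.normSq_eq_norm_sq, abs_of_nonneg (by positivity)]
  congr 2
  simp

open MeasureTheory in
theorem pul1 {F : ℂ → ℂ} {v a : ℂ} {ρ : ℝ} (hρ : 0 < ρ) (ha : a ≠ 0)
    (hF : DifferentiableOn ℂ F (ball v ρ)) (h : ∀ w ∈ ball v ρ, ‖deriv F w - a‖ ≤ 1 / 4 * ‖a‖)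
    {S : Set ℂ} (hS : MeasurableSet S) :
    volume (ball v ρ ∩ F ⁻¹' S) ≤ ENNReal.ofReal (2 / ‖a‖ ^ 2) * volume S := by
  have ha0 : 0 < ‖a‖ := norm_pos_iff.2 ha
  set T : Set ℂ := ball v ρ ∩ F ⁻¹' S with hT
  have hTm : MeasurableSet T := by
    have h1 : Measurable (fun w : ball v ρ => F w) :=
      (continuousOn_iff_continuous_domRestrict.1 hF.continuousOn).measurable
    have h2 := (isOpen_ball (x := v) (ε := ρ)).measurableSet.subtype_image (h1 hS)
    have h3 : (Subtype.val '' ((fun w : ball v ρ => F w) ⁻¹' S) : Set ℂ) = T := by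
      ext w
      constructor
      · rintro ⟨u, hu, rfl⟩
        exact ⟨u.2, hu⟩
      · rintro ⟨h4, h5⟩
        exact ⟨⟨w, h4⟩, h5, rfl⟩
    rw [h3] at h2
    exact h2
  have hda : ∀ w ∈ ball v ρ, HasDerivAt F (deriv F w) w := fun w hw =>
    (hF.differentiableAt (isOpen_ball.mem_nhds hw)).hasDerivAt
  have hinj : InjOn F T := by
    intro w1 hw1 w2 hw2 he
    have h1 : ∀ w ∈ ball v ρ, HasDerivWithinAt (fun u => F u - a * u) (deriv F w - a) (ball v ρ) w := by
      intro w hw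
      have h2 := (hda w hw).sub ((hasDerivAt_id w).const_mul a)
      rw [mul_one] at h2
      exact h2.hasDerivWithinAt
    have h2 := Convex.norm_image_sub_le_of_norm_hasDerivWithin_le h1 h (convex_ball v ρ) hw1.1 hw2.1
    have h3 : (F w2 - a * w2) - (F w1 - a * w1) = - (a * (w2 - w1)) := by
      rw [he]; ring
    rw [h3, norm_neg, norm_mul] at h2
    by_contra hne
    have h4 : 0 < ‖w2 - w1‖ := norm_pos_iff.2 (sub_ne_zero.2 (Ne.symm hne))
    have h5 : 0 < ‖a‖ * ‖w2 - w1‖ := mul_pos ha0 h4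
    nlinarith
  have hder : ∀ w ∈ T, HasFDerivWithinAt F
      ((ContinuousLinearMap.smulRight (1 : ℂ →L[ℂ] ℂ) (deriv F w)).restrictScalars ℝ) T w := by
    intro w hw
    exact ((hda w hw.1).hasFDerivAt.restrictScalars ℝ).hasFDerivWithinAt
  have hkey := lintegral_abs_det_fderiv_eq_addHaar_image volume hTm hder hinj
  have hlow : ENNReal.ofReal (9 / 16 * ‖a‖ ^ 2) * volume T ≤ volume (F '' T) := by
    rw [← hkey]
    calc ENNReal.ofReal (9 / 16 * ‖a‖ ^ 2) * volume T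
        = ∫⁻ _ in T, ENNReal.ofReal (9 / 16 * ‖a‖ ^ 2) := by
          rw [setLIntegral_const]
      _ ≤ ∫⁻ w in T, ENNReal.ofReal
          |((ContinuousLinearMap.smulRight (1 : ℂ →L[ℂ] ℂ) (deriv F w)).restrictScalars ℝ).det| := by
          apply setLIntegral_mono' hTm
          intro w hw
          apply ENNReal.ofReal_le_ofReal
          rw [pul1_det]
          have h1 := h w hw.1
          have h2 : ‖a‖ - ‖deriv F w‖ ≤ ‖deriv F w - a‖ := by
            rw [norm_sub_rev]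
            exact norm_sub_norm_le _ _
          have h3 : 3 / 4 * ‖a‖ ≤ ‖deriv F w‖ := by linarith
          have h4 : (3 / 4 * ‖a‖) ^ 2 ≤ ‖deriv F w‖ ^ 2 := pow_le_pow_left₀ (by positivity) h3 2
          calc 9 / 16 * ‖a‖ ^ 2 = (3 / 4 * ‖a‖) ^ 2 := by ring
            _ ≤ _ := h4
  have hsub : F '' T ⊆ S := by
    rintro _ ⟨w, hw, rfl⟩
    exact hw.2
  have h1 : volume T = ENNReal.ofReal (2 / ‖a‖ ^ 2) * (ENNReal.ofReal (1 / 2 * ‖a‖ ^ 2) * volume T) := by
    rw [← mul_assoc, ← ENNReal.ofReal_mul (by positivity)]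
    have : 2 / ‖a‖ ^ 2 * (1 / 2 * ‖a‖ ^ 2) = 1 := by
      field_simp
    rw [this, ENNReal.ofReal_one, one_mul]
  calc volume T = ENNReal.ofReal (2 / ‖a‖ ^ 2) * (ENNReal.ofReal (1 / 2 * ‖a‖ ^ 2) * volume T) := h1
    _ ≤ ENNReal.ofReal (2 / ‖a‖ ^ 2) * (ENNReal.ofReal (9 / 16 * ‖a‖ ^ 2) * volume T) := by
        have h2 : (1 : ℝ) / 2 * ‖a‖ ^ 2 ≤ 9 / 16 * ‖a‖ ^ 2 := by nlinarith [sq_nonneg ‖a‖]
        have h3 := ENNReal.ofReal_le_ofReal h2
        gcongr
    _ ≤ ENNReal.ofReal (2 / ‖a‖ ^ 2) * volume (F '' T) := by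
        gcongr
    _ ≤ ENNReal.ofReal (2 / ‖a‖ ^ 2) * volume S := by
        gcongr

end Pool.Agent.H44.DN
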