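import Mathlib

/-!
# Module VIT: a covering lemma

PROOF. Choose `ρ x` for `x ∈ S`. Vitali (`Vitali.exists_disjoint_subfamily_covering_enlargement_closedBall`, radii bounded by `R`; or the `τ = 3`/`5` version) for the closed balls `closedBall x (ρ x / 8)`: a subfamily `u ⊆ S` of pairwise disjoint balls such that every `x ∈ S` is in some `closedBall y (5 * (ρ y / 8)) ⊆ ball y (3/4 ρ y)`. `u` is countable (disjoint sets with nonempty interior: `Set.PairwiseDisjoint.countable_of_isOpen` for the open balls).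
`volume (S ∩ B) ≤ ∑_y volume (ball y (3/4 ρ y) ∩ B) ≤ ∑_y ofReal (ϑ (ρ y)^2)`, and `∑_y volume (ball y (ρ y / 8)) = ∑_y ofReal (π (ρ y)^2 / 64) ≤ volume (ball 0 (2 R)) = ofReal (4 π R^2)`, since the balls are disjoint and contained in `ball 0 (2 R)`. So `∑_y ofReal ((ρ y)^2) ≤ ofReal (256 R^2)`.
-/

set_option autoImplicit false

open Filter Topology Metric Set

namespace Pool.Agent.H44.DN

open MeasureTheory in
theorem vit {S B : Set ℂ} {R ϑ : ℝ} (hR : 0 < R) (hϑ : 0 ≤ ϑ) (hS : S ⊆ ball 0 R)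
    (h : ∀ x ∈ S, ∃ ρ : ℝ, 0 < ρ ∧ ρ ≤ R ∧
      volume (ball x (3 / 4 * ρ) ∩ B) ≤ ENNReal.ofReal (ϑ * ρ ^ 2)) :
    volume (S ∩ B) ≤ ENNReal.ofReal (256 * ϑ * R ^ 2) := by
  classical
  choose! ρ hρ0 hρR hρv using h
  obtain ⟨u, huS, hdis, hcov⟩ :=
    Vitali.exists_disjoint_subfamily_covering_enlargement_closedBall S (fun x => x)
      (fun x => ρ x / 8) R (fun a ha => by
        have h1 := hρR a ha
        have h2 := hρ0 a ha
        linarith) 5 (by norm_num)
  have hvol : ∀ (x : ℂ) (r : ℝ), 0 ≤ r → volume (ball x r) = ENNReal.ofReal (r ^ 2 * Real.pi) := by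
    intro x r hr
    rw [Complex.volume_ball, ENNReal.ofReal_mul (by positivity), ENNReal.ofReal_pow hr]
    congr 1
    exact (ENNReal.ofReal_coe_nnreal (p := NNReal.pi)).symm
  have hd2 : u.PairwiseDisjoint (fun x => ball x (ρ x / 8)) :=
    hdis.mono fun x => ball_subset_closedBall
  have hucount : u.Countable := by
    refine hd2.countable_of_isOpen (fun x _ => isOpen_ball) (fun x hx => ?_)
    exact nonempty_ball.2 (by
      have := hρ0 x (huS hx)
      positivity)
  have hsub : S ∩ B ⊆ ⋃ y ∈ u, (ball y (3 / 4 * ρ y) ∩ B) := by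
    rintro x ⟨hx, hxB⟩
    obtain ⟨b, hb, hbs⟩ := hcov x hx
    refine mem_iUnion₂.2 ⟨b, hb, ?_, hxB⟩
    have h1 := hbs (mem_closedBall_self (by
      have := hρ0 x hx
      positivity))
    rw [mem_closedBall] at h1
    rw [mem_ball]
    have := hρ0 b (huS hb)
    linarith
  have hsum : ∑' y : u, ENNReal.ofReal (ρ y ^ 2) ≤ ENNReal.ofReal (256 * R ^ 2) := by
    have h1 : volume (⋃ y ∈ u, ball y (ρ y / 8)) = ∑' y : u, volume (ball (y : ℂ) (ρ y / 8)) :=
      measure_biUnion hucount hd2 (fun _ _ => measurableSet_ball)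
    have h2 : (⋃ y ∈ u, ball y (ρ y / 8)) ⊆ ball 0 (2 * R) := by
      intro z hz
      obtain ⟨y, hy, hzy⟩ := mem_iUnion₂.1 hz
      have h3 := hS (huS hy)
      have h4 := hρR y (huS hy)
      have h5 := hρ0 y (huS hy)
      rw [mem_ball_zero_iff] at h3 ⊢
      rw [mem_ball, dist_eq_norm] at hzy
      calc ‖z‖ = ‖(z - y) + y‖ := by rw [sub_add_cancel]
        _ ≤ ‖z - y‖ + ‖y‖ := norm_add_le _ _
        _ < 2 * R := by linarith
    have h3 : ∀ y : u, ENNReal.ofReal (ρ y ^ 2) =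
        ENNReal.ofReal (64 / Real.pi) * volume (ball (y : ℂ) (ρ y / 8)) := by
      intro y
      have h5 := hρ0 y (huS y.2)
      rw [hvol _ _ (by positivity), ← ENNReal.ofReal_mul (by positivity)]
      congr 1
      field_simp
      ring
    calc ∑' y : u, ENNReal.ofReal (ρ y ^ 2) =
        ∑' y : u, ENNReal.ofReal (64 / Real.pi) * volume (ball (y : ℂ) (ρ y / 8)) :=
          tsum_congr h3
      _ = ENNReal.ofReal (64 / Real.pi) * volume (⋃ y ∈ u, ball y (ρ y / 8)) := by
          rw [ENNReal.tsum_mul_left, h1]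
      _ ≤ ENNReal.ofReal (64 / Real.pi) * volume (ball (0 : ℂ) (2 * R)) :=
          mul_le_mul_right (measure_mono h2) _
      _ = ENNReal.ofReal (256 * R ^ 2) := by
          rw [hvol _ _ (by positivity), ← ENNReal.ofReal_mul (by positivity)]
          congr 1
          field_simp
          ring
  calc volume (S ∩ B) ≤ volume (⋃ y ∈ u, (ball y (3 / 4 * ρ y) ∩ B)) := measure_mono hsub
    _ ≤ ∑' y : u, volume (ball (y : ℂ) (3 / 4 * ρ y) ∩ B) := measure_biUnion_le _ hucount _
    _ ≤ ∑' y : u, ENNReal.ofReal ϑ * ENNReal.ofReal (ρ y ^ 2) := by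
        refine ENNReal.tsum_le_tsum fun y => ?_
        rw [← ENNReal.ofReal_mul hϑ]
        exact hρv y (huS y.2)
    _ = ENNReal.ofReal ϑ * ∑' y : u, ENNReal.ofReal (ρ y ^ 2) := ENNReal.tsum_mul_left
    _ ≤ ENNReal.ofReal ϑ * ENNReal.ofReal (256 * R ^ 2) := mul_le_mul_right hsum _
    _ = ENNReal.ofReal (256 * ϑ * R ^ 2) := by
        rw [← ENNReal.ofReal_mul hϑ]
        congr 1
        ring

end Pool.Agent.H44.DN
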