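import Pool.Agent.H44.DN.GOOD1
import Pool.Agent.H44.DN.PHU
import Pool.Agent.H44.DN.VIT
import Pool.Agent.H44.DN.PHS

/-!
# Module ANN: families: most parameters in an annulus are good

PROOF. `c6` from `phase`, `κ, ε` from `good1`, `C` from `phase` for `κ, ε`, `C'` from `phu`. Given `ϑ`: `η = ϑ / (2 C')`, `ϑ1 = ϑ / 2048`; `J2` the maximum of those of `phase` (for `η`) and `good1` (for `C, ϑ1`). The set is contained in `{u | ww u ∈ S0} ∪ (S ∩ {¬ P})` with `S0 = {w ∈ An | ¬ ∃ m, Trk D w J1 C κ ε c6 m}` and `S = {u | ww u ∈ An, ∃ m, Trk ..} ⊆ ball 0 (2 R)` (`‖T‖ ‖u‖ ^ M ≤ (1/2)^J1 = ‖T‖ R ^ M`, so `‖u‖ ≤ R`). `phu`: `≤ ofReal (C' η R^2) = ofReal (ϑ R^2 / 2)`; `vit` with `2 R`: `≤ ofReal (256 ϑ1 (2R)^2) = ofReal (ϑ R^2 / 2)`.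
-/

set_option autoImplicit false

open Filter Topology Metric Set

namespace Pool.Agent.H44.DN

open MeasureTheory in
theorem ann (D : Ds) (hnull : volume D.J = 0) (X : Fam D) {ϑ : ℝ} (hϑ : 0 < ϑ) : ∃ J2 : ℕ,
    ∀ J1 ≥ J2, ∀ R : ℝ, 0 < R → ‖X.T‖ * R ^ X.M = (1 / 2) ^ J1 →
      volume {u : ℂ | X.ww u ∈ An D X.c J1 ∧ ¬ X.P u} ≤ ENNReal.ofReal (ϑ * R ^ 2) := by
  obtain ⟨c6, hc6, hph⟩ := phase D
  obtain ⟨κ, ε, hκ, hκ1, hε, hg⟩ := good1 D hnull X hc6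
  obtain ⟨C, hC, hph2⟩ := hph κ ε hκ hκ1 hε
  obtain ⟨C', hC', hphu⟩ := phu D X
  have hC0 : (0 : ℝ) < C' := by linarith
  obtain ⟨Ja, hJa⟩ := hph2 (ϑ / (2 * C')) (by positivity)
  obtain ⟨Jb, hJb⟩ := hg C (ϑ / 2048) (by positivity)
  refine ⟨max Ja Jb, fun J1 hJ1 R hR hTR => ?_⟩
  have hJ1a : Ja ≤ J1 := (le_max_left _ _).trans hJ1
  have hJ1b : Jb ≤ J1 := (le_max_right _ _).trans hJ1
  have hTpos : 0 < ‖X.T‖ := norm_pos_iff.2 X.hT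
  let S0 : Set ℂ := {w : ℂ | w ∈ An D X.c J1 ∧ ¬ ∃ m : ℕ, Trk D w J1 C κ ε c6 m}
  let S : Set ℂ := {u : ℂ | X.ww u ∈ An D X.c J1 ∧ ∃ m : ℕ, Trk D (X.ww u) J1 C κ ε c6 m}
  have hsub : {u : ℂ | X.ww u ∈ An D X.c J1 ∧ ¬ X.P u} ⊆
      {u : ℂ | X.ww u ∈ S0} ∪ (S ∩ {u | ¬ X.P u}) := by
    rintro u ⟨h1, h2⟩
    by_cases h3 : ∃ m : ℕ, Trk D (X.ww u) J1 C κ ε c6 m
    · exact Or.inr ⟨⟨h1, h3⟩, h2⟩
    · exact Or.inl ⟨h1, h3⟩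
  have hS : ∀ u ∈ S, ‖u‖ ≤ R := by
    rintro u ⟨h1, -⟩
    have h2 : ‖X.ww u - D.vv X.c‖ ≤ (1 / 2) ^ J1 := h1.2
    have h3 : X.ww u - D.vv X.c = X.T * u ^ X.M := by
      rw [Fam.ww]; ring
    rw [h3, norm_mul, norm_pow, ← hTR] at h2
    have h4 : ‖u‖ ^ X.M ≤ R ^ X.M := le_of_mul_le_mul_left h2 hTpos
    have hM0 : X.M ≠ 0 := by have := X.hM; omega
    exact le_of_pow_le_pow_left₀ hM0 hR.le h4
  have hvit : volume (S ∩ {u | ¬ X.P u}) ≤ ENNReal.ofReal (256 * (ϑ / 2048) * (2 * R) ^ 2) := by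
    refine vit (by positivity) (by positivity) ?_ ?_
    · intro u hu
      rw [mem_ball_zero_iff]
      have := hS u hu
      linarith
    · intro u hu
      obtain ⟨m, hm⟩ := hu.2
      obtain ⟨ρ, h1, h2, h3⟩ := hJb J1 hJ1b u m hu.1 hm
      refine ⟨ρ, h1, ?_, h3⟩
      have := hS u hu
      linarith
  have hp := hphu J1 R hR hTR S0 (ϑ / (2 * C')) (by positivity) (fun w hw => hw.1)
    (hJa J1 hJ1a X.c X.hc)
  refine (measure_mono hsub).trans ((measure_union_le _ _).trans ((add_le_add hp hvit).trans ?_))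
  rw [← ENNReal.ofReal_add (by positivity) (by positivity)]
  refine ENNReal.ofReal_le_ofReal (le_of_eq ?_)
  field_simp
  ring

end Pool.Agent.H44.DN
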