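import Pool.Agent.H44.DN.MDefs

/-!
# Module ATB: attracted points: open and completely invariant

PROOFS. `Att f x`: `z, n`, `IsSink f z n` with the neighbourhood `U`, `f^[n k] x → z`. (1) OPEN: `f^[n k] x ∈ interior U` for some `k`; the set `{y | f^[n k] y ∈ interior U}` is an open neighbourhood of `x`, and for such `y`: `f^[n (k + l)] y = f^[n l] (f^[n k] y) → z` as `l → ∞`, hence `f^[n k] y → z`.
(2) `Att f x → Att f (f x)`: the sink `f z`: `f^[n] (f z) = f z`; for `w` near `f z`: `f^[n-1] w` is near `f^[n-1] (f z) = z`, hence in `U`, `f^[n k] (f^[n-1] w) → z`, apply `f`: `f^[n (k+1)] w → f z`. (3) `Att f (f x) → Att f x`: the sink `f^[n-1] z` (by (2) iterated: `IsSink f z n → IsSink f (f z) n`) and `f^[n (k+1)] x = f^[n-1] (f^[n k] (f x)) → f^[n-1] z`. `Rf v0` is continuous: `rat_continuous`.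
(4) `jj_cpt`: closed: the complement is the preimage of the open set of (1) under the embedding of the plane. Bounded: `∞` is attracted, so a neighbourhood of `∞` is, and its complement is bounded (`OnePoint` neighbourhoods of `∞` are complements of compact sets). (5) `jj_step`: if `ev v0.2 z = 0` then `Rf v0 z = ∞` (`rat_coe`, `pt`; coprime) is attracted, so `z` is by (3). Otherwise `Rf v0 z = it v0 1 z` (`rat_coe_of_ne`).
-/

set_option autoImplicit false

open Filter Topology Polynomial Metric Set MeasureTheory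

namespace Pool.Agent.H44.DN

open Pool.Agent.H44.Fatou Pool.Agent.H32.BT Pool.Agent.H79.Eul Pool.Agent.H79.Par Pool.Agent.H91.CE

theorem att_isOpen {f : OnePoint ℂ → OnePoint ℂ} (hf : Continuous f) : IsOpen {x | Att f x} := by
  exact Pool.Agent.H32.BT.att_open hf

theorem sink_step {f : OnePoint ℂ → OnePoint ℂ} (hf : Continuous f) {z : OnePoint ℂ} {n : ℕ}
    (h : IsSink f z n) : IsSink f (f z) n := by
  exact Pool.Agent.H32.BT.isSink_map hf h

theorem att_step {f : OnePoint ℂ → OnePoint ℂ} (hf : Continuous f) (x : OnePoint ℂ) :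
    Att f (f x) ↔ Att f x := by
  exact Pool.Agent.H32.BT.att_map hf x

theorem att_iter {f : OnePoint ℂ → OnePoint ℂ} (hf : Continuous f) (n : ℕ) (x : OnePoint ℂ) :
    Att f (f^[n] x) ↔ Att f x := by
  exact Pool.Agent.H32.BT.att_iter hf x n

theorem jj_cpt {d : ℕ} {v0 : E d} (hcop : IsCoprime (pol v0.1) (pol v0.2))
    (hinf : Att (Rf v0) OnePoint.infty) : IsCompact (JJ v0) := by
  have h1 : IsOpen {x | Att (Rf v0) x} := att_isOpen (rat_continuous hcop)
  exact ((OnePoint.isOpen_iff_of_mem hinf).1 h1).2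

theorem jj_step {d : ℕ} {v0 : E d} (hcop : IsCoprime (pol v0.1) (pol v0.2))
    (hinf : Att (Rf v0) OnePoint.infty) {z : ℂ} (hz : z ∈ JJ v0) :
    ev v0.2 z ≠ 0 ∧ Rf v0 (z : OnePoint ℂ) = (it v0 1 z : OnePoint ℂ) ∧ it v0 1 z ∈ JJ v0 := by
  have hc : Continuous (Rf v0) := rat_continuous hcop
  have hz' : ¬ Att (Rf v0) (z : OnePoint ℂ) := hz
  have h0 : ev v0.2 z ≠ 0 := by
    intro h0
    apply hz'
    rw [← att_step hc]
    have h1 : Rf v0 (z : OnePoint ℂ) = OnePoint.infty := by
      show rat (pol v0.1) (pol v0.2) (z : OnePoint ℂ) = OnePoint.infty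
      rw [rat_coe, pol_eval, pol_eval]
      unfold pt
      rw [if_pos h0]
    rw [h1]
    exact hinf
  have h2 : Rf v0 (z : OnePoint ℂ) = (it v0 1 z : OnePoint ℂ) := by
    show rat (pol v0.1) (pol v0.2) (z : OnePoint ℂ) = _
    rw [rat_coe_of_ne (by rw [pol_eval]; exact h0), pol_eval, pol_eval]
    rfl
  refine ⟨h0, h2, ?_⟩
  show ¬ Att (Rf v0) (it v0 1 z : OnePoint ℂ)
  rw [← h2, att_step hc]
  exact hz'

end Pool.Agent.H44.DN
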