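import Pool.Agent.H44.DN.ATB
import Pool.Agent.H91.CE.HYPF

/-!
# Module AVD: a neighbourhood of the Julia set avoided by attracted orbits

PROOF. (1) Let `x` be attracted by the sink `z` of period `n`. For `j < n` the point `z_j = f^[j] z` is attracted (`sink_step`), so it is not in the image of `J = JJ v0`; there are a neighbourhood `V_j` of `z_j` and `δ_j > 0` such that no `y : ℂ` in `cthickening δ_j J` is in `V_j`: if `z_j = ∞` by boundedness of `cthickening 1 J` (compact: `jj_cpt`), if `z_j ∈ ℂ` take `δ_j = infDist z_j J / 3` (`J` closed; if `J` is empty everything is trivial) and the ball of the same radius.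
`f^[n k + j] x → z_j`, so for `k ≥ k_j` these points are in `V_j`. The finitely many remaining points `f^[i] x` are attracted, each has positive distance from `J` (or is `∞`). So there is `δ(x) > 0` with: no `f^[i] x` is a point `y ∈ cthickening δ(x) J`. Apply this to `x = ∞` and to the finitely many attracted zeros `c` of `wv v0` (`wv_ne`), take the minimum (and `1`).
(2) The poles are a closed set (zeros of the continuous function `ev v0.2`) disjoint from the compact `J` (`jj_step`): positive distance. The attracted zeros of `wv v0`: covered by (1) with `i = 0`.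
-/

set_option autoImplicit false

open Filter Topology Polynomial Metric Set MeasureTheory

namespace Pool.Agent.H44.DN

open Pool.Agent.H44.Fatou Pool.Agent.H32.BT Pool.Agent.H79.Eul Pool.Agent.H79.Par Pool.Agent.H91.CE

private theorem avd_ev {J : Set ℂ} (hJ : IsCompact J) {W : Set ℂ} (hW : IsOpen W) (hJW : J ⊆ W) :
    ∀ᶠ δ : ℝ in 𝓝[>] 0, cthickening δ J ⊆ W := by
  obtain ⟨δ0, hδ0, h⟩ := hJ.exists_cthickening_subset_open hW hJW
  filter_upwards [Ioc_mem_nhdsGT hδ0] with δ hδ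
  exact (cthickening_mono hδ.2 J).trans h

private theorem avd_one {F : OnePoint ℂ → OnePoint ℂ} (hF : Continuous F) {J : Set ℂ}
    (hJ : IsCompact J) (hJA : ∀ z ∈ J, ¬ Att F (z : OnePoint ℂ)) {x : OnePoint ℂ}
    (hx : Att F x) :
    ∀ᶠ δ : ℝ in 𝓝[>] 0, ∀ (n : ℕ) (y : ℂ), F^[n] x = (y : OnePoint ℂ) →
      y ∉ cthickening δ J := by
  have hxA := hx
  obtain ⟨z, n, hs, ht⟩ := hx
  obtain ⟨hn, hz, U, hU, hUt⟩ := id hs
  have hzA : Att F z := ⟨z, n, hs, hUt z (mem_of_mem_nhds hU)⟩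
  set K : Set (OnePoint ℂ) := ⋃ j ∈ Finset.range n,
    insert (F^[j] z) (range fun k : ℕ => F^[j + n * k] x) with hK
  have hKc : IsCompact K := by
    refine (Finset.range n).isCompact_biUnion fun j _ => ?_
    refine Filter.Tendsto.isCompact_insert_range ?_
    have h1 : (fun k : ℕ => F^[j + n * k] x) = fun k : ℕ => F^[j] (F^[n * k] x) := by
      funext k
      rw [Function.iterate_add_apply]
    rw [h1]
    exact ((hF.iterate j).tendsto z).comp ht
  have hKA : ∀ p ∈ K, Att F p := by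
    intro p hp
    simp only [hK, mem_iUnion, mem_insert_iff, mem_range] at hp
    obtain ⟨j, -, hp | ⟨k, hp⟩⟩ := hp
    · rw [hp, att_iter hF]; exact hzA
    · rw [← hp, att_iter hF]; exact hxA
  have hmem : ∀ m : ℕ, F^[m] x ∈ K := by
    intro m
    simp only [hK, mem_iUnion, mem_insert_iff, mem_range]
    refine ⟨m % n, Finset.mem_range.2 (Nat.mod_lt _ hn), Or.inr ⟨m / n, ?_⟩⟩
    rw [Nat.mod_add_div]
  have hopen : IsOpen ((fun y : ℂ => (y : OnePoint ℂ)) ⁻¹' Kᶜ) :=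
    hKc.isClosed.isOpen_compl.preimage OnePoint.continuous_coe
  have hsub : J ⊆ (fun y : ℂ => (y : OnePoint ℂ)) ⁻¹' Kᶜ := by
    intro y hy hyK
    exact hJA y hy (hKA _ hyK)
  filter_upwards [avd_ev hJ hopen hsub] with δ hδ m y hy hyJ
  have h1 := hδ hyJ
  apply h1
  change (y : OnePoint ℂ) ∈ K
  rw [← hy]
  exact hmem m

theorem avd {d : ℕ} (hd : 2 ≤ d) {v0 : E d} (hcop : IsCoprime (pol v0.1) (pol v0.2))
    (hdeg : max (pol v0.1).natDegree (pol v0.2).natDegree = d)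
    (hinf : Att (Rf v0) OnePoint.infty) : ∃ δ : ℝ, 0 < δ ∧ δ ≤ 1 ∧
      (∀ z ∈ cthickening δ (JJ v0), ev v0.2 z ≠ 0) ∧
      (∀ z ∈ cthickening δ (JJ v0), wv v0 z = 0 → z ∈ JJ v0) ∧
      ∀ x : OnePoint ℂ, (x = OnePoint.infty ∨ ∃ c : ℂ, wv v0 c = 0 ∧ c ∉ JJ v0 ∧ x = (c : OnePoint ℂ)) →
        ∀ (n : ℕ) (y : ℂ), (Rf v0)^[n] x = (y : OnePoint ℂ) → y ∉ cthickening δ (JJ v0) := by
  have hF : Continuous (Rf v0) := rat_continuous hcop
  have hJ : IsCompact (JJ v0) := jj_cpt hcop hinf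
  have hJA : ∀ z ∈ JJ v0, ¬ Att (Rf v0) (z : OnePoint ℂ) := fun z hz => hz
  have hfin := wv_ne hd hcop hdeg
  have h1 : ∀ᶠ δ : ℝ in 𝓝[>] 0, ∀ c ∈ {c : ℂ | wv v0 c = 0}, c ∉ JJ v0 →
      ∀ (n : ℕ) (y : ℂ), (Rf v0)^[n] (c : OnePoint ℂ) = (y : OnePoint ℂ) →
        y ∉ cthickening δ (JJ v0) := by
    rw [Filter.eventually_all_finite hfin]
    intro c _
    by_cases hc : c ∈ JJ v0
    · exact Filter.Eventually.of_forall fun δ h => absurd hc h
    · have hcA : Att (Rf v0) (c : OnePoint ℂ) := not_not.1 hc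
      filter_upwards [avd_one hF hJ hJA hcA] with δ hδ _
      exact hδ
  have h2 : ∀ᶠ δ : ℝ in 𝓝[>] 0, cthickening δ (JJ v0) ⊆ {z | ev v0.2 z ≠ 0} := by
    refine avd_ev hJ ?_ fun z hz => (jj_step hcop hinf hz).1
    exact isOpen_ne_fun (Pool.Agent.H35.EX.ev_differentiable v0.2).continuous continuous_const
  have h3 : ∀ᶠ δ : ℝ in 𝓝[>] 0, δ ≤ 1 := by
    filter_upwards [Ioc_mem_nhdsGT (zero_lt_one' ℝ)] with δ hδ
    exact hδ.2
  have h4 : ∀ᶠ δ : ℝ in 𝓝[>] 0, 0 < δ := self_mem_nhdsWithin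
  obtain ⟨δ, a1, a2, a3, a4, a5⟩ :=
    (h1.and (h2.and (h3.and (h4.and (avd_one hF hJ hJA hinf))))).exists
  refine ⟨δ, a4, a3, fun z hz => a2 hz, fun z hz hw => ?_, ?_⟩
  · by_contra hzJ
    exact a1 z hw hzJ 0 z rfl hz
  · rintro x (rfl | ⟨c, hc, hcJ, rfl⟩)
    · exact a5
    · exact a1 c hc hcJ

end Pool.Agent.H44.DN
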