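import Pool.Agent.H44.DN.ITER

/-!
# Module STG1: stages exist

PROOF. Fix `K ≥ 1`. `Z` from `zt_bd`, all `f^[n] (vv c) ∈ J` (`it_J`), `ee c n ≤ Z`, `ee c n > 0` (`D.hτ'`: `f^[n] (vv c) = f^[n + τ c] c ∉ Cr`). `DD c n ≤ L ^ n` (`it_bd`), `q ^ n ≤ C * DD c n` (`D.ce1`). For `t > 0`: `Kn K n * (t * DD c n) ≥ K t q ^ n / C → ∞`, so there is a least `n` with `ee c n < Kn K n * (t * DD c n)` (`Nat.find`): `Stg`.
Upper bound: for `j = n - 1` (if `n ≥ 1`): `K t q ^ j / C ≤ Kn K j (t DD c j) ≤ Z`, so `(n - 1) log q ≤ log (C Z / (K t))`.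
Hit inequality `stg_hit`: `D.ce2` gives `q ^ n ≤ C * DD * ‖f^[n] (vv c) - c'‖ ^ (M c' - 1) = C DD (ee c n) ^ (M c' - 1) ≤ C DD (Kn K n t DD) ^ (M c' - 1)`; multiply by `t`, `Kn K n ≥ 1`, `M c' ≥ 2`.
Lower bound: `c'` nearest (`zt_ex`); `t ≤ t q ^ n ≤ C (Kn K n t L ^ n) ^ (M c')`. With `N = M c' ≥ 2`: `1 ≤ C (Kn K n) ^ N L ^ (n N) t ^ (N - 1)`; taking logarithms `(N - 1) log (1/t) ≤ log C + N log (Kn K n) + n N log L`, and `log (Kn K n) ≤ log K + 2 n` (`log (n+1) ≤ n`), `N / (N - 1) ≤ 2`: `log (1/t) ≤ A + B n` with `A = log C + 2 log K`, `B = 2 (2 + log L)`, so `n ≥ log (1/t) / (2 B)` if `log (1/t) ≥ 2 A`; `t0` also such that this lower bound is `≥ 1` at `t0`, hence `1 ≤ n`.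
Size at the end: `DD c n ≤ L * DD c (n - 1)` (`it_succ`, `D.hLf`), `t DD c (n-1) ≤ ee c (n - 1) / Kn K (n - 1) ≤ Z / K`.
-/

set_option autoImplicit false

open Filter Topology Metric Set

namespace Pool.Agent.H44.DN

private theorem stg1_Kn {K : ℝ} (hK : 1 ≤ K) (n : ℕ) : K ≤ Kn K n ∧ 1 ≤ Kn K n := by
  have h1 : (1 : ℝ) ≤ ((n : ℝ) + 1) ^ 2 := one_le_pow₀ (by
    have : (0 : ℝ) ≤ n := Nat.cast_nonneg _
    linarith)
  have h2 : K ≤ Kn K n := le_mul_of_one_le_right (by linarith) h1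
  exact ⟨h2, hK.trans h2⟩

private theorem stg1_J (D : Ds) {c : ℂ} (hc : c ∈ D.Cr) (n : ℕ) : D.f^[n] (D.vv c) ∈ D.J :=
  it_J D (it_J D (D.hCr c hc) _) n

private theorem stg1_DD0 (D : Ds) (c : ℂ) (n : ℕ) : 0 ≤ D.DD c n := norm_nonneg _

theorem stg_hit (D : Ds) {K : ℝ} (hK : 1 ≤ K) {c c' : ℂ} (hc : c ∈ D.Cr) (hc' : c' ∈ D.Cr) {t : ℝ}
    (ht : 0 < t) {n : ℕ} (h : Stg D K c t n) (he : ‖D.f^[n] (D.vv c) - c'‖ = D.ee c n) :
    t * D.q ^ n ≤ D.C * (Kn K n * (t * D.DD c n)) ^ D.M c' := by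
  have h1 := D.ce2 c hc c' hc' n
  change D.q ^ n ≤ D.C * D.DD c n * ‖D.f^[n] (D.vv c) - c'‖ ^ (D.M c' - 1) at h1
  rw [he] at h1
  have hC := D.hC
  have hDD := stg1_DD0 D c n
  have hee : 0 ≤ D.ee c n := zt_nonneg D _
  set E := Kn K n * (t * D.DD c n) with hE
  have h2 : D.ee c n ^ (D.M c' - 1) ≤ E ^ (D.M c' - 1) := pow_le_pow_left₀ hee h.hit.le _
  have hE1 : t * D.DD c n ≤ E := by
    rw [hE]
    exact le_mul_of_one_le_left (by positivity) (stg1_Kn hK n).2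
  have hE0 : 0 ≤ E := le_trans (by positivity) hE1
  have hM : D.M c' = (D.M c' - 1) + 1 := by
    have := D.hm c' hc'
    have := D.hmM c' hc'
    omega
  calc t * D.q ^ n ≤ t * (D.C * D.DD c n * E ^ (D.M c' - 1)) := by
        refine mul_le_mul_of_nonneg_left (h1.trans ?_) ht.le
        exact mul_le_mul_of_nonneg_left h2 (by positivity)
    _ = D.C * E ^ (D.M c' - 1) * (t * D.DD c n) := by ring
    _ ≤ D.C * E ^ (D.M c' - 1) * E := mul_le_mul_of_nonneg_left hE1 (by positivity)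
    _ = D.C * E ^ D.M c' := by
        conv_rhs => rw [hM, pow_succ]
        ring

/-- the lower bound -/
private theorem stg1_low {C L K t : ℝ} (hC : 1 ≤ C) (hL : 1 ≤ L) (hK : 1 ≤ K) (ht : 0 < t)
    (ht1 : t < 1) {n N : ℕ} (hN : 2 ≤ N) (h : t ≤ C * (K * ((n : ℝ) + 1) ^ 2 * (t * L ^ n)) ^ N) :
    Real.log (1 / t) ≤ 2 * Real.log (C * K) + (4 + 2 * Real.log L) * n := by
  set W := K * ((n : ℝ) + 1) ^ 2 * L ^ n with hW
  have hn0 : (0 : ℝ) ≤ n := Nat.cast_nonneg _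
  have hW0 : 0 < W := by positivity
  have h1 : 1 ≤ C * W ^ N * t ^ (N - 1) := by
    have h2 : C * (K * ((n : ℝ) + 1) ^ 2 * (t * L ^ n)) ^ N = (C * W ^ N * t ^ (N - 1)) * t := by
      have h3 : K * ((n : ℝ) + 1) ^ 2 * (t * L ^ n) = W * t := by rw [hW]; ring
      have h4 : t ^ N = t ^ (N - 1) * t := by
        rw [← pow_succ]
        congr 1
        omega
      rw [h3, mul_pow, h4]
      ring
    rw [h2] at h
    by_contra hcon
    have h3 : (C * W ^ N * t ^ (N - 1)) * t < 1 * t := mul_lt_mul_of_pos_right (not_le.1 hcon) ht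
    linarith
  have h2 : 1 ≤ C ^ 2 * (W ^ 2) ^ N * t ^ N := by
    have h3 : (1 : ℝ) ≤ (C * W ^ N * t ^ (N - 1)) ^ 2 := one_le_pow₀ h1
    have h4 : (C * W ^ N * t ^ (N - 1)) ^ 2 = C ^ 2 * (W ^ 2) ^ N * t ^ ((N - 1) * 2) := by
      rw [mul_pow, mul_pow, ← pow_mul, ← pow_mul, ← pow_mul, mul_comm 2 N]
    rw [h4] at h3
    have h5 : t ^ ((N - 1) * 2) ≤ t ^ N := pow_le_pow_of_le_one ht.le ht1.le (by omega)
    exact h3.trans (mul_le_mul_of_nonneg_left h5 (by positivity))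
  have h3 : 1 ≤ (C ^ 2 * W ^ 2 * t) ^ N := by
    have h4 : C ^ 2 ≤ (C ^ 2) ^ N := le_self_pow₀ (one_le_pow₀ hC) (by omega)
    calc (1 : ℝ) ≤ C ^ 2 * (W ^ 2) ^ N * t ^ N := h2
      _ ≤ (C ^ 2) ^ N * (W ^ 2) ^ N * t ^ N := by
          apply mul_le_mul_of_nonneg_right _ (by positivity)
          exact mul_le_mul_of_nonneg_right h4 (by positivity)
      _ = (C ^ 2 * W ^ 2 * t) ^ N := by
          rw [mul_pow (C ^ 2 * W ^ 2) t N, mul_pow (C ^ 2) (W ^ 2) N]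
  have h4 : 1 ≤ C ^ 2 * W ^ 2 * t := by
    by_contra hcon
    have h5 : (C ^ 2 * W ^ 2 * t) ^ N < 1 :=
      pow_lt_one₀ (by positivity) (not_le.1 hcon) (by omega)
    linarith
  have h5 : 1 / t ≤ (C * W) ^ 2 := by
    rw [div_le_iff₀ ht, mul_pow]
    exact h4
  have h6 := Real.log_le_log (by positivity) h5
  rw [Real.log_pow] at h6
  have h7 : Real.log (C * W) = Real.log (C * K) + 2 * Real.log ((n : ℝ) + 1) + n * Real.log L := by
    have h8 : C * W = C * K * ((n : ℝ) + 1) ^ 2 * L ^ n := by rw [hW]; ring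
    rw [h8, Real.log_mul (by positivity) (by positivity), Real.log_mul (by positivity) (by positivity),
      Real.log_pow, Real.log_pow]
    norm_num
  have h8 : Real.log ((n : ℝ) + 1) ≤ n := by
    have := Real.log_le_sub_one_of_pos (by positivity : (0 : ℝ) < (n : ℝ) + 1)
    linarith
  rw [h7] at h6
  push_cast at h6
  linarith

theorem stg_ex (D : Ds) : ∃ C0 : ℝ, 1 ≤ C0 ∧ ∀ K : ℝ, 1 ≤ K → ∃ t0 c1 C1 : ℝ, 0 < t0 ∧ t0 < 1 ∧
    0 < c1 ∧ 0 < C1 ∧ ∀ c ∈ D.Cr, ∀ t : ℝ, 0 < t → t ≤ t0 → ∃ n : ℕ, Stg D K c t n ∧ 1 ≤ n ∧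
      c1 * Real.log (1 / t) ≤ n ∧ (n : ℝ) ≤ C1 * Real.log (1 / t) ∧ K * (t * D.DD c n) ≤ C0 := by
  classical
  obtain ⟨Z, hZ1, hZ⟩ := zt_bd D
  have hC := D.hC
  have hL := D.hL
  have hq := D.hq
  have hq0 : 0 < D.q := by linarith
  have hlq : 0 < Real.log D.q := Real.log_pos hq
  have hlL : 0 ≤ Real.log D.L := Real.log_nonneg hL
  refine ⟨D.L * Z, one_le_mul_of_one_le_of_one_le hL hZ1, ?_⟩
  intro K hK
  have hCK : 0 ≤ Real.log (D.C * K) := Real.log_nonneg (one_le_mul_of_one_le_of_one_le hC hK)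
  have hCZ : 0 ≤ Real.log (D.C * Z) := Real.log_nonneg (one_le_mul_of_one_le_of_one_le hC hZ1)
  set B : ℝ := 4 + 2 * Real.log D.L with hB
  have hB0 : 0 < B := by linarith
  set C1 : ℝ := 1 + (Real.log (D.C * Z) + 1) / Real.log D.q with hC1
  have hC10 : 0 < C1 := by positivity
  refine ⟨Real.exp (-(1 + 4 * Real.log (D.C * K))), 1 / (2 * B), C1, Real.exp_pos _, ?_,
    by positivity, hC10, ?_⟩
  · rw [Real.exp_lt_one_iff]
    linarith
  intro c hc t ht0 ht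
  have ht1 : t < 1 := lt_of_le_of_lt ht (by
    rw [Real.exp_lt_one_iff]
    linarith)
  have hlt : 1 + 4 * Real.log (D.C * K) ≤ Real.log (1 / t) := by
    rw [one_div, Real.log_inv]
    have h1 := Real.log_le_log ht0 ht
    rw [Real.log_exp] at h1
    linarith
  have heeZ : ∀ n, D.ee c n ≤ Z := fun n => hZ _ (J_th D (stg1_J D hc n) D.hδ)
  have hthU : ∀ (n i : ℕ), i < n → D.f^[i] (D.vv c) ∈ thickening D.δ D.J :=
    fun n i _ => J_th D (stg1_J D hc i) D.hδ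
  have hGU : ∀ (n i : ℕ), i < n → D.f^[i] (D.vv c) ∈ D.G := fun n i hi => D.hU (hthU n i hi)
  have hce : ∀ n, D.q ^ n ≤ D.C * D.DD c n := fun n => D.ce1 c hc n
  -- the stage exists
  have hex : ∃ n : ℕ, D.ee c n < Kn K n * (t * D.DD c n) := by
    have h1 : Tendsto (fun n : ℕ => D.q ^ n) atTop atTop := tendsto_pow_atTop_atTop_of_one_lt hq
    obtain ⟨n, hn⟩ := (h1.eventually_gt_atTop (D.C * Z / t)).exists
    refine ⟨n, lt_of_le_of_lt (heeZ n) ?_⟩
    have h2 : D.C * Z < D.C * (t * D.DD c n) := by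
      rw [div_lt_iff₀ ht0] at hn
      have h3 : D.q ^ n * t ≤ D.C * D.DD c n * t := mul_le_mul_of_nonneg_right (hce n) ht0.le
      linarith
    have h3 : Z < t * D.DD c n := lt_of_mul_lt_mul_left h2 (by linarith)
    exact lt_of_lt_of_le h3 (le_mul_of_one_le_left (by linarith) (stg1_Kn hK n).2)
  set n := Nat.find hex with hn
  have hstg : Stg D K c t n := ⟨fun j hj => not_lt.1 (Nat.find_min hex hj), Nat.find_spec hex⟩
  -- the lower bound
  have hlow : Real.log (1 / t) ≤ 2 * Real.log (D.C * K) + B * n := by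
    obtain ⟨c', hc', he'⟩ := zt_ex D (D.f^[n] (D.vv c))
    have h1 := stg_hit D hK hc hc' ht0 hstg he'.symm
    have h2 : D.DD c n ≤ D.L ^ n := it_bd D (hthU n)
    have h3 : t ≤ D.C * (K * ((n : ℝ) + 1) ^ 2 * (t * D.L ^ n)) ^ D.M c' := by
      have hqn : (1 : ℝ) ≤ D.q ^ n := one_le_pow₀ hq.le
      calc t ≤ t * D.q ^ n := le_mul_of_one_le_right ht0.le hqn
        _ ≤ D.C * (Kn K n * (t * D.DD c n)) ^ D.M c' := h1
        _ ≤ D.C * (K * ((n : ℝ) + 1) ^ 2 * (t * D.L ^ n)) ^ D.M c' := by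
            apply mul_le_mul_of_nonneg_left _ (by linarith)
            apply pow_le_pow_left₀
            · have := stg1_DD0 D c n
              have := (stg1_Kn hK n).2
              positivity
            · unfold Kn
              apply mul_le_mul_of_nonneg_left _ (by positivity)
              exact mul_le_mul_of_nonneg_left h2 ht0.le
    have hN : 2 ≤ D.M c' := (D.hm c' hc').trans (D.hmM c' hc')
    exact stg1_low hC hL hK ht0 ht1 hN h3
  have hlogt : 1 ≤ Real.log (1 / t) := by linarith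
  have hnlow : 1 / (2 * B) * Real.log (1 / t) ≤ n := by
    rw [one_div_mul_eq_div, div_le_iff₀ (by positivity)]
    linarith
  have hn1 : 1 ≤ n := by
    have h1 : 0 < 1 / (2 * B) * Real.log (1 / t) := by positivity
    have h2 : (0 : ℝ) < n := lt_of_lt_of_le h1 hnlow
    exact_mod_cast h2
  -- the previous time
  have hprev : Kn K (n - 1) * (t * D.DD c (n - 1)) ≤ Z :=
    (hstg.lt (n - 1) (by omega)).trans (heeZ _)
  have hDDp := stg1_DD0 D c (n - 1)
  have hprev1 : K * (t * D.DD c (n - 1)) ≤ Z :=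
    (mul_le_mul_of_nonneg_right (stg1_Kn hK (n - 1)).1 (by positivity)).trans hprev
  refine ⟨n, hstg, hn1, hnlow, ?_, ?_⟩
  · have h1 : t * D.DD c (n - 1) ≤ Z :=
      (le_mul_of_one_le_left (by positivity) hK).trans hprev1
    have h2 : D.q ^ (n - 1) ≤ D.C * Z * (1 / t) := by
      refine (hce (n - 1)).trans ?_
      rw [mul_one_div, le_div_iff₀ ht0]
      calc D.C * D.DD c (n - 1) * t = D.C * (t * D.DD c (n - 1)) := by ring
        _ ≤ D.C * Z := mul_le_mul_of_nonneg_left h1 (by linarith)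
    have h3 := Real.log_le_log (pow_pos hq0 _) h2
    rw [Real.log_pow, Real.log_mul (by positivity) (by positivity)] at h3
    have h4 : ((n - 1 : ℕ) : ℝ) = (n : ℝ) - 1 := by
      rw [Nat.cast_sub hn1, Nat.cast_one]
    rw [h4] at h3
    have h5 : (n : ℝ) - 1 ≤ (Real.log (D.C * Z) + Real.log (1 / t)) / Real.log D.q := by
      rw [le_div_iff₀ hlq]
      exact h3
    have h6 : (Real.log (D.C * Z) + Real.log (1 / t)) / Real.log D.q ≤
        (Real.log (D.C * Z) + 1) / Real.log D.q * Real.log (1 / t) := by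
      rw [div_mul_eq_mul_div]
      apply div_le_div_of_nonneg_right _ hlq.le
      nlinarith
    rw [hC1]
    nlinarith
  · have h1 : D.DD c n ≤ D.L * D.DD c (n - 1) := by
      have h2 := it_succ D (z := D.vv c) (n := n - 1) (fun i hi => hGU (n - 1 + 1) i hi)
      rw [Nat.sub_add_cancel hn1] at h2
      unfold Ds.DD
      rw [h2, norm_mul]
      exact mul_le_mul_of_nonneg_right (D.hLf _ (hthU n (n - 1) (by omega))) (norm_nonneg _)
    calc K * (t * D.DD c n) ≤ K * (t * (D.L * D.DD c (n - 1))) := by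
          apply mul_le_mul_of_nonneg_left _ (by linarith)
          exact mul_le_mul_of_nonneg_left h1 ht0.le
      _ = D.L * (K * (t * D.DD c (n - 1))) := by ring
      _ ≤ D.L * Z := mul_le_mul_of_nonneg_left hprev1 (by linarith)

end Pool.Agent.H44.DN
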