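import Pool.Agent.H44.DN.PBAS
import Pool.Agent.H44.DN.STG2

/-!
# Module BDM: the bad sets are measurable

PROOF. By induction on `l` (all `c ∈ Cr`). `Bd (l+1) c` is the countable union over `j > J0` of the sets of the `w ∈ An c j` with `u = f^[n] w`, `n = sn c j`: `‖u - c'‖ < z` and (`‖u - c'‖ < ..` or `f^[τ c'] u ∈ Bd l c'`), `c' = nc ..` fixed. On the open ball `ball (vv c) (2 (1/2)^j) ⊇ An c j` all `f^[i] w`, `i ≤ n`, are in `thickening (δ/4) J ⊆ G` (`stg_na` with `sn_spec`), so `f^[n]` is continuous there (`it_diff`);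
on its open subset `V = {w | ‖f^[n] w - c'‖ < z}` (`z ≤ r0`) `f^[τ c'] ∘ f^[n]` is continuous (`D.p4`, `it_diff`). For a function `F` continuous on an open `V` and a measurable `S`, `V ∩ F ⁻¹' S` is measurable (`(continuousOn_iff_continuous_restrict.1 h).measurable` and `MeasurableSet.subtype_image`, or `ContinuousOn.measurable_piecewise`). `J0` large (`J ≤ J0`).
-/

set_option autoImplicit false

open Filter Topology Metric Set

namespace Pool.Agent.H44.DN

theorem bdm_pre {F : ℂ → ℂ} {V S : Set ℂ} (hV : MeasurableSet V) (hF : ContinuousOn F V)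
    (hS : MeasurableSet S) : MeasurableSet (V ∩ F ⁻¹' S) := by
  have h1 : Measurable (V.restrict F) := (continuousOn_iff_continuous_restrict.1 hF).measurable
  have h2 : V ∩ F ⁻¹' S = Subtype.val '' ((V.restrict F) ⁻¹' S) := by
    ext w
    constructor
    · rintro ⟨h3, h4⟩
      exact ⟨⟨w, h3⟩, h4, rfl⟩
    · rintro ⟨⟨v, hv⟩, h3, rfl⟩
      exact ⟨hv, h3⟩
  rw [h2]
  exact hV.subtype_image (h1 hS)

theorem bd_meas (D : Ds) : ∃ K0 : ℝ, 1 ≤ K0 ∧ ∀ K : ℝ, K0 ≤ K → ∃ J : ℕ, ∀ (lam z : ℝ) (J0 : ℕ),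
    z ≤ D.r0 → J ≤ J0 → ∀ (l : ℕ), ∀ c ∈ D.Cr, MeasurableSet (Bd D K lam z J0 l c) := by
  obtain ⟨K0, hK0, H⟩ := stg_na D
  refine ⟨K0, hK0, fun K hK => ?_⟩
  obtain ⟨J, c1, C1, hc1, hC1, hsn⟩ := sn_spec D (hK0.trans hK)
  refine ⟨J, fun lam z J0 hz hJ l => ?_⟩
  have hδ := D.hδ
  induction l with
  | zero =>
    intro c _
    exact MeasurableSet.empty
  | succ l ih =>
    intro c hc
    have e : Bd D K lam z J0 (l + 1) c = ⋃ j : ℕ, {w | J0 < j ∧ w ∈ An D c j ∧
      ‖D.f^[sn D K c j] w - nc D K c j‖ < z ∧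
      (‖D.f^[sn D K c j] w - nc D K c j‖ < lam * ((1 / 2) ^ j * D.DD c (sn D K c j)) ∨
        D.f^[D.τ (nc D K c j)] (D.f^[sn D K c j] w) ∈ Bd D K lam z J0 l (nc D K c j))} := by
      ext w
      simp only [Bd, mem_iUnion, mem_ofPred_eq]
    rw [e]
    refine MeasurableSet.iUnion fun j => ?_
    by_cases hj : J0 < j
    · obtain ⟨n, hn⟩ : ∃ n, n = sn D K c j := ⟨_, rfl⟩
      obtain ⟨c', hc'⟩ : ∃ c', c' = nc D K c j := ⟨_, rfl⟩
      have hc'm : c' ∈ D.Cr := by
        rw [hc']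
        exact nr_mem D _
      obtain ⟨s1, s2, -, -⟩ := hsn c hc j (by omega)
      rw [← hn] at s1 s2
      rw [← hn, ← hc']
      have ht : (0 : ℝ) < (1 / 2) ^ j := by positivity
      have hna := H K hK c hc _ ht n s2 s1
      obtain ⟨V, hV⟩ : ∃ V : Set ℂ, V = ball (D.vv c) (2 * (1 / 2) ^ j) := ⟨_, rfl⟩
      have hVo : IsOpen V := by
        rw [hV]
        exact isOpen_ball
      have hF : ContinuousOn (D.f^[n]) V := by
        intro w hw
        rw [hV] at hw
        exact (it_diff D fun i hi => D.hU (thickening_mono (by linarith) _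
          (hna w hw i hi.le).1)).continuousAt.continuousWithinAt
      have hAn : ∀ w ∈ An D c j, w ∈ V := by
        intro w hw
        rw [hV, mem_ball, dist_eq_norm]
        have h1 : ‖w - D.vv c‖ ≤ (1 / 2 : ℝ) ^ j := hw.2
        linarith
      have hV1 : IsOpen (V ∩ D.f^[n] ⁻¹' ball c' z) := hF.isOpen_inter_preimage hVo isOpen_ball
      have hG : ContinuousOn (D.f^[D.τ c'] ∘ D.f^[n]) (V ∩ D.f^[n] ⁻¹' ball c' z) := by
        rintro w ⟨hw1, hw2⟩
        have hw3 : D.f^[n] w ∈ ball c' D.r0 := ball_subset_ball hz hw2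
        have h1 : ContinuousAt (D.f^[D.τ c']) (D.f^[n] w) :=
          (it_diff D fun i hi => D.hU (thickening_mono (by linarith) _
            (D.p4 c' hc'm _ hw3 i hi.le))).continuousAt
        have h2 : ContinuousAt (D.f^[n]) w := (hF w hw1).continuousAt (hVo.mem_nhds hw1)
        exact (h1.comp h2).continuousWithinAt
      have e2 : {w | J0 < j ∧ w ∈ An D c j ∧ ‖D.f^[n] w - c'‖ < z ∧
          (‖D.f^[n] w - c'‖ < lam * ((1 / 2) ^ j * D.DD c n) ∨
            D.f^[D.τ c'] (D.f^[n] w) ∈ Bd D K lam z J0 l c')} =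
          An D c j ∩ ((V ∩ D.f^[n] ⁻¹' (ball c' z ∩ ball c' (lam * ((1 / 2) ^ j * D.DD c n)))) ∪
            ((V ∩ D.f^[n] ⁻¹' ball c' z) ∩ (D.f^[D.τ c'] ∘ D.f^[n]) ⁻¹' Bd D K lam z J0 l c')) := by
        ext w
        simp only [mem_ofPred_eq, mem_inter_iff, mem_union, mem_preimage, mem_ball, dist_eq_norm,
          Function.comp_apply]
        constructor
        · rintro ⟨-, h1, h2, h3⟩
          refine ⟨h1, ?_⟩
          rcases h3 with h3 | h3
          · exact Or.inl ⟨hAn w h1, h2, h3⟩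
          · exact Or.inr ⟨⟨hAn w h1, h2⟩, h3⟩
        · rintro ⟨h1, h2⟩
          rcases h2 with ⟨-, h3, h4⟩ | ⟨⟨-, h3⟩, h4⟩
          · exact ⟨hj, h1, h3, Or.inl h4⟩
          · exact ⟨hj, h1, h3, Or.inr h4⟩
      rw [e2]
      refine (an_meas D c j).inter (MeasurableSet.union ?_ ?_)
      · exact (hF.isOpen_inter_preimage hVo (isOpen_ball.inter isOpen_ball)).measurableSet
      · exact bdm_pre hV1.measurableSet hG (ih c' hc'm)
    · have e3 : {w | J0 < j ∧ w ∈ An D c j ∧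
          ‖D.f^[sn D K c j] w - nc D K c j‖ < z ∧
          (‖D.f^[sn D K c j] w - nc D K c j‖ < lam * ((1 / 2) ^ j * D.DD c (sn D K c j)) ∨
            D.f^[D.τ (nc D K c j)] (D.f^[sn D K c j] w) ∈
              Bd D K lam z J0 l (nc D K c j))} = ∅ := by
        ext w
        simp only [mem_ofPred_eq, mem_empty_iff_false, iff_false]
        exact fun h => hj h.1
      rw [e3]
      exact MeasurableSet.empty

end Pool.Agent.H44.DN
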