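import Pool.Agent.H44.DN.BREC

/-!
# Module BMEAS: the measure of the bad points

PROOF. `K ≥ K0`, `z ≤ z0`, `A, J` (`brec`), `J', c1, C1` (`sn_spec`). Given `κ > 0` choose `e0 > 0` with `Mx * e0 * log 2 ≤ c1 κ log q / 4`, `e0 ≤ 1`. Let `0 < e ≤ e0`, `l`, `η > 0`. For `J1` large: `J0 = ⌊κ J1⌋` (`≥ J, J'`), `lam = 2^(-e J1)`. For `J0 < j ≤ J1`: `n = sn c j` is between `c1 j ≥ c1 κ J1` and `C1 J1`, so `Kn K n ≤ K (C1 J1 + 1)^2 =: Kb`, and
`A Kb ^ Mx ≤ 2^(-Mx e J1) q^(c1 κ J1 ..)`: the hypothesis of `brec` holds for large `J1` (logarithms: linear against logarithmic). By induction on `l'`: `volume (Bd .. l' c ∩ An c j) ≤ ofReal (β_l' (1/4)^j)` for `J0 < j ≤ J1`, `β_0 = 0`, `β_(l'+1) = A (lam^2 + Kb^2 β_l')`; so `β_l ≤ (2 A Kb^2)^l lam^2 → 0` as `J1 → ∞` (`lam^2 = 4^(-e J1)`).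
-/

set_option autoImplicit false

open Filter Topology Metric Set

namespace Pool.Agent.H44.DN

private theorem bm_as {P C1 a η : ℝ} (m : ℕ) (hP : 0 ≤ P) (hC1 : 0 ≤ C1) (ha : 0 < a)
    (hη : 0 < η) : ∃ N : ℕ, ∀ x : ℕ, N ≤ x → P * (C1 * x + 1) ^ m ≤ η * Real.exp (a * x) := by
  obtain ⟨Q, hQ⟩ : ∃ Q : ℝ, Q = P * (C1 + 1) ^ m := ⟨_, rfl⟩
  have hQ0 : 0 ≤ Q := by
    rw [hQ]
    positivity
  have h1 := (isLittleO_pow_exp_pos_mul_atTop m ha).def
    (by positivity : (0 : ℝ) < η / (Q + 1))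
  have h2 := tendsto_natCast_atTop_atTop (R := ℝ) |>.eventually h1
  obtain ⟨N, hN⟩ := Filter.eventually_atTop.1 (h2.and (Filter.eventually_ge_atTop 1))
  refine ⟨N, fun x hx => ?_⟩
  obtain ⟨h3, h4⟩ := hN x hx
  have hx1 : (1 : ℝ) ≤ x := by exact_mod_cast h4
  rw [Real.norm_of_nonneg (by positivity), Real.norm_of_nonneg (Real.exp_pos _).le] at h3
  have hE := Real.exp_pos (a * x)
  calc P * (C1 * x + 1) ^ m ≤ P * ((C1 + 1) * x) ^ m := by
        apply mul_le_mul_of_nonneg_left _ hP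
        apply pow_le_pow_left₀ (by positivity)
        linarith
    _ = Q * x ^ m := by
        rw [hQ, mul_pow]
        ring
    _ ≤ Q * (η / (Q + 1) * Real.exp (a * x)) := mul_le_mul_of_nonneg_left h3 hQ0
    _ = (Q / (Q + 1)) * (η * Real.exp (a * x)) := by ring
    _ ≤ 1 * (η * Real.exp (a * x)) := by
        apply mul_le_mul_of_nonneg_right _ (by positivity)
        rw [div_le_one (by linarith)]
        linarith
    _ = _ := one_mul _

private theorem bm_M (D : Ds) {c : ℂ} (hc : c ∈ D.Cr) : D.M c ≤ D.Mx :=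
  Finset.single_le_sum (f := fun c => D.M c) (fun _ _ => Nat.zero_le _) hc

open MeasureTheory in
theorem bmeas (D : Ds) : ∃ K0 z0 : ℝ, 1 ≤ K0 ∧ 0 < z0 ∧ ∀ K : ℝ, K0 ≤ K → ∀ z : ℝ, 0 < z → z ≤ z0 →
    ∀ κ : ℝ, 0 < κ → κ < 1 → ∃ e0 : ℝ, 0 < e0 ∧ ∀ e : ℝ, 0 < e → e ≤ e0 → ∀ (l : ℕ) (η : ℝ), 0 < η →
      ∃ J2 : ℕ, ∀ J1 ≥ J2, ∀ c ∈ D.Cr,
        volume (Bd D K ((2 : ℝ) ^ (-(e * (J1 : ℝ)))) z ⌊κ * (J1 : ℝ)⌋₊ l c ∩ An D c J1) ≤
          ENNReal.ofReal (η * (1 / 4) ^ J1) := by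
  obtain ⟨K0, z0, hK0, hz0, H⟩ := brec D
  refine ⟨K0, z0, hK0, hz0, fun K hK z hz hzz κ hκ hκ1 => ?_⟩
  obtain ⟨A, J, hA, HB⟩ := H K hK
  obtain ⟨J', c1, C1, hc1, hC1, hsn⟩ := sn_spec D (hK0.trans hK)
  have hKge : 1 ≤ K := hK0.trans hK
  have hlq : 0 < Real.log D.q := Real.log_pos D.hq
  have hl2 : 0 < Real.log 2 := Real.log_pos (by norm_num)
  obtain ⟨a, ha⟩ : ∃ a : ℝ, a = c1 * κ * Real.log D.q / 2 := ⟨_, rfl⟩
  have ha0 : 0 < a := by
    rw [ha]
    positivity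
  refine ⟨a / ((D.Mx + 1) * Real.log 2), by positivity, fun e he hee l η hη => ?_⟩
  have he2 : Real.log 2 * e * D.Mx ≤ a := by
    rw [le_div_iff₀ (by positivity)] at hee
    have h1 : Real.log 2 * e * D.Mx ≤ e * ((D.Mx + 1) * Real.log 2) := by
      have : 0 ≤ e * Real.log 2 := by positivity
      linarith
    linarith
  obtain ⟨N1, hN1⟩ := bm_as (P := A * K ^ D.Mx) (C1 := C1) (a := a) (η := 1) (2 * D.Mx)
    (by positivity) hC1.le ha0 one_pos
  obtain ⟨N2, hN2⟩ := bm_as (P := (2 * A * K ^ 2) ^ l) (C1 := C1) (a := 2 * e * Real.log 2)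
    (η := η) (4 * l) (by positivity) hC1.le (by positivity) hη
  obtain ⟨N3, hN3⟩ := exists_nat_ge (((J : ℝ) + J' + 1) / κ)
  refine ⟨max N1 (max N2 N3), fun J1 hJ1 => ?_⟩
  have hJN1 : N1 ≤ J1 := (le_max_left _ _).trans hJ1
  have hJN2 : N2 ≤ J1 := (le_max_left _ _).trans ((le_max_right _ _).trans hJ1)
  have hJN3 : N3 ≤ J1 := (le_max_right _ _).trans ((le_max_right _ _).trans hJ1)
  have h1 := hN1 J1 hJN1
  have h2 := hN2 J1 hJN2
  obtain ⟨x, hx⟩ : ∃ x : ℝ, x = (J1 : ℝ) := ⟨_, rfl⟩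
  have hx0 : 0 ≤ x := by
    rw [hx]
    exact Nat.cast_nonneg _
  rw [← hx] at h1 h2 ⊢
  obtain ⟨J0, hJ0⟩ : ∃ J0, J0 = ⌊κ * x⌋₊ := ⟨_, rfl⟩
  rw [← hJ0]
  have hκx : (J : ℝ) + J' + 1 ≤ κ * x := by
    rw [div_le_iff₀ hκ] at hN3
    have h3 : (N3 : ℝ) ≤ x := by
      rw [hx]
      exact_mod_cast hJN3
    have h4 := mul_le_mul_of_nonneg_right h3 hκ.le
    linarith
  have hJJ0 : J + J' ≤ J0 := by
    rw [hJ0]
    apply Nat.le_floor
    push_cast
    linarith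
  have hfl : κ * x < J0 + 1 := by
    rw [hJ0]
    exact Nat.lt_floor_add_one _
  obtain ⟨lam, hlam⟩ : ∃ lam : ℝ, lam = (2 : ℝ) ^ (-(e * x)) := ⟨_, rfl⟩
  rw [← hlam]
  have hlE : lam = Real.exp (-(Real.log 2 * e * x)) := by
    rw [hlam, Real.rpow_def_of_pos (by norm_num)]
    congr 1
    ring
  have hlam0 : 0 < lam := by
    rw [hlE]
    exact Real.exp_pos _
  have hlam1 : lam ≤ 1 := by
    rw [hlE, Real.exp_le_one_iff]
    have : 0 ≤ Real.log 2 * e * x := by positivity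
    linarith
  obtain ⟨Kb, hKb⟩ : ∃ Kb : ℝ, Kb = K * (C1 * x + 1) ^ 2 := ⟨_, rfl⟩
  have hKb1 : 1 ≤ Kb := by
    rw [hKb]
    refine one_le_mul_of_one_le_of_one_le hKge (one_le_pow₀ ?_)
    have : 0 ≤ C1 * x := by positivity
    linarith
  -- the hypothesis of `brec`
  have hkn : ∀ c ∈ D.Cr, ∀ j, J0 < j → j ≤ J1 → 1 ≤ Kn K (sn D K c j) ∧
      Kn K (sn D K c j) ≤ Kb ∧ A * (Kn K (sn D K c j)) ^ D.M (nc D K c j) ≤
        lam ^ D.M (nc D K c j) * D.q ^ (sn D K c j) := by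
    intro c hc j hj hjJ
    obtain ⟨-, -, s3, s4⟩ := hsn c hc j (by omega)
    have hM := bm_M D (nr_mem D (D.f^[sn D K c j] (D.vv c)))
    change D.M (nc D K c j) ≤ D.Mx at hM
    have hjx : (j : ℝ) ≤ x := by
      rw [hx]
      exact_mod_cast hjJ
    have hjk : κ * x ≤ j := by
      have h3 : (J0 : ℝ) + 1 ≤ j := by exact_mod_cast hj
      linarith
    obtain ⟨n, hn⟩ : ∃ n, n = sn D K c j := ⟨_, rfl⟩
    obtain ⟨μ, hμ⟩ : ∃ μ, μ = D.M (nc D K c j) := ⟨_, rfl⟩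
    rw [← hn] at s3 s4
    rw [← hμ] at hM
    rw [← hn, ← hμ]
    have hn0 : (0 : ℝ) ≤ n := Nat.cast_nonneg _
    have k1 : 1 ≤ Kn K n := by
      unfold Kn
      refine one_le_mul_of_one_le_of_one_le hKge (one_le_pow₀ (by linarith))
    have k2 : Kn K n ≤ Kb := by
      rw [hKb]
      unfold Kn
      apply mul_le_mul_of_nonneg_left _ (by linarith)
      apply pow_le_pow_left₀ (by linarith)
      have := mul_le_mul_of_nonneg_left hjx hC1.le
      linarith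
    refine ⟨k1, k2, ?_⟩
    have e1 : A * Kn K n ^ μ ≤ Real.exp (a * x) := by
      calc A * Kn K n ^ μ ≤ A * Kb ^ D.Mx := by
            apply mul_le_mul_of_nonneg_left _ (by linarith)
            exact (pow_le_pow_left₀ (by linarith) k2 _).trans (pow_le_pow_right₀ hKb1 hM)
        _ = A * K ^ D.Mx * (C1 * x + 1) ^ (2 * D.Mx) := by
            rw [hKb, mul_pow, ← pow_mul]
            ring
        _ ≤ 1 * Real.exp (a * x) := h1
        _ = _ := one_mul _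
    have e2 : Real.exp (-(a * x)) ≤ lam ^ μ := by
      calc Real.exp (-(a * x)) ≤ Real.exp (-(Real.log 2 * e * x) * D.Mx) := by
            apply Real.exp_le_exp.2
            have := mul_le_mul_of_nonneg_right he2 hx0
            linarith
        _ = lam ^ D.Mx := by
            rw [hlE, ← Real.exp_nat_mul]
            congr 1
            ring
        _ ≤ lam ^ μ := pow_le_pow_of_le_one hlam0.le hlam1 hM
    have e3 : Real.exp (2 * (a * x)) ≤ D.q ^ n := by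
      have hq0 : 0 < D.q := by linarith [D.hq]
      have h3 : D.q ^ n = Real.exp (n * Real.log D.q) := by
        rw [Real.exp_nat_mul, Real.exp_log hq0]
      rw [h3]
      apply Real.exp_le_exp.2
      rw [ha]
      have h4 : c1 * (κ * x) ≤ n := (mul_le_mul_of_nonneg_left hjk hc1.le).trans s3
      have h5 := mul_le_mul_of_nonneg_right h4 hlq.le
      linarith
    calc A * Kn K n ^ μ ≤ Real.exp (a * x) := e1
      _ = Real.exp (-(a * x)) * Real.exp (2 * (a * x)) := by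
          rw [← Real.exp_add]
          congr 1
          ring
      _ ≤ lam ^ μ * D.q ^ n := mul_le_mul e2 e3 (Real.exp_pos _).le (by positivity)
  -- induction
  have hind : ∀ l' : ℕ, ∀ c ∈ D.Cr, ∀ j, J0 < j → j ≤ J1 →
      volume (Bd D K lam z J0 l' c ∩ An D c j) ≤
        ENNReal.ofReal ((2 * A * Kb ^ 2) ^ l' * lam ^ 2 * (1 / 4) ^ j) := by
    intro l'
    induction l' with
    | zero =>
      intro c _ j _ _
      have h3 : Bd D K lam z J0 0 c = ∅ := rfl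
      rw [h3, empty_inter, measure_empty]
      exact zero_le
    | succ l' ih =>
      intro c hc j hj hjJ
      obtain ⟨k1, k2, k3⟩ := hkn c hc j hj hjJ
      have h3 := HB lam z ((2 * A * Kb ^ 2) ^ l' * lam ^ 2) J0 hlam0 hlam1 hz hzz (by omega)
        (by positivity) l' j hj (fun c' hc' j' hj' hjj' => ih c' hc' j' hj' (hjj'.trans hjJ)) c hc k3
      refine h3.trans (ENNReal.ofReal_le_ofReal ?_)
      apply mul_le_mul_of_nonneg_right _ (by positivity)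
      have hP1 : 1 ≤ (2 * A * Kb ^ 2) ^ l' := by
        refine one_le_pow₀ (one_le_mul_of_one_le_of_one_le (by linarith) (one_le_pow₀ hKb1))
      have h4 : (Kn K (sn D K c j)) ^ 2 ≤ Kb ^ 2 := pow_le_pow_left₀ (by linarith) k2 2
      have h5 : 1 ≤ Kb ^ 2 * (2 * A * Kb ^ 2) ^ l' :=
        one_le_mul_of_one_le_of_one_le (one_le_pow₀ hKb1) hP1
      have h6 : 0 ≤ lam ^ 2 := by positivity
      have h7 : lam ^ 2 ≤ Kb ^ 2 * ((2 * A * Kb ^ 2) ^ l' * lam ^ 2) := by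
        have := mul_le_mul_of_nonneg_right h5 h6
        linarith
      have h8 : (Kn K (sn D K c j)) ^ 2 * ((2 * A * Kb ^ 2) ^ l' * lam ^ 2) ≤
          Kb ^ 2 * ((2 * A * Kb ^ 2) ^ l' * lam ^ 2) :=
        mul_le_mul_of_nonneg_right h4 (by positivity)
      calc A * (lam ^ 2 + (Kn K (sn D K c j)) ^ 2 * ((2 * A * Kb ^ 2) ^ l' * lam ^ 2))
          ≤ A * (2 * (Kb ^ 2 * ((2 * A * Kb ^ 2) ^ l' * lam ^ 2))) := by
            apply mul_le_mul_of_nonneg_left _ (by linarith)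
            linarith
        _ = (2 * A * Kb ^ 2) ^ (l' + 1) * lam ^ 2 := by
            rw [pow_succ]
            ring
  intro c hc
  have hJ01 : J0 < J1 := by
    have h3 : (J0 : ℝ) ≤ κ * x := by
      rw [hJ0]
      exact Nat.floor_le (by positivity)
    have hxp : 0 < x := by
      by_contra hcon
      have h4 : x = 0 := le_antisymm (not_lt.1 hcon) hx0
      rw [h4, mul_zero] at hκx
      have : (0 : ℝ) ≤ (J : ℝ) + J' := by positivity
      linarith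
    have h5 : κ * x < x := by
      have := mul_lt_mul_of_pos_right hκ1 hxp
      linarith
    have h6 : (J0 : ℝ) < J1 := by
      rw [← hx]
      linarith
    exact_mod_cast h6
  refine (hind l c hc J1 hJ01 le_rfl).trans (ENNReal.ofReal_le_ofReal ?_)
  apply mul_le_mul_of_nonneg_right _ (by positivity)
  have h3 : lam ^ 2 = Real.exp (-(2 * e * Real.log 2 * x)) := by
    rw [hlE, ← Real.exp_nat_mul]
    congr 1
    push_cast
    ring
  rw [h3, Real.exp_neg]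
  have h4 : (2 * A * Kb ^ 2) ^ l = (2 * A * K ^ 2) ^ l * (C1 * x + 1) ^ (4 * l) := by
    rw [hKb, pow_mul (C1 * x + 1) 4 l, ← mul_pow]
    congr 1
    ring
  rw [h4, ← div_eq_mul_inv, div_le_iff₀ (Real.exp_pos _)]
  exact h2

end Pool.Agent.H44.DN
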