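import Pool.Agent.H44.DN.GDefs

/-!
# Module ITER: elementary facts on iterates and distances

PROOFS. Inductions with `Function.iterate_succ_apply'` (`f^[n+1] z = f (f^[n] z)`), the chain rule (`D.hf.differentiableAt (D.hG.mem_nhds ..)`,
`deriv_comp`, `HasDerivAt.comp`); `it_ne` from `D.hcr`; `it_bd` from `D.hLf`; `it_ev` by induction and continuity. `th_add`: `mem_thickening_iff`.
`zt_lip`: `infDist` is 1-Lipschitz. `zt_pos`: a finite set is closed (`IsClosed.notMem_iff_infDist_pos`). `zt_bd`: `J` is compact, hence bounded.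
`zt_near`: for `c' ≠ c`: `‖z - c'‖ ≥ 4 r0 - 2 r0 ≥ ‖z - c‖` (`D.hsep`). `zt_ex`: `IsCompact.exists_infDist_eq_dist` for the finite nonempty set.
-/

set_option autoImplicit false

open Filter Topology Metric Set

namespace Pool.Agent.H44.DN

theorem it_J (D : Ds) {z : ℂ} (hz : z ∈ D.J) (n : ℕ) : D.f^[n] z ∈ D.J := by
  induction n with
  | zero => exact hz
  | succ n ih =>
    rw [Function.iterate_succ_apply']
    exact D.hJf _ ih

theorem J_th (D : Ds) {z : ℂ} (hz : z ∈ D.J) {a : ℝ} (ha : 0 < a) : z ∈ thickening a D.J := by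
  exact self_subset_thickening ha D.J hz

theorem th_add {J : Set ℂ} {z w : ℂ} {a b : ℝ} (hz : z ∈ thickening a J) (h : ‖w - z‖ < b) :
    w ∈ thickening (a + b) J := by
  rw [mem_thickening_iff] at hz ⊢
  obtain ⟨x, hx, h1⟩ := hz
  refine ⟨x, hx, ?_⟩
  have h2 := dist_triangle w z x
  rw [dist_eq_norm w z] at h2
  linarith

theorem it_diff (D : Ds) {z : ℂ} {n : ℕ} (h : ∀ i < n, D.f^[i] z ∈ D.G) :
    DifferentiableAt ℂ (D.f^[n]) z := by
  induction n with
  | zero => exact differentiableAt_id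
  | succ n ih =>
    rw [Function.iterate_succ']
    exact DifferentiableAt.comp z (D.hf.differentiableAt (D.hG.mem_nhds (h n (Nat.lt_succ_self n))))
      (ih fun i hi => h i (Nat.lt_succ_of_lt hi))

theorem it_add (D : Ds) {z : ℂ} {a b : ℕ} (h : ∀ i < a + b, D.f^[i] z ∈ D.G) :
    deriv (D.f^[a + b]) z = deriv (D.f^[b]) (D.f^[a] z) * deriv (D.f^[a]) z := by
  have h1 : D.f^[a + b] = D.f^[b] ∘ D.f^[a] := by
    rw [add_comm, Function.iterate_add]
  rw [h1]
  refine deriv_comp z (it_diff D fun i hi => ?_) (it_diff D fun i hi => h i (by omega))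
  rw [← Function.iterate_add_apply]
  exact h _ (by omega)

theorem it_succ (D : Ds) {z : ℂ} {n : ℕ} (h : ∀ i < n + 1, D.f^[i] z ∈ D.G) :
    deriv (D.f^[n + 1]) z = deriv D.f (D.f^[n] z) * deriv (D.f^[n]) z := by
  rw [it_add D h]
  rfl

theorem it_ne (D : Ds) {z : ℂ} {n : ℕ}
    (h : ∀ i < n, D.f^[i] z ∈ thickening D.δ D.J ∧ D.f^[i] z ∉ D.Cr) : deriv (D.f^[n]) z ≠ 0 := by
  induction n with
  | zero =>
    have h1 : D.f^[0] = id := rfl
    rw [h1, deriv_id]
    exact one_ne_zero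
  | succ n ih =>
    rw [it_succ D fun i hi => D.hU (h i hi).1]
    refine mul_ne_zero ?_ (ih fun i hi => h i (Nat.lt_succ_of_lt hi))
    intro h1
    have h2 := h n (Nat.lt_succ_self n)
    exact h2.2 ((D.hcr _ h2.1).1 h1)

theorem it_bd (D : Ds) {z : ℂ} {n : ℕ} (h : ∀ i < n, D.f^[i] z ∈ thickening D.δ D.J) :
    ‖deriv (D.f^[n]) z‖ ≤ D.L ^ n := by
  induction n with
  | zero =>
    have h1 : D.f^[0] = id := rfl
    rw [h1, deriv_id]
    simp
  | succ n ih =>
    rw [it_succ D fun i hi => D.hU (h i hi), norm_mul, pow_succ']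
    exact mul_le_mul (D.hLf _ (h n (Nat.lt_succ_self n)))
      (ih fun i hi => h i (Nat.lt_succ_of_lt hi)) (norm_nonneg _) (by linarith [D.hL])

theorem it_ev (D : Ds) {z : ℂ} {n : ℕ} (h : ∀ i < n, D.f^[i] z ∈ D.G) :
    ∀ᶠ w in 𝓝 z, ∀ i < n, D.f^[i] w ∈ D.G := by
  induction n with
  | zero => exact Filter.Eventually.of_forall fun w i hi => absurd hi (Nat.not_lt_zero i)
  | succ n ih =>
    have h1 := ih fun i hi => h i (Nat.lt_succ_of_lt hi)
    have h2 : ContinuousAt (D.f^[n]) z :=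
      (it_diff D fun i hi => h i (Nat.lt_succ_of_lt hi)).continuousAt
    have h3 := h2.eventually_mem (D.hG.mem_nhds (h n (Nat.lt_succ_self n)))
    filter_upwards [h1, h3] with w h4 h5 i hi
    rcases Nat.lt_succ_iff_lt_or_eq.1 hi with h6 | h6
    · exact h4 i h6
    · rw [h6]
      exact h5

theorem zt_lip (D : Ds) (z w : ℂ) : |D.zt z - D.zt w| ≤ ‖z - w‖ := by
  unfold Ds.zt
  rw [abs_sub_le_iff, ← dist_eq_norm]
  constructor
  · have h1 := infDist_le_infDist_add_dist (s := (D.Cr : Set ℂ)) (x := z) (y := w)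
    linarith
  · have h1 := infDist_le_infDist_add_dist (s := (D.Cr : Set ℂ)) (x := w) (y := z)
    rw [dist_comm w z] at h1
    linarith

theorem zt_nonneg (D : Ds) (z : ℂ) : 0 ≤ D.zt z := by
  exact infDist_nonneg

theorem zt_pos (D : Ds) {z : ℂ} (hz : z ∉ D.Cr) : 0 < D.zt z := by
  unfold Ds.zt
  refine (D.Cr.finite_toSet.isClosed.notMem_iff_infDist_pos ?_).1 hz
  exact D.hne

theorem zt_zero (D : Ds) {z : ℂ} (hz : z ∈ D.Cr) : D.zt z = 0 := by
  exact infDist_zero_of_mem hz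

theorem zt_le (D : Ds) {c : ℂ} (hc : c ∈ D.Cr) (z : ℂ) : D.zt z ≤ ‖z - c‖ := by
  rw [← dist_eq_norm]
  exact infDist_le_dist_of_mem hc

theorem zt_bd (D : Ds) : ∃ Z : ℝ, 1 ≤ Z ∧ ∀ z ∈ thickening D.δ D.J, D.zt z ≤ Z := by
  obtain ⟨c0, hc0⟩ := D.hne
  obtain ⟨R, hR⟩ := D.hJ.isBounded.subset_closedBall (0 : ℂ)
  refine ⟨max 1 (R + D.δ + ‖c0‖), le_max_left _ _, fun z hz => ?_⟩
  refine le_trans ?_ (le_max_right _ _)
  rw [mem_thickening_iff] at hz
  obtain ⟨x, hx, h1⟩ := hz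
  have h2 := hR hx
  rw [mem_closedBall, dist_zero_right] at h2
  have h3 := zt_le D hc0 z
  have h4 : ‖z - c0‖ ≤ ‖z - x‖ + ‖x‖ + ‖c0‖ := by
    have e : z - c0 = (z - x) + x - c0 := by ring
    rw [e]
    exact (norm_sub_le _ _).trans (add_le_add (norm_add_le _ _) le_rfl)
  rw [dist_eq_norm] at h1
  linarith

theorem zt_near (D : Ds) {c z : ℂ} (hc : c ∈ D.Cr) (h : ‖z - c‖ ≤ 2 * D.r0) : D.zt z = ‖z - c‖ := by
  refine le_antisymm (zt_le D hc z) ?_
  unfold Ds.zt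
  rw [le_infDist D.hne]
  intro c' hc'
  by_cases h1 : c = c'
  · rw [← h1, dist_eq_norm]
  · have h2 := D.hsep c hc c' hc' h1
    have h3 : ‖c - c'‖ ≤ ‖z - c‖ + ‖z - c'‖ := by
      have e : c - c' = (z - c') - (z - c) := by ring
      rw [e, add_comm]
      exact norm_sub_le _ _
    rw [dist_eq_norm]
    linarith

theorem zt_ex (D : Ds) (z : ℂ) : ∃ c ∈ D.Cr, D.zt z = ‖z - c‖ := by
  obtain ⟨c, hc, h⟩ := D.Cr.finite_toSet.isCompact.exists_infDist_eq_dist D.hne z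
  rw [dist_eq_norm] at h
  exact ⟨c, hc, h⟩

end Pool.Agent.H44.DN
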