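import Pool.Agent.H44.DN.ITER

/-!
# Module BRF: facts on families of inverse branches

PROOFS. `Del`: elementary. `br_it`: induction on `j` with `Br.step`, `Br.mem`, and `ball (r Del (i+j)) ⊆ ball (r Del i)` (`Del` is antitone). `br_id`: `i = 0`, `Br.zero`. `br_inj`: `f^[i] (g i w) = w`. `br_der`: the derivative of `f^[i] ∘ g i = id` on the open ball; `f^[i]` is differentiable at `g i w` by `it_diff` and `br_it`.
`br_mono`: restrict. `br_zero`: `g 0 = id`, the ball is in `thickening δ J ⊆ G`. `mr_big`: if `r ≠ R` and `r < min R s / 2` then `2 r < s`, so `UU` for `2 r` by `br_mono`, against `MR.max`; if `r = R` it is trivial.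
-/

set_option autoImplicit false

open Filter Topology Metric Set

namespace Pool.Agent.H44.DN

theorem del_zero : Del 0 = 1 := by
  unfold Del
  norm_num

theorem del_half (i : ℕ) : 1 / 2 ≤ Del i := by
  unfold Del
  have : 0 ≤ 1 / ((i : ℝ) + 1) := by positivity
  linarith

theorem del_anti {i j : ℕ} (h : i ≤ j) : Del j ≤ Del i := by
  unfold Del
  have h1 : (i : ℝ) ≤ (j : ℝ) := by exact_mod_cast h
  have : 1 / ((j : ℝ) + 1) ≤ 1 / ((i : ℝ) + 1) := by
    apply one_div_le_one_div_of_le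
    · positivity
    · linarith
  linarith

theorem del_succ (i : ℕ) : Del (i + 1) = Del i * (1 - 1 / ((i : ℝ) + 2) ^ 2) := by
  unfold Del
  have h1 : ((i : ℝ) + 1) ≠ 0 := by positivity
  have h2 : ((i : ℝ) + 2) ≠ 0 := by positivity
  have h3 : ((i : ℝ) + 1 + 1) ≠ 0 := by positivity
  push_cast
  have h4 : ((i : ℝ) + 1 + 1) = (i : ℝ) + 2 := by ring
  rw [h4]
  field_simp
  ring

theorem brf_sub {c : ℂ} {r : ℝ} (hr : 0 < r) {i j : ℕ} (h : i ≤ j) :
    ball c (r * Del j) ⊆ ball c (r * Del i) :=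
  ball_subset_ball (mul_le_mul_of_nonneg_left (del_anti h) hr.le)

theorem brf_one {c : ℂ} {r : ℝ} (hr : 0 < r) (j : ℕ) :
    ball c (r * Del j) ⊆ ball c r := by
  have := brf_sub (c := c) hr (Nat.zero_le j)
  rwa [del_zero, mul_one] at this

theorem br_it {D : Ds} {x : ℂ} {n k : ℕ} {r : ℝ} {g : ℕ → ℂ → ℂ} (h : Br D x n k r g) (hr : 0 < r)
    {i j : ℕ} (hij : i + j ≤ k) {w : ℂ} (hw : w ∈ ball (D.f^[n] x) (r * Del (i + j))) :
    D.f^[j] (g (i + j) w) = g i w ∧ ∀ l ≤ j, D.f^[l] (g (i + j) w) ∈ D.G := by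
  induction j with
  | zero =>
    refine ⟨rfl, fun l hl => ?_⟩
    obtain rfl : l = 0 := by omega
    exact h.mem i (by omega) w hw
  | succ j ih =>
    have h1 : D.f (g (i + j + 1) w) = g (i + j) w := h.step (i + j) (by omega) w hw
    have h2 := ih (by omega) (brf_sub hr (by omega : i + j ≤ i + (j + 1)) hw)
    refine ⟨?_, ?_⟩
    · rw [Function.iterate_succ_apply, show i + (j + 1) = i + j + 1 from rfl, h1]
      exact h2.1
    · intro l hl
      rcases Nat.eq_zero_or_pos l with h3 | h3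
      · subst h3
        exact h.mem _ hij w hw
      · obtain ⟨l', rfl⟩ : ∃ l', l = l' + 1 := ⟨l - 1, by omega⟩
        rw [Function.iterate_succ_apply, show i + (j + 1) = i + j + 1 from rfl, h1]
        exact h2.2 l' (by omega)

theorem br_id {D : Ds} {x : ℂ} {n k : ℕ} {r : ℝ} {g : ℕ → ℂ → ℂ} (h : Br D x n k r g) (hr : 0 < r)
    {i : ℕ} (hi : i ≤ k) {w : ℂ} (hw : w ∈ ball (D.f^[n] x) (r * Del i)) :
    D.f^[i] (g i w) = w := by
  have hw' : w ∈ ball (D.f^[n] x) (r * Del (0 + i)) := by rwa [zero_add]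
  have h1 := (br_it h hr (i := 0) (j := i) (by omega) hw').1
  rw [zero_add] at h1
  rw [h1]
  exact h.zero w (brf_one hr i hw)

theorem br_inj {D : Ds} {x : ℂ} {n k : ℕ} {r : ℝ} {g : ℕ → ℂ → ℂ} (h : Br D x n k r g) (hr : 0 < r)
    {i : ℕ} (hi : i ≤ k) : InjOn (g i) (ball (D.f^[n] x) (r * Del i)) := by
  intro a ha b hb hab
  rw [← br_id h hr hi ha, ← br_id h hr hi hb, hab]

theorem br_der {D : Ds} {x : ℂ} {n k : ℕ} {r : ℝ} {g : ℕ → ℂ → ℂ} (h : Br D x n k r g) (hr : 0 < r)
    {i : ℕ} (hi : i ≤ k) {w : ℂ} (hw : w ∈ ball (D.f^[n] x) (r * Del i)) :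
    deriv (D.f^[i]) (g i w) * deriv (g i) w = 1 := by
  have hw' : w ∈ ball (D.f^[n] x) (r * Del (0 + i)) := by rwa [zero_add]
  have h1 := (br_it h hr (i := 0) (j := i) (by omega) hw').2
  rw [zero_add] at h1
  have h2 : DifferentiableAt ℂ (D.f^[i]) (g i w) := it_diff D (fun l hl => h1 l hl.le)
  have h3 : DifferentiableAt ℂ (g i) w := (h.diff i hi).differentiableAt (isOpen_ball.mem_nhds hw)
  have h4 : deriv (D.f^[i] ∘ g i) w = deriv (D.f^[i]) (g i w) * deriv (g i) w :=
    deriv_comp w h2 h3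
  have h5 : (D.f^[i] ∘ g i) =ᶠ[𝓝 w] id := by
    filter_upwards [isOpen_ball.mem_nhds hw] with z hz
    exact br_id h hr hi hz
  rw [← h4, h5.deriv_eq, deriv_id]

theorem br_mono {D : Ds} {x : ℂ} {n k : ℕ} {r r' : ℝ} {g : ℕ → ℂ → ℂ} (h : Br D x n k r g)
    (hr : 0 < r') (hrr : r' ≤ r) {k' : ℕ} (hk : k' ≤ k) : Br D x n k' r' g := by
  have hs : ∀ i, ball (D.f^[n] x) (r' * Del i) ⊆ ball (D.f^[n] x) (r * Del i) := fun i =>
    ball_subset_ball (mul_le_mul_of_nonneg_right hrr (by linarith [del_half i]))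
  exact
    { le := hk.trans h.le
      zero := fun w hw => h.zero w (ball_subset_ball hrr hw)
      diff := fun i hi => (h.diff i (hi.trans hk)).mono (hs i)
      val := fun i hi => h.val i (hi.trans hk)
      mem := fun i hi w hw => h.mem i (hi.trans hk) w (hs i hw)
      step := fun i hi w hw => h.step i (by omega) w (hs (i + 1) hw) }

theorem br_zero {D : Ds} {x : ℂ} (hx : NC D x) (n : ℕ) {r : ℝ} (hr : 0 < r) (hrδ : r ≤ D.δ) :
    Br D x n 0 r (fun _ => id) := by
  refine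
    { le := Nat.zero_le n
      zero := fun w _ => rfl
      diff := fun i _ => differentiableOn_id
      val := ?_
      mem := ?_
      step := fun i hi => absurd hi (Nat.not_lt_zero i) }
  · intro i hi
    obtain rfl : i = 0 := by omega
    rfl
  · intro i hi w hw
    apply D.hU
    rw [mem_thickening_iff]
    refine ⟨D.f^[n] x, it_J D hx.1 n, ?_⟩
    exact lt_of_lt_of_le (mem_ball.mp (brf_one hr i hw)) hrδ

theorem mr_big {D : Ds} {x : ℂ} {n : ℕ} {R r s : ℝ} (h : MR D x n R r) (hs : 0 < s)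
    (hu : UU D x n s) : min R s / 2 ≤ r := by
  have hr := h.pos
  rcases h.max with h1 | ⟨h1, h2⟩
  · have := min_le_left R s
    linarith
  · by_contra hcon
    push Not at hcon
    apply h2
    obtain ⟨g, hg⟩ := hu
    have := min_le_right R s
    exact ⟨g, br_mono hg (by linarith) (by linarith) le_rfl⟩

end Pool.Agent.H44.DN
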