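import Pool.Agent.H44.DN.LOC0

/-!
# Module LOC1: distortion and lower bound away from the critical points

PROOF. `f'` is holomorphic on `G`. `N = thickening δ J`, open, `⊆ cthickening δ J ⊆ G`, the zeros of `deriv f` in `N` are the points of `Cr` (`hcr`). `loc0`: `deriv f z = (∏ c, (z - c)^(k c)) * h z` on `N`. `K = cthickening (3 δ / 4) J` is compact (`IsCompact.cthickening`), `⊆ N`; on `K`: `κ ≤ ‖h‖ ≤ B`; `ζ z = infDist z Cr ≤ ‖z - c‖ ≤ Z`; (1) is continuity of `deriv f` on the compact set `cthickening δ J`.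
(2) DISTORTION: for `z, w` as in the statement with `δ` replaced by `δ1 = δ / 8` (so that the segment is in `K`; the statement allows any smaller size): `(w - c) / (z - c) = 1 + x_c`, `‖x_c‖ ≤ ‖w - z‖ / ζ z ≤ 1/2` (`‖z - c‖ ≥ ζ z`), so `‖∏ (1 + x_c)^(k c) - 1‖ ≤ A ‖w - z‖ / ζ z` (induction: `‖(1+x) y - 1‖ ≤ ..`, `A` depends on the sum of the `k c`), `‖h w / h z - 1‖ ≤ (A' / κ) ‖w - z‖` (Lipschitz bound of `h` on the compact set, Cauchy estimate on balls of radius `δ/8`) `≤ (A' Z / κ) ‖w - z‖ / ζ z`. Multiply. If `z ∈ Cr` then `ζ z = 0` and the inequality is trivial.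
(3) LOWER BOUND: `‖deriv f z‖ ≥ κ ∏ ‖z - c‖ ^ k c ≥ κ' (min 1 (ζ z)) ^ p` is not good enough near `c` if other critical points are near; use: `4 s ≤ ‖c - c'‖` for `c ≠ c'` for some `s ≤ 1/2`; if `ζ z ≥ s`: `‖deriv f z‖ ≥ κ s ^ p`, `p = ∑ k c`. If `ζ z = ‖z - c‖ < s`: the other factors are `≥ s`: `‖deriv f z‖ ≥ κ s^p ‖z - c‖ ^ (k c)`. So with `C` large: `(ζ z)^N ≤ C^N ‖deriv f z‖` for every `N ≥ 1` with `k c ≤ N` for all `c ∈ Cr` (`C ≥ Z / (κ s ^ p)`, `κ s ^ p ≤ 1`, `Z ≥ 1`).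
-/

set_option autoImplicit false

open Filter Topology Metric Set

namespace Pool.Agent.H44.DN

private theorem l1_up (S : Finset ℂ) (k : ℂ → ℕ) (z w : ℂ) (h : ∀ c ∈ S, ‖w - z‖ ≤ ‖z - c‖) :
    ‖∏ c ∈ S, (w - c) ^ k c‖ ≤ 2 ^ (∑ c ∈ S, k c) * ‖∏ c ∈ S, (z - c) ^ k c‖ := by
  rw [norm_prod, norm_prod, ← Finset.prod_pow_eq_pow_sum, ← Finset.prod_mul_distrib]
  refine Finset.prod_le_prod (fun _ _ => norm_nonneg _) fun c hc => ?_
  rw [norm_pow, norm_pow, ← mul_pow]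
  refine pow_le_pow_left₀ (norm_nonneg _) ?_ _
  have e : w - c = (w - z) + (z - c) := by ring
  rw [e]
  have := norm_add_le (w - z) (z - c)
  linarith [h c hc]

private theorem l1_lo (S : Finset ℂ) (k : ℂ → ℕ) (z : ℂ) (s : ℝ) (hs : 0 ≤ s)
    (h : ∀ c ∈ S, s ≤ ‖z - c‖) : s ^ (∑ c ∈ S, k c) ≤ ‖∏ c ∈ S, (z - c) ^ k c‖ := by
  rw [norm_prod, ← Finset.prod_pow_eq_pow_sum]
  refine Finset.prod_le_prod (fun _ _ => pow_nonneg hs _) fun c hc => ?_
  rw [norm_pow]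
  exact pow_le_pow_left₀ hs (h c hc) _

private theorem l1_lo2 (S : Finset ℂ) (k : ℂ → ℕ) (z : ℂ) (s : ℝ) (hs : 0 ≤ s) (hs1 : s ≤ 1)
    (c : ℂ) (hc : c ∈ S) (h : ∀ c' ∈ S, c' ≠ c → s ≤ ‖z - c'‖) :
    s ^ (∑ c ∈ S, k c) * ‖z - c‖ ^ k c ≤ ‖∏ c ∈ S, (z - c) ^ k c‖ := by
  classical
  rw [← Finset.mul_prod_erase S _ hc, norm_mul, norm_pow, mul_comm]
  refine mul_le_mul_of_nonneg_left ?_ (by positivity)
  have h1 : s ^ (∑ c ∈ S, k c) ≤ s ^ (∑ c ∈ S.erase c, k c) := by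
    refine pow_le_pow_of_le_one hs hs1 ?_
    exact Finset.sum_le_sum_of_subset (Finset.erase_subset _ _)
  exact h1.trans (l1_lo _ k z s hs fun c' hc' =>
    h c' (Finset.mem_of_mem_erase hc') (Finset.ne_of_mem_erase hc'))

private theorem l1_sep (S : Finset ℂ) : ∃ s : ℝ, 0 < s ∧ s ≤ 1 / 2 ∧
    ∀ c ∈ S, ∀ c' ∈ S, c ≠ c' → 4 * s ≤ ‖c - c'‖ := by
  have h1 : ∀ᶠ s : ℝ in 𝓝[>] 0, ∀ c ∈ S, ∀ c' ∈ S, c ≠ c' → 4 * s ≤ ‖c - c'‖ := by
    rw [Filter.eventually_all_finset]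
    intro c _
    rw [Filter.eventually_all_finset]
    intro c' _
    rcases eq_or_ne c c' with h | h
    · exact Filter.Eventually.of_forall fun s hs => absurd h hs
    · have hp : 0 < ‖c - c'‖ := norm_pos_iff.2 (sub_ne_zero.2 h)
      have : ∀ᶠ s : ℝ in 𝓝[>] 0, s < ‖c - c'‖ / 4 :=
        nhdsWithin_le_nhds (Iio_mem_nhds (by positivity))
      filter_upwards [this] with s hs _
      linarith
  have h2 : ∀ᶠ s : ℝ in 𝓝[>] 0, s < 1 / 2 := nhdsWithin_le_nhds (Iio_mem_nhds (by norm_num))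
  have h3 : ∀ᶠ s : ℝ in 𝓝[>] 0, 0 < s := self_mem_nhdsWithin
  obtain ⟨s, a, b, c⟩ := (h1.and (h2.and h3)).exists
  exact ⟨s, c, b.le, a⟩

theorem loc1 (X : D0) : ∃ (L C : ℝ) (k : ℂ → ℕ), 1 ≤ L ∧ 1 ≤ C ∧
    (∀ z ∈ cthickening X.δ X.J, ‖deriv X.f z‖ ≤ L) ∧
    (∀ z ∈ thickening (X.δ / 8) X.J, ∀ w : ℂ, ‖w - z‖ < X.δ / 8 →
      2 * ‖w - z‖ ≤ infDist z (X.Cr : Set ℂ) →
        ‖deriv X.f w - deriv X.f z‖ * infDist z (X.Cr : Set ℂ) ≤ C * ‖deriv X.f z‖ * ‖w - z‖) ∧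
    (∀ c ∈ X.Cr, 1 ≤ k c ∧ ∃ h : ℂ → ℂ, AnalyticAt ℂ h c ∧ h c ≠ 0 ∧
      ∀ᶠ z in 𝓝 c, deriv X.f z = (z - c) ^ k c * h z) ∧
    ∀ z ∈ thickening (X.δ / 8) X.J, ∀ N : ℕ, 1 ≤ N → (∀ c ∈ X.Cr, k c ≤ N) →
      (infDist z (X.Cr : Set ℂ)) ^ N ≤ C ^ N * ‖deriv X.f z‖ := by
  classical
  obtain ⟨c0, hc0⟩ := X.hne
  have hδ := X.hδ
  have hJne : X.J.Nonempty := ⟨c0, X.hCr c0 hc0⟩
  set N := thickening X.δ X.J with hN
  have hNo : IsOpen N := isOpen_thickening
  have hNc : N ⊆ cthickening X.δ X.J := thickening_subset_cthickening _ _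
  have hNG : N ⊆ X.G := hNc.trans X.hU
  have hFG : DifferentiableOn ℂ (deriv X.f) X.G := X.hf.deriv X.hG
  have hFd : DifferentiableOn ℂ (deriv X.f) N := hFG.mono hNG
  have hCN : ∀ c ∈ X.Cr, c ∈ N := fun c hc => self_subset_thickening hδ _ (X.hCr c hc)
  obtain ⟨k, h, hk1, hhd, hh0, hFh⟩ := loc0 hNo hFd X.Cr hCN (fun z hz => X.hcr z (hNc hz))
  set K := cthickening (3 * X.δ / 4) X.J with hKdef
  have hK : IsCompact K := X.hJ.cthickening
  have hKN : K ⊆ N := cthickening_subset_thickening' hδ (by linarith) _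
  have hJK : X.J ⊆ K := self_subset_cthickening _
  have hKne : K.Nonempty := hJne.mono hJK
  have hhc : ContinuousOn h K := hhd.continuousOn.mono hKN
  obtain ⟨z0, hz0, hmin⟩ := hK.exists_isMinOn hKne hhc.norm
  obtain ⟨B, hB⟩ := hK.exists_bound_of_continuousOn hhc
  obtain ⟨Z, hZ⟩ := hK.exists_bound_of_continuousOn
    (f := fun z => z - c0) (by fun_prop)
  obtain ⟨L, hL⟩ := (X.hJ.cthickening (r := X.δ)).exists_bound_of_continuousOn
    (hFG.continuousOn.mono X.hU)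
  obtain ⟨s, hs0, hs2, hsep⟩ := l1_sep X.Cr
  set κ := ‖h z0‖ with hκ
  have hκ0 : 0 < κ := norm_pos_iff.2 (hh0 z0 (hKN hz0))
  have hκle : ∀ z ∈ K, κ ≤ ‖h z‖ := fun z hz => hmin hz
  set p := ∑ c ∈ X.Cr, k c with hp
  set Z1 := max Z 1 with hZ1
  have hZ11 : 1 ≤ Z1 := le_max_right _ _
  have hζ : ∀ z ∈ K, infDist z (X.Cr : Set ℂ) ≤ Z1 := by
    intro z hz
    have := infDist_le_dist_of_mem (x := z) (Finset.mem_coe.2 hc0)
    rw [dist_eq_norm] at this
    exact (this.trans (hZ z hz)).trans (le_max_left _ _)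
  have hB0 : 0 ≤ B := (norm_nonneg _).trans (hB z0 hz0)
  set C1 := 2 ^ p * (B / κ) with hC1
  have hC10 : 0 ≤ C1 := by positivity
  have hkey : ∀ z ∈ K, ∀ w ∈ K, ‖w - z‖ ≤ infDist z (X.Cr : Set ℂ) →
      ‖deriv X.f w‖ ≤ C1 * ‖deriv X.f z‖ := by
    intro z hz w hw hwz
    rw [hFh z (hKN hz), hFh w (hKN hw), norm_mul, norm_mul]
    have h1 := l1_up X.Cr k z w (fun c hc => hwz.trans (by
      have := infDist_le_dist_of_mem (x := z) (Finset.mem_coe.2 hc)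
      rwa [dist_eq_norm] at this))
    have h2 : ‖h w‖ ≤ (B / κ) * ‖h z‖ := by
      refine (hB w hw).trans ?_
      rw [div_mul_eq_mul_div, le_div_iff₀ hκ0]
      exact mul_le_mul_of_nonneg_left (hκle z hz) hB0
    calc _ ≤ (2 ^ p * ‖∏ c ∈ X.Cr, (z - c) ^ k c‖) * ((B / κ) * ‖h z‖) :=
          mul_le_mul h1 h2 (norm_nonneg _) (by positivity)
      _ = _ := by rw [hC1]; ring
  have hks : 0 < κ * s ^ p := by positivity
  set C2 := (C1 + 1) * max 1 (4 * Z1 / X.δ) with hC2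
  have hm0 : (1 : ℝ) ≤ max 1 (4 * Z1 / X.δ) := le_max_left _ _
  set C3 := Z1 / min 1 (κ * s ^ p) with hC3
  have hmn : 0 < min 1 (κ * s ^ p) := lt_min one_pos hks
  have hC31 : 1 ≤ C3 := by
    rw [hC3, le_div_iff₀ hmn]
    linarith [min_le_left 1 (κ * s ^ p)]
  refine ⟨max L 1, max C2 C3, k, le_max_right _ _, hC31.trans (le_max_right _ _),
    fun z hz => (hL z hz).trans (le_max_left _ _), ?_, ?_, ?_⟩
  · intro z hz w hw hwz
    set ζ := infDist z (X.Cr : Set ℂ) with hζd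
    have hζ0 : 0 ≤ ζ := infDist_nonneg
    rcases hζ0.eq_or_lt with h0 | h0
    · rw [← h0, mul_zero]
      positivity
    have hzK : z ∈ K := thickening_subset_cthickening_of_le (by linarith) _ hz
    set R := min ζ (X.δ / 4) with hR
    have hR0 : 0 < R := lt_min h0 (by positivity)
    have hballK : ∀ u ∈ ball z R, u ∈ K := by
      intro u hu
      rw [mem_thickening_iff] at hz
      obtain ⟨y, hy, hzy⟩ := hz
      refine thickening_subset_cthickening _ _ ?_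
      rw [mem_thickening_iff]
      refine ⟨y, hy, ?_⟩
      have h1 : dist u z < R := hu
      have h2 : R ≤ X.δ / 4 := min_le_right _ _
      have := dist_triangle u z y
      linarith
    have hd : DifferentiableOn ℂ (deriv X.f) (ball z R) :=
      hFd.mono fun u hu => hKN (hballK u hu)
    have hmaps : MapsTo (deriv X.f) (ball z R)
        (closedBall (deriv X.f z) ((C1 + 1) * ‖deriv X.f z‖)) := by
      intro u hu
      rw [mem_closedBall, dist_eq_norm]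
      have h1 : ‖u - z‖ ≤ ζ := by
        have h1 : dist u z < R := hu
        rw [dist_eq_norm] at h1
        exact h1.le.trans (min_le_left _ _)
      have h2 := hkey z hzK u (hballK u hu) h1
      have h3 := norm_sub_le (deriv X.f u) (deriv X.f z)
      linarith
    have hwR : w ∈ ball z R := by
      rw [mem_ball, dist_eq_norm]
      exact lt_min (by linarith) (by linarith)
    have h4 := Complex.dist_le_div_mul_dist_of_mapsTo_ball hd hmaps hwR
    rw [dist_eq_norm, dist_eq_norm] at h4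
    have h5 : ζ / R ≤ max 1 (4 * Z1 / X.δ) := by
      rcases min_choice ζ (X.δ / 4) with h6 | h6
      · rw [hR, h6, div_self h0.ne']
        exact le_max_left _ _
      · rw [hR, h6]
        refine le_trans ?_ (le_max_right _ _)
        rw [div_le_div_iff₀ (by positivity) hδ]
        nlinarith [hζ z hzK]
    calc ‖deriv X.f w - deriv X.f z‖ * ζ
        ≤ ((C1 + 1) * ‖deriv X.f z‖ / R * ‖w - z‖) * ζ := mul_le_mul_of_nonneg_right h4 hζ0
      _ = (C1 + 1) * (ζ / R) * (‖deriv X.f z‖ * ‖w - z‖) := by ring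
      _ ≤ (C1 + 1) * (max 1 (4 * Z1 / X.δ)) * (‖deriv X.f z‖ * ‖w - z‖) := by gcongr
      _ = C2 * (‖deriv X.f z‖ * ‖w - z‖) := by rw [hC2]
      _ ≤ max C2 C3 * (‖deriv X.f z‖ * ‖w - z‖) := by
          gcongr
          exact le_max_left _ _
      _ = _ := by ring
  · intro c hc
    refine ⟨hk1 c hc, fun z => (∏ c' ∈ X.Cr.erase c, (z - c') ^ k c') * h z, ?_, ?_, ?_⟩
    · have h1 : AnalyticAt ℂ h c := hhd.analyticAt (hNo.mem_nhds (hCN c hc))
      have h2 : AnalyticAt ℂ (fun z : ℂ => ∏ c' ∈ X.Cr.erase c, (z - c') ^ k c') c := by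
        have : Differentiable ℂ (fun z : ℂ => ∏ c' ∈ X.Cr.erase c, (z - c') ^ k c') := by
          fun_prop
        exact this.analyticAt c
      exact h2.mul h1
    · refine mul_ne_zero (Finset.prod_ne_zero_iff.2 fun c' hc' => pow_ne_zero _ ?_)
        (hh0 c (hCN c hc))
      exact sub_ne_zero.2 (Finset.ne_of_mem_erase hc').symm
    · filter_upwards [hNo.mem_nhds (hCN c hc)] with z hz
      rw [hFh z hz, ← Finset.mul_prod_erase X.Cr _ hc]
      ring
  · intro z hz M hM hkM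
    have hzK : z ∈ K := thickening_subset_cthickening_of_le (by linarith) _ hz
    set ζ := infDist z (X.Cr : Set ℂ) with hζd
    have hζ0 : 0 ≤ ζ := infDist_nonneg
    have hζZ : ζ ≤ Z1 := hζ z hzK
    set m := min 1 (κ * s ^ p) with hmdef
    have hm1 : m ≤ 1 := min_le_left _ _
    have hmp : m ≤ κ * s ^ p := min_le_right _ _
    have hlow : ∀ u : ℝ, 0 ≤ u → m * u ≤ ‖deriv X.f z‖ → ζ ^ M ≤ Z1 ^ M * u →
        ζ ^ M ≤ max C2 C3 ^ M * ‖deriv X.f z‖ := by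
      intro u hu h1 h2
      have h3 : C3 ^ M ≤ max C2 C3 ^ M :=
        pow_le_pow_left₀ (by linarith) (le_max_right _ _) _
      have h4 : m ^ M ≤ m := by
        calc m ^ M ≤ m ^ 1 := pow_le_pow_of_le_one hmn.le hm1 hM
          _ = m := pow_one m
      have h5 : Z1 ^ M ≤ C3 ^ M * m := by
        rw [hC3, div_pow, div_mul_eq_mul_div, le_div_iff₀ (by positivity)]
        exact mul_le_mul_of_nonneg_left h4 (by positivity)
      calc ζ ^ M ≤ Z1 ^ M * u := h2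
        _ ≤ (C3 ^ M * m) * u := by gcongr
        _ = C3 ^ M * (m * u) := by ring
        _ ≤ C3 ^ M * ‖deriv X.f z‖ := by gcongr
        _ ≤ _ := mul_le_mul_of_nonneg_right h3 (norm_nonneg _)
    have hle : ∀ c ∈ X.Cr, ζ ≤ ‖z - c‖ := fun c hc => by
      have := infDist_le_dist_of_mem (x := z) (Finset.mem_coe.2 hc)
      rwa [dist_eq_norm] at this
    have hFn : ‖deriv X.f z‖ = ‖∏ c ∈ X.Cr, (z - c) ^ k c‖ * ‖h z‖ := by
      rw [hFh z (hKN hzK), norm_mul]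
    rcases le_or_gt s ζ with h1 | h1
    · refine hlow 1 zero_le_one ?_ (by rw [mul_one]; exact pow_le_pow_left₀ hζ0 hζZ _)
      rw [mul_one, hFn]
      have h2 := l1_lo X.Cr k z s hs0.le (fun c hc => h1.trans (hle c hc))
      calc m ≤ κ * s ^ p := hmp
        _ = s ^ p * κ := mul_comm _ _
        _ ≤ _ := mul_le_mul h2 (hκle z hzK) hκ0.le (norm_nonneg _)
    · obtain ⟨c, hc, hcζ⟩ := X.Cr.finite_toSet.isCompact.exists_infDist_eq_dist
        ⟨c0, Finset.mem_coe.2 hc0⟩ z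
      rw [Finset.mem_coe] at hc
      have hcz : ζ = ‖z - c‖ := by rw [hζd, hcζ, dist_eq_norm]
      have hζ1 : ζ ≤ 1 := by linarith
      refine hlow (ζ ^ M) (by positivity) ?_ ?_
      · rw [hFn]
        have h2 := l1_lo2 X.Cr k z s hs0.le (by linarith) c hc (fun c' hc' hne => by
          have h3 := hsep c' hc' c hc hne
          have h4 : c' - c = (z - c) - (z - c') := by ring
          have h5 := norm_sub_le (z - c) (z - c')
          rw [← h4] at h5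
          linarith)
        have h6 : ζ ^ M ≤ ζ ^ k c := pow_le_pow_of_le_one hζ0 hζ1 (hkM c hc)
        calc m * ζ ^ M ≤ (κ * s ^ p) * ζ ^ k c := by gcongr
          _ = (s ^ p * ‖z - c‖ ^ k c) * κ := by rw [← hcz]; ring
          _ ≤ _ := mul_le_mul h2 (hκle z hzK) hκ0.le (norm_nonneg _)
      · have : (1 : ℝ) ≤ Z1 ^ M := one_le_pow₀ hZ11
        nlinarith [pow_nonneg hζ0 M]


end Pool.Agent.H44.DN
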