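import Mathlib

/-!
# Module ITG: iterates of a holomorphic map

PROOFS. `f^[n+1] = f ∘ f^[n]` (`Function.iterate_succ'`), chain rule, induction; `itg_add` by induction on `b` from `itg_succ` (`Function.iterate_add_apply`). (The same facts as in ITER, for a general `f`.)
-/

set_option autoImplicit false

open Filter Topology Metric Set

namespace Pool.Agent.H44.DN

theorem itg_diff {f : ℂ → ℂ} {G : Set ℂ} (hG : IsOpen G) (hf : DifferentiableOn ℂ f G) {z : ℂ}
    {n : ℕ} (h : ∀ i < n, f^[i] z ∈ G) : DifferentiableAt ℂ (f^[n]) z := by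
  induction n with
  | zero => exact differentiableAt_id
  | succ n ih =>
    rw [Function.iterate_succ']
    exact DifferentiableAt.comp z (hf.differentiableAt (hG.mem_nhds (h n (Nat.lt_succ_self n))))
      (ih fun i hi => h i (Nat.lt_succ_of_lt hi))

theorem itg_succ {f : ℂ → ℂ} {G : Set ℂ} (hG : IsOpen G) (hf : DifferentiableOn ℂ f G) {z : ℂ}
    {n : ℕ} (h : ∀ i < n + 1, f^[i] z ∈ G) :
    deriv (f^[n + 1]) z = deriv f (f^[n] z) * deriv (f^[n]) z := by
  rw [Function.iterate_succ']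
  exact deriv_comp z (hf.differentiableAt (hG.mem_nhds (h n (Nat.lt_succ_self n))))
    (itg_diff hG hf fun i hi => h i (Nat.lt_succ_of_lt hi))

theorem itg_add {f : ℂ → ℂ} {G : Set ℂ} (hG : IsOpen G) (hf : DifferentiableOn ℂ f G) {z : ℂ}
    {a b : ℕ} (h : ∀ i < a + b, f^[i] z ∈ G) :
    deriv (f^[a + b]) z = deriv (f^[b]) (f^[a] z) * deriv (f^[a]) z := by
  have h1 : f^[a + b] = f^[b] ∘ f^[a] := by
    rw [add_comm, Function.iterate_add]
  rw [h1]
  refine deriv_comp z (itg_diff hG hf fun i hi => ?_) (itg_diff hG hf fun i hi => h i (by omega))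
  rw [← Function.iterate_add_apply]
  exact h _ (by omega)

/-- backwards: a nonzero derivative of an iterate -/
theorem itg_ne {f : ℂ → ℂ} {G : Set ℂ} (hG : IsOpen G) (hf : DifferentiableOn ℂ f G) {z : ℂ}
    {n : ℕ} (h : ∀ i < n, f^[i] z ∈ G) :
    deriv (f^[n]) z ≠ 0 ↔ ∀ i < n, deriv f (f^[i] z) ≠ 0 := by
  induction n with
  | zero =>
    have h1 : f^[0] = id := rfl
    rw [h1, deriv_id]
    exact ⟨fun _ i hi => absurd hi (Nat.not_lt_zero i), fun _ => one_ne_zero⟩
  | succ n ih =>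
    rw [itg_succ hG hf h, mul_ne_zero_iff, ih fun i hi => h i (Nat.lt_succ_of_lt hi)]
    constructor
    · rintro ⟨h1, h2⟩ i hi
      rcases Nat.lt_succ_iff_lt_or_eq.1 hi with h3 | h3
      · exact h2 i h3
      · rw [h3]
        exact h1
    · intro h1
      exact ⟨h1 n (Nat.lt_succ_self n), fun i hi => h1 i (Nat.lt_succ_of_lt hi)⟩

end Pool.Agent.H44.DN
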