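import Pool.Agent.H44.DN.MDefs
import Pool.Agent.H44.DN.ITG

/-!
# Module TAU: the terminal time

PROOFS. `orb`: induction with `hJf`; `J ⊆ cthickening δ J ⊆ G`. (1) `ce` gives `m`, `0 < q^n ≤ C ‖deriv (f^[n]) (f^[m] c)‖` for all `n`, so `C > 0` and these derivatives are nonzero, hence (`itg_ne`, all points of the orbit in `J ⊆ G`) `deriv f (f^[m+i] c) ≠ 0` and `f^[j] c ∉ Cr` for `j ≥ m` (`hcr`). So the set in the definition of `tau` contains `max m 1`; `Nat.sInf_mem`. (2) `tau_le`: `Nat.sInf_le`.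
(3) `tau_rel`: `c' = f^[i+1] c ∈ Cr`; `tau c > i + 1` by (1); with `tau c = i + 1 + n`, `n ≥ 1`: `f^[j] c' = f^[i+1+j] c ∉ Cr` for `j ≥ n`, so `tau c' ≤ n`; conversely `i + 1 + tau c'` is in the set of `c`. (4) `Mi_rel`: `Finset.prod_range_add` (or `prod_range_succ'`): the factor `j = 0` is `mm c`, the factors `1 ≤ j ≤ i` are `1`, the factors `i + 1 + j` are those of `c'`. (5) `mm_le_MM`: the factor `j = 0` (`tau c ≥ 1`), all other factors are `≥ 1` by the hypothesis.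
-/

set_option autoImplicit false

open Filter Topology Metric Set

namespace Pool.Agent.H44.DN

theorem orb (X : D0) {z : ℂ} (hz : z ∈ X.J) (n : ℕ) : X.f^[n] z ∈ X.J ∧ X.f^[n] z ∈ X.G := by
  have hJG : X.J ⊆ X.G := (self_subset_cthickening _).trans X.hU
  have h1 : X.f^[n] z ∈ X.J := by
    induction n with
    | zero => exact hz
    | succ n ih =>
      rw [Function.iterate_succ_apply']
      exact X.hJf _ ih
  exact ⟨h1, hJG h1⟩

theorem orb_cr (X : D0) {z : ℂ} (hz : z ∈ X.J) (n : ℕ) :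
    deriv (X.f^[n]) z ≠ 0 ↔ ∀ i < n, X.f^[i] z ∉ X.Cr := by
  rw [itg_ne X.hG X.hf (fun i _ => (orb X hz i).2)]
  refine forall₂_congr fun i _ => ?_
  rw [Ne, X.hcr _ (self_subset_cthickening _ (orb X hz i).1)]

theorem tau_spec (X : D0) {c : ℂ} (hc : c ∈ X.Cr) :
    1 ≤ X.tau c ∧ ∀ j, X.tau c ≤ j → X.f^[j] c ∉ X.Cr := by
  have hne : {n : ℕ | 1 ≤ n ∧ ∀ j, n ≤ j → X.f^[j] c ∉ X.Cr}.Nonempty := by
    obtain ⟨m, C, q, hq, hce⟩ := X.ce c hc
    refine ⟨max m 1, le_max_right _ _, fun j hj => ?_⟩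
    obtain ⟨i, rfl⟩ := Nat.exists_eq_add_of_le ((le_max_left m 1).trans hj)
    have h1 : X.f^[m] c ∈ X.J := (orb X (X.hCr c hc) m).1
    have h2 : deriv (X.f^[i + 1]) (X.f^[m] c) ≠ 0 := by
      intro h0
      have h3 := hce (i + 1)
      rw [h0, norm_zero, mul_zero] at h3
      have h4 : 0 < q ^ (i + 1) := pow_pos (by linarith) _
      linarith
    have h5 := (orb_cr X h1 (i + 1)).1 h2 i (Nat.lt_succ_self i)
    rwa [← Function.iterate_add_apply, add_comm] at h5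
  exact Nat.sInf_mem hne

theorem tau_rel (X : D0) {c : ℂ} (hc : c ∈ X.Cr) {i : ℕ}
    (hfree : ∀ j, 1 ≤ j → j ≤ i → X.f^[j] c ∉ X.Cr) (h : X.f^[i + 1] c ∈ X.Cr) :
    X.tau c = i + 1 + X.tau (X.f^[i + 1] c) := by
  obtain ⟨h1, h2⟩ := tau_spec X hc
  obtain ⟨h3, h4⟩ := tau_spec X h
  have h5 : i + 1 < X.tau c := by
    by_contra hcon
    exact h2 (i + 1) (not_lt.1 hcon) h
  have e : ∀ j, X.f^[j] (X.f^[i + 1] c) = X.f^[i + 1 + j] c := fun j => by
    rw [← Function.iterate_add_apply, add_comm]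
  refine le_antisymm ?_ ?_
  · refine Nat.sInf_le ⟨by omega, fun j hj => ?_⟩
    obtain ⟨k, rfl⟩ := Nat.exists_eq_add_of_le (show i + 1 ≤ j by omega)
    rw [← e k]
    exact h4 k (by omega)
  · obtain ⟨n, hn⟩ := Nat.exists_eq_add_of_le h5.le
    have h6 : X.tau (X.f^[i + 1] c) ≤ n := by
      refine Nat.sInf_le ⟨by omega, fun j hj => ?_⟩
      rw [e j]
      exact h2 _ (by omega)
    omega

theorem MM_rel (X : D0) {c : ℂ} (hc : c ∈ X.Cr) {i : ℕ}
    (hfree : ∀ j, 1 ≤ j → j ≤ i → X.f^[j] c ∉ X.Cr) (h : X.f^[i + 1] c ∈ X.Cr) :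
    X.MM c = X.mm c * X.MM (X.f^[i + 1] c) := by
  classical
  have e : ∀ j, X.f^[j] (X.f^[i + 1] c) = X.f^[i + 1 + j] c := fun j => by
    rw [← Function.iterate_add_apply, add_comm]
  unfold D0.MM
  rw [tau_rel X hc hfree h]
  unfold D0.Mi
  rw [Finset.prod_range_add, Finset.prod_range_succ']
  have h1 : ∏ j ∈ Finset.range i,
      (if X.f^[j + 1] c ∈ X.Cr then X.mm (X.f^[j + 1] c) else 1) = 1 := by
    refine Finset.prod_eq_one fun j hj => ?_
    rw [Finset.mem_range] at hj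
    rw [if_neg (hfree (j + 1) (by omega) (by omega))]
  rw [h1, one_mul, Function.iterate_zero, id_eq, if_pos hc]
  congr 1
  refine Finset.prod_congr rfl fun j _ => ?_
  rw [e j]

theorem mm_le_MM (X : D0) (h1 : ∀ c ∈ X.Cr, 1 ≤ X.mm c) {c : ℂ} (hc : c ∈ X.Cr) :
    X.mm c ≤ X.MM c := by
  classical
  obtain ⟨h2, h3⟩ := tau_spec X hc
  obtain ⟨n, hn⟩ := Nat.exists_eq_add_of_le' h2
  unfold D0.MM
  rw [hn]
  unfold D0.Mi
  rw [Finset.prod_range_succ', Function.iterate_zero, id_eq, if_pos hc]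
  refine Nat.le_mul_of_pos_left _ ?_
  refine Finset.prod_pos fun j _ => ?_
  split_ifs with h
  · exact h1 _ h
  · exact one_pos

end Pool.Agent.H44.DN
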