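import Pool.Agent.H44.DN.STG2
import Pool.Agent.H44.DN.PHI

/-!
# Module CLOSE: points close to a critical point: growth in the metric

PROOF. Fix `K` large (`stg_na`), `t0, c1, C1` (`stg_ex`), `r1, κ` (`phi_near`). Let `ζ = ‖x - c‖ ≤ z1`, `t = 2 ‖f^[τ c] x - vv c‖ > 0`, so `ζ ^ M c / C ≤ t ≤ 2 C ζ ^ M c` (`D.p1`), `t ≤ t0` for small `z1`, `u = f^[τ c] x ∈ ball (vv c) (2 t)`. `n` the stage of `(c, t)`, `k = τ c + n`, `x' = f^[k] x = f^[n] u`. Points: `f^[j] x ∈ thickening (δ/4) J` for `j ≤ τ c` (`D.p4`) and then by `stg_na`. `log (1/t) ≥ log (1/ζ)` (for small `z1`) and `≤ (Mx + 1) log (1/ζ)`; so `n` is between `c1 log (1/ζ)` and `C1 (Mx+1) log (1/ζ)`.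
Derivative: `‖deriv (f^[k]) x‖ ≥ (1/2) DD c n * ζ ^ (M c - 1) / C` (`it_add`, `D.p2`, `stg_na`). `ph x = ζ ^ (1 - α M c)`. So `‖deriv (f^[k]) x‖ * ph x ≥ (1/(2C)) DD ζ ^ (M c (1 - α)) ≥ a1 DD t ^ (1 - α)` (`ζ ^ M c ≥ t / (2 C)`), `a1 > 0` a constant.
Growth: let `c'` be nearest to `f^[n] (vv c)`; `‖x' - c'‖ ≤ ee c n + 2 t DD ≤ 3 Kn K n t DD =: 3 E` (`Stg.hit`, `Kn K n ≥ 1`), `ph x' ≤ (3 E) ^ (1 - α M c')` (`ph_le`). So the ratio is at least `a1 DD t ^ (1-α) / (3 E) ^ (1 - α M c') ≥ a2 t ^ (-α) Kn^(-1) (E ^ M c') ^ α` (since `DD t = E / Kn`), and `E ^ M c' ≥ t q ^ n / C` (`stg_hit`): ratio `≥ a3 q ^ (α n) / Kn K n`, which is `≥ exp (χ k)` with `χ = α log q / 4` for large `n` (small `z1`), `k ≤ n + max τ`. If `ph x' = 0` the inequality is trivial.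
Lower bound for the derivatives: `j ≤ τ c`: `ζ ^ (M c - 1) ≤ C ‖deriv (f^[τ c]) x‖ ≤ C L ^ τ ‖deriv (f^[j]) x‖`; `j = τ c + i`: `≥ ζ ^ (M c - 1) / (2 C) * q ^ i / C`; so `≥ ζ ^ N2` for `N2 = Mx + 1` and small `z1`.
Last inequality, `p = 2 Mx`: `tt x = ζ ^ M c ≤ C t`. If `tt x' = 1` it is: `tt x ph(x')^p ≤ (‖deriv‖ ph x)^p`; true since `exp (χ k) ph x' ≤ ‖deriv‖ ph x`, `tt x ≤ 1`. Otherwise `tt x' = ‖x' - b‖ ^ m`, `b ∈ Cr`, `m = M b`, `s = ‖x' - b‖` (`tt_ex`); let `X = ‖deriv (f^[k]) x‖ ph x`, `Y = ph x' ≤ s ^ (1 - α m)`, `Y ≤ X`. `ce2` with `‖f^[n] (vv c) - b‖ ≤ s + 2 t DD`: `q ^ n ≤ C DD (s + 2 t DD) ^ (m - 1)`.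
Case `s > t DD`: `q ^ n ≤ C DD (3 s) ^ (m - 1) < C (s/t) (3 s) ^ (m-1)`, so `s ^ m ≥ t q ^ n / (C 3 ^ Mx) ≥ C t ≥ tt x` for large `n`, and `Y ≤ X`. Case `s ≤ t DD`, `g = s / (t DD) ≤ 1`: `(t DD) ^ m ≥ t q ^ n / (C 3 ^ Mx)`, so `s ^ m = g ^ m (t DD) ^ m ≥ g ^ m * C t` for large `n`; and `X / Y ≥ a1 DD t ^ (1 - α) / s ^ (1 - α m) = a1 (1/g) (s ^ m / t) ^ α ≥ a1 (1/g) g ^ (α m) (q ^ n / (C 3 ^ Mx)) ^ α ≥ (1/g) ^ (1/2)` (large `n`, `α m ≤ 1/2`),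
so `g ≥ (Y/X)^2` and `tt x' = s ^ m ≥ (Y / X) ^ (2 m) C t ≥ (Y/X) ^ p tt x` (`Y ≤ X`, `2 m ≤ p`).
-/

set_option autoImplicit false

open Filter Topology Metric Set

namespace Pool.Agent.H44.DN

theorem cl_pw {s : ℝ} (hs : 0 < s) (α : ℝ) (m : ℕ) :
    s ^ (1 - α * (m : ℝ)) = s * (s ^ m) ^ (-α) := by
  rw [← Real.rpow_natCast s m, ← Real.rpow_mul hs.le, sub_eq_add_neg, Real.rpow_add hs,
    Real.rpow_one]
  congr 2
  ring

theorem cl_R1 {α C E Kk t d Q : ℝ} {m : ℕ} (hα : 0 < α) (hC : 1 ≤ C) (hKk : 1 ≤ Kk) (ht : 0 < t)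
    (hd : 0 < d) (hE : E = Kk * (t * d)) (hQ : 0 < Q) (h : t * Q ≤ C * E ^ m) :
    (2 * E) ^ (1 - α * (m : ℝ)) * (Q / C) ^ α ≤ 2 * Kk * (d * t ^ (1 - α)) := by
  have hE0 : 0 < E := by rw [hE]; positivity
  have hC0 : 0 < C := by linarith
  have hQC : 0 < Q / C := by positivity
  have h1 : t * (Q / C) ≤ (2 * E) ^ m := by
    have h2 : t * (Q / C) ≤ E ^ m := by
      rw [mul_div_assoc', div_le_iff₀ hC0]
      linarith
    exact h2.trans (pow_le_pow_left₀ hE0.le (by linarith) _)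
  have h2 : ((2 * E) ^ m) ^ (-α) ≤ (t * (Q / C)) ^ (-α) :=
    Real.rpow_le_rpow_of_nonpos (by positivity) h1 (by linarith)
  rw [cl_pw (by positivity) α m]
  have h3 : (t * (Q / C)) ^ (-α) * (Q / C) ^ α = t ^ (-α) := by
    rw [Real.mul_rpow ht.le hQC.le, mul_assoc, ← Real.rpow_add hQC, neg_add_cancel,
      Real.rpow_zero, mul_one]
  have h4 : t ^ (1 - α) = t * t ^ (-α) := by
    rw [sub_eq_add_neg, Real.rpow_add ht, Real.rpow_one]
  calc 2 * E * ((2 * E) ^ m) ^ (-α) * (Q / C) ^ α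
      ≤ 2 * E * (t * (Q / C)) ^ (-α) * (Q / C) ^ α := by gcongr
    _ = 2 * E * ((t * (Q / C)) ^ (-α) * (Q / C) ^ α) := by ring
    _ = 2 * Kk * (d * t ^ (1 - α)) := by rw [h3, h4, hE]; ring

theorem cl_X {α C ζ t d X Λ ph : ℝ} {M : ℕ} (hα0 : 0 < α) (hα : α ≤ 1) (hC : 1 ≤ C) (hζ : 0 < ζ)
    (hM : 1 ≤ M) (ht : 0 < t) (hd : 0 < d) (h : t ≤ 2 * C * ζ ^ M)
    (hph : ph = ζ ^ (1 - α * (M : ℝ))) (hΛ : d * ζ ^ (M - 1) ≤ 2 * C * Λ) (hX : X = Λ * ph) :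
    d * t ^ (1 - α) ≤ 4 * C ^ 2 * X := by
  have hC0 : 0 < C := by linarith
  have h1 : t ^ (1 - α) ≤ (2 * C * ζ ^ M) ^ (1 - α) :=
    Real.rpow_le_rpow ht.le h (by linarith)
  have h2 : (2 * C * ζ ^ M) ^ (1 - α) = (2 * C) ^ (1 - α) * (ζ ^ M) ^ (1 - α) :=
    Real.mul_rpow (by positivity) (by positivity)
  have h3 : (2 * C) ^ (1 - α) ≤ 2 * C := by
    calc (2 * C) ^ (1 - α) ≤ (2 * C) ^ (1 : ℝ) :=
          Real.rpow_le_rpow_of_exponent_le (by linarith) (by linarith)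
      _ = 2 * C := Real.rpow_one _
  have h4 : (ζ ^ M) ^ (1 - α) = ζ ^ (M - 1) * ph := by
    rw [hph, cl_pw hζ α M, sub_eq_add_neg, Real.rpow_add (by positivity), Real.rpow_one]
    have h5 : ζ ^ M = ζ ^ (M - 1) * ζ := by
      rw [← pow_succ, Nat.sub_add_cancel hM]
    nth_rewrite 1 [h5]
    ring
  have hph0 : 0 ≤ ph := by rw [hph]; positivity
  calc d * t ^ (1 - α) ≤ d * ((2 * C) * (ζ ^ (M - 1) * ph)) := by
        apply mul_le_mul_of_nonneg_left _ hd.le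
        rw [h2, h4] at h1
        exact h1.trans (mul_le_mul_of_nonneg_right h3 (by positivity))
    _ = (d * ζ ^ (M - 1)) * (2 * C * ph) := by ring
    _ ≤ (2 * C * Λ) * (2 * C * ph) := mul_le_mul_of_nonneg_right hΛ (by positivity)
    _ = 4 * C ^ 2 * X := by rw [hX]; ring

theorem cl_R2 {α A s e t d Q X Y : ℝ} {m : ℕ} (hα : 0 < α) (hαm : α * (m : ℝ) ≤ 1 / 2)
    (hs : 0 < s) (hse : s ≤ e) (ht : 0 < t) (hd : 0 < d) (he : e = t * d) (hQ : 0 < Q)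
    (h1 : t * Q ≤ e ^ m) (_hA : 0 < A) (hX : d * t ^ (1 - α) ≤ A * X) (hX0 : 0 ≤ X) (hY0 : 0 ≤ Y)
    (hY : Y ≤ s ^ (1 - α * (m : ℝ))) (hAQ : A ≤ Q ^ α) : Y ^ 2 ≤ (s / e) * X ^ 2 := by
  have he0 : 0 < e := by rw [he]; positivity
  obtain ⟨g, hg⟩ : ∃ g : ℝ, g = s / e := ⟨_, rfl⟩
  have hg0 : 0 < g := by rw [hg]; positivity
  have hg1 : g ≤ 1 := by rw [hg, div_le_one he0]; exact hse
  have hsg : s = g * e := by rw [hg]; field_simp
  rw [← hg]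
  have h2 : g ^ m * (t * Q) ≤ s ^ m := by
    rw [hsg, mul_pow]
    exact mul_le_mul_of_nonneg_left h1 (by positivity)
  have h3 : (s ^ m) ^ (-α) ≤ (g ^ m * (t * Q)) ^ (-α) :=
    Real.rpow_le_rpow_of_nonpos (by positivity) h2 (by linarith)
  have h4 : (g ^ m * (t * Q)) ^ (-α) = (g ^ m) ^ (-α) * (t ^ (-α) * Q ^ (-α)) := by
    rw [Real.mul_rpow (by positivity) (by positivity), Real.mul_rpow ht.le hQ.le]
  have h5 : t ^ (1 - α) = t * t ^ (-α) := by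
    rw [sub_eq_add_neg, Real.rpow_add ht, Real.rpow_one]
  have h6 : e * t ^ (-α) ≤ A * X := by
    rw [he]
    rw [h5] at hX
    linarith
  have h7 : Q ^ (-α) * A ≤ 1 := by
    rw [Real.rpow_neg hQ.le, inv_mul_le_iff₀ (by positivity), mul_one]
    exact hAQ
  have h8 : g * (g ^ m) ^ (-α) = g ^ (1 - α * (m : ℝ)) := (cl_pw hg0 α m).symm
  have h9 : Y ≤ g ^ (1 - α * (m : ℝ)) * X := by
    calc Y ≤ s * (s ^ m) ^ (-α) := by rw [← cl_pw hs α m]; exact hY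
      _ ≤ s * ((g ^ m) ^ (-α) * (t ^ (-α) * Q ^ (-α))) := by
          rw [← h4]
          exact mul_le_mul_of_nonneg_left h3 hs.le
      _ = (g * (g ^ m) ^ (-α)) * Q ^ (-α) * (e * t ^ (-α)) := by
          nth_rewrite 1 [hsg]
          ring
      _ ≤ (g * (g ^ m) ^ (-α)) * Q ^ (-α) * (A * X) :=
          mul_le_mul_of_nonneg_left h6 (by positivity)
      _ = (g * (g ^ m) ^ (-α)) * (Q ^ (-α) * A) * X := by ring
      _ ≤ (g * (g ^ m) ^ (-α)) * 1 * X := by gcongr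
      _ = g ^ (1 - α * (m : ℝ)) * X := by rw [mul_one, h8]
  have h10 : g ^ (1 - α * (m : ℝ)) ≤ g ^ ((1 : ℝ) / 2) :=
    Real.rpow_le_rpow_of_exponent_ge hg0 hg1 (by linarith)
  have h11 : Y ≤ g ^ ((1 : ℝ) / 2) * X := h9.trans (mul_le_mul_of_nonneg_right h10 hX0)
  calc Y ^ 2 ≤ (g ^ ((1 : ℝ) / 2) * X) ^ 2 := pow_le_pow_left₀ hY0 h11 2
    _ = (g ^ ((1 : ℝ) / 2)) ^ 2 * X ^ 2 := by ring
    _ = g * X ^ 2 := by
        rw [← Real.rpow_natCast, ← Real.rpow_mul hg0.le]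
        norm_num

theorem cl_two (D : Ds) {c : ℂ} (hc : c ∈ D.Cr) : 2 ≤ D.M c := (D.hm c hc).trans (D.hmM c hc)

theorem cl_Mx (D : Ds) {c : ℂ} (hc : c ∈ D.Cr) : D.M c ≤ D.Mx :=
  Finset.single_le_sum (f := D.M) (fun _ _ => Nat.zero_le _) hc

theorem cl_data (D : Ds) : ∃ (K c1 C1 z0 : ℝ), 1 ≤ K ∧ 0 < c1 ∧ 0 < C1 ∧ 0 < z0 ∧ z0 ≤ D.r0 ∧
    z0 ≤ 1 / 2 ∧ ∀ c ∈ D.Cr, ∀ x : ℂ, 0 < ‖x - c‖ → ‖x - c‖ ≤ z0 → ∃ (t : ℝ) (n : ℕ), 0 < t ∧
      1 ≤ n ∧ c1 * Real.log (1 / ‖x - c‖) ≤ n ∧ (n : ℝ) ≤ C1 * Real.log (1 / ‖x - c‖) ∧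
      ‖x - c‖ ^ D.M c ≤ D.C * t ∧ t ≤ 2 * D.C * ‖x - c‖ ^ D.M c ∧ Stg D K c t n ∧
      0 < D.DD c n ∧
      ‖D.f^[D.τ c + n] x - D.f^[n] (D.vv c)‖ ≤ t * D.DD c n ∧
      D.DD c n * ‖x - c‖ ^ (D.M c - 1) ≤ 2 * D.C * ‖deriv (D.f^[D.τ c + n]) x‖ ∧
      ∀ j ≤ D.τ c + n, D.f^[j] x ∈ thickening (D.δ / 4) D.J ∧
        ‖x - c‖ ^ (D.Mx + 1) ≤ ‖deriv (D.f^[j]) x‖ := by
  obtain ⟨K0, hK0, hna⟩ := stg_na D
  obtain ⟨C0, hC0, hex⟩ := stg_ex D
  obtain ⟨t0, c1, C1, ht0, ht01, hc1, hC1, hst⟩ := hex K0 hK0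
  obtain ⟨T, hT⟩ : ∃ T : ℕ, T = ∑ c ∈ D.Cr, D.τ c := ⟨_, rfl⟩
  have hτT : ∀ c ∈ D.Cr, D.τ c ≤ T := fun c hc => by
    rw [hT]
    exact Finset.single_le_sum (f := D.τ) (fun _ _ => Nat.zero_le _) hc
  have hC := D.hC
  have hL := D.hL
  have hLT : 1 ≤ D.L ^ T := one_le_pow₀ hL
  obtain ⟨B, hB⟩ : ∃ B : ℝ, B = 4 * D.C ^ 2 * D.L ^ T := ⟨_, rfl⟩
  have hCC : D.C ≤ D.C ^ 2 := by nlinarith
  have hB1 : 4 * D.C ^ 2 ≤ B := by rw [hB]; nlinarith [sq_nonneg D.C]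
  have hB2 : D.C * D.L ^ T ≤ B := by
    rw [hB]
    have h1 : D.C * D.L ^ T ≤ D.C ^ 2 * D.L ^ T := mul_le_mul_of_nonneg_right hCC (by positivity)
    nlinarith [mul_pos (show (0 : ℝ) < D.C ^ 2 by positivity) (show 0 < D.L ^ T by positivity)]
  have hB0 : 0 < B := by nlinarith
  have hz0 : min (D.r0 / 2) (t0 / B) ≤ 1 / 4 := by
    refine (min_le_right _ _).trans ?_
    rw [div_le_iff₀ hB0]
    nlinarith
  refine ⟨K0, c1, C1 * (D.Mx + 1), min (D.r0 / 2) (t0 / B), hK0, hc1, by positivity,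
    lt_min (by linarith [D.hr0]) (by positivity),
    (min_le_left _ _).trans (by linarith [D.hr0]), by linarith, ?_⟩
  intro c hc x hx0 hxz
  obtain ⟨ζ, hζ⟩ : ∃ ζ : ℝ, ζ = ‖x - c‖ := ⟨_, rfl⟩
  rw [← hζ] at hx0 hxz ⊢
  have hζr : ζ ≤ D.r0 / 2 := hxz.trans (min_le_left _ _)
  have hζB : B * ζ ≤ t0 := by
    have := hxz.trans (min_le_right _ _)
    rw [le_div_iff₀ hB0] at this
    linarith
  have hζ1 : ζ ≤ 1 / 4 := hxz.trans hz0
  have hxb : x ∈ ball c D.r0 := by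
    rw [mem_ball, dist_eq_norm, ← hζ]
    linarith [D.hr0]
  have hM2 := cl_two D hc
  have hMx := cl_Mx D hc
  obtain ⟨hp1a, hp1b⟩ := D.p1 c hc x hxb
  obtain ⟨hp2a, hp2b⟩ := D.p2 c hc x hxb
  rw [← hζ] at hp1a hp1b hp2a hp2b
  obtain ⟨u, hu⟩ : ∃ u : ℂ, u = D.f^[D.τ c] x := ⟨_, rfl⟩
  have hvv : D.f^[D.τ c] c = D.vv c := rfl
  rw [← hu, hvv] at hp1a hp1b
  obtain ⟨t, ht⟩ : ∃ t : ℝ, t = 2 * ‖u - D.vv c‖ := ⟨_, rfl⟩
  have hζM : 0 < ζ ^ D.M c := by positivity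
  have ht0' : 0 < t := by
    rw [ht]
    by_contra hcon
    push Not at hcon
    have h1 : D.C * ‖u - D.vv c‖ ≤ 0 := by nlinarith [norm_nonneg (u - D.vv c)]
    linarith
  have ht1 : ζ ^ D.M c ≤ D.C * t := by
    rw [ht]
    nlinarith [norm_nonneg (u - D.vv c)]
  have ht2 : t ≤ 2 * D.C * ζ ^ D.M c := by rw [ht]; linarith
  have hζM2 : ζ ^ D.M c ≤ ζ ^ 2 := pow_le_pow_of_le_one hx0.le (by linarith) hM2
  have htζ : t ≤ ζ := by
    calc t ≤ 2 * D.C * ζ ^ 2 := ht2.trans (mul_le_mul_of_nonneg_left hζM2 (by positivity))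
      _ = (2 * D.C * ζ) * ζ := by ring
      _ ≤ 1 * ζ := by
          apply mul_le_mul_of_nonneg_right _ hx0.le
          nlinarith
      _ = ζ := one_mul _
  have htt0 : t ≤ t0 := by
    have h1 : ζ ≤ B * ζ := by nlinarith
    linarith
  obtain ⟨n, hS, hn1, hn2, hn3, -⟩ := hst c hc t ht0' htt0
  have hub : u ∈ ball (D.vv c) (2 * t) := by
    rw [mem_ball, dist_eq_norm]
    linarith [norm_nonneg (u - D.vv c)]
  have hpos := hna K0 le_rfl c hc t ht0' n hn1 hS u hub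
  have hit : ∀ i, D.f^[D.τ c + i] x = D.f^[i] u := by
    intro i
    rw [add_comm, Function.iterate_add_apply, hu]
  have hTh : ∀ j ≤ D.τ c + n, D.f^[j] x ∈ thickening (D.δ / 4) D.J := by
    intro j hj
    rcases le_or_gt j (D.τ c) with h1 | h1
    · exact D.p4 c hc x hxb j h1
    · obtain ⟨i, rfl⟩ : ∃ i, j = D.τ c + i := ⟨j - D.τ c, by omega⟩
      rw [hit]
      exact (hpos i (by omega)).1
  have hδ := D.hδ
  have hTδ : ∀ j ≤ D.τ c + n, D.f^[j] x ∈ thickening D.δ D.J := fun j hj =>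
    thickening_mono (by linarith) _ (hTh j hj)
  have hG : ∀ j ≤ D.τ c + n, D.f^[j] x ∈ D.G := fun j hj => D.hU (hTδ j hj)
  have hder : ∀ i ≤ n, deriv (D.f^[D.τ c + i]) x =
      deriv (D.f^[i]) u * deriv (D.f^[D.τ c]) x := by
    intro i hi
    rw [hu]
    exact it_add D fun l hl => hG l (by omega)
  have hDD0 : ∀ i, D.q ^ i ≤ D.C * D.DD c i := fun i => D.ce1 c hc i
  have hq := D.hq
  have hDDp : ∀ i, 0 < D.DD c i := by
    intro i
    have h1 : 0 < D.q ^ i := by positivity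
    have h2 := hDD0 i
    by_contra hcon
    push Not at hcon
    nlinarith
  have hlow : ∀ i ≤ n, 7 / 8 * D.DD c i ≤ ‖deriv (D.f^[i]) u‖ := by
    intro i hi
    have h1 := (hpos i hi).2.1
    have h2 := norm_sub_norm_le (deriv (D.f^[i]) (D.vv c)) (deriv (D.f^[i]) u)
    rw [norm_sub_rev] at h2
    have h3 : D.DD c i = ‖deriv (D.f^[i]) (D.vv c)‖ := rfl
    linarith
  refine ⟨t, n, ht0', hn1, ?_, ?_, ht1, ht2, hS, hDDp n, ?_, ?_, ?_⟩
  · refine le_trans ?_ hn2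
    apply mul_le_mul_of_nonneg_left _ hc1.le
    apply Real.log_le_log (by positivity)
    exact one_div_le_one_div_of_le ht0' htζ
  · have h1 : Real.log (1 / t) ≤ (D.Mx + 1) * Real.log (1 / ζ) := by
      have h2 : 1 / t ≤ (1 / ζ) ^ (D.Mx + 1) := by
        have h3 : ζ ^ (D.Mx + 1) ≤ t := by
          have h4 : ζ ^ (D.Mx + 1) ≤ ζ ^ D.M c * ζ := by
            rw [← pow_succ]
            exact pow_le_pow_of_le_one hx0.le (by linarith) (by omega)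
          have h5 : D.C * ζ ≤ 1 := by nlinarith
          have h6 : D.C * (ζ ^ D.M c * ζ) ≤ D.C * t := by
            calc D.C * (ζ ^ D.M c * ζ) = ζ ^ D.M c * (D.C * ζ) := by ring
              _ ≤ ζ ^ D.M c * 1 := mul_le_mul_of_nonneg_left h5 hζM.le
              _ ≤ D.C * t := by rw [mul_one]; exact ht1
          have h7 := le_of_mul_le_mul_left h6 (by linarith)
          linarith
        rw [one_div_pow]
        exact one_div_le_one_div_of_le (by positivity) h3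
      have h3 := Real.log_le_log (by positivity) h2
      rw [Real.log_pow] at h3
      push_cast at h3
      exact h3
    calc (n : ℝ) ≤ C1 * Real.log (1 / t) := hn3
      _ ≤ C1 * ((D.Mx + 1) * Real.log (1 / ζ)) := mul_le_mul_of_nonneg_left h1 hC1.le
      _ = C1 * (D.Mx + 1) * Real.log (1 / ζ) := by ring
  · rw [hit]
    have h1 := (hpos n le_rfl).2.2.1
    have h2 : D.DD c n = ‖deriv (D.f^[n]) (D.vv c)‖ := rfl
    have h3 : ‖D.f^[n] u - D.f^[n] (D.vv c)‖ ≤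
        1 / 8 * D.DD c n * ‖u - D.vv c‖ + D.DD c n * ‖u - D.vv c‖ := by
      calc ‖D.f^[n] u - D.f^[n] (D.vv c)‖ = ‖(D.f^[n] u - D.f^[n] (D.vv c) -
            deriv (D.f^[n]) (D.vv c) * (u - D.vv c)) + deriv (D.f^[n]) (D.vv c) * (u - D.vv c)‖ := by
            rw [sub_add_cancel]
        _ ≤ _ := norm_add_le _ _
        _ ≤ _ := by rw [norm_mul, ← h2]; linarith
    have h4 : ‖u - D.vv c‖ = t / 2 := by rw [ht]; ring
    rw [h4] at h3
    have h5 : 0 < t * D.DD c n := mul_pos ht0' (hDDp n)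
    linarith
  · rw [hder n le_rfl, norm_mul]
    have h1 := hlow n le_rfl
    have h2 : 0 ≤ ‖deriv (D.f^[n]) u‖ := norm_nonneg _
    have h3 : 0 ≤ ζ ^ (D.M c - 1) := by positivity
    have h4 : D.DD c n ≤ 2 * ‖deriv (D.f^[n]) u‖ := by linarith [hDDp n]
    calc D.DD c n * ζ ^ (D.M c - 1) ≤ (2 * ‖deriv (D.f^[n]) u‖) *
          (D.C * ‖deriv (D.f^[D.τ c]) x‖) := mul_le_mul h4 hp2b h3 (by positivity)
      _ = _ := by ring
  · intro j hj
    refine ⟨hTh j hj, ?_⟩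
    have hζm : 0 < ζ ^ (D.M c - 1) := by positivity
    have hζx : ζ ^ (D.Mx + 1) ≤ ζ ^ (D.M c - 1) * ζ := by
      rw [← pow_succ]
      exact pow_le_pow_of_le_one hx0.le (by linarith) (by omega)
    rcases le_or_gt j (D.τ c) with h1 | h1
    · have h2 : deriv (D.f^[j + (D.τ c - j)]) x =
          deriv (D.f^[D.τ c - j]) (D.f^[j] x) * deriv (D.f^[j]) x :=
        it_add D fun l hl => hG l (by omega)
      rw [Nat.add_sub_cancel' h1] at h2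
      have h3 : ‖deriv (D.f^[D.τ c - j]) (D.f^[j] x)‖ ≤ D.L ^ T := by
        refine (it_bd D fun i hi => ?_).trans (pow_le_pow_right₀ hL (by have := hτT c hc; omega))
        rw [← Function.iterate_add_apply]
        exact hTδ _ (by omega)
      have h4 : ζ ^ (D.M c - 1) ≤ (D.C * D.L ^ T) * ‖deriv (D.f^[j]) x‖ := by
        rw [h2, norm_mul] at hp2b
        calc ζ ^ (D.M c - 1) ≤ D.C * (‖deriv (D.f^[D.τ c - j]) (D.f^[j] x)‖ *
              ‖deriv (D.f^[j]) x‖) := hp2b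
          _ ≤ D.C * (D.L ^ T * ‖deriv (D.f^[j]) x‖) := by gcongr
          _ = _ := by ring
      have h5 : (D.C * D.L ^ T) * ζ ^ (D.Mx + 1) ≤ (D.C * D.L ^ T) * ‖deriv (D.f^[j]) x‖ := by
        refine le_trans ?_ h4
        calc (D.C * D.L ^ T) * ζ ^ (D.Mx + 1) ≤ B * (ζ ^ (D.M c - 1) * ζ) :=
              mul_le_mul hB2 hζx (by positivity) hB0.le
          _ = (B * ζ) * ζ ^ (D.M c - 1) := by ring
          _ ≤ 1 * ζ ^ (D.M c - 1) := mul_le_mul_of_nonneg_right (by linarith) hζm.le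
          _ = _ := one_mul _
      exact le_of_mul_le_mul_left h5 (by positivity)
    · obtain ⟨i, rfl⟩ : ∃ i, j = D.τ c + i := ⟨j - D.τ c, by omega⟩
      rw [hder i (by omega), norm_mul]
      have h2 := hlow i (by omega)
      have h3 := hDD0 i
      have h4 : 1 ≤ D.q ^ i := one_le_pow₀ hq.le
      have h5 : 1 ≤ 2 * D.C * ‖deriv (D.f^[i]) u‖ := by
        have h6 : D.DD c i ≤ 2 * ‖deriv (D.f^[i]) u‖ := by linarith [hDDp i]
        have h7 : D.C * D.DD c i ≤ D.C * (2 * ‖deriv (D.f^[i]) u‖) :=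
          mul_le_mul_of_nonneg_left h6 (by linarith)
        linarith
      have h6 : ζ ^ (D.M c - 1) ≤ (2 * D.C ^ 2) *
          (‖deriv (D.f^[i]) u‖ * ‖deriv (D.f^[D.τ c]) x‖) := by
        calc ζ ^ (D.M c - 1) ≤ 1 * (D.C * ‖deriv (D.f^[D.τ c]) x‖) := by rw [one_mul]; exact hp2b
          _ ≤ (2 * D.C * ‖deriv (D.f^[i]) u‖) * (D.C * ‖deriv (D.f^[D.τ c]) x‖) :=
              mul_le_mul_of_nonneg_right h5 (by positivity)
          _ = _ := by ring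
      have h7 : (2 * D.C ^ 2) * ζ ^ (D.Mx + 1) ≤ (2 * D.C ^ 2) *
          (‖deriv (D.f^[i]) u‖ * ‖deriv (D.f^[D.τ c]) x‖) := by
        refine le_trans ?_ h6
        calc (2 * D.C ^ 2) * ζ ^ (D.Mx + 1) ≤ B * (ζ ^ (D.M c - 1) * ζ) :=
              mul_le_mul (by nlinarith [sq_nonneg D.C]) hζx (by positivity) hB0.le
          _ = (B * ζ) * ζ ^ (D.M c - 1) := by ring
          _ ≤ 1 * ζ ^ (D.M c - 1) := mul_le_mul_of_nonneg_right (by linarith) hζm.le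
          _ = _ := one_mul _
      exact le_of_mul_le_mul_left h7 (by positivity)

theorem cl_thr {α C q K : ℝ} (T Mx : ℕ) (hα : 0 < α) (hC : 1 ≤ C) (hq : 1 < q) (hK : 1 ≤ K) :
    ∃ n0 : ℕ, ∀ n : ℕ, n0 ≤ n →
      Real.exp (α * Real.log q / 4 * (T + n)) * (8 * C ^ 2 * Kn K n) ≤ (q ^ n / C) ^ α ∧
      C * (C * 2 ^ Mx) ≤ q ^ n ∧ 4 * C ^ 2 ≤ (q ^ n / (C * 2 ^ Mx)) ^ α := by
  have hlq : 0 < Real.log q := Real.log_pos hq
  obtain ⟨χ, hχ⟩ : ∃ χ : ℝ, χ = α * Real.log q / 4 := ⟨_, rfl⟩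
  have hχ0 : 0 < χ := by rw [hχ]; positivity
  have hC0 : 0 < C := by linarith
  rw [← hχ]
  have hqt : Tendsto (fun n : ℕ => q ^ n) atTop atTop := tendsto_pow_atTop_atTop_of_one_lt hq
  have e2 : ∀ᶠ n : ℕ in atTop, C * (C * 2 ^ Mx) ≤ q ^ n := hqt.eventually_ge_atTop _
  have e3 : ∀ᶠ n : ℕ in atTop, 4 * C ^ 2 ≤ (q ^ n / (C * 2 ^ Mx)) ^ α :=
    ((tendsto_rpow_atTop hα).comp (hqt.atTop_div_const (by positivity))).eventually_ge_atTop _
  have e4 : ∀ᶠ n : ℕ in atTop, Real.exp (χ * T) * (8 * C ^ 2 * K) * C ^ α *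
      (2 * Real.exp χ / χ ^ 2) ≤ (Real.exp (2 * χ)) ^ n :=
    (tendsto_pow_atTop_atTop_of_one_lt (by
      rw [← Real.exp_zero]
      exact Real.exp_lt_exp.2 (by positivity))).eventually_ge_atTop _
  obtain ⟨n0, hn0⟩ := eventually_atTop.1 (e2.and (e3.and e4))
  refine ⟨n0, fun n hn => ?_⟩
  obtain ⟨h2, h3, h4⟩ := hn0 n hn
  refine ⟨?_, h2, h3⟩
  have h5 : (q ^ n / C) ^ α * C ^ α = Real.exp (4 * χ * n) := by
    rw [← Real.mul_rpow (by positivity) hC0.le, div_mul_cancel₀ _ hC0.ne', ← Real.rpow_natCast,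
      ← Real.rpow_mul (by positivity), Real.rpow_def_of_pos (by positivity), hχ]
    congr 1
    ring
  have h6 : ((n : ℝ) + 1) ^ 2 ≤ 2 * Real.exp χ / χ ^ 2 * Real.exp (χ * n) := by
    have h7 := Real.quadratic_le_exp_of_nonneg (show 0 ≤ χ * ((n : ℝ) + 1) by positivity)
    have h8 : Real.exp (χ * ((n : ℝ) + 1)) = Real.exp χ * Real.exp (χ * n) := by
      rw [← Real.exp_add]
      congr 1
      ring
    rw [h8] at h7
    have h9 : 0 ≤ χ * ((n : ℝ) + 1) := by positivity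
    rw [div_mul_eq_mul_div, le_div_iff₀ (by positivity)]
    nlinarith
  have hCα : 0 < C ^ α := by positivity
  apply le_of_mul_le_mul_right _ hCα
  rw [h5]
  have h10 : Real.exp (χ * (T + n)) = Real.exp (χ * T) * Real.exp (χ * n) := by
    rw [← Real.exp_add]
    congr 1
    ring
  have h11 : (Real.exp (2 * χ)) ^ n = Real.exp (2 * χ * n) := by
    rw [← Real.exp_nat_mul]
    congr 1
    ring
  have h12 : Real.exp (4 * χ * n) = Real.exp (2 * χ * n) * (Real.exp (χ * n) * Real.exp (χ * n)) := by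
    rw [← Real.exp_add, ← Real.exp_add]
    congr 1
    ring
  rw [h11] at h4
  rw [h10, h12]
  unfold Kn
  calc Real.exp (χ * T) * Real.exp (χ * n) * (8 * C ^ 2 * (K * ((n : ℝ) + 1) ^ 2)) * C ^ α
      = (Real.exp (χ * T) * (8 * C ^ 2 * K) * C ^ α) * Real.exp (χ * n) * ((n : ℝ) + 1) ^ 2 := by
        ring
    _ ≤ (Real.exp (χ * T) * (8 * C ^ 2 * K) * C ^ α) * Real.exp (χ * n) *
        (2 * Real.exp χ / χ ^ 2 * Real.exp (χ * n)) :=
        mul_le_mul_of_nonneg_left h6 (by positivity)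
    _ = (Real.exp (χ * T) * (8 * C ^ 2 * K) * C ^ α * (2 * Real.exp χ / χ ^ 2)) *
        (Real.exp (χ * n) * Real.exp (χ * n)) := by ring
    _ ≤ Real.exp (2 * χ * n) * (Real.exp (χ * n) * Real.exp (χ * n)) :=
        mul_le_mul_of_nonneg_right h4 (by positivity)

theorem close (D : Ds) : ∃ (χ z1 C2 : ℝ) (N2 : ℕ), 0 < χ ∧ 0 < z1 ∧ z1 ≤ D.r0 ∧ z1 ≤ 1 / 2 ∧ 1 ≤ C2 ∧
    ∀ c ∈ D.Cr, ∀ x : ℂ, 0 < ‖x - c‖ → ‖x - c‖ ≤ z1 → ∃ k : ℕ, 1 ≤ k ∧
      (k : ℝ) ≤ C2 * Real.log (1 / ‖x - c‖) ∧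
      Real.exp (χ * k) * D.ph (D.f^[k] x) ≤ ‖deriv (D.f^[k]) x‖ * D.ph x ∧
      (∀ j ≤ k, D.f^[j] x ∈ thickening (D.δ / 4) D.J ∧ ‖x - c‖ ^ N2 ≤ ‖deriv (D.f^[j]) x‖) ∧
      D.tt x * D.ph (D.f^[k] x) ^ (2 * D.Mx) ≤
        (‖deriv (D.f^[k]) x‖ * D.ph x) ^ (2 * D.Mx) * D.tt (D.f^[k] x) := by
  obtain ⟨K, c1, C1, z0, hK, hc1, hC1, hz0, hz0r, hz0h, hdat⟩ := cl_data D
  obtain ⟨r1, κ, hr1, hr1r, hr1h, -, -, hnear, -⟩ := phi_near D
  have hα := al_pos D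
  have hC := D.hC
  have hC0 : 0 < D.C := by linarith
  have hq := D.hq
  obtain ⟨T, hT⟩ : ∃ T : ℕ, T = ∑ c ∈ D.Cr, D.τ c := ⟨_, rfl⟩
  have hτT : ∀ c ∈ D.Cr, D.τ c ≤ T := fun c hc => by
    rw [hT]
    exact Finset.single_le_sum (f := D.τ) (fun _ _ => Nat.zero_le _) hc
  obtain ⟨n0, hn0⟩ := cl_thr T D.Mx hα hC hq hK
  obtain ⟨χ, hχ⟩ : ∃ χ : ℝ, χ = D.al * Real.log D.q / 4 := ⟨_, rfl⟩
  have hlq : 0 < Real.log D.q := Real.log_pos hq
  have hχ0 : 0 < χ := by rw [hχ]; positivity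
  rw [← hχ] at hn0
  refine ⟨χ, min z0 (min r1 (Real.exp (-(((n0 : ℝ) + 1) / c1)))), C1 + 2 * T + 1, D.Mx + 1, hχ0,
    lt_min hz0 (lt_min hr1 (Real.exp_pos _)), (min_le_left _ _).trans hz0r,
    (min_le_left _ _).trans hz0h, by
      have : (0 : ℝ) ≤ T := Nat.cast_nonneg _
      linarith, ?_⟩
  intro c hc x hx0 hxz
  have hx1 := hxz.trans (min_le_left _ _)
  have hx2 := (hxz.trans (min_le_right _ _)).trans (min_le_left _ _)
  have hx3 := (hxz.trans (min_le_right _ _)).trans (min_le_right _ _)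
  obtain ⟨t, n, ht, hn1, hn2, hn3, hζ1, hζ2, hS, hDD, hxx, hΛ, hpos⟩ := hdat c hc x hx0 hx1
  obtain ⟨-, hphx, httx⟩ := hnear c hc x hx2
  obtain ⟨ζ, hζ⟩ : ∃ ζ : ℝ, ζ = ‖x - c‖ := ⟨_, rfl⟩
  rw [← hζ] at hx0 hx1 hx2 hx3 hn2 hn3 hζ1 hζ2 hΛ hphx httx hpos ⊢
  have hlog : ((n0 : ℝ) + 1) / c1 ≤ Real.log (1 / ζ) := by
    rw [one_div, Real.log_inv, le_neg, ← Real.log_exp (-(((n0 : ℝ) + 1) / c1))]
    exact Real.log_le_log hx0 hx3
  have hn0n : n0 ≤ n := by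
    have h1 : (n0 : ℝ) + 1 ≤ n := by
      have h2 := mul_le_mul_of_nonneg_left hlog hc1.le
      rw [mul_div_cancel₀ _ hc1.ne'] at h2
      linarith
    have h3 : n0 + 1 ≤ n := by exact_mod_cast h1
    omega
  obtain ⟨hthr1, hthr2, hthr3⟩ := hn0 n hn0n
  have hM2 := cl_two D hc
  have hMx := cl_Mx D hc
  have hαM := al_le D hc
  have hα4 : D.al ≤ 1 / 4 := by
    have h1 : (2 : ℝ) ≤ D.M c := by exact_mod_cast hM2
    nlinarith
  have hKn : 1 ≤ Kn K n := by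
    unfold Kn
    have h1 : (1 : ℝ) ≤ ((n : ℝ) + 1) ^ 2 := by
      have : (0 : ℝ) ≤ n := Nat.cast_nonneg _
      nlinarith
    nlinarith
  obtain ⟨k, hk⟩ : ∃ k, k = D.τ c + n := ⟨_, rfl⟩
  rw [← hk] at hxx hΛ hpos
  obtain ⟨Λ, hΛd⟩ : ∃ Λ : ℝ, Λ = ‖deriv (D.f^[k]) x‖ := ⟨_, rfl⟩
  rw [← hΛd] at hΛ
  have hΛ0 : 0 ≤ Λ := by rw [hΛd]; exact norm_nonneg _
  obtain ⟨X, hX⟩ : ∃ X : ℝ, X = Λ * D.ph x := ⟨_, rfl⟩
  have hX0 : 0 ≤ X := by rw [hX]; exact mul_nonneg hΛ0 (ph_nonneg D x)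
  obtain ⟨Y, hY⟩ : ∃ Y : ℝ, Y = D.ph (D.f^[k] x) := ⟨_, rfl⟩
  have hY0 : 0 ≤ Y := by rw [hY]; exact ph_nonneg D _
  have hXt : D.DD c n * t ^ (1 - D.al) ≤ 4 * D.C ^ 2 * X :=
    cl_X hα (by linarith) hC hx0 (by omega) ht hDD hζ2 hphx hΛ hX
  have hqn : 0 < D.q ^ n := by positivity
  -- growth
  have hG : Real.exp (χ * k) * Y ≤ X := by
    obtain ⟨c', hc', hzt⟩ := zt_ex D (D.f^[n] (D.vv c))
    have hee : D.ee c n = ‖D.f^[n] (D.vv c) - c'‖ := hzt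
    have hhit := stg_hit D hK hc hc' ht hS hee.symm
    obtain ⟨E, hE⟩ : ∃ E : ℝ, E = Kn K n * (t * D.DD c n) := ⟨_, rfl⟩
    rw [← hE] at hhit
    have htd : 0 < t * D.DD c n := mul_pos ht hDD
    have hE1 : t * D.DD c n ≤ E := by rw [hE]; nlinarith
    have hE0 : 0 < E := by linarith
    have hdist : ‖D.f^[k] x - c'‖ ≤ 2 * E := by
      calc ‖D.f^[k] x - c'‖ = ‖(D.f^[k] x - D.f^[n] (D.vv c)) + (D.f^[n] (D.vv c) - c')‖ := by
            rw [sub_add_sub_cancel]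
        _ ≤ ‖D.f^[k] x - D.f^[n] (D.vv c)‖ + ‖D.f^[n] (D.vv c) - c'‖ := norm_add_le _ _
        _ ≤ E + E := by
            rw [← hee]
            have h1 := hS.hit
            rw [← hE] at h1
            linarith
        _ = 2 * E := by ring
    have hαM' := al_le D hc'
    have hYE : Y ≤ (2 * E) ^ (1 - D.al * (D.M c' : ℝ)) := by
      rw [hY]
      exact (ph_le D hc' _).trans (Real.rpow_le_rpow (norm_nonneg _) hdist (by linarith))
    have hR1 := cl_R1 hα hC hKn ht hDD hE hqn hhit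
    have h1 : Y * (D.q ^ n / D.C) ^ D.al ≤ 8 * D.C ^ 2 * Kn K n * X := by
      calc Y * (D.q ^ n / D.C) ^ D.al ≤ (2 * E) ^ (1 - D.al * (D.M c' : ℝ)) *
            (D.q ^ n / D.C) ^ D.al := mul_le_mul_of_nonneg_right hYE (by positivity)
        _ ≤ 2 * Kn K n * (D.DD c n * t ^ (1 - D.al)) := hR1
        _ ≤ 2 * Kn K n * (4 * D.C ^ 2 * X) := mul_le_mul_of_nonneg_left hXt (by positivity)
        _ = 8 * D.C ^ 2 * Kn K n * X := by ring
    have hkT : (k : ℝ) ≤ T + n := by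
      rw [hk]
      push_cast
      have : (D.τ c : ℝ) ≤ T := by exact_mod_cast hτT c hc
      linarith
    have h2 : Real.exp (χ * k) ≤ Real.exp (χ * (T + n)) :=
      Real.exp_le_exp.2 (mul_le_mul_of_nonneg_left hkT hχ0.le)
    have h3 : 0 < 8 * D.C ^ 2 * Kn K n := by positivity
    apply le_of_mul_le_mul_left _ h3
    calc 8 * D.C ^ 2 * Kn K n * (Real.exp (χ * k) * Y)
        ≤ 8 * D.C ^ 2 * Kn K n * (Real.exp (χ * (T + n)) * Y) := by gcongr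
      _ = Y * (Real.exp (χ * (T + n)) * (8 * D.C ^ 2 * Kn K n)) := by ring
      _ ≤ Y * (D.q ^ n / D.C) ^ D.al := mul_le_mul_of_nonneg_left hthr1 hY0
      _ ≤ _ := h1
  have hYX : Y ≤ X := by
    have h1 : 1 ≤ Real.exp (χ * k) := Real.one_le_exp (by positivity)
    nlinarith
  refine ⟨k, by omega, ?_, ?_, ?_, ?_⟩
  · have h1 : (1 : ℝ) / 2 ≤ Real.log (1 / ζ) := by
      have h2 : Real.log 2 ≤ Real.log (1 / ζ) := by
        apply Real.log_le_log (by norm_num)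
        rw [le_div_iff₀ hx0]
        linarith
      have := Real.log_two_gt_d9
      linarith
    have h2 : (D.τ c : ℝ) ≤ T := by exact_mod_cast hτT c hc
    have h3 : (0 : ℝ) ≤ T := Nat.cast_nonneg _
    rw [hk]
    push_cast
    nlinarith
  · rw [← hY, ← hΛd, ← hX]
    exact hG
  · exact hpos
  · rw [← hY, ← hΛd, ← hX, httx]
    have hXY : Y ^ (2 * D.Mx) ≤ X ^ (2 * D.Mx) := pow_le_pow_left₀ hY0 hYX _
    have hζM0 : 0 < ζ ^ D.M c := by positivity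
    rcases tt_ex D (D.f^[k] x) with h1 | ⟨b, hb, h1⟩
    · rw [h1, mul_one]
      have h2 : ζ ^ D.M c ≤ 1 := by rw [← httx]; exact tt_le_one D x
      calc ζ ^ D.M c * Y ^ (2 * D.Mx) ≤ 1 * Y ^ (2 * D.Mx) :=
            mul_le_mul_of_nonneg_right h2 (by positivity)
        _ ≤ X ^ (2 * D.Mx) := by rw [one_mul]; exact hXY
    · rw [h1]
      obtain ⟨s, hs⟩ : ∃ s : ℝ, s = ‖D.f^[k] x - b‖ := ⟨_, rfl⟩
      have hYs : Y ≤ s ^ (1 - D.al * (D.M b : ℝ)) := by rw [hY, hs]; exact ph_le D hb _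
      rw [← hs]
      have hs0 : 0 ≤ s := by rw [hs]; exact norm_nonneg _
      have hb2 := cl_two D hb
      have hbx := cl_Mx D hb
      have hαb := al_le D hb
      obtain ⟨e, he⟩ : ∃ e : ℝ, e = t * D.DD c n := ⟨_, rfl⟩
      have he0 : 0 < e := by rw [he]; exact mul_pos ht hDD
      have hce2 : D.q ^ n ≤ D.C * D.DD c n * (s + e) ^ (D.M b - 1) := by
        have h2 := D.ce2 c hc b hb n
        have h3 : ‖D.f^[n] (D.vv c) - b‖ ≤ s + e := by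
          calc ‖D.f^[n] (D.vv c) - b‖ = ‖(D.f^[k] x - b) - (D.f^[k] x - D.f^[n] (D.vv c))‖ := by
                rw [sub_sub_sub_cancel_left]
            _ ≤ ‖D.f^[k] x - b‖ + ‖D.f^[k] x - D.f^[n] (D.vv c)‖ := norm_sub_le _ _
            _ ≤ s + e := by rw [← hs, he]; linarith
        refine h2.trans ?_
        exact mul_le_mul_of_nonneg_left (pow_le_pow_left₀ (norm_nonneg _) h3 _)
          (mul_nonneg hC0.le (norm_nonneg _))
      have hMpow : ∀ y : ℝ, 0 ≤ y → y * (2 * y) ^ (D.M b - 1) ≤ 2 ^ D.Mx * y ^ D.M b := by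
        intro y hy
        have h2 : D.M b = (D.M b - 1) + 1 := by omega
        have h3 : (2 : ℝ) ^ (D.M b - 1) ≤ 2 ^ D.Mx := pow_le_pow_right₀ (by norm_num) (by omega)
        calc y * (2 * y) ^ (D.M b - 1) = 2 ^ (D.M b - 1) * y ^ ((D.M b - 1) + 1) := by
              rw [mul_pow, pow_succ]; ring
          _ ≤ 2 ^ D.Mx * y ^ ((D.M b - 1) + 1) := mul_le_mul_of_nonneg_right h3 (by positivity)
          _ = _ := by rw [← h2]
      rcases le_or_gt s e with hse | hse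
      · rcases hs0.eq_or_lt with hs0' | hs0'
        · have h2 : Y = 0 := by
            apply le_antisymm _ hY0
            rw [← hs0', Real.zero_rpow (by linarith)] at hYs
            exact hYs
          have h3 : D.Mx ≠ 0 := by omega
          rw [h2, zero_pow (by omega), mul_zero, ← hs0', zero_pow (by omega), mul_zero]
        · obtain ⟨Q, hQ⟩ : ∃ Q : ℝ, Q = D.q ^ n / (D.C * 2 ^ D.Mx) := ⟨_, rfl⟩
          have hQ0 : 0 < Q := by rw [hQ]; positivity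
          have hQC : D.C ≤ Q := by
            rw [hQ, le_div_iff₀ (by positivity)]
            linarith
          have htQ : t * Q ≤ e ^ D.M b := by
            rw [hQ, mul_div_assoc', div_le_iff₀ (by positivity)]
            calc t * D.q ^ n ≤ t * (D.C * D.DD c n * (s + e) ^ (D.M b - 1)) :=
                  mul_le_mul_of_nonneg_left hce2 ht.le
              _ = D.C * (e * (s + e) ^ (D.M b - 1)) := by rw [he]; ring
              _ ≤ D.C * (e * (2 * e) ^ (D.M b - 1)) := by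
                  apply mul_le_mul_of_nonneg_left _ hC0.le
                  apply mul_le_mul_of_nonneg_left _ he0.le
                  exact pow_le_pow_left₀ (by linarith) (by linarith) _
              _ ≤ D.C * (2 ^ D.Mx * e ^ D.M b) :=
                  mul_le_mul_of_nonneg_left (hMpow e he0.le) hC0.le
              _ = e ^ D.M b * (D.C * 2 ^ D.Mx) := by ring
          have hR2 := cl_R2 hα hαb hs0' hse ht hDD he hQ0 htQ (by positivity) hXt hX0 hY0 hYs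
            (by rw [hQ]; exact hthr3)
          obtain ⟨g, hg⟩ : ∃ g : ℝ, g = s / e := ⟨_, rfl⟩
          have hg0 : 0 < g := by rw [hg]; positivity
          have hg1 : g ≤ 1 := by rw [hg, div_le_one he0]; exact hse
          have hsg : s = g * e := by rw [hg]; field_simp
          rw [← hg] at hR2
          have h2 : Y ^ (2 * D.Mx) ≤ g ^ D.M b * X ^ (2 * D.Mx) := by
            rw [pow_mul, pow_mul]
            calc (Y ^ 2) ^ D.Mx ≤ (g * X ^ 2) ^ D.Mx := pow_le_pow_left₀ (by positivity) hR2 _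
              _ = g ^ D.Mx * (X ^ 2) ^ D.Mx := mul_pow _ _ _
              _ ≤ g ^ D.M b * (X ^ 2) ^ D.Mx := by
                  apply mul_le_mul_of_nonneg_right _ (by positivity)
                  exact pow_le_pow_of_le_one hg0.le hg1 hbx
          have h3 : ζ ^ D.M c * g ^ D.M b ≤ s ^ D.M b := by
            rw [hsg, mul_pow]
            have h4 : ζ ^ D.M c ≤ e ^ D.M b := by
              calc ζ ^ D.M c ≤ D.C * t := hζ1
                _ ≤ Q * t := mul_le_mul_of_nonneg_right hQC ht.le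
                _ = t * Q := mul_comm _ _
                _ ≤ _ := htQ
            calc ζ ^ D.M c * g ^ D.M b ≤ e ^ D.M b * g ^ D.M b :=
                  mul_le_mul_of_nonneg_right h4 (by positivity)
              _ = _ := mul_comm _ _
          calc ζ ^ D.M c * Y ^ (2 * D.Mx) ≤ ζ ^ D.M c * (g ^ D.M b * X ^ (2 * D.Mx)) :=
                mul_le_mul_of_nonneg_left h2 hζM0.le
            _ = (ζ ^ D.M c * g ^ D.M b) * X ^ (2 * D.Mx) := by ring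
            _ ≤ s ^ D.M b * X ^ (2 * D.Mx) := mul_le_mul_of_nonneg_right h3 (by positivity)
            _ = _ := mul_comm _ _
      · have hs0' : 0 < s := by linarith
        have h2 : D.C * t * (D.C * 2 ^ D.Mx) ≤ s ^ D.M b * (D.C * 2 ^ D.Mx) := by
          calc D.C * t * (D.C * 2 ^ D.Mx) = t * (D.C * (D.C * 2 ^ D.Mx)) := by ring
            _ ≤ t * D.q ^ n := mul_le_mul_of_nonneg_left hthr2 ht.le
            _ ≤ t * (D.C * D.DD c n * (s + e) ^ (D.M b - 1)) :=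
                mul_le_mul_of_nonneg_left hce2 ht.le
            _ = D.C * (e * (s + e) ^ (D.M b - 1)) := by rw [he]; ring
            _ ≤ D.C * (s * (2 * s) ^ (D.M b - 1)) := by
                apply mul_le_mul_of_nonneg_left _ hC0.le
                apply mul_le_mul hse.le _ (by positivity) hs0
                exact pow_le_pow_left₀ (by linarith) (by linarith) _
            _ ≤ D.C * (2 ^ D.Mx * s ^ D.M b) := mul_le_mul_of_nonneg_left (hMpow s hs0) hC0.le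
            _ = _ := by ring
        have h3 : D.C * t ≤ s ^ D.M b := le_of_mul_le_mul_right h2 (by positivity)
        calc ζ ^ D.M c * Y ^ (2 * D.Mx) ≤ s ^ D.M b * X ^ (2 * D.Mx) :=
              mul_le_mul (hζ1.trans h3) hXY (by positivity) (by positivity)
          _ = _ := mul_comm _ _

end Pool.Agent.H44.DN
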