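import Pool.Agent.H44.DN.MDefs

/-!
# Module CNB: branches: the limit at a boundary point

PROOF. `F = Rf v0` is continuous, `F (h w) = (g w : OnePoint ℂ)` for `w ∈ ball x ρ` (`ev v0.2 (h w) ≠ 0`, `rat_coe_of_ne`). The fibre `Y = F ⁻¹' {g b}` is finite (`fiber_le` of H44/Fatou or a similar lemma: search `Finite` with `rat`; otherwise: the finite points of `Y` are zeros of the nonzero polynomial `A - (g b) B`). Let `s_k → 0`, `C_k = h '' (ball b s_k ∩ ball x ρ)` in the compact Hausdorff space `OnePoint ℂ`: preconnected (image of a convex set under a continuous map; intersected with a ball around a point of the sphere it is nonempty), decreasing.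
The sequence of closures has an intersection `K`, compact, nonempty, connected (or directly as follows). Every cluster point `U` of `h` along `𝓝[ball x ρ] b` satisfies `F U = g b` (continuity), so `U ∈ Y`. Take disjoint open neighbourhoods `N_U` of the points `U ∈ Y` (arbitrarily small). By compactness `h w ∈ ⋃ N_U` for `w ∈ ball b s ∩ ball x ρ`, `s` small (otherwise there would be a cluster point outside of `Y`). By preconnectedness all these values are in one `N_U`.
The `U` does not depend on the choice of the small neighbourhoods (smaller ones: same `U`). So `h → U`.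
-/

set_option autoImplicit false

open Filter Topology Polynomial Metric Set MeasureTheory

namespace Pool.Agent.H44.DN

open Pool.Agent.H44.Fatou Pool.Agent.H32.BT Pool.Agent.H79.Eul Pool.Agent.H79.Par Pool.Agent.H91.CE

/-- a map on a convex set with only finitely many possible limits at a point has a limit -/
theorem cnb_lim {X : Type*} [TopologicalSpace X] [CompactSpace X] [T2Space X] {φ : ℂ → X}
    {S : Set ℂ} {b : ℂ} (hS : Convex ℝ S) (hne : (𝓝[S] b).NeBot) (hφ : ContinuousOn φ S)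
    {Y : Set X} (hY : Y.Finite) (hcl : ∀ U, MapClusterPt U (𝓝[S] b) φ → U ∈ Y) :
    ∃ U, MapClusterPt U (𝓝[S] b) φ ∧ Tendsto φ (𝓝[S] b) (𝓝 U) := by
  obtain ⟨U, hU⟩ : ∃ U, ClusterPt U (map φ (𝓝[S] b)) := exists_clusterPt_of_compactSpace _
  refine ⟨U, hU, ?_⟩
  rw [tendsto_def]
  intro N' hN'
  -- separate `U` from the other points of `Y`
  obtain ⟨N1, M, hN1, hM, hUN, hYM, hdis⟩ := SeparatedNhds.of_isCompact_isCompact
    (isCompact_singleton (x := U)) ((hY.subset (diff_subset (t := {U}))).isCompact)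
    (disjoint_sdiff_right)
  obtain ⟨N2, hN2, hN2o, hUN2⟩ := mem_nhds_iff.1 hN'
  set N := N1 ∩ N2 with hN
  have hNo : IsOpen N := hN1.inter hN2o
  have hUN' : U ∈ N := ⟨hUN rfl, hUN2⟩
  have hdis' : Disjoint N M := hdis.mono_left inter_subset_left
  have hYNM : Y ⊆ N ∪ M := by
    intro V hV
    by_cases h : V = U
    · left
      rw [h]
      exact hUN'
    · right
      exact hYM ⟨hV, h⟩
  have hev : ∀ᶠ w in 𝓝[S] b, φ w ∈ N ∪ M := by
    by_contra hcon
    have hfr : ∃ᶠ w in 𝓝[S] b, φ w ∈ (N ∪ M)ᶜ := by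
      rw [Filter.not_eventually] at hcon
      exact hcon
    have hK : IsCompact (N ∪ M)ᶜ := (hNo.union hM).isClosed_compl.isCompact
    have hfr' : ∃ᶠ y in map φ (𝓝[S] b), y ∈ (N ∪ M)ᶜ := Filter.frequently_map.2 hfr
    haveI : (map φ (𝓝[S] b) ⊓ 𝓟 (N ∪ M)ᶜ).NeBot := Filter.frequently_mem_iff_neBot.1 hfr'
    obtain ⟨V, hV, hV2⟩ := hK (inf_le_right : map φ (𝓝[S] b) ⊓ 𝓟 (N ∪ M)ᶜ ≤ 𝓟 (N ∪ M)ᶜ)
    exact hV (hYNM (hcl V (hV2.mono inf_le_left)))
  rw [eventually_iff, mem_nhdsWithin_iff] at hev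
  obtain ⟨s, hs, hsub⟩ := hev
  have hpre : IsPreconnected (φ '' (ball b s ∩ S)) :=
    (((convex_ball b s).inter hS).isPreconnected).image φ (hφ.mono inter_subset_right)
  have himg : φ '' (ball b s ∩ S) ⊆ N ∪ M := by
    rintro _ ⟨w, hw, rfl⟩
    exact hsub hw
  have hmeet : (φ '' (ball b s ∩ S) ∩ N).Nonempty := by
    have h1 : ∃ᶠ w in 𝓝[S] b, φ w ∈ N := by
      have h2 := (clusterPt_iff_frequently.1 hU) N (hNo.mem_nhds hUN')
      exact Filter.frequently_map.1 h2
    have h3 : ∀ᶠ w in 𝓝[S] b, w ∈ ball b s ∩ S := by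
      apply inter_mem
      · exact mem_nhdsWithin_of_mem_nhds (ball_mem_nhds b hs)
      · exact self_mem_nhdsWithin
    obtain ⟨w, hw1, hw2⟩ := (h1.and_eventually h3).exists
    exact ⟨φ w, ⟨w, hw2, rfl⟩, hw1⟩
  have hfin := hpre.subset_left_of_subset_union hNo hM hdis' himg hmeet
  have h3 : ball b s ∩ S ∈ 𝓝[S] b := by
    apply inter_mem
    · exact mem_nhdsWithin_of_mem_nhds (ball_mem_nhds b hs)
    · exact self_mem_nhdsWithin
  filter_upwards [h3] with w hw
  exact hN2 (hfin ⟨w, hw, rfl⟩).2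

/-- the fibre of a rational map over a finite point is finite -/
theorem cnb_fin {d : ℕ} (hd : 2 ≤ d) {v0 : E d} (hcop : IsCoprime (pol v0.1) (pol v0.2))
    (hdeg : max (pol v0.1).natDegree (pol v0.2).natDegree = d) (y : ℂ) :
    (Rf v0 ⁻¹' {(y : OnePoint ℂ)}).Finite := by
  have hne : pol v0.1 - C y * pol v0.2 ≠ 0 := by
    intro h0
    have h1 : pol v0.1 = C y * pol v0.2 := sub_eq_zero.1 h0
    have h2 : pol v0.2 ∣ pol v0.1 := ⟨C y, by rw [h1, mul_comm]⟩
    have h3 : IsUnit (pol v0.2) := hcop.symm.isUnit_of_dvd' dvd_rfl h2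
    have h4 : (pol v0.2).natDegree = 0 := natDegree_eq_zero_of_isUnit h3
    have h5 : (pol v0.1).natDegree ≤ 0 := by
      rw [h1]
      calc (C y * pol v0.2).natDegree ≤ (C y).natDegree + (pol v0.2).natDegree :=
            natDegree_mul_le
        _ = 0 := by rw [natDegree_C, h4]
    rw [h4] at hdeg
    omega
  have hroots : {z : ℂ | (pol v0.1 - C y * pol v0.2).IsRoot z}.Finite :=
    Polynomial.finite_setOf_isRoot hne
  apply ((hroots.image ((↑) : ℂ → OnePoint ℂ)).union (Set.finite_singleton (OnePoint.infty))).subset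
  intro u hu
  induction u using OnePoint.rec with
  | infty => right; rfl
  | coe z =>
    left
    refine ⟨z, ?_, rfl⟩
    have h1 : rat (pol v0.1) (pol v0.2) (z : OnePoint ℂ) = (y : OnePoint ℂ) := hu
    by_cases hz : (pol v0.2).eval z = 0
    · exfalso
      rw [rat_coe] at h1
      unfold pt at h1
      rw [if_pos hz] at h1
      exact OnePoint.infty_ne_coe y h1
    · rw [rat_coe_of_ne hz] at h1
      have h2 : (pol v0.1).eval z / (pol v0.2).eval z = y := OnePoint.coe_injective h1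
      rw [Set.mem_setOf_eq, IsRoot, eval_sub, eval_mul, eval_C, ← h2, div_mul_cancel₀ _ hz,
        sub_self]

theorem sol_lim {d : ℕ} (hd : 2 ≤ d) {v0 : E d} (hcop : IsCoprime (pol v0.1) (pol v0.2))
    (hdeg : max (pol v0.1).natDegree (pol v0.2).natDegree = d) {g h : ℂ → ℂ} {x b : ℂ} {ρ : ℝ}
    (hρ : 0 < ρ) (hb : ‖b - x‖ = ρ) (hh : ContinuousOn h (ball x ρ)) (hgc : ContinuousAt g b)
    (he : ∀ w ∈ ball x ρ, ev v0.2 (h w) ≠ 0 ∧ it v0 1 (h w) = g w) :
    ∃ U : OnePoint ℂ, Tendsto (fun w : ℂ => ((h w : ℂ) : OnePoint ℂ)) (𝓝[ball x ρ] b) (𝓝 U) ∧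
      Rf v0 U = (g b : OnePoint ℂ) := by
  have hcont : Continuous (Rf v0) := rat_continuous hcop
  have hgb : Tendsto (fun w : ℂ => ((g w : ℂ) : OnePoint ℂ)) (𝓝[ball x ρ] b)
      (𝓝 (g b : OnePoint ℂ)) :=
    ((OnePoint.continuous_coe.tendsto _).comp hgc.tendsto).mono_left nhdsWithin_le_nhds
  have heq : ∀ w ∈ ball x ρ, Rf v0 ((h w : ℂ) : OnePoint ℂ) = (g w : OnePoint ℂ) := by
    intro w hw
    obtain ⟨h1, h2⟩ := he w hw
    have h3 : (pol v0.2).eval (h w) ≠ 0 := by
      rw [pol_eval]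
      exact h1
    change rat (pol v0.1) (pol v0.2) ((h w : ℂ) : OnePoint ℂ) = _
    rw [rat_coe_of_ne h3, pol_eval, pol_eval, ← h2]
    rfl
  have hclu : ∀ U : OnePoint ℂ,
      MapClusterPt U (𝓝[ball x ρ] b) (fun w : ℂ => ((h w : ℂ) : OnePoint ℂ)) →
      Rf v0 U = (g b : OnePoint ℂ) := by
    intro U hU
    rw [mapClusterPt_iff_ultrafilter] at hU
    obtain ⟨u, hu, hu2⟩ := hU
    have h1 : Tendsto (fun w : ℂ => Rf v0 ((h w : ℂ) : OnePoint ℂ)) u (𝓝 (Rf v0 U)) :=
      (hcont.tendsto U).comp hu2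
    have h2 : Tendsto (fun w : ℂ => Rf v0 ((h w : ℂ) : OnePoint ℂ)) u
        (𝓝 (g b : OnePoint ℂ)) := by
      apply (hgb.mono_left hu).congr'
      have h3 : ∀ᶠ w in 𝓝[ball x ρ] b, ((g w : ℂ) : OnePoint ℂ) = Rf v0 ((h w : ℂ) : OnePoint ℂ) :=
        eventually_nhdsWithin_of_forall fun w hw => (heq w hw).symm
      exact hu h3
    exact tendsto_nhds_unique h1 h2
  have hnb : (𝓝[ball x ρ] b).NeBot := by
    rw [← mem_closure_iff_nhdsWithin_neBot, closure_ball x hρ.ne', mem_closedBall,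
      dist_eq_norm, hb]
  obtain ⟨U, hU, hlim⟩ := cnb_lim (convex_ball x ρ) hnb
    (OnePoint.continuous_coe.comp_continuousOn hh) (cnb_fin hd hcop hdeg (g b)) hclu
  exact ⟨U, hlim, hclu U hU⟩

end Pool.Agent.H44.DN
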