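import Pool.Agent.H44.DN.CNM
import Pool.Agent.H44.DN.CNB
import Pool.Agent.H44.DN.AVD
import Pool.Agent.H44.DN.ITG

/-!
# Module CNF: continuation of inverse branches of a rational map

PROOF. `f = it v0 1`, `G = {z | ev v0.2 z ≠ 0}` (open), `f` is holomorphic on `G` (`tr_hasDerivAt_ev`) with `deriv f z = wv v0 z / ev v0.2 z ^ 2`. `f^[i] ∘ g = id` on `ball x r` with the points `f^[j] (g w) ∈ G` for `j < i`: `f^[i]` is differentiable at `g w` (`itg_diff`), so `deriv g w ≠ 0` (chain rule). `sol_max`. In the second case: `ρ, b, h`; `b ∈ ball x r` (`ρ < r`), `sol_lim` gives `U`, `F U = g b`, `F = Rf v0`.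
`F^[i+1] U = F^[i] (g b) = f^[i] (g b) = b` (`rat_coe_of_ne` at the points `f^[j] (g b) ∈ G`, `j < i`), and `b ∈ ball x r ⊆ thickening δ J`. So by the last statement of `havd` `U ≠ ∞`: `U = u`, `h → u` along `ball x ρ` at `b` (`OnePoint` embedding). `ev v0.2 u ≠ 0`, otherwise `F u = ∞`. So `u ∈ G`, `f u = g b`. If `deriv f u ≠ 0`, `sol_agree` contradicts the last statement of `sol_max`. So `wv v0 u = 0`; if `u ∉ J`, `havd` gives a contradiction as before (`F^[i+1] u = b`). So `c = u`.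
-/

set_option autoImplicit false

open Filter Topology Polynomial Metric Set MeasureTheory

namespace Pool.Agent.H44.DN

open Pool.Agent.H44.Fatou Pool.Agent.H32.BT Pool.Agent.H79.Eul Pool.Agent.H79.Par Pool.Agent.H91.CE

private theorem cnf_it {d : ℕ} (v0 : E d) : it v0 1 = fun z => ev v0.1 z / ev v0.2 z := rfl

private theorem cnf_step {d : ℕ} (v0 : E d) {z : ℂ} (hz : ev v0.2 z ≠ 0) :
    Rf v0 (z : OnePoint ℂ) = ((it v0 1 z : ℂ) : OnePoint ℂ) := by
  show rat (pol v0.1) (pol v0.2) (z : OnePoint ℂ) = _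
  rw [rat_coe, pol_eval, pol_eval]
  unfold pt
  rw [if_neg hz]
  rfl

private theorem cnf_iter {d : ℕ} (v0 : E d) {z : ℂ} (n : ℕ)
    (h : ∀ j < n, ev v0.2 ((it v0 1)^[j] z) ≠ 0) :
    (Rf v0)^[n] (z : OnePoint ℂ) = (((it v0 1)^[n] z : ℂ) : OnePoint ℂ) := by
  induction n with
  | zero => rfl
  | succ n ih =>
    rw [Function.iterate_succ_apply', Function.iterate_succ_apply',
      ih (fun j hj => h j (Nat.lt_succ_of_lt hj)), cnf_step v0 (h n (Nat.lt_succ_self n))]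

theorem cn_rat {d : ℕ} (hd : 2 ≤ d) {v0 : E d} (hcop : IsCoprime (pol v0.1) (pol v0.2))
    (hdeg : max (pol v0.1).natDegree (pol v0.2).natDegree = d) {δ : ℝ}
    (havd : ∀ x : OnePoint ℂ, (x = OnePoint.infty ∨ ∃ c : ℂ, wv v0 c = 0 ∧ c ∉ JJ v0 ∧
      x = (c : OnePoint ℂ)) → ∀ (n : ℕ) (y : ℂ), (Rf v0)^[n] x = (y : OnePoint ℂ) →
        y ∉ cthickening δ (JJ v0)) :
    ∀ (i : ℕ) (x : ℂ) (r : ℝ) (g : ℂ → ℂ) (u0 : ℂ), 0 < r → ball x r ⊆ thickening δ (JJ v0) →
    DifferentiableOn ℂ g (ball x r) →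
    (∀ w ∈ ball x r, (it v0 1)^[i] (g w) = w ∧ ∀ j < i, ev v0.2 ((it v0 1)^[j] (g w)) ≠ 0) →
    ev v0.2 u0 ≠ 0 → it v0 1 u0 = g x → deriv (it v0 1) u0 ≠ 0 →
    (∃ h : ℂ → ℂ, DifferentiableOn ℂ h (ball x r) ∧ h x = u0 ∧
      ∀ w ∈ ball x r, ev v0.2 (h w) ≠ 0 ∧ it v0 1 (h w) = g w) ∨
    ∃ (ρ : ℝ) (b c : ℂ) (h : ℂ → ℂ), 0 < ρ ∧ ρ < r ∧ ‖b - x‖ = ρ ∧ (wv v0 c = 0 ∧ c ∈ JJ v0) ∧
      g b = it v0 1 c ∧ DifferentiableOn ℂ h (ball x ρ) ∧ h x = u0 ∧
      (∀ w ∈ ball x ρ, ev v0.2 (h w) ≠ 0 ∧ it v0 1 (h w) = g w) ∧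
        Tendsto h (𝓝[ball x ρ] b) (𝓝 c) := by
  intro i x r g u0 hr hball hg hgi hu0 he hd0
  have hevc : Continuous (fun z : ℂ => ev v0.2 z) :=
    ev_cont.comp (continuous_const.prodMk continuous_id)
  have hG : IsOpen {z : ℂ | ev v0.2 z ≠ 0} := isOpen_ne_fun hevc continuous_const
  have hder : ∀ z, ev v0.2 z ≠ 0 → HasDerivAt (it v0 1) (wv v0 z / ev v0.2 z ^ 2) z :=
    fun z hz => tr_hasDerivAt_ev v0 z hz
  have hf : DifferentiableOn ℂ (it v0 1) {z : ℂ | ev v0.2 z ≠ 0} := fun z hz =>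
    (hder z hz).differentiableAt.differentiableWithinAt
  have hg' : ∀ w ∈ ball x r, deriv g w ≠ 0 := by
    intro w hw h0
    have h1 : DifferentiableAt ℂ ((it v0 1)^[i]) (g w) :=
      itg_diff hG hf (fun j hj => (hgi w hw).2 j hj)
    have h2 : DifferentiableAt ℂ g w := hg.differentiableAt (isOpen_ball.mem_nhds hw)
    have h3 : HasDerivAt ((it v0 1)^[i] ∘ g) (deriv ((it v0 1)^[i]) (g w) * deriv g w) w :=
      h1.hasDerivAt.comp w h2.hasDerivAt
    have h4 : ((it v0 1)^[i] ∘ g) =ᶠ[𝓝 w] id := by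
      filter_upwards [isOpen_ball.mem_nhds hw] with w' hw'
      exact (hgi w' hw').1
    have h5 : HasDerivAt ((it v0 1)^[i] ∘ g) 1 w := (hasDerivAt_id w).congr_of_eventuallyEq h4
    have h6 := h3.unique h5
    rw [h0, mul_zero] at h6
    exact zero_ne_one h6
  rcases sol_max hG hf hr hg hg' hu0 he hd0 with ⟨h, hx, hs⟩ | ⟨ρ, b, h, hρ, hρr, hb, hx, hs, hno⟩
  · left
    exact ⟨h, hs.1, hx, fun w hw => hs.2 w hw⟩
  · right
    have hbr : b ∈ ball x r := by
      rw [mem_ball, dist_eq_norm, hb]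
      exact hρr
    have hgb : DifferentiableAt ℂ g b := hg.differentiableAt (isOpen_ball.mem_nhds hbr)
    obtain ⟨U, hU, hFU⟩ := sol_lim hd hcop hdeg hρ hb hs.1.continuousOn hgb.continuousAt
      (fun w hw => hs.2 w hw)
    have hFi : (Rf v0)^[i + 1] U = (b : OnePoint ℂ) := by
      rw [Function.iterate_succ_apply, hFU, cnf_iter v0 i (hgi b hbr).2, (hgi b hbr).1]
    have hbJ : b ∈ cthickening δ (JJ v0) := thickening_subset_cthickening _ _ (hball hbr)
    have hUne : U ≠ OnePoint.infty := fun h0 => havd U (Or.inl h0) (i + 1) b hFi hbJ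
    obtain ⟨u, rfl⟩ := OnePoint.ne_infty_iff_exists.1 hUne
    have hlim : Tendsto h (𝓝[ball x ρ] b) (𝓝 u) :=
      (OnePoint.isOpenEmbedding_coe.isEmbedding.tendsto_nhds_iff).2 hU
    have huG : ev v0.2 u ≠ 0 := by
      intro h0
      have h1 : Rf v0 (u : OnePoint ℂ) = OnePoint.infty := by
        show rat (pol v0.1) (pol v0.2) (u : OnePoint ℂ) = _
        rw [rat_coe, pol_eval, pol_eval]
        unfold pt
        rw [if_pos h0]
      rw [h1] at hFU
      exact OnePoint.infty_ne_coe _ hFU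
    have hfu : it v0 1 u = g b := by
      have h1 := cnf_step v0 huG
      rw [hFU] at h1
      exact (OnePoint.coe_injective h1).symm
    have hdu : deriv (it v0 1) u = 0 := by
      by_contra hne
      apply hno
      have hr' : 0 < r - ρ := by linarith
      have hsub : ball b (r - ρ) ⊆ ball x r := by
        intro w hw
        rw [mem_ball, dist_eq_norm] at hw ⊢
        have h1 : w - x = (w - b) + (b - x) := by ring
        rw [h1]
        refine lt_of_le_of_lt (norm_add_le _ _) ?_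
        rw [hb]
        linarith
      exact sol_agree hG hf hr' (hg.mono hsub) hs huG hfu hne hlim
    have hwv : wv v0 u = 0 := by
      rw [(hder u huG).deriv, div_eq_zero_iff] at hdu
      rcases hdu with h1 | h1
      · exact h1
      · exact absurd h1 (pow_ne_zero 2 huG)
    have huJ : u ∈ JJ v0 := by
      by_contra hne
      exact havd (u : OnePoint ℂ) (Or.inr ⟨u, hwv, hne, rfl⟩) (i + 1) b hFi hbJ
    exact ⟨ρ, b, u, h, hρ, hρr, hb, ⟨hwv, huJ⟩, hfu.symm, hs.1, hx, fun w hw => hs.2 w hw, hlim⟩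

end Pool.Agent.H44.DN
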