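import Pool.Agent.H44.DN.CNU

/-!
# Module CNG: branches: gluing along a circle

PROOF. `S = sphere x ρ` is compact; by the Lebesgue number lemma there is one `s > 0` such that for every `b ∈ S` there is a branch `h_b` on `ball b s` (contained in `ball x r`) which agrees with `h` on `ball b s ∩ ball x ρ`. Let `ρ' = ρ + s / 4` (and `≤ r`). For `w ∉ ball x ρ`, `w ∈ ball x ρ'` let `b(w) = x + ρ (w - x) / ‖w - x‖ ∈ S`, `‖w - b(w)‖ < s/4`. `h'' w = h w` on `ball x ρ`, `h'' w = h_(b(w)) w` otherwise.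
Near a point `w1 ∈ ball x ρ'` with `‖w1 - x‖ ≥ ρ`, `b1 = b(w1)`: for `w` near `w1`: if `w ∈ ball x ρ` then `h'' w = h w = h_b1 w`. Otherwise `b = b(w)` is near `b1`; `h_b` and `h_b1` are branches on the convex open set `ball b s ∩ ball b1 s`, which contains a point of `ball x ρ` (near `b1`, on the segment to `x`), where both agree with `h`. By `sol_uniq` they agree at `w`. So `h'' = h_b1` near `w1`: differentiable, and the equations hold.
-/

set_option autoImplicit false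

open Filter Topology Metric Set

namespace Pool.Agent.H44.DN

theorem sol_glue {f g h : ℂ → ℂ} {G : Set ℂ} (hG : IsOpen G) (hf : DifferentiableOn ℂ f G) {x : ℂ}
    {ρ r : ℝ} (hρ : 0 < ρ) (hρr : ρ < r) (hg : DifferentiableOn ℂ g (ball x r))
    (hg' : ∀ w ∈ ball x r, deriv g w ≠ 0) (hs : Sol f G g h (ball x ρ))
    (hb : ∀ b ∈ sphere x ρ, ∃ (s : ℝ) (h' : ℂ → ℂ), 0 < s ∧ Sol f G g h' (ball b s) ∧
      ∀ w ∈ ball b s ∩ ball x ρ, h' w = h w) :
    ∃ (ρ' : ℝ) (h'' : ℂ → ℂ), ρ < ρ' ∧ ρ' ≤ r ∧ Sol f G g h'' (ball x ρ') ∧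
      EqOn h'' h (ball x ρ) := by
  classical
  obtain ⟨s, hs0, hsr, H, hH⟩ : ∃ s : ℝ, 0 < s ∧ s ≤ r - ρ ∧ ∃ H : ℂ → ℂ → ℂ,
      ∀ b ∈ sphere x ρ, Sol f G g (H b) (ball b s) ∧
        ∀ w ∈ ball b s ∩ ball x ρ, H b w = h w := by
    choose! sb hb' hpos hsol hag using hb
    obtain ⟨δ, hδ, hleb⟩ := lebesgue_number_lemma_of_metric (isCompact_sphere x ρ)
      (c := fun b : sphere x ρ => ball (b : ℂ) (sb b)) (fun _ => isOpen_ball)
      (fun b hb => mem_iUnion.2 ⟨⟨b, hb⟩, mem_ball_self (hpos b hb)⟩)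
    have hex : ∀ b ∈ sphere x ρ, ∃ h' : ℂ → ℂ, Sol f G g h' (ball b (min δ (r - ρ))) ∧
        ∀ w ∈ ball b (min δ (r - ρ)) ∩ ball x ρ, h' w = h w := by
      intro b hb
      obtain ⟨i, hi⟩ := hleb b hb
      have hsub : ball b (min δ (r - ρ)) ⊆ ball (i : ℂ) (sb i) :=
        (ball_subset_ball (min_le_left _ _)).trans hi
      obtain ⟨hd, he⟩ := hsol _ i.2
      exact ⟨hb' i, ⟨hd.mono hsub, fun w hw => he w (hsub hw)⟩,
        fun w hw => hag _ i.2 w ⟨hsub hw.1, hw.2⟩⟩
    choose! H hH using hex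
    exact ⟨min δ (r - ρ), lt_min hδ (by linarith), min_le_right _ _, H, hH⟩
  have hcon : ∀ b ∈ sphere x ρ, ∀ b' ∈ sphere x ρ, ∀ w, w ∈ ball b (s / 2) →
      w ∈ ball b' (s / 2) → H b w = H b' w := by
    intro b hb b' hb' w hw hw'
    have hbb : dist b b' < s := by
      have := dist_triangle_left b b' w
      rw [mem_ball] at hw hw'
      linarith
    have hUo : IsOpen (ball b s ∩ ball b' s) := isOpen_ball.inter isOpen_ball
    have hUc : IsPreconnected (ball b s ∩ ball b' s) :=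
      ((convex_ball b s).inter (convex_ball b' s)).isPreconnected
    have hbU : b ∈ ball b s ∩ ball b' s := ⟨mem_ball_self hs0, hbb⟩
    have hbcl : b ∈ closure (ball x ρ) := by
      rw [closure_ball x hρ.ne']
      exact sphere_subset_closedBall hb
    obtain ⟨v, hvU, hvx⟩ := mem_closure_iff.1 hbcl _ hUo hbU
    have hUr : ball b s ∩ ball b' s ⊆ ball x r := by
      intro u hu
      have h1 : dist u b < s := hu.1
      have h2 : dist b x = ρ := hb
      rw [mem_ball]
      have := dist_triangle u b x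
      linarith
    have h3 := sol_uniq hG hf hUo hUc (hg.mono hUr) (fun w hw => hg' w (hUr hw))
      (h1 := H b) (h2 := H b')
      ⟨(hH b hb).1.1.mono inter_subset_left, fun w hw => (hH b hb).1.2 w hw.1⟩
      ⟨(hH b' hb').1.1.mono inter_subset_right, fun w hw => (hH b' hb').1.2 w hw.2⟩ hvU
      (by rw [(hH b hb).2 v ⟨hvU.1, hvx⟩, (hH b' hb').2 v ⟨hvU.2, hvx⟩])
    exact h3 ⟨ball_subset_ball (by linarith) hw, ball_subset_ball (by linarith) hw'⟩
  set h'' : ℂ → ℂ := fun w => if w ∈ ball x ρ then h w else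
    if hw : ∃ b, b ∈ sphere x ρ ∧ w ∈ ball b (s / 2) then H (Classical.choose hw) w else 0
    with hh''
  have hin : ∀ w ∈ ball x ρ, h'' w = h w := fun w hw => by
    simp only [hh'', if_pos hw]
  have hout : ∀ b ∈ sphere x ρ, ∀ w ∈ ball b (s / 2), h'' w = H b w := by
    intro b hb w hw
    by_cases hwx : w ∈ ball x ρ
    · rw [hin w hwx, (hH b hb).2 w ⟨ball_subset_ball (by linarith) hw, hwx⟩]
    · have hex : ∃ b, b ∈ sphere x ρ ∧ w ∈ ball b (s / 2) := ⟨b, hb, hw⟩
      simp only [hh'', if_neg hwx, dif_pos hex]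
      obtain ⟨h1, h2⟩ := Classical.choose_spec hex
      exact hcon _ h1 b hb w h2 hw
  have hloc : ∀ w ∈ ball x (ρ + s / 4), ∃ (V : Set ℂ) (k : ℂ → ℂ), IsOpen V ∧ w ∈ V ∧
      Sol f G g k V ∧ ∀ v ∈ V, h'' v = k v := by
    intro w hw
    by_cases hwx : w ∈ ball x ρ
    · exact ⟨ball x ρ, h, isOpen_ball, hwx, hs, hin⟩
    · have h1 : ρ ≤ ‖w - x‖ := by
        rw [mem_ball, dist_eq_norm] at hwx
        exact not_lt.1 hwx
      have h2 : ‖w - x‖ < ρ + s / 4 := by
        rwa [mem_ball, dist_eq_norm] at hw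
      have h3 : 0 < ‖w - x‖ := by linarith
      set b : ℂ := x + ((ρ / ‖w - x‖ : ℝ) : ℂ) * (w - x) with hbdef
      have hb : b ∈ sphere x ρ := by
        rw [mem_sphere, dist_eq_norm, hbdef, add_sub_cancel_left, norm_mul, Complex.norm_real,
          Real.norm_eq_abs, abs_of_pos (by positivity), div_mul_cancel₀ _ h3.ne']
      have hwb : w ∈ ball b (s / 2) := by
        rw [mem_ball, dist_eq_norm]
        have e : w - b = ((1 - ρ / ‖w - x‖ : ℝ) : ℂ) * (w - x) := by
          rw [hbdef]; push_cast; ring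
        have h4 : 0 ≤ 1 - ρ / ‖w - x‖ := by
          rw [sub_nonneg, div_le_one h3]
          exact h1
        rw [e, norm_mul, Complex.norm_real, Real.norm_eq_abs, abs_of_nonneg h4, sub_mul, one_mul,
          div_mul_cancel₀ _ h3.ne']
        linarith
      refine ⟨ball b (s / 2), H b, isOpen_ball, hwb, ?_, hout b hb⟩
      have hsub : ball b (s / 2) ⊆ ball b s := ball_subset_ball (by linarith)
      exact ⟨(hH b hb).1.1.mono hsub, fun v hv => (hH b hb).1.2 v (hsub hv)⟩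
  refine ⟨ρ + s / 4, h'', by linarith, by linarith, ⟨?_, ?_⟩, hin⟩
  · intro w hw
    obtain ⟨V, k, hV, hwV, hk, hkV⟩ := hloc w hw
    have h1 : DifferentiableAt ℂ k w := hk.1.differentiableAt (hV.mem_nhds hwV)
    have h2 : h'' =ᶠ[𝓝 w] k := by
      filter_upwards [hV.mem_nhds hwV] with v hv using hkV v hv
    exact (h2.differentiableAt_iff.2 h1).differentiableWithinAt
  · intro w hw
    obtain ⟨V, k, hV, hwV, hk, hkV⟩ := hloc w hw
    rw [hkV w hwV]
    exact hk.2 w hwV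

end Pool.Agent.H44.DN
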