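import Pool.Agent.H44.DN.CNG

/-!
# Module CNM: branches: the maximal disc

PROOF. Let `R` be the set of the `ρ ∈ (0, r]` such that a branch on `ball x ρ` with value `u0` at `x` exists: nonempty (`sol_loc`). `ρ1 = sSup R ≤ r`. Branches on smaller discs agree (`sol_uniq`, balls are convex), so they define a branch `h` on `ball x ρ1` (for `w ∈ ball x ρ1` choose `ρ ∈ R` with `‖w - x‖ < ρ`). If `ρ1 = r`: first case. Otherwise, if every `b ∈ sphere x ρ1` had a local extension, `sol_glue` would give a larger disc. So there is `b` without: second case.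
-/

set_option autoImplicit false

open Filter Topology Metric Set

namespace Pool.Agent.H44.DN

theorem sol_max {f g : ℂ → ℂ} {G : Set ℂ} (hG : IsOpen G) (hf : DifferentiableOn ℂ f G) {x u0 : ℂ}
    {r : ℝ} (hr : 0 < r) (hg : DifferentiableOn ℂ g (ball x r))
    (hg' : ∀ w ∈ ball x r, deriv g w ≠ 0) (hu0 : u0 ∈ G) (he : f u0 = g x) (hd : deriv f u0 ≠ 0) :
    (∃ h : ℂ → ℂ, h x = u0 ∧ Sol f G g h (ball x r)) ∨
    ∃ (ρ : ℝ) (b : ℂ) (h : ℂ → ℂ), 0 < ρ ∧ ρ < r ∧ ‖b - x‖ = ρ ∧ h x = u0 ∧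
      Sol f G g h (ball x ρ) ∧ ¬ ∃ (s : ℝ) (h' : ℂ → ℂ), 0 < s ∧ Sol f G g h' (ball b s) ∧
        ∀ w ∈ ball b s ∩ ball x ρ, h' w = h w := by
  classical
  set R : Set ℝ := {ρ | 0 < ρ ∧ ρ ≤ r ∧ ∃ h : ℂ → ℂ, h x = u0 ∧ Sol f G g h (ball x ρ)} with hR
  have hRne : R.Nonempty := by
    obtain ⟨s, h, hs0, hsr, hhx, hsol⟩ := sol_loc hG hf hr hg hu0 he hd
    exact ⟨s, hs0, hsr, h, hhx, hsol⟩
  have hRbd : BddAbove R := ⟨r, fun ρ hρ => hρ.2.1⟩
  set ρ1 : ℝ := sSup R with hρ1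
  have hρ1r : ρ1 ≤ r := csSup_le hRne fun ρ hρ => hρ.2.1
  have hρ1pos : 0 < ρ1 := by
    obtain ⟨ρ, hρ⟩ := hRne
    exact lt_of_lt_of_le hρ.1 (le_csSup hRbd hρ)
  -- uniqueness
  have huniq : ∀ ρ ρ' : ℝ, ∀ h h' : ℂ → ℂ, 0 < ρ → ρ ≤ r → 0 < ρ' → h x = u0 → h' x = u0 →
      Sol f G g h (ball x ρ) → Sol f G g h' (ball x ρ') → ∀ w, w ∈ ball x ρ → w ∈ ball x ρ' →
      h w = h' w := by
    intro ρ ρ' h h' h0 hr' h0' hx hx' hs hs' w hw hw'
    have hsub : ball x (min ρ ρ') ⊆ ball x ρ := ball_subset_ball (min_le_left _ _)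
    have hsub' : ball x (min ρ ρ') ⊆ ball x ρ' := ball_subset_ball (min_le_right _ _)
    have hsubr : ball x (min ρ ρ') ⊆ ball x r := hsub.trans (ball_subset_ball hr')
    have h1 : Sol f G g h (ball x (min ρ ρ')) :=
      ⟨hs.1.mono hsub, fun w hw => hs.2 w (hsub hw)⟩
    have h2 : Sol f G g h' (ball x (min ρ ρ')) :=
      ⟨hs'.1.mono hsub', fun w hw => hs'.2 w (hsub' hw)⟩
    have := sol_uniq hG hf isOpen_ball (convex_ball x (min ρ ρ')).isPreconnected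
      (hg.mono hsubr) (fun w hw => hg' w (hsubr hw)) h1 h2
      (mem_ball_self (lt_min h0 h0')) (by rw [hx, hx'])
    apply this
    rw [mem_ball] at hw hw' ⊢
    exact lt_min hw hw'
  have hex : ∀ w ∈ ball x ρ1, ∃ ρ : ℝ, ρ ∈ R ∧ w ∈ ball x ρ := by
    intro w hw
    rw [mem_ball] at hw
    obtain ⟨ρ, hρR, hlt⟩ := exists_lt_of_lt_csSup hRne hw
    exact ⟨ρ, hρR, hlt⟩
  have hR3 : ∀ ρ ∈ R, ∃ h : ℂ → ℂ, h x = u0 ∧ Sol f G g h (ball x ρ) := fun ρ hρ => hρ.2.2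
  choose! H hHx hHs using hR3
  choose! P hPR hPm using hex
  let h : ℂ → ℂ := fun w => H (P w) w
  have hagree : ∀ ρ ∈ R, ∀ w ∈ ball x ρ, h w = H ρ w := by
    intro ρ hρ w hw
    have hw1 : w ∈ ball x ρ1 := ball_subset_ball (le_csSup hRbd hρ) hw
    exact huniq (P w) ρ (H (P w)) (H ρ) (hPR w hw1).1 (hPR w hw1).2.1 hρ.1
      (hHx _ (hPR w hw1)) (hHx _ hρ) (hHs _ (hPR w hw1)) (hHs _ hρ) w (hPm w hw1) hw
  have hhx : h x = u0 := by
    have hx1 : x ∈ ball x ρ1 := mem_ball_self hρ1pos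
    exact hHx _ (hPR x hx1)
  have hsol : Sol f G g h (ball x ρ1) := by
    refine ⟨fun w hw => ?_, fun w hw => ?_⟩
    · have hwR := hPR w hw
      have hwm := hPm w hw
      have hd1 : DifferentiableAt ℂ (H (P w)) w :=
        ((hHs _ hwR).1 w hwm).differentiableAt (isOpen_ball.mem_nhds hwm)
      have he1 : h =ᶠ[𝓝 w] H (P w) := by
        filter_upwards [isOpen_ball.mem_nhds hwm] with z hz
        exact hagree _ hwR z hz
      exact (hd1.congr_of_eventuallyEq he1).differentiableWithinAt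
    · exact (hHs _ (hPR w hw)).2 w (hPm w hw)
  rcases hρ1r.lt_or_eq with hlt | heq
  · right
    by_contra hcon
    have hall : ∀ b ∈ sphere x ρ1, ∃ (s : ℝ) (h' : ℂ → ℂ), 0 < s ∧ Sol f G g h' (ball b s) ∧
        ∀ w ∈ ball b s ∩ ball x ρ1, h' w = h w := by
      intro b hb
      by_contra hno
      apply hcon
      refine ⟨ρ1, b, h, hρ1pos, hlt, ?_, hhx, hsol, hno⟩
      rw [mem_sphere, dist_eq_norm] at hb
      exact hb
    obtain ⟨ρ', h'', hρ', hρ'r, hs'', heq⟩ := sol_glue hG hf hρ1pos hlt hg hg' hsol hall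
    have hmem : ρ' ∈ R := by
      refine ⟨hρ1pos.trans hρ', hρ'r, h'', ?_, hs''⟩
      rw [heq (mem_ball_self hρ1pos), hhx]
    have := le_csSup hRbd hmem
    linarith
  · left
    refine ⟨h, hhx, ?_⟩
    rw [← heq]
    exact hsol

end Pool.Agent.H44.DN
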