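import Pool.Agent.H44.DN.MDefs

/-!
# Module CNU: branches: uniqueness, local existence

PROOFS. `g w` is a value of `f` and `f'(h w) h'(w) = g'(w) ≠ 0`, so `f' (h w) ≠ 0`. (1) UNIQUENESS: `{w ∈ U | h1 w = h2 w}` is relatively closed in `U`; it is open: let `h1 w = h2 w = u`; `f` is injective near `u` (`deriv f u ≠ 0`: `HasStrictDerivAt` and local injectivity; `f` is holomorphic on the open `G`), `h1, h2` are continuous and `f ∘ h1 = g = f ∘ h2`, so they agree near `w`. `U` preconnected (`IsPreconnected.subset_clopen` or a similar lemma for relatively clopen sets, e.g. `IsPreconnected.subset_of_closure_inter_subset`).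
(2) LOCAL EXISTENCE: the local inverse `ψ` of `f` at `u0` (`HasStrictDerivAt.localInverse`, or `OpenPartialHomeomorph` of the inverse function theorem), holomorphic near `f u0 = g w0`; `h = ψ ∘ g` on a small ball.
(3) AGREEMENT: if `h` is a branch on `U`, `w0 ∈ closure U`, `h → u0` along `𝓝[U] w0`, `f u0 = g w0`, `deriv f u0 ≠ 0`, then the branch `h'` of (2) agrees with `h` on `ball w0 s ∩ U` for small `s`: `f` is injective near `u0`, `h w` and `h' w` are near `u0` for `w` near `w0`.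
-/

set_option autoImplicit false

open Filter Topology Metric Set

namespace Pool.Agent.H44.DN

/-- the local inverse of a holomorphic function -/
theorem cnu_inv {f : ℂ → ℂ} {G : Set ℂ} (hG : IsOpen G) (hf : DifferentiableOn ℂ f G) {u0 : ℂ}
    (hu0 : u0 ∈ G) (hd : deriv f u0 ≠ 0) : ∃ ψ : ℂ → ℂ, ψ (f u0) = u0 ∧
      (∀ᶠ y in 𝓝 (f u0), DifferentiableAt ℂ ψ y) ∧ (∀ᶠ y in 𝓝 (f u0), f (ψ y) = y) ∧
      ∀ᶠ x in 𝓝 u0, ψ (f x) = x := by
  have h1 : ContDiffAt ℂ 1 f u0 := (hf.analyticAt (hG.mem_nhds hu0)).contDiffAt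
  have h2 : HasDerivAt f (deriv f u0) u0 :=
    ((hf u0 hu0).differentiableAt (hG.mem_nhds hu0)).hasDerivAt
  have h3 := h2.hasFDerivAt_equiv hd
  refine ⟨h1.localInverse h3 one_ne_zero, h1.localInverse_apply_image h3 one_ne_zero, ?_, ?_, ?_⟩
  · have h4 := (h1.to_localInverse h3 one_ne_zero).eventually (by simp)
    filter_upwards [h4] with y hy
    exact hy.differentiableAt (by simp)
  · exact (h1.hasStrictFDerivAt' h3 one_ne_zero).eventually_right_inverse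
  · exact (h1.hasStrictFDerivAt' h3 one_ne_zero).eventually_left_inverse

/-- a branch takes values where the derivative does not vanish -/
theorem cnu_ne {f g h : ℂ → ℂ} {G U : Set ℂ} (hG : IsOpen G) (hf : DifferentiableOn ℂ f G)
    (hU : IsOpen U) (hs : Sol f G g h U) {w : ℂ} (hw : w ∈ U) (hg' : deriv g w ≠ 0) :
    deriv f (h w) ≠ 0 := by
  intro h0
  have h1 : HasDerivAt h (deriv h w) w :=
    ((hs.1 w hw).differentiableAt (hU.mem_nhds hw)).hasDerivAt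
  have h2 : HasDerivAt f (deriv f (h w)) (h w) :=
    ((hf (h w) (hs.2 w hw).1).differentiableAt (hG.mem_nhds (hs.2 w hw).1)).hasDerivAt
  have h3 := h2.comp w h1
  have h4 : g =ᶠ[𝓝 w] f ∘ h := by
    filter_upwards [hU.mem_nhds hw] with v hv
    exact ((hs.2 v hv).2).symm
  have h5 := h3.congr_of_eventuallyEq h4
  rw [h5.deriv, h0, zero_mul] at hg'
  exact hg' rfl

theorem sol_uniq {f g h1 h2 : ℂ → ℂ} {G U : Set ℂ} (hG : IsOpen G) (hf : DifferentiableOn ℂ f G)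
    (hU : IsOpen U) (hc : IsPreconnected U) (hg : DifferentiableOn ℂ g U)
    (hg' : ∀ w ∈ U, deriv g w ≠ 0) (h1s : Sol f G g h1 U) (h2s : Sol f G g h2 U) {w0 : ℂ}
    (hw0 : w0 ∈ U) (he : h1 w0 = h2 w0) : EqOn h1 h2 U := by
  have hopen : IsOpen {w | w ∈ U ∧ h1 w = h2 w} := by
    rw [isOpen_iff_mem_nhds]
    rintro w ⟨hw, hweq⟩
    obtain ⟨ψ, -, -, -, hψ⟩ := cnu_inv hG hf (h1s.2 w hw).1
      (cnu_ne hG hf hU h1s hw (hg' w hw))
    have hc1 : ContinuousAt h1 w := ((h1s.1 w hw).differentiableAt (hU.mem_nhds hw)).continuousAt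
    have hc2 : ContinuousAt h2 w := ((h2s.1 w hw).differentiableAt (hU.mem_nhds hw)).continuousAt
    have e1 : ∀ᶠ v in 𝓝 w, ψ (f (h1 v)) = h1 v := hc1.eventually hψ
    have hψ2 : ∀ᶠ x in 𝓝 (h2 w), ψ (f x) = x := by rw [← hweq]; exact hψ
    have e2 : ∀ᶠ v in 𝓝 w, ψ (f (h2 v)) = h2 v := hc2.eventually hψ2
    filter_upwards [e1, e2, hU.mem_nhds hw] with v hv1 hv2 hv
    refine ⟨hv, ?_⟩
    rw [← hv1, ← hv2, (h1s.2 v hv).2, (h2s.2 v hv).2]
  have hsub : U ⊆ {w | w ∈ U ∧ h1 w = h2 w} := by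
    refine hc.subset_of_closure_inter_subset hopen ⟨w0, hw0, hw0, he⟩ ?_
    rintro w ⟨hwcl, hw⟩
    refine ⟨hw, ?_⟩
    have hc1 : ContinuousAt h1 w := ((h1s.1 w hw).differentiableAt (hU.mem_nhds hw)).continuousAt
    have hc2 : ContinuousAt h2 w := ((h2s.1 w hw).differentiableAt (hU.mem_nhds hw)).continuousAt
    have hne : (𝓝[{w | w ∈ U ∧ h1 w = h2 w}] w).NeBot := mem_closure_iff_nhdsWithin_neBot.mp hwcl
    have t1 : Tendsto h1 (𝓝[{w | w ∈ U ∧ h1 w = h2 w}] w) (𝓝 (h1 w)) :=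
      hc1.mono_left nhdsWithin_le_nhds
    have t2 : Tendsto h2 (𝓝[{w | w ∈ U ∧ h1 w = h2 w}] w) (𝓝 (h2 w)) :=
      hc2.mono_left nhdsWithin_le_nhds
    have t3 : Tendsto h1 (𝓝[{w | w ∈ U ∧ h1 w = h2 w}] w) (𝓝 (h2 w)) := by
      refine t2.congr' ?_
      filter_upwards [self_mem_nhdsWithin] with v hv
      exact hv.2.symm
    exact tendsto_nhds_unique t1 t3
  exact fun w hw => (hsub hw).2

theorem sol_loc {f g : ℂ → ℂ} {G : Set ℂ} (hG : IsOpen G) (hf : DifferentiableOn ℂ f G) {w0 u0 : ℂ}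
    {r : ℝ} (hr : 0 < r) (hg : DifferentiableOn ℂ g (ball w0 r)) (hu0 : u0 ∈ G) (he : f u0 = g w0)
    (hd : deriv f u0 ≠ 0) : ∃ (s : ℝ) (h : ℂ → ℂ), 0 < s ∧ s ≤ r ∧ h w0 = u0 ∧
      Sol f G g h (ball w0 s) := by
  obtain ⟨ψ, hψ0, hψd, hψr, -⟩ := cnu_inv hG hf hu0 hd
  have hgc : ContinuousAt g w0 :=
    ((hg w0 (mem_ball_self hr)).differentiableAt (ball_mem_nhds w0 hr)).continuousAt
  rw [he] at hψ0 hψd hψr
  have hψc : ContinuousAt ψ (g w0) := hψd.self_of_nhds.continuousAt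
  have e1 : ∀ᶠ w in 𝓝 w0, DifferentiableAt ℂ ψ (g w) := hgc.eventually hψd
  have e2 : ∀ᶠ w in 𝓝 w0, f (ψ (g w)) = g w := hgc.eventually hψr
  have e3 : ∀ᶠ w in 𝓝 w0, ψ (g w) ∈ G := by
    have h1 : ContinuousAt (fun w => ψ (g w)) w0 := ContinuousAt.comp hψc hgc
    refine h1.eventually (hG.mem_nhds ?_)
    change ψ (g w0) ∈ G
    rw [hψ0]
    exact hu0
  obtain ⟨s0, hs0, hs1⟩ := Metric.eventually_nhds_iff_ball.mp (e1.and (e2.and e3))
  refine ⟨min s0 r, fun w => ψ (g w), lt_min hs0 hr, min_le_right _ _, hψ0, ?_, ?_⟩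
  · intro w hw
    have hw1 : w ∈ ball w0 s0 := ball_subset_ball (min_le_left _ _) hw
    have hw2 : w ∈ ball w0 r := ball_subset_ball (min_le_right _ _) hw
    have h1 : DifferentiableAt ℂ g w := (hg w hw2).differentiableAt (isOpen_ball.mem_nhds hw2)
    exact (DifferentiableAt.comp w (hs1 w hw1).1 h1).differentiableWithinAt
  · intro w hw
    have hw1 : w ∈ ball w0 s0 := ball_subset_ball (min_le_left _ _) hw
    exact ⟨(hs1 w hw1).2.2, (hs1 w hw1).2.1⟩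

theorem sol_agree {f g h : ℂ → ℂ} {G U : Set ℂ} (hG : IsOpen G) (hf : DifferentiableOn ℂ f G)
    {w0 u0 : ℂ} {r : ℝ} (hr : 0 < r) (hg : DifferentiableOn ℂ g (ball w0 r))
    (hs : Sol f G g h U) (hu0 : u0 ∈ G) (he : f u0 = g w0) (hd : deriv f u0 ≠ 0)
    (hlim : Tendsto h (𝓝[U] w0) (𝓝 u0)) : ∃ (s : ℝ) (h' : ℂ → ℂ), 0 < s ∧
      Sol f G g h' (ball w0 s) ∧ ∀ w ∈ ball w0 s ∩ U, h' w = h w := by
  obtain ⟨s1, h', hs1, hs1r, hh', hsol⟩ := sol_loc hG hf hr hg hu0 he hd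
  obtain ⟨ψ, -, -, -, hψ⟩ := cnu_inv hG hf hu0 hd
  have hc1 : ContinuousAt h' w0 := ((hsol.1 w0 (mem_ball_self hs1)).differentiableAt
    (ball_mem_nhds w0 hs1)).continuousAt
  have e1 : ∀ᶠ w in 𝓝 w0, ψ (f (h' w)) = h' w := by
    have hψ2 : ∀ᶠ x in 𝓝 (h' w0), ψ (f x) = x := by rw [hh']; exact hψ
    exact hc1.eventually hψ2
  have e2 : ∀ᶠ w in 𝓝[U] w0, ψ (f (h w)) = h w := hlim.eventually hψ
  rw [eventually_nhdsWithin_iff] at e2
  obtain ⟨s0, hs0, hs2⟩ := Metric.eventually_nhds_iff_ball.mp (e1.and e2)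
  refine ⟨min s0 s1, h', lt_min hs0 hs1, ⟨hsol.1.mono (ball_subset_ball (min_le_right _ _)),
    fun w hw => hsol.2 w (ball_subset_ball (min_le_right _ _) hw)⟩, ?_⟩
  rintro w ⟨hw, hwU⟩
  have hw1 : w ∈ ball w0 s0 := ball_subset_ball (min_le_left _ _) hw
  have hw2 : w ∈ ball w0 s1 := ball_subset_ball (min_le_right _ _) hw
  rw [← (hs2 w hw1).1, ← (hs2 w hw1).2 hwU, (hsol.2 w hw2).2, (hs.2 w hwU).2]

end Pool.Agent.H44.DN
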