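import Pool.Agent.H44.DN.QDefs

/-!
# Module COMP: families: discs in the Fatou set are good

PROOF. `K = closedBall 0 R \ thickening δ1 J` is compact and disjoint from `J` (`J ⊆ thickening δ1 J`). For `z ∈ K` take `ε_z` from `X.att`; finitely many balls `ball z (ε_z)` cover `K` (if `K` is empty any `ε` works); `ε` is the minimum of the `ε_z`.
-/

set_option autoImplicit false

open Filter Topology Metric Set

namespace Pool.Agent.H44.DN

theorem comp (D : Ds) (X : Fam D) {δ1 R : ℝ} (hδ : 0 < δ1) : ∃ ε : ℝ, 0 < ε ∧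
    ∀ u ∈ ball (0 : ℂ) ε, ∀ n : ℕ, (∀ i < n, X.g i u ∈ thickening D.δ D.J) → ‖X.g n u‖ ≤ R →
      X.g n u ∉ thickening δ1 D.J → X.P u := by
  classical
  have hK : IsCompact (closedBall (0 : ℂ) R \ thickening δ1 D.J) :=
    (isCompact_closedBall (0 : ℂ) R).diff isOpen_thickening
  have key : ∃ ε : ℝ, 0 < ε ∧ ∀ u ∈ ball (0 : ℂ) ε, ∀ n : ℕ,
      (∀ i < n, X.g i u ∈ thickening D.δ D.J) →
        X.g n u ∈ closedBall (0 : ℂ) R \ thickening δ1 D.J → X.P u := by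
    refine hK.induction_on (p := fun K : Set ℂ => ∃ ε : ℝ, 0 < ε ∧ ∀ u ∈ ball (0 : ℂ) ε, ∀ n : ℕ,
      (∀ i < n, X.g i u ∈ thickening D.δ D.J) → X.g n u ∈ K → X.P u) ?_ ?_ ?_ ?_
    · exact ⟨1, one_pos, fun u _ n _ h => absurd h (notMem_empty _)⟩
    · rintro s t hst ⟨ε, hε, h⟩
      exact ⟨ε, hε, fun u hu n h1 h2 => h u hu n h1 (hst h2)⟩
    · rintro s t ⟨ε, hε, h⟩ ⟨ε', hε', h'⟩
      refine ⟨min ε ε', lt_min hε hε', fun u hu n h1 h2 => ?_⟩
      rcases h2 with h2 | h2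
      · exact h u (ball_subset_ball (min_le_left _ _) hu) n h1 h2
      · exact h' u (ball_subset_ball (min_le_right _ _) hu) n h1 h2
    · intro z hz
      have hzJ : z ∉ D.J := fun hzJ => hz.2 (self_subset_thickening hδ D.J hzJ)
      obtain ⟨ε, hε, h⟩ := X.att z hzJ
      exact ⟨ball z ε, mem_nhdsWithin_of_mem_nhds (ball_mem_nhds z hε), ε, hε, h⟩
  obtain ⟨ε, hε, h⟩ := key
  exact ⟨ε, hε, fun u hu n h1 h2 h3 => h u hu n h1 ⟨mem_closedBall_zero_iff.2 h2, h3⟩⟩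

end Pool.Agent.H44.DN
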