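import Pool.Agent.H44.DN.ATB
import Pool.Agent.H44.LD.CHLD
import Pool.Agent.H32.BT.Top

/-!
# Module DCH: a good chart with infinity attracted

PROOF. As `chart_ld` (H44/LD/CHLD; copy). The set `W` of the attracted points is open (`att_isOpen`) and dense, so there is an attracted point `x0` (by a sink, so `Ty12`), and `chld_open`, `avoid_open` give an open nonempty `U` whose points are in no closure of a critical orbit. `U' = U ∩ W` is open and nonempty (density). `good_U` with `U'`: the point `s ∈ U'`, not periodic, not critical, not on a critical orbit, the homeomorphism `φ`, `hconj`. `Chart0 (Lin s v0)` and `¬ IsCrit (Rf (Lin s v0)) ∞` as there. `Att (Rf (Lin s v0)) (φ x) ↔ Att (Rf v0) x` (`att_conj`, H32/BT/Top, or directly).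
`φ s = ∞`: `∞` is attracted. Density: a nonempty open `V ⊆ ℂ` is open in the sphere (`OnePoint.isOpenEmbedding_coe`), `φ ⁻¹' V` is open and nonempty, so it meets `W`. The critical points: `c = φ c'`, `c'` is critical for `Rf v0`; if it is attracted so is `c`; otherwise `gr_conj` as in `chart_ld` with the compact set `KK` (the union of the closures of the critical orbits, which does not contain `s`).
-/

set_option autoImplicit false

open Filter Topology Polynomial Metric Set MeasureTheory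

namespace Pool.Agent.H44.DN

open Pool.Agent.H44.Fatou Pool.Agent.H32.BT Pool.Agent.H79.Eul Pool.Agent.H79.Par Pool.Agent.H35.RL Pool.Agent.H35.EX Pool.Agent.H91.CE Pool.Agent.H44.LD

/-- an open set of points converging to the cycle of an attracted point -/
private theorem dch_open {d : ℕ} (hd : 2 ≤ d) {v0 : E d} (hcop : IsCoprime (pol v0.1) (pol v0.2))
    (hdeg : max (pol v0.1).natDegree (pol v0.2).natDegree = d) {x z : OnePoint ℂ} {n : ℕ}
    (hT : Ty12 (Rf v0) x z n) : ∃ U : Set (OnePoint ℂ), IsOpen U ∧ x ∈ U ∧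
      ∀ y ∈ U, Pool.Agent.H80.AJ.CL (Rf v0) y z n := by
  have hev : ∀ᶠ y in 𝓝 x, Pool.Agent.H80.AJ.CL (Rf v0) y z n := by
    rcases hT with h1 | h1
    · exact Pool.Agent.H80.AJ.ty1_open (rat_continuous hcop) h1
    · exact Pool.Agent.H80.AJ.ty2_open hcop (by rw [hdeg]; omega) h1
  obtain ⟨U, hUs, hUo, hxU⟩ := mem_nhds_iff.1 hev
  exact ⟨U, hUo, hxU, fun y hy => hUs hy⟩

open Pool.Agent.H80.AJ in
theorem chart_dn {d : ℕ} (hd : 2 ≤ d) {v0 : E d} (hcop : IsCoprime (pol v0.1) (pol v0.2))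
    (hdeg : max (pol v0.1).natDegree (pol v0.2).natDegree = d)
    (h : ∀ c, IsCrit (Rf v0) c → Att (Rf v0) c ∨ ∃ m : ℕ, CEAt (Rf v0) ((Rf v0)^[m] c))
    (hdn : Dense {x : OnePoint ℂ | Att (Rf v0) x}) :
    ∃ s : ℂ, Chart0 (Lin s v0) ∧ ¬ IsCrit (Rf (Lin s v0)) OnePoint.infty ∧
      Att (Rf (Lin s v0)) OnePoint.infty ∧
      Dense {z : ℂ | Att (Rf (Lin s v0)) (z : OnePoint ℂ)} ∧
      ∀ c : ℂ, IsCrit (Rf (Lin s v0)) (c : OnePoint ℂ) →
        Att (Rf (Lin s v0)) (c : OnePoint ℂ) ∨ ∃ m : ℕ, Gr (Lin s v0) (it (Lin s v0) m c) := by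
  classical
  have hd1 : 1 ≤ max (pol v0.1).natDegree (pol v0.2).natDegree := by rw [hdeg]; omega
  have hd2 : 2 ≤ max (pol v0.1).natDegree (pol v0.2).natDegree := by rw [hdeg]; exact hd
  have hcont : Continuous (Rf v0) := rat_continuous hcop
  have hfin : {c | IsCrit (Rf v0) c}.Finite := crit_finite hcop hd1
  obtain ⟨x0, z0, n0, hT0⟩ : ∃ (x : OnePoint ℂ) (z : OnePoint ℂ) (n : ℕ), Ty12 (Rf v0) x z n := by
    obtain ⟨x, z, n, h1, h2⟩ := hdn.nonempty
    exact ⟨x, z, n, Or.inl ⟨h1, h2⟩⟩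
  obtain ⟨U0, hU0, hx0, hU0C⟩ := dch_open hd hcop hdeg hT0
  obtain ⟨U, hU, hUn, hUd⟩ := avoid_open hcont hfin hU0 ⟨x0, hx0⟩ hU0C
  have hWo : IsOpen {x : OnePoint ℂ | Att (Rf v0) x} := att_isOpen hcont
  obtain ⟨S, hS⟩ : ∃ S : Set (OnePoint ℂ), S =
      ({x : OnePoint ℂ | ∃ n : ℕ, 0 < n ∧ (Rf v0)^[n] x = x} ∪ {c | IsCrit (Rf v0) c}) ∪
      (⋃ c ∈ {c | IsCrit (Rf v0) c}, Set.range (fun j : ℕ => (Rf v0)^[j] c)) := ⟨_, rfl⟩
  have hScount : S.Countable := by
    rw [hS]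
    exact ((per_all_countable hcop hd2).union hfin.countable).union
      (hfin.countable.biUnion fun c _ => Set.countable_range _)
  obtain ⟨s, φ, hsS, hsU', hφs, hφ, hφi, hconj, hcop1, hdeg1⟩ := good_U hd hcop hdeg hScount
    (hU.inter hWo) (hdn.inter_open_nonempty U hU hUn)
  have hsU : (s : OnePoint ℂ) ∈ U := hsU'.1
  have hsW : Att (Rf v0) (s : OnePoint ℂ) := hsU'.2
  rw [hS] at hsS
  have hs0 : ∀ n : ℕ, 0 < n → (Rf v0)^[n] (s : OnePoint ℂ) ≠ s :=
    fun n hn hh => hsS (Or.inl (Or.inl ⟨n, hn, hh⟩))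
  have hs1 : ¬ IsCrit (Rf v0) (s : OnePoint ℂ) :=
    fun hh => hsS (Or.inl (Or.inr hh))
  have hs2 : ∀ c, IsCrit (Rf v0) c → ∀ j, (Rf v0)^[j] c ≠ (s : OnePoint ℂ) := by
    intro c hc j hj
    apply hsS
    refine Or.inr ?_
    rw [Set.mem_iUnion₂]
    exact ⟨c, hc, j, hj⟩
  have hne : ∀ x : OnePoint ℂ, x ≠ (s : OnePoint ℂ) → φ x ≠ OnePoint.infty := by
    intro x hx hh
    rw [← hφs] at hh
    exact hx (φ.injective hh)
  have hic : ∀ (j : ℕ) (x : OnePoint ℂ), (Rf (Lin s v0))^[j] (φ x) = φ ((Rf v0)^[j] x) :=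
    fun j x => iter_conj φ hconj j x
  have hac : ∀ x : OnePoint ℂ, Att (Rf (Lin s v0)) (φ x) ↔ Att (Rf v0) x :=
    fun x => att_conj φ hconj x
  -- the compact set
  obtain ⟨KK, hKKe⟩ : ∃ KK : Set (OnePoint ℂ), KK = ⋃ c ∈ {c | IsCrit (Rf v0) c},
    closure (Set.range (fun j : ℕ => (Rf v0)^[j] c)) := ⟨_, rfl⟩
  have hKKc : IsCompact KK := by
    rw [hKKe]
    exact (hfin.isClosed_biUnion fun c _ => isClosed_closure).isCompact
  have hsKK : (s : OnePoint ℂ) ∉ KK := by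
    rw [hKKe, Set.mem_iUnion₂]
    rintro ⟨c, hc, hcs⟩
    exact Set.disjoint_left.1 (hUd c hc) hcs hsU
  have hKKm : ∀ x ∈ KK, Rf v0 x ∈ KK := by
    intro x hx
    rw [hKKe, Set.mem_iUnion₂] at hx ⊢
    obtain ⟨c, hc, hx⟩ := hx
    refine ⟨c, hc, ?_⟩
    have h1 : MapsTo (Rf v0) (Set.range (fun j : ℕ => (Rf v0)^[j] c))
        (Set.range (fun j : ℕ => (Rf v0)^[j] c)) := by
      rintro _ ⟨j, rfl⟩
      exact ⟨j + 1, Function.iterate_succ_apply' _ _ _⟩
    exact h1.closure hcont hx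
  have hKKi : ∀ c, IsCrit (Rf v0) c → ∀ j, (Rf v0)^[j] c ∈ KK := by
    intro c hc j
    rw [hKKe, Set.mem_iUnion₂]
    exact ⟨c, hc, subset_closure ⟨j, rfl⟩⟩
  have hKKit : ∀ (n : ℕ), ∀ x ∈ KK, (Rf v0)^[n] x ∈ KK := by
    intro n
    induction n with
    | zero => intro x hx; exact hx
    | succ n ih =>
      intro x hx
      rw [Function.iterate_succ_apply']
      exact hKKm _ (ih x hx)
  have hKfin : ∀ x ∈ KK, φ x ≠ OnePoint.infty := by
    intro x hx
    apply hne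
    intro hh
    rw [hh] at hx
    exact hsKK hx
  have horb : ∀ w : ℂ, (∃ x ∈ KK, φ x = (w : OnePoint ℂ)) →
      (∀ n, Orb (Lin s v0) (fun j => it (Lin s v0) j w) n) ∧
      ∀ j, (Rf (Lin s v0))^[j] (w : OnePoint ℂ) = ((it (Lin s v0) j w : ℂ) : OnePoint ℂ) := by
    rintro w ⟨x, hx, hxw⟩
    apply orb_all
    intro j
    rw [← hxw, hic]
    exact hKfin _ (hKKit j x hx)
  have hcomp : IsCompact {w : ℂ | ∃ x ∈ KK, φ x = (w : OnePoint ℂ)} := by
    rw [OnePoint.isOpenEmbedding_coe.isInducing.isCompact_iff]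
    have h1 : ((fun w : ℂ => (w : OnePoint ℂ)) '' {w : ℂ | ∃ x ∈ KK, φ x = (w : OnePoint ℂ)})
        = φ '' KK := by
      ext y
      constructor
      · rintro ⟨w, ⟨x, hx, hxw⟩, rfl⟩
        exact ⟨x, hx, hxw⟩
      · rintro ⟨x, hx, rfl⟩
        obtain ⟨w, hw⟩ := OnePoint.ne_infty_iff_exists.1 (hKfin x hx)
        exact ⟨w, ⟨x, hx, hw.symm⟩, hw⟩
    have h2 : IsCompact (φ '' KK) := hKKc.image φ.continuous
    rw [← h1] at h2
    exact h2
  have hchart : Chart0 (Lin s v0) := by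
    refine ⟨hcop1, hdeg1, ?_, ?_⟩
    · intro n hn hcon
      rw [← hφs, hic] at hcon
      exact hs0 n hn (φ.injective hcon)
    · intro c hc j
      obtain ⟨c', rfl⟩ := φ.surjective c
      rw [isCrit_conj φ hconj] at hc
      rw [hic]
      exact hne _ (hs2 c' hc j)
  refine ⟨s, hchart, ?_, ?_, ?_, ?_⟩
  · rw [← hφs, isCrit_conj φ hconj]
    exact hs1
  · rw [← hφs, hac]
    exact hsW
  · rw [dense_iff_inter_open]
    intro V hV hVn
    have h1 : IsOpen (((↑) : ℂ → OnePoint ℂ) '' V) := OnePoint.isOpenEmbedding_coe.isOpenMap V hV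
    have h2 : (φ ⁻¹' (((↑) : ℂ → OnePoint ℂ) '' V)).Nonempty := by
      obtain ⟨z, hz⟩ := hVn
      obtain ⟨x, hx⟩ := φ.surjective (z : OnePoint ℂ)
      exact ⟨x, z, hz, hx.symm⟩
    obtain ⟨x, ⟨z, hz, hzx⟩, hxA⟩ := hdn.inter_open_nonempty _ (h1.preimage φ.continuous) h2
    refine ⟨z, hz, ?_⟩
    show Att (Rf (Lin s v0)) (z : OnePoint ℂ)
    rw [hzx, hac]
    exact hxA
  · intro c hc
    obtain ⟨c', hc'⟩ := φ.surjective (c : OnePoint ℂ)
    have hcr : IsCrit (Rf v0) c' := by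
      rw [← isCrit_conj φ hconj, hc']
      exact hc
    rcases h c' hcr with hA | ⟨m, hm⟩
    · left
      rw [← hc', hac]
      exact hA
    · have hcK : ∃ x ∈ KK, φ x = (c : OnePoint ℂ) := ⟨c', hKKi c' hcr 0, hc'⟩
      have hitK : ∀ j, ∃ x ∈ KK, φ x = ((it (Lin s v0) j c : ℂ) : OnePoint ℂ) := by
        intro j
        refine ⟨(Rf v0)^[j] c', hKKi c' hcr j, ?_⟩
        rw [← (horb c hcK).2 j, ← hc', hic]
      refine Or.inr ⟨m, ?_⟩
      have hxw : φ ((Rf v0)^[m] c') = ((it (Lin s v0) m c : ℂ) : OnePoint ℂ) := by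
        rw [← (horb c hcK).2 m, ← hc', hic]
      refine gr_conj hφs hφ hφi hconj hxw hm hcomp ?_ ?_
      · intro j
        have h1 := hitK (j + m)
        rw [it_add] at h1
        exact h1
      · intro j
        rw [← hxw, hic]
        exact hKfin _ (hKKit j _ (hKKi c' hcr m))

end Pool.Agent.H44.DN
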