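import Pool.Agent.H44.LD.SCALM

/-!
# Module DDY: from a geometric sequence of radii to all radii

PROOF. `r_j = (rad j / 2)^M = (3/8)^M (1/2)^(j M)` decreases to `0`, `r_j = 2^M r_(j+1)`. For `0 < r < r_0` choose `j` with `r_(j+1) < r ≤ r_j` (`Nat.find`), then `j → ∞` as `r → 0+`, and `prop_scale`: `prop v0 X r ≤ ofReal ((r_j / r)^D) * prop v0 X r_j ≤ ofReal ((2^M)^D) * prop v0 X r_j`. `ENNReal.tendsto_nhds_zero`.
-/

set_option autoImplicit false

open Filter Topology Polynomial Metric Set MeasureTheory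

namespace Pool.Agent.H44.DN

open Pool.Agent.H44.Fatou Pool.Agent.H32.BT Pool.Agent.H79.Eul Pool.Agent.H79.Par Pool.Agent.H35.RL Pool.Agent.H35.EX Pool.Agent.H91.CE Pool.Agent.H44.LD

theorem ddy {d : ℕ} {v0 : E d} {X : E d → Prop} {M : ℕ} (hM : 1 ≤ M)
    (h : Tendsto (fun j : ℕ => prop v0 X ((rad j / 2) ^ M)) atTop (𝓝 0)) :
    Tendsto (fun r : ℝ => prop v0 X r) (𝓝[>] 0) (𝓝 0) := by
  set K : ENNReal := ENNReal.ofReal (((2 : ℝ) ^ M) ^ Module.finrank ℝ (E d)) with hK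
  have hK0 : K ≠ 0 := (ENNReal.ofReal_pos.2 (by positivity)).ne'
  have hKt : K ≠ ⊤ := ENNReal.ofReal_ne_top
  have hrpos : ∀ j : ℕ, 0 < (rad j / 2) ^ M := fun j => by
    unfold rad
    positivity
  have hstep : ∀ j : ℕ, (rad j / 2) ^ M = 2 ^ M * (rad (j + 1) / 2) ^ M := by
    intro j
    rw [← mul_pow]
    congr 1
    unfold rad
    rw [pow_succ]
    ring
  have hlim : Tendsto (fun j : ℕ => (rad j / 2) ^ M) atTop (𝓝 0) := by
    have h1 : Tendsto (fun j : ℕ => rad j / 2) atTop (𝓝 0) := by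
      unfold rad
      have h2 := (tendsto_pow_atTop_nhds_zero_of_lt_one (r := (1 / 2 : ℝ)) (by norm_num)
        (by norm_num)).const_mul (3 / 4 : ℝ)
      have h3 := h2.div_const 2
      simpa using h3
    have h4 := h1.pow M
    rwa [zero_pow (by omega)] at h4
  rw [ENNReal.tendsto_nhds_zero] at h ⊢
  intro ε hε
  have h5 : 0 < ε / K := ENNReal.div_pos hε.ne' hKt
  obtain ⟨j0, hj0⟩ := eventually_atTop.1 (h (ε / K) h5)
  filter_upwards [Ioo_mem_nhdsGT (hrpos j0)] with r hr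
  have hex : ∃ j : ℕ, (rad j / 2) ^ M < r := by
    obtain ⟨j, hj⟩ := (hlim.eventually (gt_mem_nhds hr.1)).exists
    exact ⟨j, hj⟩
  classical
  set j1 := Nat.find hex with hj1
  have hj1s : (rad j1 / 2) ^ M < r := Nat.find_spec hex
  have hanti : ∀ i j : ℕ, i ≤ j → (rad j / 2) ^ M ≤ (rad i / 2) ^ M := by
    intro i j hij
    have h6 : rad j ≤ rad i := by
      unfold rad
      exact mul_le_mul_of_nonneg_left (pow_le_pow_of_le_one (by norm_num) (by norm_num) hij)
        (by norm_num)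
    have h7 : 0 ≤ rad j := by
      unfold rad
      positivity
    gcongr
  have hj1pos : j0 < j1 := by
    by_contra hcon
    have h8 := hanti j1 j0 (not_lt.1 hcon)
    linarith [hr.2]
  obtain ⟨j, hj⟩ : ∃ j, j1 = j + 1 := ⟨j1 - 1, by omega⟩
  have hjr : r ≤ (rad j / 2) ^ M := by
    have h9 := Nat.find_min hex (m := j) (by rw [← hj1, hj]; omega)
    exact not_lt.1 h9
  have h10 := prop_scale v0 X hr.1 hjr
  have h11 : (rad j / 2) ^ M / r ≤ 2 ^ M := by
    rw [div_le_iff₀ hr.1, hstep j, ← hj]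
    have h2M : (0 : ℝ) < 2 ^ M := by positivity
    exact mul_le_mul_of_nonneg_left hj1s.le h2M.le
  calc prop v0 X r ≤ ENNReal.ofReal (((rad j / 2) ^ M / r) ^ Module.finrank ℝ (E d)) *
        prop v0 X ((rad j / 2) ^ M) := h10
    _ ≤ K * (ε / K) := by
        refine mul_le_mul' (ENNReal.ofReal_le_ofReal ?_) (hj0 j (by omega))
        have h12 : 0 ≤ (rad j / 2) ^ M / r := (div_pos (hrpos j) hr.1).le
        exact pow_le_pow_left₀ h12 h11 _
    _ = ε := ENNReal.mul_div_cancel hK0 hKt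

end Pool.Agent.H44.DN
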