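import Mathlib

/-!
# Full density at Collet-Eckmann maps: the dynamics near the Julia set

`Ds` collects what is used about a rational map `f` near its Julia set `J` (no other module of the chapter GR uses
rational maps): `J` compact, invariant, `f` differentiable on the open set `G` (the plane without the poles),
`U = thickening δ J ⊆ G`, `Cr` the critical points in `U` (all in `J`). For `c ∈ Cr`: `m c` the local degree at `c`, `τ c` the first time after which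
the orbit of `c` does not meet `Cr`, `M c` the product of the local degrees before this time, so
`f^[τ c] z - f^[τ c] c` is of size `‖z - c‖ ^ M c`. The Collet-Eckmann condition in four forms (`ce1 .. ce4`).
`nn`: no normality at the points of `J`; `cn`: continuation of inverse branches, the obstruction being critical
points in `J` only. `C` is a common constant.
-/

set_option autoImplicit false

open Filter Topology Metric Set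

namespace Pool.Agent.H44.DN

/-- a map near its Julia set, with the Collet-Eckmann condition -/
structure Ds where
  f : ℂ → ℂ
  J : Set ℂ
  G : Set ℂ
  Cr : Finset ℂ
  δ : ℝ
  L : ℝ
  C : ℝ
  q : ℝ
  r0 : ℝ
  τ : ℂ → ℕ
  M : ℂ → ℕ
  m : ℂ → ℕ
  hJ : IsCompact J
  hJf : ∀ z ∈ J, f z ∈ J
  hG : IsOpen G
  hf : DifferentiableOn ℂ f G
  hδ : 0 < δ
  hδ1 : δ ≤ 1
  hU : thickening δ J ⊆ G
  hCr : ∀ c ∈ Cr, c ∈ J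
  hne : Cr.Nonempty
  hcr : ∀ z ∈ thickening δ J, (deriv f z = 0 ↔ z ∈ Cr)
  hL : 1 ≤ L
  hLf : ∀ z ∈ thickening δ J, ‖deriv f z‖ ≤ L
  hC : 1 ≤ C
  hq : 1 < q
  hr0 : 0 < r0
  hr1 : 4 * r0 ≤ δ
  /-- the critical points are separated -/
  hsep : ∀ c ∈ Cr, ∀ c' ∈ Cr, c ≠ c' → 4 * r0 ≤ ‖c - c'‖
  /-- local distortion -/
  hdist : ∀ z ∈ thickening (δ / 2) J, ∀ w : ℂ, ‖w - z‖ < δ / 2 →
    2 * ‖w - z‖ ≤ infDist z (Cr : Set ℂ) →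
      ‖deriv f w - deriv f z‖ * infDist z (Cr : Set ℂ) ≤ C * ‖deriv f z‖ * ‖w - z‖
  hτ : ∀ c ∈ Cr, 1 ≤ τ c
  hτ' : ∀ c ∈ Cr, ∀ j, τ c ≤ j → f^[j] c ∉ Cr
  hm : ∀ c ∈ Cr, 2 ≤ m c
  hmM : ∀ c ∈ Cr, m c ≤ M c
  /-- the Collet-Eckmann condition at the terminal value -/
  ce1 : ∀ c ∈ Cr, ∀ n : ℕ, q ^ n ≤ C * ‖deriv (f^[n]) (f^[τ c] c)‖
  /-- the same condition at the time of a passage near another critical point -/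
  ce2 : ∀ c ∈ Cr, ∀ c' ∈ Cr, ∀ n : ℕ,
    q ^ n ≤ C * ‖deriv (f^[n]) (f^[τ c] c)‖ * ‖f^[n] (f^[τ c] c) - c'‖ ^ (M c' - 1)
  /-- the same two conditions for the first value `f c`, before the next critical point -/
  ce3 : ∀ c ∈ Cr, ∀ i : ℕ, (∀ j, 1 ≤ j → j ≤ i → f^[j] c ∉ Cr) → q ^ i ≤ C * ‖deriv (f^[i]) (f c)‖
  ce4 : ∀ c ∈ Cr, ∀ i : ℕ, (∀ j, 1 ≤ j → j ≤ i → f^[j] c ∉ Cr) → ∀ c' ∈ Cr, f^[i + 1] c ≠ c' →
    q ^ i ≤ C * ‖deriv (f^[i]) (f c)‖ * ‖f^[i + 1] c - c'‖ ^ (M c' - 1)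
  /-- critical relations -/
  rel : ∀ c ∈ Cr, ∀ i : ℕ, (∀ j, 1 ≤ j → j ≤ i → f^[j] c ∉ Cr) → f^[i + 1] c ∈ Cr →
    M c = m c * M (f^[i + 1] c) ∧ τ c = i + 1 + τ (f^[i + 1] c)
  /-- local form at a critical point, one step -/
  l1 : ∀ c ∈ Cr, ∀ z ∈ ball c r0, ‖f z - f c‖ ≤ C * ‖z - c‖ ^ m c ∧ ‖z - c‖ ^ m c ≤ C * ‖f z - f c‖
  l2 : ∀ c ∈ Cr, ∀ z ∈ ball c r0,
    ‖deriv f z‖ ≤ C * ‖z - c‖ ^ (m c - 1) ∧ ‖z - c‖ ^ (m c - 1) ≤ C * ‖deriv f z‖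
  /-- local form at a critical point, until the terminal value -/
  p1 : ∀ c ∈ Cr, ∀ z ∈ ball c r0, ‖f^[τ c] z - f^[τ c] c‖ ≤ C * ‖z - c‖ ^ M c ∧
    ‖z - c‖ ^ M c ≤ C * ‖f^[τ c] z - f^[τ c] c‖
  p2 : ∀ c ∈ Cr, ∀ z ∈ ball c r0, ‖deriv (f^[τ c]) z‖ ≤ C * ‖z - c‖ ^ (M c - 1) ∧
    ‖z - c‖ ^ (M c - 1) ≤ C * ‖deriv (f^[τ c]) z‖
  p3 : ∀ c ∈ Cr, ∀ z ∈ ball c r0, ∀ j < τ c,
    ‖deriv (f^[j]) z‖ * ‖z - c‖ ≤ C * infDist (f^[j] z) (Cr : Set ℂ)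
  p4 : ∀ c ∈ Cr, ∀ z ∈ ball c r0, ∀ j ≤ τ c, f^[j] z ∈ thickening (δ / 4) J
  /-- away from the critical points the derivative is bounded below -/
  low : ∀ z ∈ thickening (δ / 2) J, ∀ N : ℕ, (∀ c ∈ Cr, M c ≤ N) →
    (infDist z (Cr : Set ℂ)) ^ N ≤ C ^ N * ‖deriv f z‖
  /-- no normality at the points of `J` -/
  nn : ∀ x ∈ J, ∀ ρ : ℝ, 0 < ρ → ∃ N : ℕ, ∀ n ≥ N,
    ¬ ((∀ i < n, ∀ z ∈ ball x ρ, f^[i] z ∈ G) ∧ ∀ z ∈ ball x ρ, f^[n] z ∈ thickening δ J)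
  /-- continuation of inverse branches -/
  cn : ∀ (i : ℕ) (x : ℂ) (r : ℝ) (g : ℂ → ℂ) (u0 : ℂ), 0 < r → ball x r ⊆ thickening δ J →
    DifferentiableOn ℂ g (ball x r) →
    (∀ w ∈ ball x r, f^[i] (g w) = w ∧ ∀ j < i, f^[j] (g w) ∈ G) →
    u0 ∈ G → f u0 = g x → deriv f u0 ≠ 0 →
    (∃ h : ℂ → ℂ, DifferentiableOn ℂ h (ball x r) ∧ h x = u0 ∧
      ∀ w ∈ ball x r, h w ∈ G ∧ f (h w) = g w) ∨
    ∃ (ρ : ℝ) (b c : ℂ) (h : ℂ → ℂ), 0 < ρ ∧ ρ < r ∧ ‖b - x‖ = ρ ∧ c ∈ Cr ∧ g b = f c ∧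
      DifferentiableOn ℂ h (ball x ρ) ∧ h x = u0 ∧
      (∀ w ∈ ball x ρ, h w ∈ G ∧ f (h w) = g w) ∧ Tendsto h (𝓝[ball x ρ] b) (𝓝 c)

end Pool.Agent.H44.DN
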