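import Pool.Agent.H44.LD.FUB

/-!
# Module DFB: from lines to balls (Fubini), full limits

PROOF. Exactly as `fub` (H44/LD/FUB; copy its private lemmas `rad_pos`, .., `bad_meas`, `bad_left`, `bad_right`, `bad_prop`), with limits instead of Cesàro means: `prop v0 X ((rad j / 2)^M) ≤ C * (volume.prod volume) (bad_j)` for `j ≥ j1`, `(volume.prod volume) (bad_j) = ∫⁻ v, volume (section) ≤ ∫⁻ v in ball 0 1, volume (ball 0 1 ∩ {..})`-bound (`bad_left`), and the sections tend to `0` for a.e. `v`, bounded by `volume (ball 0 1)`: dominated convergence (`tendsto_lintegral_of_dominated_convergence` for the measurable functions `v ↦ volume (Prod.mk v ⁻¹' bad_j)`, bounded by the indicator of `ball 0 1` times `volume (ball 0 1)`).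
-/

set_option autoImplicit false

open Filter Topology Polynomial Metric Set MeasureTheory

namespace Pool.Agent.H44.DN

open Pool.Agent.H44.Fatou Pool.Agent.H32.BT Pool.Agent.H79.Eul Pool.Agent.H79.Par Pool.Agent.H35.RL Pool.Agent.H35.EX Pool.Agent.H91.CE Pool.Agent.H44.LD

private theorem rad_pos (j : ℕ) : 0 < rad j := by
  unfold rad
  positivity

private theorem rad_lt_one (j : ℕ) : rad j < 1 := by
  unfold rad
  have h : ((1 : ℝ) / 2) ^ j ≤ 1 := pow_le_one₀ (by norm_num) (by norm_num)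
  linarith

private theorem rad_tendsto : Tendsto rad atTop (𝓝 0) := by
  have h := (tendsto_pow_atTop_nhds_zero_of_lt_one (by norm_num : (0 : ℝ) ≤ 1 / 2)
    (by norm_num)).const_mul (3 / 4 : ℝ)
  rw [mul_zero] at h
  exact h

/-- the bad set in `E d × ℂ` -/
private def bad {d : ℕ} (v0 : E d) (X : E d → Prop) (M j : ℕ) : Set (E d × ℂ) :=
  {p | (p.1 ∈ ball (0 : E d) 1 ∧ p.2 ∈ ball (0 : ℂ) 1) ∧ ¬ X (v0 + ((rad j : ℂ) * p.2) ^ M • p.1)}

private theorem bad_meas {d : ℕ} {v0 : E d} {X : E d → Prop} (hX : OpenAt v0 X) {M : ℕ} (hM : 1 ≤ M) :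
    ∃ j1 : ℕ, ∀ j ≥ j1, MeasurableSet (bad v0 X M j) := by
  obtain ⟨N, hN, hv0, hNX⟩ := hX
  obtain ⟨ε, hε, hball⟩ := Metric.isOpen_iff.1 hN v0 hv0
  obtain ⟨j1, hj1⟩ := Filter.eventually_atTop.1 (rad_tendsto.eventually (gt_mem_nhds hε))
  refine ⟨j1, fun j hj => ?_⟩
  have hrj := hj1 j hj
  have hcont : Continuous (fun p : E d × ℂ => v0 + ((rad j : ℂ) * p.2) ^ M • p.1) := by
    fun_prop
  have hO : IsOpen {p : E d × ℂ | p.1 ∈ ball (0 : E d) 1 ∧ p.2 ∈ ball (0 : ℂ) 1} :=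
    (isOpen_ball.preimage continuous_fst).inter (isOpen_ball.preimage continuous_snd)
  have hset : bad v0 X M j = {p : E d × ℂ | p.1 ∈ ball (0 : E d) 1 ∧ p.2 ∈ ball (0 : ℂ) 1} \
      (fun p : E d × ℂ => v0 + ((rad j : ℂ) * p.2) ^ M • p.1) ⁻¹' (N ∩ {w | X w}) := by
    ext p
    constructor
    · rintro ⟨h1, h2⟩
      exact ⟨h1, fun h3 => h2 h3.2⟩
    · rintro ⟨h1, h2⟩
      refine ⟨h1, fun h3 => h2 ⟨?_, h3⟩⟩
      apply hball
      rw [mem_ball, dist_eq_norm, add_sub_cancel_left, norm_smul, norm_pow, norm_mul,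
        Complex.norm_real, Real.norm_eq_abs, abs_of_pos (rad_pos j)]
      have h4 := mem_ball_zero_iff.1 h1.1
      have h5 := mem_ball_zero_iff.1 h1.2
      have h6 : rad j * ‖p.2‖ ≤ rad j := mul_le_of_le_one_right (rad_pos j).le h5.le
      have h7 : 0 ≤ rad j * ‖p.2‖ := mul_nonneg (rad_pos j).le (norm_nonneg _)
      have h8 : (rad j * ‖p.2‖) ^ M ≤ rad j * ‖p.2‖ :=
        pow_le_of_le_one h7 (h6.trans (rad_lt_one j).le) (by omega)
      calc (rad j * ‖p.2‖) ^ M * ‖p.1‖ ≤ (rad j * ‖p.2‖) ^ M * 1 :=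
            mul_le_mul_of_nonneg_left h4.le (by positivity)
        _ ≤ rad j := by rw [mul_one]; exact h8.trans h6
        _ < ε := hrj
  rw [hset]
  exact hO.measurableSet.diff (hNX.preimage hcont).measurableSet

private theorem bad_left {d : ℕ} (v0 : E d) (X : E d → Prop) (M j : ℕ) (v : E d) :
    volume (Prod.mk v ⁻¹' bad v0 X M j) ≤
      (ball (0 : E d) 1).indicator (fun v => volume (ball (0 : ℂ) 1 ∩
        {η : ℂ | ¬ X (v0 + ((rad j : ℂ) * η) ^ M • v)})) v := by
  by_cases hv : v ∈ ball (0 : E d) 1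
  · rw [indicator_of_mem hv]
    refine measure_mono ?_
    rintro η ⟨h1, h2⟩
    exact ⟨h1.2, h2⟩
  · rw [indicator_of_notMem hv]
    have h : Prod.mk v ⁻¹' bad v0 X M j = ∅ := by
      ext η
      simp only [mem_preimage, mem_empty_iff_false, iff_false]
      rintro ⟨h1, h2⟩
      exact hv h1.1
    rw [h, measure_empty]

private theorem bad_right {d : ℕ} (v0 : E d) (X : E d → Prop) (M j : ℕ) (η : ℂ)
    (hη : η ∈ ball (0 : ℂ) 1) (h2 : 1 / 2 ≤ ‖η‖) :
    prop v0 X ((rad j / 2) ^ M) ≤ ENNReal.ofReal ((2 ^ M) ^ Module.finrank ℝ (E d)) *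
      volume ((fun v => (v, η)) ⁻¹' bad v0 X M j) := by
  have h1 : (fun v => (v, η)) ⁻¹' bad v0 X M j =
      ball (0 : E d) 1 ∩ {v | ¬ X (v0 + ((rad j : ℂ) * η) ^ M • v)} := by
    ext v
    constructor
    · rintro ⟨h3, h4⟩
      exact ⟨h3.1, h4⟩
    · rintro ⟨h3, h4⟩
      exact ⟨⟨h3, hη⟩, h4⟩
  rw [h1, prop_rot]
  have hr := rad_pos j
  have hn : ‖((rad j : ℂ) * η) ^ M‖ = (rad j * ‖η‖) ^ M := by
    rw [norm_pow, norm_mul, Complex.norm_real, Real.norm_eq_abs, abs_of_pos hr]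
  rw [hn]
  have h3 : (rad j / 2) ^ M ≤ (rad j * ‖η‖) ^ M :=
    pow_le_pow_left₀ (by positivity) (by nlinarith) M
  refine (prop_scale v0 X (by positivity : 0 < (rad j / 2) ^ M) h3).trans ?_
  refine mul_le_mul_left ?_ _
  refine ENNReal.ofReal_le_ofReal (pow_le_pow_left₀ (by positivity) ?_ _)
  rw [← div_pow]
  refine pow_le_pow_left₀ (by positivity) ?_ M
  rw [div_le_iff₀ (by positivity)]
  have h5 := mem_ball_zero_iff.1 hη
  nlinarith

private theorem bad_prop {d : ℕ} (v0 : E d) (X : E d → Prop) (M j : ℕ)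
    (hm : MeasurableSet (bad v0 X M j)) :
    prop v0 X ((rad j / 2) ^ M) ≤ (ENNReal.ofReal ((2 ^ M) ^ Module.finrank ℝ (E d)) /
      volume (ball (0 : ℂ) 1 \ ball (0 : ℂ) (1 / 2))) *
      ((volume : Measure (E d)).prod (volume : Measure ℂ)) (bad v0 X M j) := by
  have hA0 : volume (ball (0 : ℂ) 1 \ ball (0 : ℂ) (1 / 2)) ≠ 0 := by
    have hsub : ball (3 / 4 : ℂ) (1 / 4) ⊆ ball (0 : ℂ) 1 \ ball (0 : ℂ) (1 / 2) := by
      intro z hz
      rw [mem_ball, dist_eq_norm] at hz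
      have h34 : ‖(3 / 4 : ℂ)‖ = 3 / 4 := by
        rw [show (3 / 4 : ℂ) = ((3 / 4 : ℝ) : ℂ) by push_cast; ring, Complex.norm_real,
          Real.norm_eq_abs, abs_of_pos (by norm_num)]
      refine ⟨mem_ball_zero_iff.2 ?_, fun h => ?_⟩
      · have h1 := norm_add_le (z - 3 / 4) (3 / 4 : ℂ)
        rw [sub_add_cancel, h34] at h1
        linarith
      · have h1 := norm_sub_norm_le (3 / 4 : ℂ) (3 / 4 - z)
        rw [sub_sub_cancel, h34, norm_sub_rev] at h1
        have h2 := mem_ball_zero_iff.1 h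
        linarith
    exact (lt_of_lt_of_le (measure_ball_pos volume _ (by norm_num)) (measure_mono hsub)).ne'
  have hAt : volume (ball (0 : ℂ) 1 \ ball (0 : ℂ) (1 / 2)) ≠ ⊤ :=
    ne_top_of_le_ne_top measure_ball_lt_top.ne (measure_mono diff_subset)
  have hAm : MeasurableSet (ball (0 : ℂ) 1 \ ball (0 : ℂ) (1 / 2)) :=
    measurableSet_ball.diff measurableSet_ball
  rw [Measure.prod_apply_symm hm]
  have h1 : prop v0 X ((rad j / 2) ^ M) * volume (ball (0 : ℂ) 1 \ ball (0 : ℂ) (1 / 2)) ≤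
      ENNReal.ofReal ((2 ^ M) ^ Module.finrank ℝ (E d)) *
        ∫⁻ η : ℂ, volume ((fun v => (v, η)) ⁻¹' bad v0 X M j) := by
    rw [← lintegral_const_mul _ (measurable_measure_prodMk_right hm)]
    calc prop v0 X ((rad j / 2) ^ M) * volume (ball (0 : ℂ) 1 \ ball (0 : ℂ) (1 / 2))
        = ∫⁻ _η in ball (0 : ℂ) 1 \ ball (0 : ℂ) (1 / 2), prop v0 X ((rad j / 2) ^ M) := by
          rw [setLIntegral_const]
      _ ≤ ∫⁻ η in ball (0 : ℂ) 1 \ ball (0 : ℂ) (1 / 2),
          ENNReal.ofReal ((2 ^ M) ^ Module.finrank ℝ (E d)) *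
            volume ((fun v => (v, η)) ⁻¹' bad v0 X M j) := by
          refine setLIntegral_mono' hAm fun η hη => ?_
          refine bad_right v0 X M j η hη.1 ?_
          have h3 := hη.2
          rw [mem_ball_zero_iff, not_lt] at h3
          exact h3
      _ ≤ _ := setLIntegral_le_lintegral _ _
  rw [ENNReal.div_eq_inv_mul, mul_assoc, ← ENNReal.div_eq_inv_mul, ENNReal.le_div_iff_mul_le
    (Or.inl hA0) (Or.inl hAt)]
  exact h1

theorem dfub {d : ℕ} {v0 : E d} {X : E d → Prop} (hX : OpenAt v0 X) {M : ℕ} (hM : 1 ≤ M)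
    (h : ∀ᵐ v : E d, Tendsto (fun j : ℕ => volume (ball (0 : ℂ) 1 ∩
      {η : ℂ | ¬ X (v0 + ((rad j : ℂ) * η) ^ M • v)})) atTop (𝓝 0)) :
    Tendsto (fun j : ℕ => prop v0 X ((rad j / 2) ^ M)) atTop (𝓝 0) := by
  classical
  obtain ⟨j1, hj1⟩ := bad_meas hX hM
  let F : ℕ → E d → ENNReal := fun j v =>
    if j1 ≤ j then volume (Prod.mk v ⁻¹' bad v0 X M j) else 0
  have hFm : ∀ j, Measurable (F j) := by
    intro j
    by_cases hj : j1 ≤ j
    · simp only [F, if_pos hj]
      exact measurable_measure_prodMk_left (hj1 j hj)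
    · simp only [F, if_neg hj]
      exact measurable_const
  have hFG : ∀ j v, F j v ≤ (ball (0 : E d) 1).indicator (fun v => volume (ball (0 : ℂ) 1 ∩
        {η : ℂ | ¬ X (v0 + ((rad j : ℂ) * η) ^ M • v)})) v := by
    intro j v
    by_cases hj : j1 ≤ j
    · simp only [F, if_pos hj]
      exact bad_left v0 X M j v
    · simp only [F, if_neg hj]
      exact zero_le
  have hFb : ∀ j v, F j v ≤ (ball (0 : E d) 1).indicator (fun _ => volume (ball (0 : ℂ) 1)) v := by
    intro j v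
    refine (hFG j v).trans ?_
    by_cases hv : v ∈ ball (0 : E d) 1
    · rw [indicator_of_mem hv, indicator_of_mem hv]
      exact measure_mono inter_subset_left
    · rw [indicator_of_notMem hv, indicator_of_notMem hv]
  have hbi : ∫⁻ v : E d, (ball (0 : E d) 1).indicator (fun _ => volume (ball (0 : ℂ) 1)) v =
      volume (ball (0 : ℂ) 1) * volume (ball (0 : E d) 1) :=
    lintegral_indicator_const measurableSet_ball _
  have := volume_haar d
  have hbt : volume (ball (0 : ℂ) 1) * volume (ball (0 : E d) 1) ≠ ⊤ :=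
    ENNReal.mul_ne_top measure_ball_lt_top.ne measure_ball_lt_top.ne
  have hlim : Tendsto (fun j : ℕ => ∫⁻ v : E d, F j v) atTop (𝓝 (∫⁻ _v : E d, 0)) := by
    refine tendsto_lintegral_of_dominated_convergence
      ((ball (0 : E d) 1).indicator (fun _ => volume (ball (0 : ℂ) 1))) hFm ?_ ?_ ?_
    · exact fun j => Eventually.of_forall fun v => hFb j v
    · rw [hbi]
      exact hbt
    · filter_upwards [h] with v hv
      refine tendsto_of_tendsto_of_tendsto_of_le_of_le tendsto_const_nhds hv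
        (fun _ => zero_le) fun j => ?_
      exact (hFG j v).trans (indicator_le_self _ _ _)
  rw [lintegral_zero] at hlim
  set C : ENNReal := ENNReal.ofReal ((2 ^ M) ^ Module.finrank ℝ (E d)) /
      volume (ball (0 : ℂ) 1 \ ball (0 : ℂ) (1 / 2)) with hC
  have hCt : C ≠ ⊤ := by
    refine (ENNReal.div_lt_top ENNReal.ofReal_ne_top ?_).ne
    intro h0
    have hsub : ball (3 / 4 : ℂ) (1 / 4) ⊆ ball (0 : ℂ) 1 \ ball (0 : ℂ) (1 / 2) := by
      intro z hz
      rw [mem_ball, dist_eq_norm] at hz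
      have h34 : ‖(3 / 4 : ℂ)‖ = 3 / 4 := by
        rw [show (3 / 4 : ℂ) = ((3 / 4 : ℝ) : ℂ) by push_cast; ring, Complex.norm_real,
          Real.norm_eq_abs, abs_of_pos (by norm_num)]
      refine ⟨mem_ball_zero_iff.2 ?_, fun h => ?_⟩
      · have h1 := norm_add_le (z - 3 / 4) (3 / 4 : ℂ)
        rw [sub_add_cancel, h34] at h1
        linarith
      · have h1 := norm_sub_norm_le (3 / 4 : ℂ) (3 / 4 - z)
        rw [sub_sub_cancel, h34, norm_sub_rev] at h1
        have h2 := mem_ball_zero_iff.1 h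
        linarith
    exact (lt_of_lt_of_le (measure_ball_pos volume _ (by norm_num)) (measure_mono hsub)).ne' h0
  have hlim2 := ENNReal.Tendsto.const_mul hlim (Or.inr hCt)
  rw [mul_zero] at hlim2
  refine tendsto_of_tendsto_of_tendsto_of_le_of_le' tendsto_const_nhds hlim2
    (Eventually.of_forall fun _ => zero_le) ?_
  filter_upwards [eventually_ge_atTop j1] with i hi
  refine (bad_prop v0 X M i (hj1 i hi)).trans (le_of_eq ?_)
  rw [Measure.prod_apply (hj1 i hi)]
  simp only [F, if_pos hi]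
  rfl

end Pool.Agent.H44.DN
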