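import Pool.Agent.H44.DN.DLN
import Pool.Agent.H44.DN.DFB
import Pool.Agent.H44.DN.DDY
import Pool.Agent.H44.LD.ACO
import Pool.Agent.H44.LD.CEGOOD

/-!
# Module DGD: a Collet-Eckmann critical point and an attracted one

PROOF. (1) `d_good`: `cegood_iso` (H44/LD/CEGOOD) gives `δ`; `d_line`, `dfub` with `ac_open` (H44/LD/ACO), `ddy`: `prop v0 (AC c δ) r → 0`. `CGood v0 c` (H79/Par/GDefs): for every `ε` this `δ`; `pv v0 (v, r) = v0 + r • v`, `ball c δ ⊆ closedBall c δ`, so the bad set of `CGood` is contained in that of `prop v0 (AC c δ) r`, measure `≤ ε` eventually.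
(2) `d_att`: `att_near` (H44/LD/ATTO): `∃ ε1`, for `w ∈ ball v0 ε1`, `z ∈ ball c ε1`: `Att (Rf w) z`. `δ = ε1`; for `r < ε1` and `v ∈ ball 0 1`: `pv v0 (v, r) ∈ ball v0 ε1`; the bad set is empty.
-/

set_option autoImplicit false

open Filter Topology Polynomial Metric Set MeasureTheory

namespace Pool.Agent.H44.DN

open Pool.Agent.H44.Fatou Pool.Agent.H32.BT Pool.Agent.H79.Eul Pool.Agent.H79.Par Pool.Agent.H35.RL Pool.Agent.H35.EX Pool.Agent.H91.CE Pool.Agent.H44.LD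

theorem d_good {d : ℕ} (hd : 2 ≤ d) {v0 : E d} (h0 : Chart0 v0)
    (hinf : Att (Rf v0) OnePoint.infty) (hdn : Dense {z : ℂ | Att (Rf v0) (z : OnePoint ℂ)})
    (hcr : ∀ c : ℂ, wv v0 c = 0 → c ∉ JJ v0 ∨ ∃ m : ℕ, Gr v0 (it v0 m c)) {c : ℂ}
    (hw : wv v0 c = 0) (hcJ : c ∈ JJ v0) : CGood v0 c := by
  obtain ⟨δ, hδ, hone⟩ := cegood_iso (Pool.Agent.H91.CE.wv_ne hd h0.1 h0.2.1) c
  obtain ⟨M, hM, hline⟩ := d_line hd h0 hinf hdn hcr hw hcJ hδ hone
  have h1 := ddy hM (dfub (X := AC c δ) (ac_open hd h0.1 h0.2.1 c δ) hM hline)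
  rw [ENNReal.tendsto_nhds_zero] at h1
  intro ε hε
  refine ⟨δ, hδ, ?_⟩
  filter_upwards [h1 ε hε] with r hr
  refine le_trans (measure_mono ?_) hr
  rintro v ⟨hv1, hv2⟩
  exact ⟨hv1, fun hAC => hv2 fun z hz hwz => hAC z (ball_subset_closedBall hz) hwz⟩

theorem d_att {d : ℕ} (hd : 2 ≤ d) {v0 : E d} (hcop : IsCoprime (pol v0.1) (pol v0.2))
    (hdeg : max (pol v0.1).natDegree (pol v0.2).natDegree = d) {c : ℂ}
    (hc : Att (Rf v0) (c : OnePoint ℂ)) : CGood v0 c := by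
  have h1 := att_near hd hcop hdeg hc
  rw [← nhds_prod_eq] at h1
  obtain ⟨ε1, hε1, hb⟩ := Metric.eventually_nhds_iff_ball.1 h1
  intro ε hε
  refine ⟨ε1, hε1, ?_⟩
  filter_upwards [Ioo_mem_nhdsGT hε1] with r hr
  have h2 : ball (0 : E d) 1 ∩ {v | ¬ ∀ z ∈ ball c ε1, wv (pv v0 (v, r)) z = 0 →
      Att (Rf (pv v0 (v, r))) (z : OnePoint ℂ)} = ∅ := by
    rw [eq_empty_iff_forall_notMem]
    rintro v ⟨hv1, hv2⟩
    apply hv2
    intro z hz _
    have h3 : pv v0 (v, r) ∈ ball v0 ε1 := by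
      show v0 + r • v ∈ ball v0 ε1
      rw [mem_ball, dist_eq_norm, add_sub_cancel_left, norm_smul, Real.norm_eq_abs,
        abs_of_pos hr.1]
      rw [mem_ball_zero_iff] at hv1
      calc r * ‖v‖ ≤ r * 1 := mul_le_mul_of_nonneg_left hv1.le hr.1.le
        _ < ε1 := by rw [mul_one]; exact hr.2
    have h4 : (pv v0 (v, r), z) ∈ ball (v0, c) ε1 := by
      rw [← ball_prod_same]
      exact ⟨h3, hz⟩
    have h5 := hb (pv v0 (v, r), z) h4
    exact h5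
  rw [h2, measure_empty]
  exact bot_le

end Pool.Agent.H44.DN
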