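import Pool.Agent.H44.DN.NUL2

/-!
# Module NUL3: `J` has measure zero

PROOF. Lebesgue's density theorem for the closed set `J` (`Besicovitch.ae_tendsto_measure_inter_div_of_measurableSet`, or `IsUnifLocDoublingMeasure.ae_tendsto_measure_inter_div`): for a.e. `x ∈ J`: `volume (J ∩ closedBall x ρ) / volume (closedBall x ρ) → 1` as `ρ → 0+`. For `x ∈ J` `fat_compl` gives arbitrarily small `ρ'` such that `closedBall x ρ'` contains the ball `x + ρ' • ball η0 r` of area `π r^2 ρ'^2` in the complement of `J`: the quotient is `≤ 1 - r^2` for these `ρ'`. So a.e. `x ∈ J` is impossible: `volume J = 0`.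
-/

set_option autoImplicit false

open Filter Topology Metric Set

namespace Pool.Agent.H44.DN

open MeasureTheory in
theorem null_J (D : Ds) (hd : Dense D.Jᶜ) : volume D.J = 0 := by
  classical
  have hmeas : MeasurableSet D.J := D.hJ.isClosed.measurableSet
  have hae := Besicovitch.ae_tendsto_measure_inter_div_of_measurableSet (volume : Measure ℂ) hmeas
  have hsub : D.J ⊆ {x : ℂ | ¬ Tendsto (fun r => volume (D.J ∩ closedBall x r) /
      volume (closedBall x r)) (𝓝[>] 0) (𝓝 (D.J.indicator 1 x))} := by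
    intro x hx hlim
    rw [indicator_of_mem hx, Pi.one_apply] at hlim
    obtain ⟨η0, r, hr, hball, hfat⟩ := fat_compl D hd hx
    have hr0 : ENNReal.ofReal r ^ 2 ≠ 0 := pow_ne_zero 2 (ENNReal.ofReal_pos.2 hr).ne'
    have hfr : ∃ᶠ ρ in 𝓝[>] (0 : ℝ), volume (D.J ∩ closedBall x ρ) / volume (closedBall x ρ) +
        ENNReal.ofReal r ^ 2 ≤ 1 := by
      rw [Filter.frequently_iff]
      intro U hU
      obtain ⟨ε, hε, hεU⟩ := mem_nhdsGT_iff_exists_Ioo_subset.1 hU
      obtain ⟨ρ, hρ0, hρε, hout⟩ := hfat (ε / 2) (half_pos hε)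
      have hε0 : (0 : ℝ) < ε := hε
      refine ⟨ρ, hεU ⟨hρ0, by linarith⟩, ?_⟩
      have hv0 : volume (closedBall x ρ) ≠ 0 := (measure_closedBall_pos _ _ hρ0).ne'
      have hvt : volume (closedBall x ρ) ≠ ⊤ := measure_closedBall_lt_top.ne
      have hsm : ball (x + (ρ : ℂ) * η0) (ρ * r) ⊆ closedBall x ρ ∧
          Disjoint (D.J ∩ closedBall x ρ) (ball (x + (ρ : ℂ) * η0) (ρ * r)) := by
        have hne : (ρ : ℂ) ≠ 0 := Complex.ofReal_ne_zero.2 hρ0.ne'
        have hrep : ∀ z ∈ ball (x + (ρ : ℂ) * η0) (ρ * r), ∃ η ∈ ball η0 r,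
            z = x + (ρ : ℂ) * η := by
          intro z hz
          refine ⟨(z - x) / (ρ : ℂ), ?_, by field_simp; ring⟩
          rw [mem_ball, dist_eq_norm] at hz ⊢
          have h1 : (z - x) / (ρ : ℂ) - η0 = (z - (x + (ρ : ℂ) * η0)) / (ρ : ℂ) := by
            field_simp
            ring
          rw [h1, norm_div, Complex.norm_real, Real.norm_of_nonneg hρ0.le, div_lt_iff₀ hρ0]
          linarith
        refine ⟨?_, ?_⟩
        · intro z hz
          obtain ⟨η, hη, rfl⟩ := hrep z hz
          have h1 := mem_ball_zero_iff.1 (hball hη)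
          rw [mem_closedBall, dist_eq_norm, add_sub_cancel_left, norm_mul, Complex.norm_real,
            Real.norm_of_nonneg hρ0.le]
          exact mul_le_of_le_one_right hρ0.le h1.le
        · rw [Set.disjoint_left]
          rintro z ⟨hzJ, -⟩ hz
          obtain ⟨η, hη, rfl⟩ := hrep z hz
          exact hout η hη hzJ
      have hsum : volume (D.J ∩ closedBall x ρ) + volume (ball (x + (ρ : ℂ) * η0) (ρ * r)) ≤
          volume (closedBall x ρ) := by
        rw [← measure_union hsm.2 measurableSet_ball]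
        exact measure_mono (union_subset inter_subset_right hsm.1)
      have hvb : volume (ball (x + (ρ : ℂ) * η0) (ρ * r)) =
          ENNReal.ofReal r ^ 2 * volume (closedBall x ρ) := by
        rw [Complex.volume_ball, Complex.volume_closedBall, ENNReal.ofReal_mul hρ0.le]
        ring
      rw [hvb] at hsum
      have h2 := ENNReal.div_le_div_right hsum (volume (closedBall x ρ))
      rwa [ENNReal.add_div, ENNReal.mul_div_cancel_right hv0 hvt, ENNReal.div_self hv0 hvt] at h2
    have h3 := le_of_tendsto_of_frequently (hlim.add_const (ENNReal.ofReal r ^ 2)) hfr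
    have h4 : (1 : ENNReal) < 1 + ENNReal.ofReal r ^ 2 :=
      ENNReal.lt_add_right ENNReal.one_ne_top hr0
    exact absurd h3 (not_le.2 h4)
  exact measure_mono_null hsub (ae_iff.1 hae)

end Pool.Agent.H44.DN
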