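import Pool.Agent.H44.DN.FCM
import Pool.Agent.H44.DN.PARF
import Pool.Agent.H44.DN.NUL3
import Pool.Agent.H44.LD.CELINE

/-!
# Module DLN: full density on almost every line

PROOF. `mk_ds`: `D`, `Rep v0 D`, `c ∈ D.Cr`. `null_J` (the complement of `D.J = JJ v0` is the set of attracted points, dense): `volume D.J = 0`. `Inv v0 (JJ v0)` (`jj_cpt`, `jj_step`). An attracted point is of type `Ty1`: `basin_ae` (H79/Par/RobNull) gives `volume {z | ¬ Basin v0 z} = 0`, hence `Dense {z | Basin v0 z}`. Now copy the proof of `ce_line` (H44/LD/CELINE) with `k = D.τ c` (`1 ≤ k`: `D.hτ`; `Gr v0 (it v0 k c)` from `D.ce1`, `deriv = trD`), `K = JJ v0`: `kap_ne`, `kap_null`, `dw_null`, the branches of `crit_branch`;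
for each branch `i`: `mk_fam` gives `X_i`, `par_main` gives `volume (ball 0 1 ∩ {η | ¬ Att (Rf (v0 + (ρ η)^m • v)) (b i (ρ η))}) → 0` as `ρ → 0+`, hence along `ρ = rad j` (`rad j → 0`, `> 0`). For large `j` the bad set is contained in the union over `i` of the bad sets (as in `ce_line`), a finite sum of sequences tending to `0`.
-/

set_option autoImplicit false

open Filter Topology Polynomial Metric Set MeasureTheory

namespace Pool.Agent.H44.DN

open Pool.Agent.H44.Fatou Pool.Agent.H32.BT Pool.Agent.H79.Eul Pool.Agent.H79.Par Pool.Agent.H35.RL Pool.Agent.H35.EX Pool.Agent.H91.CE Pool.Agent.H44.LD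

theorem d_line {d : ℕ} (hd : 2 ≤ d) {v0 : E d} (h0 : Chart0 v0)
    (hinf : Att (Rf v0) OnePoint.infty) (hdn : Dense {z : ℂ | Att (Rf v0) (z : OnePoint ℂ)})
    (hcr : ∀ c : ℂ, wv v0 c = 0 → c ∉ JJ v0 ∨ ∃ m : ℕ, Gr v0 (it v0 m c)) {c : ℂ}
    (hw : wv v0 c = 0) (hcJ : c ∈ JJ v0) {δ : ℝ} (hδ : 0 < δ)
    (hone : ∀ z ∈ closedBall c δ, wv v0 z = 0 → z = c) :
    ∃ M : ℕ, 1 ≤ M ∧ ∀ᵐ v : E d, Tendsto (fun j : ℕ => volume (ball (0 : ℂ) 1 ∩
      {η : ℂ | ¬ AC c δ (v0 + ((rad j : ℂ) * η) ^ M • v)})) atTop (𝓝 0) := by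
  classical
  have hcop := h0.1
  have hdeg := h0.2.1
  obtain ⟨D, hR⟩ := mk_ds hd hcop hdeg hinf hdn hcr hw hcJ
  have hcD : c ∈ D.Cr := (hR.Cr c).2 ⟨hw, hcJ⟩
  have hnull : volume D.J = 0 := by
    refine null_J D ?_
    have h1 : D.Jᶜ = {z : ℂ | Att (Rf v0) (z : OnePoint ℂ)} := by
      rw [hR.J]
      ext z
      simp [JJ]
    rw [h1]
    exact hdn
  have hK : Inv v0 (JJ v0) := ⟨jj_cpt hcop hinf, fun z hz => (jj_step hcop hinf hz).1,
    fun z hz => (jj_step hcop hinf hz).2.2⟩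
  have hW : volume {z : ℂ | ¬ Basin v0 z} = 0 := by
    refine basin_ae hd h0 (measure_mono_null ?_ (hR.J ▸ hnull))
    intro z hz hatt
    obtain ⟨z', n, h1, h2⟩ := hatt
    exact hz ⟨z', n, Or.inl ⟨h1, h2⟩⟩
  have hcK : ∀ j, it v0 j c ∈ JJ v0 := by
    intro j
    induction j with
    | zero => exact hcJ
    | succ j ih =>
      have h1 : it v0 (j + 1) c = it v0 1 (it v0 j c) := rfl
      rw [h1]
      exact hK.maps _ ih
  have hbd : Dense {z : ℂ | Basin v0 z} :=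
    Measure.dense_of_ae (μ := (volume : Measure ℂ)) (ae_iff.2 hW)
  have hden : ∀ i, ev v0.2 (it v0 i c) ≠ 0 := fun i => hK.den _ (hcK i)
  have horb : ∀ j, Orb v0 (fun j => it v0 j c) j := fun j i _ => ⟨hden i, rfl⟩
  obtain ⟨k, hk⟩ : ∃ k : ℕ, k = D.τ c := ⟨_, rfl⟩
  have hk1 : 1 ≤ k := by rw [hk]; exact D.hτ c hcD
  have hkG : Gr v0 (it v0 k c) := by
    have hC := D.hC
    refine ⟨1 / D.C, D.q, by positivity, D.hq, fun n => ?_⟩
    have h1 := D.ce1 c hcD n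
    rw [hR.f, it_iter, it_iter, ← hk] at h1
    have h2 : HasDerivAt (it v0 n) (trD v0 n (it v0 k c)) (it v0 k c) := by
      refine tr_hasDerivAt v0 (it v0 k c) n fun i hi => ?_
      rw [← Pool.Agent.H79.Par.it_add]
      exact hden _
    rw [h2.deriv] at h1
    rw [one_div, inv_mul_le_iff₀ (by linarith)]
    exact h1
  have hzf : {c : ℂ | wv v0 c = 0}.Finite := wv_ne hd hcop hdeg
  have hne : ¬ ∀ z, wv v0 z = 0 := by
    intro h
    have h2 : {c : ℂ | wv v0 c = 0} = Set.univ := by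
      ext z
      simp [h z]
    rw [h2] at hzf
    exact Set.infinite_univ hzf
  obtain ⟨m, hm1, hmfl, hmbr⟩ := crit_branch hw hne
  refine ⟨m, hm1, ?_⟩
  have hκne := Pool.Agent.H91.CE.kap_ne hd h0 hK (x := fun j => it v0 j c) horb hcK hw hk1 hkG hbd
  have hκnull := kap_null hK (x := fun j => it v0 j c) horb (hcK _) hkG hκne
  have a1 : ∀ᵐ v : E d, kapE v0 v (fun j => it v0 j c) k ≠ 0 :=
    measure_eq_zero_iff_ae_notMem.1 hκnull
  have a2 : ∀ᵐ v : E d, Dw v0 v c ≠ 0 :=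
    measure_eq_zero_iff_ae_notMem.1 (dw_null (by omega) (hden 0))
  filter_upwards [a1, a2] with v hv1 hv2
  obtain ⟨ρb, Rb, b, hρb, hRb, hb, huniq⟩ := hmbr v hv2 m hm1 dvd_rfl
  have h0M : (0 : ℂ) ^ m = 0 := zero_pow (by omega)
  have hrad : Tendsto rad atTop (𝓝 0) := by
    have h1 : Tendsto (fun j : ℕ => (3 / 4 : ℝ) * (1 / 2) ^ j) atTop (𝓝 (3 / 4 * 0)) :=
      (tendsto_pow_atTop_nhds_zero_of_lt_one (by norm_num) (by norm_num)).const_mul _
    rw [mul_zero] at h1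
    exact h1
  have hrad0 : ∀ j, 0 < rad j := by
    intro j
    unfold rad
    positivity
  have hrad2 : Tendsto rad atTop (𝓝[>] 0) :=
    tendsto_nhdsWithin_iff.2 ⟨hrad, Filter.Eventually.of_forall fun j => hrad0 j⟩
  have hZ : ∀ i : Fin m, Tendsto (fun j : ℕ => volume (ball (0 : ℂ) 1 ∩
      {η : ℂ | ¬ Att (Rf (v0 + ((rad j : ℂ) * η) ^ m • v))
        ((b i ((rad j : ℂ) * η) : ℂ) : OnePoint ℂ)})) atTop (𝓝 0) := by
    intro i
    rw [hk] at hv1
    obtain ⟨X, -, hXP⟩ := mk_fam hd hcop hdeg hR hcD hm1 hρb (hb i).1 (hb i).2.1 (hb i).2.2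
      hmfl hv1
    have h1 := (par_main D hnull X).comp hrad2
    refine h1.congr fun j => ?_
    show volume (ball (0 : ℂ) 1 ∩ {η : ℂ | ¬ X.P ((rad j : ℂ) * η)}) = _
    congr 2
    ext η
    rw [mem_ofPred_eq, mem_ofPred_eq, hXP]
  have hsum : Tendsto (fun j : ℕ => ∑ i : Fin m, volume (ball (0 : ℂ) 1 ∩
      {η : ℂ | ¬ Att (Rf (v0 + ((rad j : ℂ) * η) ^ m • v))
        ((b i ((rad j : ℂ) * η) : ℂ) : OnePoint ℂ)})) atTop (𝓝 0) := by
    have h1 := tendsto_finsetSum Finset.univ fun i _ => hZ i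
    rwa [Finset.sum_const_zero] at h1
  -- zeros of `wv` stay near `c`
  have hcomp : IsCompact (closedBall c δ \ ball c Rb) := (isCompact_closedBall c δ).diff isOpen_ball
  have hloc : ∀ z ∈ closedBall c δ \ ball c Rb, ∀ᶠ y : E d × ℂ in 𝓝 v0 ×ˢ 𝓝 z,
      wv y.1 y.2 ≠ 0 := by
    intro z hz
    have hz0 : wv v0 z ≠ 0 := by
      intro h
      apply hz.2
      rw [hone z hz.1 h]
      exact mem_ball_self hRb
    rw [← nhds_prod_eq]
    have h1 := (wv_cont (d := d)).tendsto (v0, z)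
    exact h1.eventually_ne hz0
  have hall := ev_compact (p := fun (w : E d) z => wv w z ≠ 0) hcomp hloc
  have hcont : Tendsto (fun s : ℂ => v0 + s ^ m • v) (𝓝 0) (𝓝 v0) := by
    have h1 : Continuous (fun s : ℂ => v0 + s ^ m • v) := by fun_prop
    have h2 := h1.tendsto 0
    rwa [h0M, zero_smul, add_zero] at h2
  obtain ⟨σ, hσ, hσb⟩ := Metric.eventually_nhds_iff_ball.1
    ((hcont.eventually hall).and (ball_mem_nhds (0 : ℂ) hρb))
  refine tendsto_of_tendsto_of_tendsto_of_le_of_le' tendsto_const_nhds hsum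
    (Filter.Eventually.of_forall fun j => zero_le) ?_
  filter_upwards [hrad.eventually (gt_mem_nhds hσ)] with j hj
  have hrj0 : 0 ≤ rad j := (hrad0 j).le
  have hsub : ball (0 : ℂ) 1 ∩ {η : ℂ | ¬ AC c δ (v0 + ((rad j : ℂ) * η) ^ m • v)} ⊆
      ⋃ i : Fin m, ball (0 : ℂ) 1 ∩
      {η : ℂ | ¬ Att (Rf (v0 + ((rad j : ℂ) * η) ^ m • v))
        ((b i ((rad j : ℂ) * η) : ℂ) : OnePoint ℂ)} := by
    rintro η ⟨hη, hη2⟩
    have hs : (rad j : ℂ) * η ∈ ball (0 : ℂ) σ := by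
      rw [mem_ball_zero_iff, norm_mul, Complex.norm_real, Real.norm_of_nonneg hrj0]
      have h1 : ‖η‖ ≤ 1 := (mem_ball_zero_iff.1 hη).le
      calc rad j * ‖η‖ ≤ rad j * 1 := mul_le_mul_of_nonneg_left h1 hrj0
        _ < σ := by rw [mul_one]; exact hj
    obtain ⟨hs1, hs2⟩ := hσb _ hs
    by_contra hcon3
    rw [mem_iUnion] at hcon3
    push Not at hcon3
    apply hη2
    intro z hz hwz
    have hzb : z ∈ ball c Rb := by
      by_contra hcon4
      exact hs1 z ⟨hz, hcon4⟩ hwz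
    obtain ⟨i, hzi⟩ := huniq _ hs2 z hzb hwz
    rw [hzi]
    by_contra hcon5
    exact hcon3 i ⟨hη, hcon5⟩
  exact (measure_mono hsub).trans (measure_iUnion_fintype_le _ _)

end Pool.Agent.H44.DN
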