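import Pool.Agent.H44.DN.DGD
import Pool.Agent.H44.DN.DCH
import Pool.Agent.H79.Par.CFinal
import Pool.Agent.H79.Par.ChartVol

/-!
# Module DMN: full density of the hyperbolic maps at Collet-Eckmann maps

PROOF. `chart_dn`: `s`. `chart_vol s` (H79/Par/ChartVol; `pv v0 (v, r) = v0 + r • v`, so the set is that of `prop`) reduces to `w0 = Lin s v0`. `c_final` (H79/Par/CFinal) for `w0`: for a critical `c : ℂ`: `wv w0 c = 0` (`crit_coe`, as in `ld_main`, H44/LD/MAIN). If `c` is attracted `d_att`, otherwise `c ∈ JJ w0` and `d_good`. Its hypothesis `hcr`: a zero of `wv w0` is a critical point (`crit_of_wr`, as `hcrit` in `l_final`, H44/LD/LFIN).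
-/

set_option autoImplicit false

open Filter Topology Polynomial Metric Set MeasureTheory

namespace Pool.Agent.H44.DN

open Pool.Agent.H44.Fatou Pool.Agent.H32.BT Pool.Agent.H79.Eul Pool.Agent.H79.Par Pool.Agent.H35.RL Pool.Agent.H35.EX Pool.Agent.H91.CE Pool.Agent.H44.LD

theorem d_main {d : ℕ} (hd : 2 ≤ d) {v0 : E d} (hcop : IsCoprime (pol v0.1) (pol v0.2))
    (hdeg : max (pol v0.1).natDegree (pol v0.2).natDegree = d)
    (h : ∀ c, IsCrit (Rf v0) c → Att (Rf v0) c ∨ ∃ m : ℕ, CEAt (Rf v0) ((Rf v0)^[m] c))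
    (hdn : Dense {x : OnePoint ℂ | Att (Rf v0) x}) :
    Tendsto (fun r : ℝ => prop v0 HypDeg r) (𝓝[>] 0) (𝓝 0) := by
  obtain ⟨s, h0, h1, h2, h3, h4⟩ := chart_dn hd hcop hdeg h hdn
  refine chart_vol s (by omega) (c_final hd h0.1 h0.2.1 h1 fun c hcr => ?_)
  by_cases hatt : Att (Rf (Lin s v0)) (c : OnePoint ℂ)
  · exact d_att hd h0.1 h0.2.1 hatt
  have hd1 : 1 ≤ max (pol (Lin s v0).1).natDegree (pol (Lin s v0).2).natDegree := by
    rw [h0.2.1]
    omega
  have hw : wv (Lin s v0) c = 0 := by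
    have h5 := crit_coe hcr
    rw [← wv_cf (d := d) (pol_deg _) (pol_deg _), cf_pol, cf_pol] at h5
    exact h5
  refine d_good hd h0 h2 h3 ?_ hw ?_
  · intro c' hw'
    have hcr' : IsCrit (Rf (Lin s v0)) (c' : OnePoint ℂ) := by
      apply crit_of_wr h0.1 hd1
      rw [← wv_cf (pol_deg _) (pol_deg _), cf_pol, cf_pol]
      exact hw'
    rcases h4 c' hcr' with h5 | h5
    · left
      intro h6
      exact h6 h5
    · exact Or.inr h5
  · exact hatt

end Pool.Agent.H44.DN
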