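import Pool.Agent.H44.LD.RAT

/-!
# Module DRT: from the unit ball to proportions

PROOF. As `ces_ratio` (H44/LD/RAT): `scaling` gives for `r > 0`: `volume (ball v0 r ∩ {¬ HypDeg}) / volume (ball v0 r) = prop v0 HypDeg r / volume (ball 0 1)`; multiply the limit by the finite constant (`ENNReal.Tendsto.div_const` or `const_mul`), eventually equal on `𝓝[>] 0`.
-/

set_option autoImplicit false

open Filter Topology Polynomial Metric Set MeasureTheory

namespace Pool.Agent.H44.DN

open Pool.Agent.H44.Fatou Pool.Agent.H32.BT Pool.Agent.H79.Eul Pool.Agent.H79.Par Pool.Agent.H35.RL Pool.Agent.H35.EX Pool.Agent.H91.CE Pool.Agent.H44.LD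

theorem d_ratio {d : ℕ} {v0 : E d} (h : Tendsto (fun r : ℝ => prop v0 HypDeg r) (𝓝[>] 0) (𝓝 0)) :
    Tendsto (fun r : ℝ => volume (ball v0 r ∩ {v | ¬ HypDeg v}) / volume (ball v0 r))
      (𝓝[>] 0) (𝓝 0) := by
  have hb : volume (ball (0 : E d) 1) ≠ 0 := (measure_ball_pos _ _ one_pos).ne'
  have h1 := ENNReal.Tendsto.div_const h (Or.inr hb)
  rw [ENNReal.zero_div] at h1
  refine h1.congr' ?_
  filter_upwards [self_mem_nhdsWithin] with r hr
  show prop v0 HypDeg r / volume (ball (0 : E d) 1) = _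
  rw [scaling _ _ hr]
  rfl

end Pool.Agent.H44.DN
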