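import Pool.Agent.H91.CE.CAU

/-!
# Module JETB: the remainder after the leading term

PROOF. `B ≥ 0`. `cau` gives `‖a‖ ρ ^ M ≤ B`. `H t = h t - a t ^ M` is holomorphic on the disc, `H = o(t ^ M)` at `0`; the orders of vanishing are integers: `H t = t ^ (M + 1) k t` with `k` holomorphic on the disc (`k t = H t / t ^ (M+1)` for `t ≠ 0`; iterate `dslope`, or removable singularity: `t k t = H t / t ^ M → 0` as `t → 0`). For `‖t‖ < r < ρ` the maximum principle (`Complex.norm_le_of_forall_mem_frontier_norm_le`) on `closedBall 0 r`: `‖k t‖ ≤ 2 B / r ^ (M+1)`, since `‖H‖ ≤ B + ‖a‖ r ^ M ≤ 2 B` on the circle. Let `r → ρ`.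
-/

set_option autoImplicit false

open Filter Topology Metric Set

namespace Pool.Agent.H44.DN

private theorem jetb_aux {ρ : ℝ} (hρ : 0 < ρ) (M : ℕ) : ∀ (h : ℂ → ℂ) (D : ℝ),
    DifferentiableOn ℂ h (ball 0 ρ) → (∀ t ∈ ball (0 : ℂ) ρ, ‖h t‖ ≤ D) →
    (h =o[𝓝[≠] 0] fun t : ℂ => t ^ M) →
    ∀ t ∈ ball (0 : ℂ) ρ, ‖h t‖ ≤ D * (‖t‖ / ρ) ^ (M + 1) := by
  have hz : ∀ (h : ℂ → ℂ), DifferentiableOn ℂ h (ball 0 ρ) → Tendsto h (𝓝[≠] 0) (𝓝 0) → h 0 = 0 := by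
    intro h hd ht
    have hc : ContinuousAt h 0 := (hd.differentiableAt (ball_mem_nhds (0 : ℂ) hρ)).continuousAt
    exact tendsto_nhds_unique (hc.tendsto.mono_left nhdsWithin_le_nhds) ht
  have hS : ∀ (h : ℂ → ℂ) (D : ℝ), DifferentiableOn ℂ h (ball 0 ρ) →
      (∀ t ∈ ball (0 : ℂ) ρ, ‖h t‖ ≤ D) → h 0 = 0 → ∀ t ∈ ball (0 : ℂ) ρ,
        ‖dslope h 0 t‖ ≤ D / ρ := by
    intro h D hd hb h0 t ht
    refine Complex.norm_dslope_le_div_of_mapsTo_ball hd ?_ ht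
    intro z hz
    rw [h0, mem_closedBall_zero_iff]
    exact hb z hz
  have hfac : ∀ (h : ℂ → ℂ), h 0 = 0 → ∀ t : ℂ, h t = t * dslope h 0 t := by
    intro h h0 t
    have := sub_smul_dslope h 0 t
    rw [h0] at this
    simpa using this.symm
  induction M with
  | zero =>
    intro h D hd hb ha t ht
    simp only [pow_zero] at ha
    have h0 : h 0 = 0 := hz h hd ((Asymptotics.isLittleO_one_iff ℂ).1 ha)
    have h1 := hS h D hd hb h0 t ht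
    rw [hfac h h0 t, norm_mul, zero_add, pow_one]
    calc ‖t‖ * ‖dslope h 0 t‖ ≤ ‖t‖ * (D / ρ) := mul_le_mul_of_nonneg_left h1 (norm_nonneg _)
      _ = D * (‖t‖ / ρ) := by ring
  | succ M ih =>
    intro h D hd hb ha t ht
    have h2 : Tendsto (fun t : ℂ => t ^ (M + 1)) (𝓝[≠] 0) (𝓝 0) := by
      have : Tendsto (fun t : ℂ => t ^ (M + 1)) (𝓝 0) (𝓝 (0 ^ (M + 1))) :=
        (continuous_pow (M + 1)).tendsto 0
      rw [zero_pow (Nat.succ_ne_zero M)] at this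
      exact this.mono_left nhdsWithin_le_nhds
    have h0 : h 0 = 0 := hz h hd (ha.trans_tendsto h2)
    have h3 : dslope h 0 =o[𝓝[≠] 0] fun t : ℂ => t ^ M := by
      have h4 : (fun t : ℂ => t⁻¹ * h t) =o[𝓝[≠] 0] fun t : ℂ => t⁻¹ * t ^ (M + 1) :=
        (Asymptotics.isBigO_refl (fun t : ℂ => t⁻¹) _).mul_isLittleO ha
      refine h4.congr' ?_ ?_
      · filter_upwards [self_mem_nhdsWithin] with s hs
        have hs0 : s ≠ 0 := hs
        rw [hfac h h0 s]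
        field_simp
      · filter_upwards [self_mem_nhdsWithin] with s hs
        have hs0 : s ≠ 0 := hs
        rw [pow_succ]
        field_simp
    have h5 := ih (dslope h 0) (D / ρ)
      ((Complex.differentiableOn_dslope (ball_mem_nhds (0 : ℂ) hρ)).2 hd)
      (hS h D hd hb h0) h3 t ht
    rw [hfac h h0 t, norm_mul]
    calc ‖t‖ * ‖dslope h 0 t‖ ≤ ‖t‖ * (D / ρ * (‖t‖ / ρ) ^ (M + 1)) :=
          mul_le_mul_of_nonneg_left h5 (norm_nonneg _)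
      _ = D * (‖t‖ / ρ) ^ (M + 1 + 1) := by ring

theorem jetb {h : ℂ → ℂ} {a : ℂ} {M : ℕ} {ρ B : ℝ} (hρ : 0 < ρ)
    (hd : DifferentiableOn ℂ h (ball 0 ρ)) (hb : ∀ t ∈ ball (0 : ℂ) ρ, ‖h t‖ ≤ B)
    (ha : (fun t : ℂ => h t - a * t ^ M) =o[𝓝 0] fun t : ℂ => t ^ M) :
    ∀ t ∈ ball (0 : ℂ) ρ, ‖h t - a * t ^ M‖ ≤ 2 * B * (‖t‖ / ρ) ^ (M + 1) := by
  intro t ht
  have hc := Pool.Agent.H91.CE.cau hρ hd hb ha
  have hB0 : 0 ≤ B := (norm_nonneg _).trans (hb 0 (mem_ball_self hρ))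
  refine jetb_aux hρ M (fun t => h t - a * t ^ M) (2 * B) ?_ ?_ (ha.mono nhdsWithin_le_nhds) t ht
  · exact hd.sub (by fun_prop)
  · intro s hs
    have h1 : ‖s‖ ^ M ≤ ρ ^ M := by
      have := (mem_ball_zero_iff.1 hs).le
      gcongr
    calc ‖h s - a * s ^ M‖ ≤ ‖h s‖ + ‖a * s ^ M‖ := norm_sub_le _ _
      _ = ‖h s‖ + ‖a‖ * ‖s‖ ^ M := by rw [norm_mul, norm_pow]
      _ ≤ B + ‖a‖ * ρ ^ M := add_le_add (hb s hs) (mul_le_mul_of_nonneg_left h1 (norm_nonneg _))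
      _ ≤ 2 * B := by linarith

end Pool.Agent.H44.DN
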