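import Pool.Agent.H44.DN.ITER
import Pool.Agent.H44.DN.JETB

/-!
# Module DYN0: iterates near the terminal value, crude estimates

PROOF. `v = vv c ∈ J`. For `‖w - v‖ < r_n := δ / (2 (L+1)^n)`: by induction `‖f^[i] w - f^[i] v‖ ≤ L^i ‖w - v‖ < δ/2` for `i ≤ n` (mean value inequality on the segment from `f^[i] v ∈ J`), so `f^[i] w ∈ thickening (δ/2) J`, and `f^[n]` is holomorphic on `ball v r_n`, `h t = f^[n] (v + t) - f^[n] v` is bounded by `δ/2 ≤ 1/2`. `jetb` with `M = 1`, `a = deriv (f^[n]) v`: `‖h t - a t‖ ≤ (‖t‖ / r_n)^2 = 4 (L+1)^(2n) ‖t‖^2 / δ^2`.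
Derivative: `k t = h t - a t`; for `‖t‖ ≤ r_n / 4`, Cauchy estimate on the circle of radius `‖t‖` around `t` (if `t ≠ 0`; trivial for `t = 0`): `‖deriv k t‖ ≤ (2‖t‖ / r_n)^2 / ‖t‖ = 4 ‖t‖ / r_n ^ 2`. The condition `C (L+1)^(2n) ‖w - v‖ ≤ 1` with `C ≥ 16 / δ^2` implies `‖w - v‖ ≤ r_n / 4`.
-/

set_option autoImplicit false

open Filter Topology Metric Set

namespace Pool.Agent.H44.DN

theorem dyn0 (D : Ds) : ∃ C : ℝ, 1 ≤ C ∧ ∀ c ∈ D.Cr, ∀ (n : ℕ) (w : ℂ),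
    C * (D.L + 1) ^ (2 * n) * ‖w - D.vv c‖ ≤ 1 →
      (∀ i ≤ n, D.f^[i] w ∈ thickening (D.δ / 2) D.J) ∧
      ‖D.f^[n] w - D.f^[n] (D.vv c) - deriv (D.f^[n]) (D.vv c) * (w - D.vv c)‖ ≤
        C * (D.L + 1) ^ (2 * n) * ‖w - D.vv c‖ ^ 2 ∧
      ‖deriv (D.f^[n]) w - deriv (D.f^[n]) (D.vv c)‖ ≤
        C * (D.L + 1) ^ (2 * n) * ‖w - D.vv c‖ := by
  have hδ := D.hδ
  have hL1 : 1 ≤ D.L + 1 := by linarith [D.hL]
  have hC1 : (1 : ℝ) ≤ 16 / D.δ ^ 2 := by
    rw [le_div_iff₀ (by positivity)]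
    have h1 : D.δ ^ 2 ≤ 1 := pow_le_one₀ hδ.le D.hδ1
    linarith
  refine ⟨16 / D.δ ^ 2, hC1, fun c hc n w hw => ?_⟩
  set v := D.vv c with hv
  have hvJ : v ∈ D.J := it_J D (D.hCr c hc) _
  have hP : 1 ≤ (D.L + 1) ^ n := one_le_pow₀ hL1
  set P := (D.L + 1) ^ n with hPdef
  have hP0 : 0 < P := by linarith
  have hP2 : (D.L + 1) ^ (2 * n) = P ^ 2 := by rw [hPdef, ← pow_mul, mul_comm]
  rw [hP2] at hw ⊢
  set r := D.δ / (2 * P) with hr
  have hr0 : 0 < r := by positivity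
  -- the orbits stay close
  have horb : ∀ z : ℂ, ‖z - v‖ < r → ∀ i ≤ n,
      ‖D.f^[i] z - D.f^[i] v‖ ≤ (D.L + 1) ^ i * ‖z - v‖ ∧ ‖D.f^[i] z - D.f^[i] v‖ < D.δ / 2 := by
    intro z hz i
    have hsm : ∀ i ≤ n, (D.L + 1) ^ i * ‖z - v‖ < D.δ / 2 := by
      intro i hi
      have h1 : (D.L + 1) ^ i ≤ P := pow_le_pow_right₀ hL1 hi
      calc (D.L + 1) ^ i * ‖z - v‖ ≤ P * ‖z - v‖ := mul_le_mul_of_nonneg_right h1 (norm_nonneg _)
        _ < P * r := mul_lt_mul_of_pos_left hz hP0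
        _ = D.δ / 2 := by
            rw [hr]
            field_simp
    induction i with
    | zero =>
      intro _
      have h1 := hsm 0 (Nat.zero_le _)
      simp only [pow_zero, one_mul, Function.iterate_zero, id_eq] at h1 ⊢
      exact ⟨le_rfl, h1⟩
    | succ i ih =>
      intro hi
      obtain ⟨h1, h2⟩ := ih (by omega)
      have hyJ : D.f^[i] v ∈ D.J := it_J D hvJ i
      have hsub : ball (D.f^[i] v) (D.δ / 2) ⊆ thickening D.δ D.J := by
        intro y hy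
        rw [mem_thickening_iff]
        refine ⟨D.f^[i] v, hyJ, ?_⟩
        have := mem_ball.1 hy
        linarith
      have h3 : ‖D.f (D.f^[i] z) - D.f (D.f^[i] v)‖ ≤ D.L * ‖D.f^[i] z - D.f^[i] v‖ := by
        refine (convex_ball (D.f^[i] v) (D.δ / 2)).norm_image_sub_le_of_norm_deriv_le
          (fun y hy => (D.hf y (D.hU (hsub hy))).differentiableAt
            (D.hG.mem_nhds (D.hU (hsub hy)))) (fun y hy => D.hLf y (hsub hy))
          (mem_ball_self (by positivity)) ?_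
        rw [mem_ball, dist_eq_norm]
        exact h2
      have h4 : ‖D.f^[i + 1] z - D.f^[i + 1] v‖ ≤ (D.L + 1) ^ (i + 1) * ‖z - v‖ := by
        rw [Function.iterate_succ_apply', Function.iterate_succ_apply']
        have hL0 : 0 ≤ D.L := by linarith [D.hL]
        calc ‖D.f (D.f^[i] z) - D.f (D.f^[i] v)‖ ≤ D.L * ‖D.f^[i] z - D.f^[i] v‖ := h3
          _ ≤ D.L * ((D.L + 1) ^ i * ‖z - v‖) := mul_le_mul_of_nonneg_left h1 hL0
          _ ≤ (D.L + 1) * ((D.L + 1) ^ i * ‖z - v‖) := by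
              refine mul_le_mul_of_nonneg_right (by linarith) ?_
              positivity
          _ = (D.L + 1) ^ (i + 1) * ‖z - v‖ := by rw [pow_succ]; ring
      exact ⟨h4, h4.trans_lt (hsm (i + 1) hi)⟩
  have hth : ∀ z : ℂ, ‖z - v‖ < r → ∀ i ≤ n, D.f^[i] z ∈ thickening (D.δ / 2) D.J := by
    intro z hz i hi
    rw [mem_thickening_iff]
    refine ⟨D.f^[i] v, it_J D hvJ i, ?_⟩
    rw [dist_eq_norm]
    exact (horb z hz i hi).2
  have hdiff : ∀ z : ℂ, ‖z - v‖ < r → DifferentiableAt ℂ (D.f^[n]) z := by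
    intro z hz
    refine it_diff D fun i hi => D.hU ?_
    exact thickening_mono (by linarith) _ (hth z hz i hi.le)
  -- the remainder
  have hrem : ∀ z : ℂ, ‖z - v‖ < r →
      ‖D.f^[n] z - D.f^[n] v - deriv (D.f^[n]) v * (z - v)‖ ≤ (‖z - v‖ / r) ^ 2 := by
    intro z hz
    have h1 := jetb (h := fun t : ℂ => D.f^[n] (v + t) - D.f^[n] v) (a := deriv (D.f^[n]) v)
      (M := 1) (ρ := r) (B := 1 / 2) hr0 ?_ ?_ ?_ (z - v) (mem_ball_zero_iff.2 hz)
    · simp only [pow_one, add_sub_cancel] at h1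
      calc _ ≤ 2 * (1 / 2) * (‖z - v‖ / r) ^ (1 + 1) := h1
        _ = (‖z - v‖ / r) ^ 2 := by ring
    · intro t ht
      have h2 := mem_ball_zero_iff.1 ht
      have h3 : DifferentiableAt ℂ (D.f^[n]) (v + t) := hdiff (v + t) (by rwa [add_sub_cancel_left])
      exact ((h3.comp t (by fun_prop)).sub_const _).differentiableWithinAt
    · intro t ht
      have h2 := mem_ball_zero_iff.1 ht
      have h3 := (horb (v + t) (by rwa [add_sub_cancel_left]) n le_rfl).2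
      linarith [D.hδ1]
    · have h2 := (hdiff v (by rw [sub_self, norm_zero]; exact hr0)).hasDerivAt
      rw [hasDerivAt_iff_isLittleO_nhds_zero] at h2
      simp only [pow_one]
      refine h2.congr_left fun t => ?_
      rw [smul_eq_mul]
      ring
  have hwr : ‖w - v‖ ≤ r / 4 := by
    have h1 : ‖w - v‖ ≤ D.δ ^ 2 / (16 * P ^ 2) := by
      rw [le_div_iff₀ (by positivity)]
      have h2 : 16 / D.δ ^ 2 * P ^ 2 * ‖w - v‖ * D.δ ^ 2 ≤ 1 * D.δ ^ 2 :=
        mul_le_mul_of_nonneg_right hw (by positivity)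
      calc ‖w - v‖ * (16 * P ^ 2) = 16 / D.δ ^ 2 * P ^ 2 * ‖w - v‖ * D.δ ^ 2 := by
            field_simp
        _ ≤ D.δ ^ 2 := by rw [one_mul] at h2; exact h2
    refine h1.trans ?_
    rw [hr, div_div, div_le_div_iff₀ (by positivity) (by positivity)]
    have h3 : D.δ * P ≤ P ^ 2 * 2 := by nlinarith [D.hδ1]
    have h4 := mul_le_mul_of_nonneg_left h3 (by positivity : 0 ≤ D.δ * 8)
    nlinarith
  have hwr' : ‖w - v‖ < r := by linarith
  have hinv : ∀ x : ℝ, (x / r) ^ 2 = 4 / D.δ ^ 2 * P ^ 2 * x ^ 2 := by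
    intro x
    rw [hr]
    field_simp
    ring
  refine ⟨hth w hwr', ?_, ?_⟩
  · refine (hrem w hwr').trans ?_
    rw [hinv]
    have h1 : (4 : ℝ) / D.δ ^ 2 ≤ 16 / D.δ ^ 2 := by
      gcongr
      norm_num
    gcongr
  · by_cases hwv : w = v
    · rw [hwv, sub_self, sub_self, norm_zero, mul_zero]
    have hpos : 0 < ‖w - v‖ := norm_pos_iff.2 (sub_ne_zero.2 hwv)
    have hin : ∀ z ∈ closedBall w ‖w - v‖, ‖z - v‖ ≤ 2 * ‖w - v‖ := by
      intro z hz
      rw [mem_closedBall, dist_eq_norm] at hz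
      calc ‖z - v‖ = ‖(z - w) + (w - v)‖ := by rw [sub_add_sub_cancel]
        _ ≤ ‖z - w‖ + ‖w - v‖ := norm_add_le _ _
        _ ≤ 2 * ‖w - v‖ := by linarith
    set k : ℂ → ℂ := fun z => D.f^[n] z - D.f^[n] v - deriv (D.f^[n]) v * (z - v) with hk
    have hkd : ∀ z : ℂ, ‖z - v‖ < r → HasDerivAt k (deriv (D.f^[n]) z - deriv (D.f^[n]) v) z := by
      intro z hz
      have h1 := ((hdiff z hz).hasDerivAt.sub_const (D.f^[n] v)).sub
        (((hasDerivAt_id z).sub_const v).const_mul (deriv (D.f^[n]) v))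
      rw [mul_one] at h1
      exact h1
    have h2 : DiffContOnCl ℂ k (ball w ‖w - v‖) := by
      refine DifferentiableOn.diffContOnCl ?_
      rw [closure_ball _ hpos.ne']
      intro z hz
      exact (hkd z (by linarith [hin z hz])).differentiableAt.differentiableWithinAt
    have h3 : ∀ z ∈ sphere w ‖w - v‖, ‖k z‖ ≤ 16 / D.δ ^ 2 * P ^ 2 * ‖w - v‖ ^ 2 := by
      intro z hz
      have h4 := hin z (sphere_subset_closedBall hz)
      refine (hrem z (by linarith)).trans ?_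
      rw [hinv]
      calc 4 / D.δ ^ 2 * P ^ 2 * ‖z - v‖ ^ 2 ≤ 4 / D.δ ^ 2 * P ^ 2 * (2 * ‖w - v‖) ^ 2 := by
            gcongr
        _ = 16 / D.δ ^ 2 * P ^ 2 * ‖w - v‖ ^ 2 := by ring
    have h5 := Complex.norm_deriv_le_of_forall_mem_sphere_norm_le hpos h2 h3
    rw [(hkd w hwr').deriv] at h5
    refine h5.trans (le_of_eq ?_)
    field_simp

end Pool.Agent.H44.DN
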