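import Pool.Agent.H44.DN.NOHIT
import Pool.Agent.H91.CE.CAU

/-!
# Module EXG: exponential exit of small discs

PROOF. `a, b, δ1', δ2', N` (`nohit`); `δ2 = min δ2' (δ1'/2) / 2`, `δ1 = δ1' / 2`. Let `P = ⌈a log (2/σ) + b⌉ + 3`. If `k` is so small that there is nothing to prove, done. For `p ≤ P` let `B_p = ball x (σ/2 + p σ / (2 P))`. If no `f^[i] w`, `w ∈ B_0`, `i ≤ k`, is in `Cr`: `nohit` for `z = x` and the radius `σ/2`. Otherwise let `j_p ≤ k` be the first time `i` such that `f^[i] w ∈ Cr` for some `w ∈ B_p`; `j_p` is antitone in `p`, `j_0 ≤ a log (2/σ) + b + 1 < P` by `nohit` (up to time `j_0 - 1`, if `j_0 ≥ 1`),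
so `j_p = j_(p+1) =: j` for some `p < P`. Let `z ∈ B_p` with `c = f^[j] z ∈ Cr`, `s = σ / (2 P)`: `ball z s ⊆ B_(p+1)`, no hit before `j` in it. `nohit` (centre `z`, radius `s`, up to `j - 1`; the points `f^[i] z` are within `δ2` of `f^[i] x`; the images of `ball z s` have radius `≤ 2 δ2`) gives `s ^ N ≤ exp b ‖deriv (f^[j]) z‖` (if `j = 0`: derivative `1`).
Let `i` with `j + τ c + i ≤ k` (if `k ≤ j + τ c` we are done). `F = f^[j + τ c + i]` is holomorphic on `ball z s`, `‖F w - F z‖ ≤ 2 δ2 ≤ 1`. Lower bound: by `D.p1` and differentiability `‖F w - F z‖ ≥ a' ‖w - z‖ ^ M c` near `z` with the leading coefficient: `F w - F z = A (w - z) ^ M c + o(‖w - z‖ ^ M c)`, where `‖A‖ ≥ ‖deriv (f^[i]) (vv c)‖ * (1/C) * ‖deriv (f^[j]) z‖ ^ M c`. (Expansion: `f^[j] w - c = deriv (f^[j]) z (w - z) + o`, `f^[τ c] u - vv c = β (u - c) ^ M c + o` with `‖β‖ ≥ 1 / C`: the function `f^[τ c] - vv c` is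
holomorphic near `c` with `‖u - c‖ ^ M c / C ≤ ‖f^[τ c] u - vv c‖ ≤ C ‖u - c‖ ^ M c` (`D.p1`), so its order at `c` is `M c`; `f^[i]` is differentiable at `vv c`.) `cau` (H91/CE/CAU) for `h t = F (z + t) - F z`: `‖A‖ s ^ M c ≤ 1`. So `q ^ i / C * (1/C) * (exp (-b) s ^ N) ^ M c * s ^ M c ≤ 1` (`D.ce1`): `i ≤ C' log (1/s) + C'`, and `log (1/s) = log (2 P / σ) ≤ 2 log (1/σ) + C''`. So `k ≤ j + τ c + i_max + 1`.
-/

set_option autoImplicit false

open Filter Topology Metric Set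

namespace Pool.Agent.H44.DN

/-- the leading coefficient of `f^[τ c]` at `c` -/
private theorem ex_beta (D : Ds) {c : ℂ} (hc : c ∈ D.Cr) : ∃ (β : ℂ) (ψ : ℂ → ℂ), 1 ≤ D.C * ‖β‖ ∧
    ContinuousAt ψ c ∧ ψ c = β ∧
    ∀ u, D.f^[D.τ c] u - D.f^[D.τ c] c = ψ u * (u - c) ^ D.M c := by
  classical
  have hM : 2 ≤ D.M c := (D.hm c hc).trans (D.hmM c hc)
  obtain ⟨ψ0, hψ0⟩ : ∃ ψ0 : ℂ → ℂ, ψ0 = fun u => (D.f^[D.τ c] u - D.f^[D.τ c] c) / (u - c) ^ D.M c :=
    ⟨_, rfl⟩
  have hball : ∀ᶠ u in 𝓝[≠] c, u ∈ ball c D.r0 ∧ u ≠ c := by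
    have h1 : ∀ᶠ u in 𝓝[≠] c, u ∈ ball c D.r0 := nhdsWithin_le_nhds (ball_mem_nhds c D.hr0)
    filter_upwards [h1, self_mem_nhdsWithin] with u hu hu'
    exact ⟨hu, hu'⟩
  have hd : ∀ᶠ u in 𝓝[≠] c, DifferentiableAt ℂ ψ0 u := by
    filter_upwards [hball] with u hu
    have h1 : DifferentiableAt ℂ (D.f^[D.τ c]) u := by
      refine it_diff D fun l hl => D.hU ?_
      refine thickening_mono ?_ _ (D.p4 c hc u hu.1 l hl.le)
      linarith [D.hδ]
    rw [hψ0]
    exact (h1.sub_const _).div ((differentiableAt_id.sub_const c).pow _)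
      (pow_ne_zero _ (sub_ne_zero.2 hu.2))
  have hψc : ψ0 c = 0 := by
    rw [hψ0]
    simp
  have hCpos : 0 < D.C := by linarith [D.hC]
  have hbd : ∀ᶠ u in 𝓝[≠] c, ‖ψ0 u‖ ≤ D.C ∧ 1 ≤ D.C * ‖ψ0 u‖ := by
    filter_upwards [hball] with u hu
    have h1 := D.p1 c hc u hu.1
    have h2 : 0 < ‖u - c‖ ^ D.M c := pow_pos (norm_pos_iff.2 (sub_ne_zero.2 hu.2)) _
    have h3 : ‖ψ0 u‖ = ‖D.f^[D.τ c] u - D.f^[D.τ c] c‖ / ‖u - c‖ ^ D.M c := by
      rw [hψ0]
      simp only [norm_div, norm_pow]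
    constructor
    · rw [h3, div_le_iff₀ h2]
      exact h1.1
    · rw [h3, mul_div_assoc', le_div_iff₀ h2, one_mul]
      exact h1.2
  have hbb : IsBoundedUnder (· ≤ ·) (𝓝[≠] c) fun u => ‖ψ0 u - ψ0 c‖ := by
    refine ⟨D.C, ?_⟩
    rw [Filter.eventually_map]
    filter_upwards [hbd] with u hu
    rw [hψc, sub_zero]
    exact hu.1
  have hlim := Complex.tendsto_limUnder_of_differentiable_on_punctured_nhds_of_bounded_under hd hbb
  obtain ⟨β, hβ⟩ : ∃ β, β = limUnder (𝓝[≠] c) ψ0 := ⟨_, rfl⟩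
  rw [← hβ] at hlim
  refine ⟨β, Function.update ψ0 c β, ?_, ?_, ?_, ?_⟩
  · exact ge_of_tendsto (hlim.norm.const_mul D.C) (hbd.mono fun u hu => hu.2)
  · rw [continuousAt_update_same]
    exact hlim
  · exact Function.update_self ..
  · intro u
    rcases eq_or_ne u c with h | h
    · rw [h, sub_self, sub_self, zero_pow (by omega), mul_zero]
    · rw [Function.update_of_ne h, hψ0]
      have : (u - c) ^ D.M c ≠ 0 := pow_ne_zero _ (sub_ne_zero.2 h)
      field_simp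

private theorem ex_taylor (D : Ds) {z c : ℂ} {j i : ℕ} (hzG : ∀ l < j, D.f^[l] z ∈ D.G)
    (hc : c ∈ D.Cr) (hzc : D.f^[j] z = c) : ∃ β : ℂ, 1 ≤ D.C * ‖β‖ ∧
    (fun t : ℂ => (D.f^[i + (D.τ c + j)] (z + t) - D.f^[i + (D.τ c + j)] z) -
      (deriv (D.f^[i]) (D.f^[D.τ c] c) * β * deriv (D.f^[j]) z ^ D.M c) * t ^ D.M c)
      =o[𝓝 0] fun t => t ^ D.M c := by
  obtain ⟨β, ψ, hβ, hψ, hψc, hψe⟩ := ex_beta D hc
  refine ⟨β, hβ, ?_⟩
  have hJ : ∀ l, D.f^[l] c ∈ D.J := fun l => it_J D (D.hCr c hc) l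
  have hdj : DifferentiableAt ℂ (D.f^[j]) z := it_diff D hzG
  have hdτ : DifferentiableAt ℂ (D.f^[D.τ c]) c :=
    it_diff D fun l _ => D.hU (J_th D (hJ l) D.hδ)
  have hdi : DifferentiableAt ℂ (D.f^[i]) (D.f^[D.τ c] c) := by
    refine it_diff D fun l _ => D.hU (J_th D ?_ D.hδ)
    rw [← Function.iterate_add_apply]
    exact hJ _
  obtain ⟨Θ, hΘ⟩ : ∃ Θ : ℂ → ℂ, Θ = fun t =>
      dslope (D.f^[i]) (D.f^[D.τ c] c) (D.f^[D.τ c] (D.f^[j] (z + t))) * ψ (D.f^[j] (z + t)) *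
        (dslope (D.f^[j]) z (z + t)) ^ D.M c := ⟨_, rfl⟩
  have hadd : ContinuousAt (fun t : ℂ => z + t) 0 := by fun_prop
  have hcj : ContinuousAt (fun t : ℂ => D.f^[j] (z + t)) 0 := by
    refine ContinuousAt.comp (g := D.f^[j]) ?_ hadd
    rw [add_zero]
    exact hdj.continuousAt
  have hcτ : ContinuousAt (fun t : ℂ => D.f^[D.τ c] (D.f^[j] (z + t))) 0 := by
    refine ContinuousAt.comp (g := D.f^[D.τ c]) (f := fun t : ℂ => D.f^[j] (z + t)) ?_ hcj
    simp only [add_zero]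
    rw [hzc]
    exact hdτ.continuousAt
  have hc1 : ContinuousAt (fun t : ℂ =>
      dslope (D.f^[i]) (D.f^[D.τ c] c) (D.f^[D.τ c] (D.f^[j] (z + t)))) 0 := by
    refine ContinuousAt.comp (g := dslope (D.f^[i]) (D.f^[D.τ c] c))
      (f := fun t : ℂ => D.f^[D.τ c] (D.f^[j] (z + t))) ?_ hcτ
    simp only [add_zero]
    rw [hzc]
    exact continuousAt_dslope_same.2 hdi
  have hc2 : ContinuousAt (fun t : ℂ => ψ (D.f^[j] (z + t))) 0 := by
    refine ContinuousAt.comp (g := ψ) (f := fun t : ℂ => D.f^[j] (z + t)) ?_ hcj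
    simp only [add_zero]
    rw [hzc]
    exact hψ
  have hc3 : ContinuousAt (fun t : ℂ => dslope (D.f^[j]) z (z + t)) 0 := by
    refine ContinuousAt.comp (g := dslope (D.f^[j]) z) ?_ hadd
    rw [add_zero]
    exact continuousAt_dslope_same.2 hdj
  have hΘc : ContinuousAt Θ 0 := by
    rw [hΘ]
    exact (hc1.mul hc2).mul (hc3.pow _)
  have hΘ0 : Θ 0 = deriv (D.f^[i]) (D.f^[D.τ c] c) * β * deriv (D.f^[j]) z ^ D.M c := by
    rw [hΘ]
    simp only [add_zero]
    rw [hzc, dslope_same, dslope_same, hψc]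
  have hF : ∀ t, D.f^[i + (D.τ c + j)] (z + t) - D.f^[i + (D.τ c + j)] z = Θ t * t ^ D.M c := by
    intro t
    have e1 : ∀ w, D.f^[i + (D.τ c + j)] w = D.f^[i] (D.f^[D.τ c] (D.f^[j] w)) := by
      intro w
      rw [Function.iterate_add_apply, Function.iterate_add_apply]
    rw [e1, e1, hzc]
    have e2 := sub_smul_dslope (D.f^[i]) (D.f^[D.τ c] c) (D.f^[D.τ c] (D.f^[j] (z + t)))
    have e3 := hψe (D.f^[j] (z + t))
    have e4 := sub_smul_dslope (D.f^[j]) z (z + t)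
    rw [smul_eq_mul] at e2 e4
    rw [add_sub_cancel_left, hzc] at e4
    rw [← e2, e3, ← e4, hΘ, mul_pow]
    ring
  have h1 : (fun t : ℂ => (D.f^[i + (D.τ c + j)] (z + t) - D.f^[i + (D.τ c + j)] z) -
      (deriv (D.f^[i]) (D.f^[D.τ c] c) * β * deriv (D.f^[j]) z ^ D.M c) * t ^ D.M c) =
      fun t => (Θ t - Θ 0) * t ^ D.M c := by
    funext t
    rw [hF t, hΘ0]
    ring
  rw [h1]
  have h2 : (fun t : ℂ => Θ t - Θ 0) =o[𝓝 0] fun _ => (1 : ℂ) := by
    rw [Asymptotics.isLittleO_one_iff]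
    have := hΘc.tendsto.sub_const (Θ 0)
    rwa [sub_self] at this
  have h3 := h2.mul_isBigO (Asymptotics.isBigO_refl (fun t : ℂ => t ^ D.M c) (𝓝 0))
  simpa using h3

private theorem ex_pigeon (J : ℕ → ℕ) (P : ℕ) (hJ : ∀ p, J (p + 1) ≤ J p) (h : J 0 < P) :
    ∃ p < P, J (p + 1) = J p := by
  by_contra hcon
  push Not at hcon
  have h1 : ∀ p ≤ P, J p + p ≤ J 0 := by
    intro p
    induction p with
    | zero => intro _; omega
    | succ p ih =>
      intro hp
      have h2 := ih (by omega)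
      have h3 := hJ p
      have h4 := hcon p (by omega)
      omega
  have := h1 P le_rfl
  omega

theorem exit_exp (D : Ds) : ∃ a b δ1 δ2 : ℝ, 0 < a ∧ 0 < b ∧ 0 < δ1 ∧ δ1 ≤ D.δ / 4 ∧ 0 < δ2 ∧
    δ2 ≤ D.δ / 4 ∧ ∀ (x : ℂ) (σ : ℝ) (k : ℕ), 0 < σ → σ ≤ 1 / 2 →
      (∀ i ≤ k, D.f^[i] x ∈ thickening δ1 D.J ∧ ∀ w ∈ ball x σ, ‖D.f^[i] w - D.f^[i] x‖ ≤ δ2) →
      (k : ℝ) ≤ a * Real.log (1 / σ) + b := by
  classical
  obtain ⟨a, b, δ1', δ2', N, ha, hb, hδ1', hδ1'4, hδ2', hδ2'4, hno⟩ := nohit D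
  obtain ⟨δ1, hδ1⟩ : ∃ δ1, δ1 = δ1' / 2 := ⟨_, rfl⟩
  obtain ⟨δ2, hδ2⟩ : ∃ δ2, δ2 = min δ2' (δ1' / 2) / 2 := ⟨_, rfl⟩
  have hδ20 : 0 < δ2 := by
    rw [hδ2]
    exact half_pos (lt_min hδ2' (by linarith))
  have hδ2a : 2 * δ2 ≤ δ2' := by
    have := min_le_left δ2' (δ1' / 2)
    linarith
  have hδ2b : 2 * δ2 ≤ δ1' / 2 := by
    have := min_le_right δ2' (δ1' / 2)
    linarith
  have hDδ := D.hδ
  have hDδ1 := D.hδ1
  obtain ⟨T, hT⟩ : ∃ T : ℕ, T = ∑ c ∈ D.Cr, D.τ c := ⟨_, rfl⟩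
  have hτT : ∀ c ∈ D.Cr, D.τ c ≤ T := fun c hc => by
    rw [hT]
    exact Finset.single_le_sum (fun _ _ => Nat.zero_le _) hc
  have hMx : ∀ c ∈ D.Cr, D.M c ≤ D.Mx := fun c hc =>
    Finset.single_le_sum (f := D.M) (fun _ _ => Nat.zero_le _) hc
  have hlq : 0 < Real.log D.q := Real.log_pos D.hq
  have hC0 : 0 < D.C := by linarith [D.hC]
  have hlC : 0 ≤ Real.log D.C := Real.log_nonneg D.hC
  obtain ⟨A1, hA1⟩ : ∃ A1 : ℝ, A1 = ((N : ℝ) + 1) * D.Mx * (1 + a) / Real.log D.q := ⟨_, rfl⟩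
  obtain ⟨B1, hB1⟩ : ∃ B1 : ℝ, B1 = (2 * Real.log D.C + b * D.Mx +
    ((N : ℝ) + 1) * D.Mx * (Real.log 2 + a * Real.log 2 + b + 4)) / Real.log D.q := ⟨_, rfl⟩
  have hl2 : 0 < Real.log 2 := Real.log_pos (by norm_num)
  have hA10 : 0 ≤ A1 := by rw [hA1]; positivity
  have hB10 : 0 ≤ B1 := by rw [hB1]; positivity
  refine ⟨a + A1, a * Real.log 2 + b + 1 + T + B1, δ1, δ2, by positivity, by positivity,
    by rw [hδ1]; linarith, by rw [hδ1]; linarith, hδ20, by linarith, ?_⟩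
  intro x σ k hσ hσ1 hx
  obtain ⟨L, hL⟩ : ∃ L, L = Real.log (1 / σ) := ⟨_, rfl⟩
  have hL0 : 0 ≤ L := by
    rw [hL]
    refine Real.log_nonneg ?_
    rw [le_div_iff₀ hσ]
    linarith
  rw [← hL]
  have hlog2 : Real.log (1 / (σ / 2)) = Real.log 2 + L := by
    rw [hL, ← Real.log_mul (by norm_num) (by positivity)]
    congr 1
    field_simp
  -- basic facts
  have hball : ∀ {ρ : ℝ}, ρ ≤ σ → ∀ w ∈ ball x ρ, w ∈ ball x σ := fun h w hw =>
    ball_subset_ball h hw
  have hxth : ∀ i ≤ k, D.f^[i] x ∈ thickening δ1' D.J := fun i hi =>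
    thickening_mono (by rw [hδ1]; linarith) _ (hx i hi).1
  have hwth : ∀ i ≤ k, ∀ w ∈ ball x σ, D.f^[i] w ∈ thickening δ1' D.J := by
    intro i hi w hw
    have h1 := th_add (hx i hi).1 (b := δ1' / 2) (w := D.f^[i] w)
      (lt_of_le_of_lt ((hx i hi).2 w hw) (by linarith))
    rw [hδ1] at h1
    rwa [add_halves] at h1
  have hwG : ∀ i ≤ k, ∀ w ∈ ball x σ, D.f^[i] w ∈ D.G := fun i hi w hw =>
    D.hU (thickening_mono (by linarith) _ (hwth i hi w hw))
  by_cases hhit : ∃ i ≤ k, ∃ w ∈ ball x (σ / 2), D.f^[i] w ∈ D.Cr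
  · -- there is a hit
    obtain ⟨i0, hi0, w0, hw0, hiw0⟩ := hhit
    obtain ⟨P, hP⟩ : ∃ P : ℕ, P = ⌈a * (Real.log 2 + L) + b⌉₊ + 3 := ⟨_, rfl⟩
    have hP3 : (0 : ℝ) < P := by
      have : 0 < P := by omega
      exact_mod_cast this
    have hPge : a * (Real.log 2 + L) + b + 3 ≤ P := by
      rw [hP]
      push_cast
      linarith [Nat.le_ceil (a * (Real.log 2 + L) + b)]
    have hPle : (P : ℝ) ≤ a * (Real.log 2 + L) + b + 4 := by
      rw [hP]
      push_cast
      have : (0 : ℝ) ≤ a * (Real.log 2 + L) + b := by positivity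
      linarith [Nat.ceil_lt_add_one this]
    obtain ⟨ρ, hρ⟩ : ∃ ρ : ℕ → ℝ, ρ = fun p : ℕ => σ / 2 + (p : ℝ) * (σ / (2 * P)) := ⟨_, rfl⟩
    have hs0 : 0 < σ / (2 * P) := by positivity
    have hρ0 : ρ 0 = σ / 2 := by rw [hρ]; simp
    have hρs : ∀ p, ρ (p + 1) = ρ p + σ / (2 * P) := by
      intro p
      rw [hρ]
      push_cast
      ring
    have hρmono : ∀ p, σ / 2 ≤ ρ p := by
      intro p
      rw [hρ]
      have : (0 : ℝ) ≤ p * (σ / (2 * P)) := by positivity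
      dsimp only
      linarith
    have hρle : ∀ p, p ≤ P → ρ p ≤ σ := by
      intro p hp
      rw [hρ]
      dsimp only
      have h1 : (p : ℝ) ≤ P := by exact_mod_cast hp
      have h2 : (p : ℝ) * (σ / (2 * P)) ≤ P * (σ / (2 * P)) := mul_le_mul_of_nonneg_right h1 hs0.le
      have h3 : (P : ℝ) * (σ / (2 * P)) = σ / 2 := by field_simp
      linarith
    have hex : ∀ p, ∃ i, ∃ w ∈ ball x (ρ p), D.f^[i] w ∈ D.Cr := fun p =>
      ⟨i0, w0, ball_subset_ball (hρmono p) hw0, hiw0⟩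
    obtain ⟨J, hJspec, hJmin, hJk⟩ : ∃ J : ℕ → ℕ, (∀ p, ∃ w ∈ ball x (ρ p), D.f^[J p] w ∈ D.Cr) ∧
        (∀ p i, i < J p → ¬ ∃ w ∈ ball x (ρ p), D.f^[i] w ∈ D.Cr) ∧ ∀ p, J p ≤ k := by
      refine ⟨fun p => Nat.find (hex p), fun p => Nat.find_spec (hex p),
        fun p i hi => Nat.find_min (hex p) hi, fun p => ?_⟩
      exact (Nat.find_min' (hex p) ⟨w0, ball_subset_ball (hρmono p) hw0, hiw0⟩).trans hi0
    have hJanti : ∀ p, J (p + 1) ≤ J p := by
      intro p
      by_contra hcon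
      push Not at hcon
      obtain ⟨w, hw, hw'⟩ := hJspec p
      refine hJmin (p + 1) (J p) hcon ⟨w, ball_subset_ball ?_ hw, hw'⟩
      rw [hρs]
      linarith
    -- the first hitting time is bounded
    have hJ0 : (J 0 : ℝ) ≤ a * (Real.log 2 + L) + b + 1 := by
      rcases Nat.eq_zero_or_pos (J 0) with h | h
      · rw [h, Nat.cast_zero]
        positivity
      · have h1 := hno x (σ / 2) (J 0 - 1) (by linarith) (by linarith) (fun i hi => by
          have hik : i ≤ k := by have := hJk 0; omega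
          refine ⟨hxth i hik, fun w hw => ?_⟩
          have hwσ : w ∈ ball x σ := hball (by linarith) w hw
          refine ⟨((hx i hik).2 w hwσ).trans (by linarith), fun hcr => ?_⟩
          refine hJmin 0 i (by omega) ⟨w, ?_, hcr⟩
          rw [hρ0]
          exact hw)
        have h2 := h1.1
        rw [hlog2] at h2
        have h3 : (J 0 : ℝ) = ((J 0 - 1 : ℕ) : ℝ) + 1 := by
          have : J 0 - 1 + 1 = J 0 := by omega
          exact_mod_cast this.symm
        rw [h3]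
        linarith
    have hJP : J 0 < P := by
      have : (J 0 : ℝ) < P := by linarith
      exact_mod_cast this
    obtain ⟨p, hpP, hpj⟩ := ex_pigeon J P hJanti hJP
    obtain ⟨j, hj⟩ : ∃ j, j = J p := ⟨_, rfl⟩
    have hjk : j ≤ k := by rw [hj]; exact hJk p
    have hjJ0 : (j : ℝ) ≤ a * (Real.log 2 + L) + b + 1 := by
      have h1 : ∀ p, J p ≤ J 0 := by
        intro p
        induction p with
        | zero => exact le_rfl
        | succ p ih => exact (hJanti p).trans ih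
      have h2 : (j : ℝ) ≤ J 0 := by rw [hj]; exact_mod_cast h1 p
      linarith
    obtain ⟨z, hz, hzc⟩ := hJspec p
    rw [← hj] at hzc
    obtain ⟨c, hcd⟩ : ∃ c, c = D.f^[j] z := ⟨_, rfl⟩
    rw [← hcd] at hzc
    obtain ⟨s, hs⟩ : ∃ s, s = σ / (2 * P) := ⟨_, rfl⟩
    rw [← hs] at hs0
    have hP1 : (1 : ℝ) ≤ P := by
      have : 1 ≤ P := by omega
      exact_mod_cast this
    have hs12 : s ≤ 1 / 2 := by
      rw [hs, div_le_iff₀ (by positivity)]
      nlinarith
    have hsub : ∀ w ∈ ball z s, w ∈ ball x (ρ (p + 1)) := by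
      intro w hw
      rw [mem_ball] at hw hz ⊢
      rw [hρs, ← hs]
      calc dist w x ≤ dist w z + dist z x := dist_triangle _ _ _
        _ < ρ p + s := by linarith
    have hρp1 : ρ (p + 1) ≤ σ := hρle (p + 1) (by omega)
    have hsubσ : ∀ w ∈ ball z s, w ∈ ball x σ := fun w hw => hball hρp1 w (hsub w hw)
    have hzσ : z ∈ ball x σ := hsubσ z (mem_ball_self hs0)
    have hdiff2 : ∀ i ≤ k, ∀ w ∈ ball z s, ‖D.f^[i] w - D.f^[i] z‖ ≤ 2 * δ2 := by
      intro i hi w hw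
      have e1 := (hx i hi).2 w (hsubσ w hw)
      have e2 := (hx i hi).2 z hzσ
      have e3 : D.f^[i] w - D.f^[i] z = (D.f^[i] w - D.f^[i] x) - (D.f^[i] z - D.f^[i] x) := by ring
      rw [e3]
      exact (norm_sub_le _ _).trans (by linarith)
    -- the derivative at the hitting time
    have hder : s ^ N ≤ Real.exp b * ‖deriv (D.f^[j]) z‖ := by
      rcases Nat.eq_zero_or_pos j with h | h
      · rw [h]
        have e1 : deriv (D.f^[0]) z = 1 := by
          have : D.f^[0] = id := Function.iterate_zero D.f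
          rw [this, deriv_id]
        rw [e1, norm_one, mul_one]
        calc s ^ N ≤ 1 := pow_le_one₀ hs0.le (by linarith)
          _ ≤ Real.exp b := Real.one_le_exp hb.le
      · have h1 := hno z s (j - 1) hs0 hs12 (fun i hi => by
          have hik : i ≤ k := by omega
          refine ⟨hwth i hik z hzσ, fun w hw => ?_⟩
          refine ⟨(hdiff2 i hik w hw).trans hδ2a, fun hcr => ?_⟩
          exact hJmin (p + 1) i (by rw [hpj, ← hj]; omega) ⟨w, hsub w hw, hcr⟩)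
        exact h1.2 j (by omega)
    -- the bound for the remaining time
    have hrem : ∀ i : ℕ, i + (D.τ c + j) ≤ k → (i : ℝ) ≤ A1 * L + B1 := by
      intro i hik
      obtain ⟨β, hβ, hlo⟩ := ex_taylor D (z := z) (c := c) (j := j) (i := i)
        (fun l hl => hwG l (by omega) z hzσ) hzc hcd.symm
      have hd : DifferentiableOn ℂ (fun t : ℂ => D.f^[i + (D.τ c + j)] (z + t) -
          D.f^[i + (D.τ c + j)] z) (ball 0 s) := by
        intro t ht
        have hzt : z + t ∈ ball z s := by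
          rw [mem_ball, dist_eq_norm, add_sub_cancel_left]
          rwa [mem_ball_zero_iff] at ht
        have e1 : DifferentiableAt ℂ (D.f^[i + (D.τ c + j)]) (z + t) :=
          it_diff D fun l hl => hwG l (by omega) _ (hsubσ _ hzt)
        have e2 : DifferentiableAt ℂ (fun t : ℂ => z + t) t := by fun_prop
        exact ((e1.comp t e2).sub_const _).differentiableWithinAt
      have hbd : ∀ t ∈ ball (0 : ℂ) s, ‖D.f^[i + (D.τ c + j)] (z + t) -
          D.f^[i + (D.τ c + j)] z‖ ≤ 1 := by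
        intro t ht
        have hzt : z + t ∈ ball z s := by
          rw [mem_ball, dist_eq_norm, add_sub_cancel_left]
          rwa [mem_ball_zero_iff] at ht
        exact (hdiff2 _ hik _ hzt).trans (by linarith)
      have hcau := Pool.Agent.H91.CE.cau hs0 hd hbd hlo
      rw [norm_mul, norm_mul, norm_pow] at hcau
      have hce := D.ce1 c hzc i
      obtain ⟨M, hM⟩ : ∃ M, M = D.M c := ⟨_, rfl⟩
      rw [← hM] at hcau
      have hMle : (M : ℝ) ≤ D.Mx := by rw [hM]; exact_mod_cast hMx c hzc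
      obtain ⟨e, he⟩ : ∃ e, e = ‖deriv (D.f^[i]) (D.f^[D.τ c] c)‖ := ⟨_, rfl⟩
      obtain ⟨d, hdd⟩ : ∃ d, d = ‖deriv (D.f^[j]) z‖ := ⟨_, rfl⟩
      rw [← he, ← hdd] at hcau
      rw [← he] at hce
      rw [← hdd] at hder
      have he0 : 0 ≤ e := by rw [he]; exact norm_nonneg _
      have hd0 : 0 ≤ d := by rw [hdd]; exact norm_nonneg _
      -- `q ^ i * s ^ ((N + 1) M) ≤ C ^ 2 * exp b ^ M`
      have f1 : (s ^ N) ^ M ≤ (Real.exp b * d) ^ M := pow_le_pow_left₀ (by positivity) hder M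
      have f2 : D.q ^ i * ((s ^ N) ^ M * s ^ M) ≤ D.C ^ 2 * Real.exp b ^ M := by
        have g1 : D.q ^ i * 1 ≤ (D.C * e) * (D.C * ‖β‖) :=
          mul_le_mul hce hβ zero_le_one (by positivity)
        calc D.q ^ i * ((s ^ N) ^ M * s ^ M) = (D.q ^ i * 1) * ((s ^ N) ^ M * s ^ M) := by ring
          _ ≤ ((D.C * e) * (D.C * ‖β‖)) * ((Real.exp b * d) ^ M * s ^ M) :=
              mul_le_mul g1 (mul_le_mul_of_nonneg_right f1 (by positivity)) (by positivity)
                (by positivity)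
          _ = D.C ^ 2 * Real.exp b ^ M * (e * ‖β‖ * d ^ M * s ^ M) := by
              rw [mul_pow]
              ring
          _ ≤ D.C ^ 2 * Real.exp b ^ M * 1 := mul_le_mul_of_nonneg_left hcau (by positivity)
          _ = _ := mul_one _
      have hq0 : 0 < D.q := by linarith [D.hq]
      have f3 := Real.log_le_log (by positivity) f2
      rw [Real.log_mul (by positivity) (by positivity), Real.log_mul (by positivity) (by positivity),
        Real.log_mul (by positivity) (by positivity), Real.log_pow, Real.log_pow, Real.log_pow,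
        Real.log_pow, Real.log_pow, Real.log_pow, Real.log_exp] at f3
      -- the logarithm of `s`
      have hls : -Real.log s ≤ Real.log 2 + (a * (Real.log 2 + L) + b + 4) + L := by
        have g1 : Real.log s = Real.log σ - (Real.log 2 + Real.log P) := by
          rw [hs, Real.log_div hσ.ne' (by positivity), Real.log_mul (by norm_num) hP3.ne']
        have g2 : L = -Real.log σ := by
          rw [hL, one_div, Real.log_inv]
        have g3 : Real.log P ≤ P := (Real.log_le_sub_one_of_pos hP3).trans (by linarith)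
        linarith
      have hS0 : 0 ≤ Real.log 2 + (a * (Real.log 2 + L) + b + 4) + L := by positivity
      have hN0 : (0 : ℝ) ≤ N := Nat.cast_nonneg _
      have hM0 : (0 : ℝ) ≤ M := Nat.cast_nonneg _
      have f4 : (i : ℝ) * Real.log D.q ≤ 2 * Real.log D.C + b * D.Mx +
          ((N : ℝ) + 1) * D.Mx * (Real.log 2 + (a * (Real.log 2 + L) + b + 4) + L) := by
        have g4 : ((N : ℝ) + 1) * M * (-Real.log s) ≤ ((N : ℝ) + 1) * D.Mx *
            (Real.log 2 + (a * (Real.log 2 + L) + b + 4) + L) := by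
          calc ((N : ℝ) + 1) * M * (-Real.log s)
              ≤ ((N : ℝ) + 1) * M * (Real.log 2 + (a * (Real.log 2 + L) + b + 4) + L) :=
                mul_le_mul_of_nonneg_left hls (by positivity)
            _ ≤ _ := mul_le_mul_of_nonneg_right
                (mul_le_mul_of_nonneg_left hMle (by positivity)) hS0
        have g5 : (M : ℝ) * b ≤ b * D.Mx := by
          rw [mul_comm]
          exact mul_le_mul_of_nonneg_left hMle hb.le
        push_cast at f3
        nlinarith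
      have f5 : A1 * L + B1 = (2 * Real.log D.C + b * D.Mx +
          ((N : ℝ) + 1) * D.Mx * (Real.log 2 + (a * (Real.log 2 + L) + b + 4) + L)) /
          Real.log D.q := by
        rw [hA1, hB1]
        ring
      rw [f5, le_div_iff₀ hlq]
      exact f4
    rcases le_or_gt (D.τ c + j) k with h | h
    · have h1 := hrem (k - (D.τ c + j)) (by omega)
      have h2 : (k : ℝ) = ((k - (D.τ c + j) : ℕ) : ℝ) + (D.τ c + j) := by
        have : k - (D.τ c + j) + (D.τ c + j) = k := by omega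
        exact_mod_cast this.symm
      have h3 : (D.τ c : ℝ) ≤ T := by exact_mod_cast hτT c hzc
      rw [h2]
      nlinarith
    · have h2 : (k : ℝ) ≤ D.τ c + j := by exact_mod_cast h.le
      have h3 : (D.τ c : ℝ) ≤ T := by exact_mod_cast hτT c hzc
      have h4 : 0 ≤ A1 * L := by positivity
      nlinarith
  · -- no hit
    push Not at hhit
    have h1 := hno x (σ / 2) k (by linarith) (by linarith) (fun i hi => by
      refine ⟨hxth i hi, fun w hw => ?_⟩
      have hwσ : w ∈ ball x σ := hball (by linarith) w hw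
      exact ⟨((hx i hi).2 w hwσ).trans (by linarith), hhit i hi w hw⟩)
    have h2 := h1.1
    rw [hlog2] at h2
    have h4 : 0 ≤ A1 * L := by positivity
    have h5 : (0 : ℝ) ≤ T := Nat.cast_nonneg _
    nlinarith

end Pool.Agent.H44.DN
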