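import Pool.Agent.H44.DN.QDefs

/-!
# Module FAM0: families: elementary facts

PROOFS. (1) `pert` at `u = 0` (`0 ^ M = 0`, `M ≥ 1`): `F 0 z = f z` for `z ∈ thickening δ J`; induction with `lip0` at `0` and `it_J`. (2) Induction on `i`: `‖g (i+1) u - f^[i+1] (vv c)‖ ≤ ‖F u (g i u) - f (g i u)‖ + ‖f (g i u) - f (f^[i] (vv c))‖ ≤ A ‖u‖ ^ M + L ‖g i u - f^[i] (vv c)‖` (mean value inequality on the segment, contained in the ball of radius `< δ/2` around the point `f^[i] (vv c) ∈ J`, hence in `thickening (δ/2) J`), `‖u‖ ^ M ≤ ‖u‖` and `A ‖u‖ + L A (L+1)^i ‖u‖ ≤ A (L+1)^(i+1) ‖u‖`.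
(3) induction with `hol`, `g0`. (4) Induction on `j`: `x = g (n+j) u`, `x' = f^[j] (g n u) ∈ thickening (3δ/4) J`, `‖x - x'‖ ≤ A ‖u‖^M (L+1)^j < δ/4`, so the segment is in `thickening δ J`; `‖F u x - f x'‖ ≤ A ‖u‖ ^ M + L ‖x - x'‖ ≤ A ‖u‖ ^ M (L+1)^(j+1)`.
-/

set_option autoImplicit false

open Filter Topology Metric Set

namespace Pool.Agent.H44.DN

private theorem fam0_J (D : Ds) {z : ℂ} (hz : z ∈ D.J) (n : ℕ) : D.f^[n] z ∈ D.J := by
  induction n with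
  | zero => exact hz
  | succ n ih =>
    rw [Function.iterate_succ_apply']
    exact D.hJf _ ih

private theorem fam0_vv (D : Ds) (X : Fam D) (n : ℕ) : D.f^[n] (D.vv X.c) ∈ D.J :=
  fam0_J D (fam0_J D (D.hCr _ X.hc) _) n

private theorem fam0_th (D : Ds) {a b c : ℝ} (hab : a + b ≤ c) {z w : ℂ} (hz : z ∈ thickening a D.J)
    (hw : ‖w - z‖ < b) : w ∈ thickening c D.J := by
  rw [mem_thickening_iff] at hz ⊢
  obtain ⟨y, hy, hzy⟩ := hz
  refine ⟨y, hy, ?_⟩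
  have h1 := dist_triangle w z y
  rw [dist_eq_norm w z] at h1
  linarith

private theorem fam0_mv (D : Ds) {x y : ℂ} {ε : ℝ} (hb : ball y ε ⊆ thickening D.δ D.J)
    (hε : 0 < ε) (hxy : ‖x - y‖ < ε) : ‖D.f x - D.f y‖ ≤ D.L * ‖x - y‖ := by
  refine Convex.norm_image_sub_le_of_norm_deriv_le (𝕜 := ℂ) (s := ball y ε) ?_ ?_ (convex_ball y ε)
    (mem_ball_self hε) (by rw [mem_ball, dist_eq_norm]; exact hxy)
  · intro z hz
    exact D.hf.differentiableAt (D.hG.mem_nhds (D.hU (hb hz)))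
  · intro z hz
    exact D.hLf z (hb hz)

theorem fam_zero (D : Ds) (X : Fam D) (n : ℕ) : X.g n 0 = D.f^[n] (D.vv X.c) := by
  have h0 : (0 : ℂ) ∈ ball (0 : ℂ) X.ρ0 := mem_ball_self X.hρ0
  induction n with
  | zero =>
    have h1 := X.lip0 0 h0
    rw [norm_zero, mul_zero] at h1
    have h2 := norm_le_zero_iff.1 h1
    exact sub_eq_zero.1 h2
  | succ n ih =>
    rw [X.step, ih, Function.iterate_succ_apply']
    have h1 := X.pert 0 h0 (D.f^[n] (D.vv X.c)) (self_subset_thickening D.hδ _ (fam0_vv D X n))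
    rw [norm_zero, zero_pow (by have := X.hM; omega), mul_zero] at h1
    exact sub_eq_zero.1 (norm_le_zero_iff.1 h1)

private theorem fam0_pw (D : Ds) (i : ℕ) : 1 ≤ (D.L + 1) ^ i :=
  one_le_pow₀ (by have := D.hL; linarith)

private theorem fam0_mono (D : Ds) {i n : ℕ} (h : i ≤ n) : (D.L + 1) ^ i ≤ (D.L + 1) ^ n :=
  pow_le_pow_right₀ (by have := D.hL; linarith) h

theorem fam_small (D : Ds) (X : Fam D) {n : ℕ} {u : ℂ} (hu : u ∈ ball (0 : ℂ) X.ρ0)
    (h : X.A * (D.L + 1) ^ n * ‖u‖ < D.δ / 2) : ∀ i ≤ n,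
      X.g i u ∈ thickening (D.δ / 2) D.J ∧
        ‖X.g i u - D.f^[i] (D.vv X.c)‖ ≤ X.A * (D.L + 1) ^ i * ‖u‖ := by
  have hA := X.hA
  have hL := D.hL
  have hδ := D.hδ
  have hmem : ∀ i ≤ n, ‖X.g i u - D.f^[i] (D.vv X.c)‖ ≤ X.A * (D.L + 1) ^ i * ‖u‖ →
      ‖X.g i u - D.f^[i] (D.vv X.c)‖ < D.δ / 2 := by
    intro i hi hb
    have h1 : X.A * (D.L + 1) ^ i * ‖u‖ ≤ X.A * (D.L + 1) ^ n * ‖u‖ :=
      mul_le_mul_of_nonneg_right (mul_le_mul_of_nonneg_left (fam0_mono D hi) (by linarith))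
        (norm_nonneg _)
    linarith
  have hb : ∀ i, i ≤ n → ‖X.g i u - D.f^[i] (D.vv X.c)‖ ≤ X.A * (D.L + 1) ^ i * ‖u‖ := by
    intro i
    induction i with
    | zero =>
      intro _
      rw [pow_zero, mul_one]
      exact X.lip0 u hu
    | succ i ih =>
      intro hi
      have h1 := ih (by omega)
      have h2 := hmem i (by omega) h1
      have hy := fam0_vv D X i
      have hx : X.g i u ∈ thickening D.δ D.J := by
        rw [mem_thickening_iff]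
        refine ⟨_, hy, ?_⟩
        rw [dist_eq_norm]
        linarith
      have h3 := X.pert u hu _ hx
      have h4 : ‖D.f (X.g i u) - D.f (D.f^[i] (D.vv X.c))‖ ≤
          D.L * ‖X.g i u - D.f^[i] (D.vv X.c)‖ := by
        refine fam0_mv D (ε := D.δ / 2) ?_ (by linarith) h2
        intro z hz
        rw [mem_thickening_iff]
        refine ⟨_, hy, ?_⟩
        rw [mem_ball] at hz
        linarith
      have h5 : ‖u‖ ^ X.M ≤ ‖u‖ := by
        rw [mem_ball_zero_iff] at hu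
        have h6 : ‖u‖ ≤ 1 := by have := X.hρ1; linarith
        exact pow_le_of_le_one (norm_nonneg _) h6 (by have := X.hM; omega)
      rw [X.step, Function.iterate_succ_apply']
      have h7 : ‖X.F u (X.g i u) - D.f (D.f^[i] (D.vv X.c))‖ ≤
          ‖X.F u (X.g i u) - D.f (X.g i u)‖ + ‖D.f (X.g i u) - D.f (D.f^[i] (D.vv X.c))‖ :=
        norm_sub_le_norm_sub_add_norm_sub _ _ _
      have h8 : X.A * ‖u‖ ^ X.M ≤ X.A * ‖u‖ := mul_le_mul_of_nonneg_left h5 (by linarith)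
      have h9 : D.L * ‖X.g i u - D.f^[i] (D.vv X.c)‖ ≤ D.L * (X.A * (D.L + 1) ^ i * ‖u‖) :=
        mul_le_mul_of_nonneg_left h1 (by linarith)
      have h10 : X.A * ‖u‖ * 1 ≤ X.A * ‖u‖ * (D.L + 1) ^ i :=
        mul_le_mul_of_nonneg_left (fam0_pw D i) (mul_nonneg (by linarith) (norm_nonneg _))
      have h11 : X.A * (D.L + 1) ^ (i + 1) * ‖u‖ =
          X.A * ‖u‖ * (D.L + 1) ^ i + D.L * (X.A * (D.L + 1) ^ i * ‖u‖) := by
        rw [pow_succ]
        ring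
      rw [h11]
      linarith
  intro i hi
  refine ⟨?_, hb i hi⟩
  rw [mem_thickening_iff]
  refine ⟨_, fam0_vv D X i, ?_⟩
  rw [dist_eq_norm]
  exact hmem i hi (hb i hi)

theorem fam_diff (D : Ds) (X : Fam D) {n : ℕ} {U : Set ℂ} (hU : IsOpen U) (hU0 : U ⊆ ball 0 X.ρ0)
    (h : ∀ i < n, ∀ u ∈ U, X.g i u ∈ thickening D.δ D.J) :
    ∀ i ≤ n, DifferentiableOn ℂ (X.g i) U := by
  intro i
  induction i with
  | zero =>
    intro _
    exact X.g0.mono hU0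
  | succ i ih =>
    intro hi
    exact X.hol i U hU hU0 (ih (by omega)) (h i (by omega))

theorem fam_pert (D : Ds) (X : Fam D) {u : ℂ} (hu : u ∈ ball (0 : ℂ) X.ρ0) {n i : ℕ}
    (h : ∀ j < i, D.f^[j] (X.g n u) ∈ thickening (3 * D.δ / 4) D.J)
    (hs : X.A * ‖u‖ ^ X.M * (D.L + 1) ^ i < D.δ / 4) : ∀ j ≤ i,
      ‖X.g (n + j) u - D.f^[j] (X.g n u)‖ ≤ X.A * ‖u‖ ^ X.M * (D.L + 1) ^ j ∧
        (j < i → X.g (n + j) u ∈ thickening D.δ D.J) := by
  have hA := X.hA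
  have hL := D.hL
  have hδ := D.hδ
  have hAu : 0 ≤ X.A * ‖u‖ ^ X.M := mul_nonneg (by linarith) (pow_nonneg (norm_nonneg _) _)
  intro j
  induction j with
  | zero =>
    intro _
    refine ⟨?_, ?_⟩
    · rw [add_zero, Function.iterate_zero_apply, sub_self, norm_zero, pow_zero, mul_one]
      exact hAu
    · intro h0
      exact thickening_mono (by linarith) _ (h 0 h0)
  | succ j ih =>
    intro hj
    obtain ⟨h1, h2⟩ := ih (by omega)
    have hx := h2 (by omega)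
    have hx' := h j (by omega)
    have h3 : ‖X.g (n + j) u - D.f^[j] (X.g n u)‖ < D.δ / 4 := by
      have h4 : X.A * ‖u‖ ^ X.M * (D.L + 1) ^ j ≤ X.A * ‖u‖ ^ X.M * (D.L + 1) ^ i :=
        mul_le_mul_of_nonneg_left (fam0_mono D (by omega)) hAu
      linarith
    have h4 := X.pert u hu _ hx
    have h5 : ‖D.f (X.g (n + j) u) - D.f (D.f^[j] (X.g n u))‖ ≤
        D.L * ‖X.g (n + j) u - D.f^[j] (X.g n u)‖ := by
      refine fam0_mv D (ε := D.δ / 4) ?_ (by linarith) h3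
      intro z hz
      refine fam0_th D (a := 3 * D.δ / 4) (b := D.δ / 4) (by linarith) hx' ?_
      rw [mem_ball, dist_eq_norm] at hz
      exact hz
    have h6 : ‖X.g (n + (j + 1)) u - D.f^[j + 1] (X.g n u)‖ ≤
        X.A * ‖u‖ ^ X.M * (D.L + 1) ^ (j + 1) := by
      rw [← add_assoc, X.step, Function.iterate_succ_apply']
      have h7 : ‖X.F u (X.g (n + j) u) - D.f (D.f^[j] (X.g n u))‖ ≤
          ‖X.F u (X.g (n + j) u) - D.f (X.g (n + j) u)‖ +
            ‖D.f (X.g (n + j) u) - D.f (D.f^[j] (X.g n u))‖ :=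
        norm_sub_le_norm_sub_add_norm_sub _ _ _
      have h8 : D.L * ‖X.g (n + j) u - D.f^[j] (X.g n u)‖ ≤
          D.L * (X.A * ‖u‖ ^ X.M * (D.L + 1) ^ j) := mul_le_mul_of_nonneg_left h1 (by linarith)
      have h9 : X.A * ‖u‖ ^ X.M * 1 ≤ X.A * ‖u‖ ^ X.M * (D.L + 1) ^ j :=
        mul_le_mul_of_nonneg_left (fam0_pw D j) hAu
      have h10 : X.A * ‖u‖ ^ X.M * (D.L + 1) ^ (j + 1) =
          X.A * ‖u‖ ^ X.M * (D.L + 1) ^ j + D.L * (X.A * ‖u‖ ^ X.M * (D.L + 1) ^ j) := by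
        rw [pow_succ]
        ring
      rw [h10]
      linarith
    refine ⟨h6, fun hji => ?_⟩
    refine fam0_th D (a := 3 * D.δ / 4) (b := D.δ / 4) (by linarith) (h (j + 1) hji) ?_
    have h7 : X.A * ‖u‖ ^ X.M * (D.L + 1) ^ (j + 1) ≤ X.A * ‖u‖ ^ X.M * (D.L + 1) ^ i :=
      mul_le_mul_of_nonneg_left (fam0_mono D hj) hAu
    linarith

end Pool.Agent.H44.DN
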