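import Pool.Agent.H44.DN.FCP
import Pool.Agent.H44.DN.ATB
import Pool.Agent.H44.LD.ATTO
import Pool.Agent.H91.CE.EXPN

/-!
# Module FCA: orbits leaving the Julia set are attracted, for the perturbed maps

PROOF. `w = v0 + u^M • v`. `z ∉ D.J = JJ v0` is attracted; `att_near`: there is `ε1` such that `Att (Rf w) z'` for `w ∈ ball v0 ε1`, `z' ∈ ball z ε1`. For `u` near `0`: `w` is in this ball; `ev w.2 (it w i (b u)) ≠ 0` for `i < k` (`diff_n` of H91/CE/EXPN with the function `b`, or continuity; the denominators at `u = 0` are nonzero: `hden`); `ev w.2 y ≠ 0` for `y ∈ thickening D.δ D.J` (`fc_pert`, `t = u^M`). So if `it w i (it w k (b u)) ∈ thickening D.δ D.J` for `i < n`, all denominators of the first `k + n` steps are nonzero and `(Rf w)^[k + n] (b u) = it w n (it w k (b u))` (`rat_coe_of_ne`, induction; `it_add` of H35/H79),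
which is attracted; `att_iter` (`Rf w` is continuous if `pol w.1, pol w.2` are coprime: `cop_near`, `rat_continuous`; shrink the ball) gives `Att (Rf w) (b u)`.
-/

set_option autoImplicit false

open Filter Topology Polynomial Metric Set MeasureTheory

namespace Pool.Agent.H44.DN

open Pool.Agent.H44.Fatou Pool.Agent.H32.BT Pool.Agent.H79.Eul Pool.Agent.H79.Par Pool.Agent.H35.RL Pool.Agent.H35.EX Pool.Agent.H91.CE

theorem fca_iter {d : ℕ} (w : E d) (x : ℂ) (N : ℕ) (h : ∀ i < N, ev w.2 (it w i x) ≠ 0) :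
    (Rf w)^[N] (x : OnePoint ℂ) = (it w N x : OnePoint ℂ) := by
  induction N with
  | zero => rfl
  | succ m ih =>
    rw [Function.iterate_succ_apply', ih fun i hi => h i (by omega)]
    show rat (pol w.1) (pol w.2) (it w m x : OnePoint ℂ) = _
    rw [rat_coe_of_ne (by rw [pol_eval]; exact h m (by omega)), pol_eval, pol_eval]
    rfl

theorem fc_att {d : ℕ} (hd : 2 ≤ d) {v0 : E d} (hcop : IsCoprime (pol v0.1) (pol v0.2))
    (hdeg : max (pol v0.1).natDegree (pol v0.2).natDegree = d) {D : Ds} (hR : Rep v0 D) {v : E d}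
    {M k : ℕ} (hM : 1 ≤ M) {c : ℂ} (hden : ∀ i < k, ev v0.2 (it v0 i c) ≠ 0) {b : ℂ → ℂ} {ρ : ℝ}
    (hρ : 0 < ρ) (hb : DifferentiableOn ℂ b (ball 0 ρ)) (hb0 : b 0 = c) {z : ℂ} (hz : z ∉ D.J) :
    ∃ ε : ℝ, 0 < ε ∧ ∀ u ∈ ball (0 : ℂ) ε, ∀ n : ℕ,
      (∀ i < n, it (v0 + u ^ M • v) i (it (v0 + u ^ M • v) k (b u)) ∈ thickening D.δ D.J) →
      it (v0 + u ^ M • v) n (it (v0 + u ^ M • v) k (b u)) ∈ ball z ε →
        Att (Rf (v0 + u ^ M • v)) ((b u : ℂ) : OnePoint ℂ) := by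
  have hw0 : Tendsto (fun u : ℂ => v0 + u ^ M • v) (𝓝 0) (𝓝 v0) := by
    have h1 : Continuous (fun u : ℂ => v0 + u ^ M • v) := by fun_prop
    have h2 := h1.tendsto 0
    have h3 : v0 + (0 : ℂ) ^ M • v = v0 := by
      rw [zero_pow (by omega), zero_smul, add_zero]
    rw [h3] at h2
    exact h2
  have hA := hw0.eventually (cop_near hcop hdeg (by omega))
  have hbd : ∀ᶠ s in 𝓝 (0 : ℂ), DifferentiableAt ℂ b s := by
    filter_upwards [isOpen_ball.mem_nhds (mem_ball_self hρ)] with s hs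
    exact (hb s hs).differentiableAt (isOpen_ball.mem_nhds hs)
  have hB := diff_n (v0 := v0) (v := v) hM (w := b) k (by rw [hb0]; exact hden) hbd
  obtain ⟨A, τ, -, hτ, hpert⟩ := fc_pert hR v
  have hC : ∀ᶠ u in 𝓝 (0 : ℂ), ‖u ^ M‖ ≤ τ := by
    have h1 : Continuous (fun u : ℂ => ‖u ^ M‖) := by fun_prop
    have h2 := h1.tendsto 0
    have h3 : ‖(0 : ℂ) ^ M‖ = 0 := by rw [zero_pow (by omega), norm_zero]
    rw [h3] at h2
    filter_upwards [h2.eventually (gt_mem_nhds hτ)] with u hu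
    exact hu.le
  have hzatt : Att (Rf v0) (z : OnePoint ℂ) := by
    by_contra hne
    refine hz ?_
    rw [hR.J]
    exact hne
  obtain ⟨pa, hpa, pb, hpb, hab⟩ :=
    Filter.eventually_prod_iff.mp (Pool.Agent.H44.LD.att_near hd hcop hdeg hzatt)
  obtain ⟨ε1, hε1, hball⟩ := Metric.eventually_nhds_iff_ball.mp hpb
  obtain ⟨ε2, hε2, hev⟩ := Metric.eventually_nhds_iff_ball.mp
    (hA.and (hB.and (hC.and (hw0.eventually hpa))))
  refine ⟨min ε1 ε2, lt_min hε1 hε2, fun u hu n hn1 hn2 => ?_⟩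
  obtain ⟨⟨hcw, -⟩, ⟨-, hBu⟩, hCu, hDu⟩ := hev u (ball_subset_ball (min_le_right _ _) hu)
  set w := v0 + u ^ M • v with hw
  have hden2 : ∀ i < n + k, ev w.2 (it w i (b u)) ≠ 0 := by
    intro i hi
    rcases Nat.lt_or_ge i k with h | h
    · exact hBu i h
    · obtain ⟨j, rfl⟩ : ∃ j, i = j + k := ⟨i - k, by omega⟩
      rw [it_add]
      exact (hpert (u ^ M) hCu _ (hn1 j (by omega))).1
  have h1 := fca_iter w (b u) (n + k) hden2
  have hcont : Continuous (Rf w) := rat_continuous hcw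
  have h2 := (Pool.Agent.H44.DN.att_iter (f := Rf w) hcont (n + k) (b u : OnePoint ℂ)).mp
  rw [h1, it_add] at h2
  exact h2 (hab hDu (hball _ (ball_subset_ball (min_le_left _ _) hn2)))

end Pool.Agent.H44.DN
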