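import Pool.Agent.H44.DN.CE2
import Pool.Agent.H44.DN.LOC1
import Pool.Agent.H44.DN.LOC2

/-!
# Module MKD: from `D0` to `Ds`

PROOF. `δ' = δ / 4` (so `δ' / 2 = δ / 8`). Constants: the maximum of the `C` of `loc1, loc2, pmm, ce_pass` (all inequalities are monotone in `C`; for `low`: `C^N`, `N ≥ 1`), `r0` the minimum of the radii of `loc2`, `pmm`, `pmm4` (`ϑ = δ'/4`), `δ'/4`, and a quarter of the minimal distance of different critical points. `m = mm`, `τ = tau`, `M = MM`. `low`: `k c = mm c - 1 ≤ M c ≤ N` (`loc2_order`), `N ≥ 1` since `Cr` is nonempty and `M c ≥ mm c ≥ 2`. `hdist`, `low` on `thickening (δ'/2) J = thickening (δ/8) J`.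
`p3` from `pmm`. `ce1 .. ce4` from `ce_pass`; `rel` from `MM_rel`, `tau_rel`; `hτ, hτ'` from `tau_spec`. `nn`, `cn`: monotone in `δ` (`thickening_mono`). `hU`: `thickening δ' J ⊆ cthickening δ J ⊆ G`.
-/

set_option autoImplicit false

open Filter Topology Metric Set

namespace Pool.Agent.H44.DN

private theorem mkd_sep (S : Finset ℂ) : ∃ s : ℝ, 0 < s ∧
    ∀ c ∈ S, ∀ c' ∈ S, c ≠ c' → 4 * s ≤ ‖c - c'‖ := by
  have h1 : ∀ᶠ s : ℝ in 𝓝[>] 0, ∀ c ∈ S, ∀ c' ∈ S, c ≠ c' → 4 * s ≤ ‖c - c'‖ := by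
    rw [Filter.eventually_all_finset]
    intro c _
    rw [Filter.eventually_all_finset]
    intro c' _
    rcases eq_or_ne c c' with h | h
    · exact Filter.Eventually.of_forall fun s hs => absurd h hs
    · have hp : 0 < ‖c - c'‖ := norm_pos_iff.2 (sub_ne_zero.2 h)
      have : ∀ᶠ s : ℝ in 𝓝[>] 0, s < ‖c - c'‖ / 4 :=
        nhdsWithin_le_nhds (Iio_mem_nhds (by positivity))
      filter_upwards [this] with s hs _
      linarith
  have h3 : ∀ᶠ s : ℝ in 𝓝[>] 0, 0 < s := self_mem_nhdsWithin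
  obtain ⟨s, a, c⟩ := (h1.and h3).exists
  exact ⟨s, c, a⟩

theorem mk_of (X : D0) : ∃ D : Ds, D.f = X.f ∧ D.J = X.J ∧ D.G = X.G ∧ D.Cr = X.Cr ∧ D.δ ≤ X.δ := by
  obtain ⟨L, C1, k, hL, hC1, hLf, hdist, hk, hlow⟩ := loc1 X
  obtain ⟨C2, r2, hC2, hr2, h2⟩ := loc2 X
  obtain ⟨C3, r3, hC3, hr3, h3⟩ := pmm X
  obtain ⟨C4, q, hC4, hq, e1, e3, e2, e4⟩ := ce_pass X
  have hδ := X.hδ
  obtain ⟨r4, hr4, h4⟩ := pmm4 X (ϑ := X.δ / 4 / 4) (by positivity)
  obtain ⟨s, hs, hsep⟩ := mkd_sep X.Cr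
  obtain ⟨C, c1, c2, c3, c4⟩ : ∃ C : ℝ, C1 ≤ C ∧ C2 ≤ C ∧ C3 ≤ C ∧ C4 ≤ C :=
    ⟨max (max C1 C2) (max C3 C4), (le_max_left _ _).trans (le_max_left _ _),
      (le_max_right _ _).trans (le_max_left _ _), (le_max_left _ _).trans (le_max_right _ _),
      (le_max_right _ _).trans (le_max_right _ _)⟩
  obtain ⟨r0, hr0, l2, l3, l4, l5, l6⟩ : ∃ r0 : ℝ, 0 < r0 ∧ r0 ≤ r2 ∧ r0 ≤ r3 ∧ r0 ≤ r4 ∧
      r0 ≤ X.δ / 4 / 4 ∧ r0 ≤ s := by
    have hp : 0 < X.δ / 4 / 4 := by positivity
    refine ⟨min (min r2 r3) (min r4 (min (X.δ / 4 / 4) s)),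
      lt_min (lt_min hr2 hr3) (lt_min hr4 (lt_min hp hs)), ?_, ?_, ?_, ?_, ?_⟩
    · exact (min_le_left _ _).trans (min_le_left _ _)
    · exact (min_le_left _ _).trans (min_le_right _ _)
    · exact (min_le_right _ _).trans (min_le_left _ _)
    · exact ((min_le_right _ _).trans (min_le_right _ _)).trans (min_le_left _ _)
    · exact ((min_le_right _ _).trans (min_le_right _ _)).trans (min_le_right _ _)
  have hC : 1 ≤ C := hC1.trans c1
  have hmono : thickening (X.δ / 4) X.J ⊆ thickening X.δ X.J := thickening_mono (by linarith) _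
  have hmono' : thickening (X.δ / 4) X.J ⊆ cthickening X.δ X.J :=
    hmono.trans (thickening_subset_cthickening _ _)
  have e8 : X.δ / 4 / 2 = X.δ / 8 := by ring
  have up : ∀ {D a b : ℝ}, D ≤ C → 0 ≤ b → a ≤ D * b → a ≤ C * b := fun hD hb h =>
    h.trans (mul_le_mul_of_nonneg_right hD hb)
  refine ⟨{ f := X.f, J := X.J, G := X.G, Cr := X.Cr, δ := X.δ / 4, L := L, C := C, q := q,
            r0 := r0, τ := X.tau, M := X.MM, m := X.mm,
            hJ := X.hJ, hJf := X.hJf, hG := X.hG, hf := X.hf,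
            hδ := by positivity
            hδ1 := by linarith [X.hδ1]
            hU := hmono'.trans X.hU
            hCr := X.hCr, hne := X.hne
            hcr := fun z hz => X.hcr z (hmono' hz)
            hL := hL
            hLf := fun z hz => hLf z (hmono' hz)
            hC := hC, hq := hq, hr0 := hr0
            hr1 := by linarith
            hsep := fun c hc c' hc' hne => le_trans (by linarith) (hsep c hc c' hc' hne)
            hdist := ?_
            hτ := fun c hc => (tau_spec X hc).1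
            hτ' := fun c hc => (tau_spec X hc).2
            hm := fun c hc => (h2 c hc).1
            hmM := fun c hc => mm_le_MM X (fun c hc => by have := (h2 c hc).1; omega) hc
            ce1 := fun c hc n => up c4 (norm_nonneg _) (e1 c hc n)
            ce2 := ?_
            ce3 := fun c hc i hi => up c4 (norm_nonneg _) (e3 c hc i hi)
            ce4 := ?_
            rel := fun c hc i hi h => ⟨MM_rel X hc hi h, tau_rel X hc hi h⟩
            l1 := ?_
            l2 := ?_
            p1 := ?_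
            p2 := ?_
            p3 := ?_
            p4 := ?_
            low := ?_
            nn := ?_
            cn := ?_ }, rfl, rfl, rfl, rfl, ?_⟩
  · intro z hz w hw hwz
    rw [e8] at hz hw
    have h := hdist z hz w hw hwz
    calc _ ≤ C1 * ‖deriv X.f z‖ * ‖w - z‖ := h
      _ ≤ _ := by gcongr
  · intro c hc c' hc' n
    have h := e2 c hc c' hc' n
    calc _ ≤ _ := h
      _ ≤ _ := by gcongr
  · intro c hc i hi c' hc' hne
    have h := e4 c hc i hi c' hc' hne
    calc _ ≤ _ := h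
      _ ≤ _ := by gcongr
  · intro c hc z hz
    have h := (h2 c hc).2.1 z (ball_subset_ball l2 hz)
    exact ⟨up c2 (by positivity) h.1, up c2 (by positivity) h.2⟩
  · intro c hc z hz
    have h := (h2 c hc).2.2 z (ball_subset_ball l2 hz)
    exact ⟨up c2 (by positivity) h.1, up c2 (by positivity) h.2⟩
  · intro c hc z hz
    have h := (h3 c hc z (ball_subset_ball l3 hz)).1
    exact ⟨up c3 (by positivity) h.1, up c3 (by positivity) h.2⟩
  · intro c hc z hz
    have h := (h3 c hc z (ball_subset_ball l3 hz)).2.1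
    exact ⟨up c3 (by positivity) h.1, up c3 (by positivity) h.2⟩
  · intro c hc z hz j hj
    have h := ((h3 c hc z (ball_subset_ball l3 hz)).2.2 j hj).2
    exact up c3 infDist_nonneg h
  · intro c hc z hz j hj
    exact h4 c hc z (ball_subset_ball l4 hz) j hj
  · intro z hz N hN
    rw [e8] at hz
    obtain ⟨c0, hc0⟩ := X.hne
    have hmM : ∀ c ∈ X.Cr, X.mm c ≤ X.MM c := fun c hc =>
      mm_le_MM X (fun c hc => by have := (h2 c hc).1; omega) hc
    have hN1 : 1 ≤ N := by
      have a1 := (h2 c0 hc0).1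
      have a2 := hmM c0 hc0
      have a3 := hN c0 hc0
      omega
    have hkN : ∀ c ∈ X.Cr, k c ≤ N := by
      intro c hc
      obtain ⟨-, h, ha, h0, he⟩ := hk c hc
      have a1 := loc2_order X hc ha h0 he
      have a2 := hmM c hc
      have a3 := hN c hc
      omega
    refine (hlow z hz N hN1 hkN).trans (mul_le_mul_of_nonneg_right ?_ (norm_nonneg _))
    exact pow_le_pow_left₀ (by linarith) c1 _
  · intro x hx ρ hρ
    obtain ⟨N, hN⟩ := X.nn x hx ρ hρ
    refine ⟨N, fun n hn h => hN n hn ⟨h.1, fun z hz => hmono (h.2 z hz)⟩⟩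
  · intro i x r g u0 hr hball hg hgw hu0 hfu hdu
    exact X.cn i x r g u0 hr (hball.trans hmono) hg hgw hu0 hfu hdu
  · change X.δ / 4 ≤ X.δ
    linarith

end Pool.Agent.H44.DN
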