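import Pool.Agent.H44.DN.NNF
import Pool.Agent.H44.DN.CNF
import Pool.Agent.H44.DN.MKD

/-!
# Module MKR: the data of a rational map

PROOF. `(it v0 1)^[n] = it v0 n` (induction). `δ` from `avd`; `X : D0` with `f = it v0 1`, `J = JJ v0`, `G = {z | ev v0.2 z ≠ 0}`, `Cr` the zeros of `wv v0` in `JJ v0` (finite: `wv_ne`; nonempty: `c`), `hJ` (`jj_cpt`), `hJf` (`jj_step`), `hf` (`tr_hasDerivAt_ev`: `deriv f z = wv v0 z / ev v0.2 z ^ 2` on `G`), `hcr` from this and `avd`, `ce`: `c ∈ Cr` is not attracted, so `Gr v0 (it v0 m c)`: `c' q^n ≤ ‖trD v0 n (it v0 m c)‖`, and `trD v0 n y = deriv (it v0 n) y` (`tr_hasDerivAt`, the orbit is in `JJ`), `C = 1 / c'`;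
`nn` (`nn_rat`), `cn` (`cn_rat`). `mk_of`. `Rep.cl`: `cthickening D.δ J ⊆ cthickening X.δ J ⊆ G` (`cthickening_mono`).
-/

set_option autoImplicit false

open Filter Topology Polynomial Metric Set MeasureTheory

namespace Pool.Agent.H44.DN

open Pool.Agent.H44.Fatou Pool.Agent.H32.BT Pool.Agent.H79.Eul Pool.Agent.H79.Par Pool.Agent.H91.CE

theorem it_iter {d : ℕ} (v0 : E d) (n : ℕ) : (it v0 1)^[n] = it v0 n := by
  induction n with
  | zero => rfl
  | succ n ih =>
    rw [Function.iterate_succ', ih]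
    rfl

theorem mk_ds {d : ℕ} (hd : 2 ≤ d) {v0 : E d} (hcop : IsCoprime (pol v0.1) (pol v0.2))
    (hdeg : max (pol v0.1).natDegree (pol v0.2).natDegree = d)
    (hinf : Att (Rf v0) OnePoint.infty) (hdn : Dense {z : ℂ | Att (Rf v0) (z : OnePoint ℂ)})
    (hcr : ∀ c : ℂ, wv v0 c = 0 → c ∉ JJ v0 ∨ ∃ m : ℕ, Gr v0 (it v0 m c)) {c : ℂ}
    (hc : wv v0 c = 0) (hcJ : c ∈ JJ v0) : ∃ D : Ds, Rep v0 D := by
  obtain ⟨δ, hδ, hδ1, ha, hb, hcn⟩ := avd hd hcop hdeg hinf
  have hfin : {z : ℂ | wv v0 z = 0 ∧ z ∈ JJ v0}.Finite :=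
    (wv_ne hd hcop hdeg).subset fun z hz => hz.1
  have hG : IsOpen {z : ℂ | ev v0.2 z ≠ 0} :=
    isOpen_ne_fun (Pool.Agent.H35.EX.ev_differentiable v0.2).continuous continuous_const
  have hder : ∀ z : ℂ, ev v0.2 z ≠ 0 → HasDerivAt (it v0 1) (wv v0 z / ev v0.2 z ^ 2) z :=
    fun z hz => tr_hasDerivAt_ev v0 z hz
  have hJf : ∀ z ∈ JJ v0, it v0 1 z ∈ JJ v0 := fun z hz => (jj_step hcop hinf hz).2.2
  have hJn : ∀ z ∈ JJ v0, ∀ n, it v0 n z ∈ JJ v0 := by
    intro z hz n
    induction n with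
    | zero => exact hz
    | succ n ih => exact hJf _ ih
  have hJG : ∀ z ∈ JJ v0, ev v0.2 z ≠ 0 := fun z hz => (jj_step hcop hinf hz).1
  let X : D0 :=
    { f := it v0 1
      J := JJ v0
      G := {z : ℂ | ev v0.2 z ≠ 0}
      Cr := hfin.toFinset
      δ := δ
      hJ := jj_cpt hcop hinf
      hJf := hJf
      hG := hG
      hf := fun z hz => (hder z hz).differentiableAt.differentiableWithinAt
      hδ := hδ
      hδ1 := hδ1
      hU := fun z hz => ha z hz
      hCr := fun c hc => ((Set.Finite.mem_toFinset hfin).1 hc).2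
      hne := ⟨c, (Set.Finite.mem_toFinset hfin).2 ⟨hc, hcJ⟩⟩
      hcr := by
        intro z hz
        rw [(hder z (ha z hz)).deriv, Set.Finite.mem_toFinset hfin]
        constructor
        · intro h
          have h1 : wv v0 z = 0 := by
            rcases div_eq_zero_iff.1 h with h1 | h1
            · exact h1
            · exact absurd (pow_eq_zero_iff (two_ne_zero)|>.1 h1) (ha z hz)
          exact ⟨h1, hb z hz h1⟩
        · intro h
          rw [h.1, zero_div]
      ce := by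
        intro c hc
        have hc' := (Set.Finite.mem_toFinset hfin).1 hc
        rcases hcr c hc'.1 with h | ⟨m, e, q, he, hq, h⟩
        · exact absurd hc'.2 h
        · refine ⟨m, 1 / e, q, hq, fun n => ?_⟩
          have hy : it v0 m c ∈ JJ v0 := hJn c hc'.2 m
          have h1 : HasDerivAt (fun z => it v0 n z) (trD v0 n (it v0 m c)) (it v0 m c) :=
            tr_hasDerivAt v0 _ n fun i _ => hJG _ (hJn _ hy i)
          rw [it_iter, it_iter]
          have h2 : deriv (it v0 n) (it v0 m c) = trD v0 n (it v0 m c) := h1.deriv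
          rw [h2, div_mul_eq_mul_div, one_mul, le_div_iff₀ he, mul_comm]
          exact h n
      nn := fun x hx ρ hρ => nn_rat hd hcop hdeg hinf hdn hx hρ
      cn := by
        intro i x r g u0 hr hball hg hgw hu0 hfu hdu
        rcases cn_rat hd hcop hdeg hcn i x r g u0 hr hball hg hgw hu0 hfu hdu with h | h
        · exact Or.inl h
        · obtain ⟨ρ, b, c, h, a1, a2, a3, a4, a5, a6, a7, a8, a9⟩ := h
          exact Or.inr ⟨ρ, b, c, h, a1, a2, a3, (Set.Finite.mem_toFinset hfin).2 a4, a5, a6, a7,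
            a8, a9⟩ }
  obtain ⟨D, e1, e2, e3, e4, e5⟩ := mk_of X
  refine ⟨D, ⟨e1, e2, fun z => ?_, fun z => ?_, ?_⟩⟩
  · rw [e3]
    exact Iff.rfl
  · rw [e4]
    exact Set.Finite.mem_toFinset hfin
  · rw [e2, e3]
    exact (cthickening_mono e5 _).trans X.hU

end Pool.Agent.H44.DN
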