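import Pool.Agent.H44.DN.PDefs

/-!
# Definitions for the chapter PAR (families of perturbed critical orbits)

`Fam D`: a holomorphic family (parameter `u` near `0`) of perturbations `F u` of `f` (of size `‖u‖ ^ M`) with the
orbit `g n u` of a perturbed terminal value; `g n 0` is the orbit of the terminal value `vv c`; the coefficient of
`u ^ M` in `g n u` is `deriv (f^[n]) (vv c) * Tn n`, `Tn n → T ≠ 0`; `P u`: the parameter `u` is good (the critical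
point is attracted). The phase of the parameter `u` is the point `ww u = vv c + T * u ^ M`.
-/

set_option autoImplicit false

open Filter Topology Metric Set

namespace Pool.Agent.H44.DN

/-- a family of perturbations of `f` with a perturbed orbit of the terminal value of `c` -/
structure Fam (D : Ds) where
  c : ℂ
  M : ℕ
  F : ℂ → ℂ → ℂ
  g : ℕ → ℂ → ℂ
  T : ℂ
  Tn : ℕ → ℂ
  A : ℝ
  ρ0 : ℝ
  P : ℂ → Prop
  hc : c ∈ D.Cr
  hM : 1 ≤ M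
  hT : T ≠ 0
  hA : 1 ≤ A
  hρ0 : 0 < ρ0
  hρ1 : ρ0 ≤ 1
  g0 : DifferentiableOn ℂ (g 0) (ball 0 ρ0)
  lip0 : ∀ u ∈ ball (0 : ℂ) ρ0, ‖g 0 u - D.vv c‖ ≤ A * ‖u‖
  step : ∀ (n : ℕ) (u : ℂ), g (n + 1) u = F u (g n u)
  pert : ∀ u ∈ ball (0 : ℂ) ρ0, ∀ z ∈ thickening D.δ D.J, ‖F u z - D.f z‖ ≤ A * ‖u‖ ^ M
  hol : ∀ (n : ℕ) (U : Set ℂ), IsOpen U → U ⊆ ball 0 ρ0 → DifferentiableOn ℂ (g n) U →
    (∀ u ∈ U, g n u ∈ thickening D.δ D.J) → DifferentiableOn ℂ (g (n + 1)) U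
  jet : ∀ n : ℕ, (fun u : ℂ => g n u - g n 0 - deriv (D.f^[n]) (D.vv c) * Tn n * u ^ M)
    =o[𝓝 0] fun u : ℂ => u ^ M
  hTn : ∀ n : ℕ, ‖Tn n - T‖ ≤ A * (1 / D.q) ^ n
  att : ∀ z : ℂ, z ∉ D.J → ∃ ε : ℝ, 0 < ε ∧ ∀ u ∈ ball (0 : ℂ) ε, ∀ n : ℕ,
    (∀ i < n, g i u ∈ thickening D.δ D.J) → g n u ∈ ball z ε → P u

/-- the phase of the parameter `u` -/
noncomputable def Fam.ww {D : Ds} (X : Fam D) (u : ℂ) : ℂ := D.vv X.c + X.T * u ^ X.M

end Pool.Agent.H44.DN
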