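import Pool.Agent.H44.DN.FCA
import Pool.Agent.H44.DN.QDefs
import Pool.Agent.H44.DN.MKR
import Pool.Agent.H44.LD.CERUN
import Pool.Agent.H91.CE.RUNP

/-!
# Module FCM: the family of a critical branch

PROOF. (Compare `core_run1`, `run_par` in H44/LD/CERUN and H91/CE/RUNP; most of the work is done there.) `k = D.τ c ≥ 1`, `x = it v0 k c = D.vv c` (`it_iter`, `Rep.f`), all `it v0 j c ∈ JJ v0` (`jj_step` or `D.hJf`), denominators nonzero there (`Rep.G`, `D.hU`). `g n u = it (v0 + u^M • v) n (it (v0 + u^M • v) k (b u))`, `F u z = it (v0 + u^M • v) 1 z` (`step` holds by definition), `P u` as in the statement, `α = XX v0 v k c`, `Tn n = α + ∑ i ∈ range n, xi v0 v (it v0 i x) / trD v0 (i + 1) x`, `T = kapE v0 v (fun j => it v0 j c) k = α + ∑' i, ..` (definition; `it v0 (k + i) c = it v0 i x`).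
`g0, lip0`: `diff_n` for `b` and `k` steps: `g 0` is differentiable on a small ball; `g 0 0 = x`; a bound of the difference quotient on a smaller ball. `pert`, `hol`: `fc_pert` (`t = u^M`, `‖u‖^M ≤ ρ0 ≤ τ`), `lip_diff` (H91/CE/LIPK). `jet`: `crit_start` (H91/CE/CRIT1): `g 0 u - x - u^M α = o(u^M)`; `exp_n` with this `α`: `g n u - it v0 n x - u^M (XX v0 v n x + trD v0 n x α) = o(u^M)`; `rp_XX` and `deriv (D.f^[n]) x = trD v0 n x` (`tr_hasDerivAt`, nonzero: `D.ce1`).
`hTn`: `‖xi v0 v‖ ≤ X` on the compact `JJ v0`, `‖trD v0 (i+1) x‖ ≥ q^(i+1) / C` (`D.ce1`): the tail of the series is at most `X C ∑_(i ≥ n) q^(-(i+1)) = (X C / (q - 1)) (1/q)^n` (summable by comparison). `att`: `fc_att`. `A` the maximum of the constants, `ρ0` the minimum (`≤ 1`).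
-/

set_option autoImplicit false

open Filter Topology Polynomial Metric Set MeasureTheory

namespace Pool.Agent.H44.DN

open Pool.Agent.H44.Fatou Pool.Agent.H32.BT Pool.Agent.H79.Eul Pool.Agent.H79.Par Pool.Agent.H35.RL Pool.Agent.H35.EX Pool.Agent.H91.CE

private theorem fcm_cont {d : ℕ} (p : Fin (d + 1) → ℂ) : Continuous (fun z : ℂ => ev p z) := by
  unfold ev
  fun_prop

/-- the tail of a series dominated by a geometric series -/
private theorem fcm_tail {a : ℕ → ℂ} {B q : ℝ} (hq : 1 < q)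
    (h : ∀ i, ‖a i‖ ≤ B * (1 / q) ^ i) (n : ℕ) :
    ‖∑ i ∈ Finset.range n, a i - ∑' i, a i‖ ≤ (B * (1 - 1 / q)⁻¹) * (1 / q) ^ n := by
  have hq0 : 0 < q := by linarith
  have hq1 : 1 / q < 1 := by
    rw [div_lt_one hq0]
    exact hq
  have hq2 : 0 ≤ 1 / q := by positivity
  have hgs : HasSum (fun i : ℕ => (1 / q) ^ i) (1 - 1 / q)⁻¹ := hasSum_geometric_of_lt_one hq2 hq1
  have hsum : Summable a := by
    refine Summable.of_norm_bounded (hgs.summable.mul_left B) h
  have h1 := hsum.sum_add_tsum_nat_add n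
  have h2 : ∑ i ∈ Finset.range n, a i - ∑' i, a i = -∑' i, a (i + n) := by
    rw [← h1]
    ring
  rw [h2, norm_neg]
  have h3 : HasSum (fun i : ℕ => (B * (1 / q) ^ n) * (1 / q) ^ i)
      ((B * (1 / q) ^ n) * (1 - 1 / q)⁻¹) := hgs.mul_left _
  have h4 := tsum_of_norm_bounded (f := fun i => a (i + n)) h3 (fun i => by
    refine (h (i + n)).trans (le_of_eq ?_)
    rw [pow_add]
    ring)
  refine h4.trans (le_of_eq ?_)
  ring

theorem mk_fam {d : ℕ} (hd : 2 ≤ d) {v0 : E d} (hcop : IsCoprime (pol v0.1) (pol v0.2))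
    (hdeg : max (pol v0.1).natDegree (pol v0.2).natDegree = d) {D : Ds} (hR : Rep v0 D) {c : ℂ}
    (hc : c ∈ D.Cr) {v : E d} {m M : ℕ} (hM : 1 ≤ M) {b : ℂ → ℂ} {ρ : ℝ} (hρ : 0 < ρ)
    (hb : DifferentiableOn ℂ b (ball 0 ρ)) (hb0 : b 0 = c)
    (hbC : ∃ C : ℝ, ∀ s ∈ ball (0 : ℂ) ρ, ‖b s - c‖ ^ (m + 1) ≤ C * ‖s‖ ^ (M + 1))
    (hfl : ∃ C' : ℝ, ∀ᶠ z in 𝓝 c, ‖wv v0 z‖ ≤ C' * ‖z - c‖ ^ m)
    (hκ : kapE v0 v (fun j => it v0 j c) (D.τ c) ≠ 0) :
    ∃ X : Fam D, X.M = M ∧
      ∀ u : ℂ, X.P u ↔ Att (Rf (v0 + u ^ M • v)) ((b u : ℂ) : OnePoint ℂ) := by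
  classical
  have hδ := D.hδ
  have hC := D.hC
  have hq := D.hq
  have hq0 : 0 < D.q := by linarith
  have hC0 : 0 < D.C := by linarith
  have hfn : ∀ n : ℕ, D.f^[n] = it v0 n := by
    intro n
    rw [hR.f]
    exact it_iter v0 n
  obtain ⟨k, hk⟩ : ∃ k, k = D.τ c := ⟨_, rfl⟩
  have hk1 : 1 ≤ k := by rw [hk]; exact D.hτ c hc
  rw [← hk] at hκ
  obtain ⟨x, hx⟩ : ∃ x, x = it v0 k c := ⟨_, rfl⟩
  have hxv : D.vv c = x := by
    unfold Ds.vv
    rw [hfn, hx, hk]
  have hJc : ∀ j, it v0 j c ∈ D.J := by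
    intro j
    rw [← hfn]
    exact it_J D (D.hCr c hc) j
  have hJG : ∀ z ∈ D.J, ev v0.2 z ≠ 0 := by
    intro z hz
    exact (hR.G z).1 (D.hU (J_th D hz hδ))
  have hden : ∀ j, ev v0.2 (it v0 j c) ≠ 0 := fun j => hJG _ (hJc j)
  have hxJ : x ∈ D.J := by rw [hx]; exact hJc k
  have hJx : ∀ j, it v0 j x ∈ D.J := by
    intro j
    rw [← hfn]
    exact it_J D hxJ j
  have hdenx : ∀ j, ev v0.2 (it v0 j x) ≠ 0 := fun j => hJG _ (hJx j)
  have htr : ∀ n, deriv (D.f^[n]) x = trD v0 n x := by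
    intro n
    rw [hfn]
    exact (tr_hasDerivAt v0 x n fun i _ => hdenx i).deriv
  have hgr : ∀ n, D.q ^ n ≤ D.C * ‖trD v0 n x‖ := by
    intro n
    have h1 := D.ce1 c hc n
    have h2 : D.f^[D.τ c] c = x := by rw [← hxv]; rfl
    rw [h2, htr] at h1
    exact h1
  have htrp : ∀ n, 0 < ‖trD v0 n x‖ := by
    intro n
    have h1 := hgr n
    have h2 : 0 < D.q ^ n := by positivity
    by_contra hcon
    have h3 : ‖trD v0 n x‖ = 0 := le_antisymm (not_lt.mp hcon) (norm_nonneg _)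
    rw [h3] at h1
    linarith
  have htrne : ∀ n, trD v0 n x ≠ 0 := fun n => norm_pos_iff.1 (htrp n)
  -- bound for xi
  have hcontxi : ContinuousOn (fun z => xi v0 v z) D.J := by
    unfold xi
    refine ContinuousOn.div ?_ ?_ ?_
    · exact (((fcm_cont v.1).mul (fcm_cont v0.2)).sub
        ((fcm_cont v0.1).mul (fcm_cont v.2))).continuousOn
    · exact ((fcm_cont v0.2).pow 2).continuousOn
    · intro z hz
      exact pow_ne_zero 2 (hJG z hz)
  obtain ⟨B, hB⟩ := D.hJ.exists_bound_of_continuousOn hcontxi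
  have hB0 : 0 ≤ B := (norm_nonneg _).trans (hB x hxJ)
  have hterm : ∀ i, ‖xi v0 v (it v0 i x) / trD v0 (i + 1) x‖ ≤ (B * D.C / D.q) * (1 / D.q) ^ i := by
    intro i
    rw [norm_div, div_le_iff₀ (htrp _)]
    have h1 := hB _ (hJx i)
    have h2 := hgr (i + 1)
    have h3 : (B * D.C / D.q) * (1 / D.q) ^ i * ‖trD v0 (i + 1) x‖ =
        B * (1 / D.q) ^ (i + 1) * (D.C * ‖trD v0 (i + 1) x‖) := by
      rw [pow_succ]
      ring
    rw [h3]
    calc ‖xi v0 v (it v0 i x)‖ ≤ B := h1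
      _ = B * (1 / D.q) ^ (i + 1) * D.q ^ (i + 1) := by
          rw [mul_assoc, ← mul_pow]
          have : 1 / D.q * D.q = 1 := by field_simp
          rw [this, one_pow, mul_one]
      _ ≤ B * (1 / D.q) ^ (i + 1) * (D.C * ‖trD v0 (i + 1) x‖) :=
          mul_le_mul_of_nonneg_left h2 (by positivity)
  have hT : kapE v0 v (fun j => it v0 j c) k =
      XX v0 v k c + ∑' i : ℕ, xi v0 v (it v0 i x) / trD v0 (i + 1) x := by
    unfold kapE
    have h0 : it v0 0 c = c := rfl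
    beta_reduce
    rw [h0]
    congr 1
    refine tsum_congr fun i => ?_
    have h1 : it v0 (k + i) c = it v0 i x := by
      rw [hx, ← Pool.Agent.H79.Par.it_add, add_comm k i]
    rw [h1, hx]
  -- the start
  have hball : ball (0 : ℂ) ρ ∈ 𝓝 (0 : ℂ) := ball_mem_nhds _ hρ
  have hbd : ∀ᶠ s in 𝓝 (0 : ℂ), DifferentiableAt ℂ b s := by
    filter_upwards [isOpen_ball.mem_nhds (mem_ball_self hρ)] with s hs
    exact hb.differentiableAt (isOpen_ball.mem_nhds hs)
  have h0M : (0 : ℂ) ^ M = 0 := zero_pow (by omega)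
  have hs0 : (fun s => it (v0 + s ^ M • v) k (b s)) 0 = x := by
    simp only
    rw [h0M, zero_smul, add_zero, hb0, hx]
  have hdk := diff_n (v0 := v0) (v := v) hM (w := b) k (fun i _ => by rw [hb0]; exact hden i) hbd
  have hcs := crit_start (v := v) hM hk1 (fun i _ => hden i) (hbd.self_of_nhds.continuousAt) hb0
    (by
      obtain ⟨C, hC⟩ := hbC
      refine ⟨C, ?_⟩
      filter_upwards [hball] with s hs
      exact hC s hs) hfl
  rw [← hx] at hcs
  have hdk0 : DifferentiableAt ℂ (fun s => it (v0 + s ^ M • v) k (b s)) 0 :=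
    (hdk.self_of_nhds).1
  have hO : (fun s : ℂ => it (v0 + s ^ M • v) k (b s) - (fun s => it (v0 + s ^ M • v) k (b s)) 0)
      =O[𝓝 0] fun s : ℂ => s - 0 := hdk0.isBigO_sub
  rw [hs0] at hO
  obtain ⟨c1, hc1, hcb⟩ := hO.exists_pos
  rw [Asymptotics.isBigOWith_iff] at hcb
  obtain ⟨δ1, hδ1, hball1⟩ := Metric.eventually_nhds_iff_ball.1 (hdk.and hcb)
  obtain ⟨A1, τ1, hA1, hτ1, hpert⟩ := fc_pert hR v
  obtain ⟨A, hA⟩ : ∃ A, A = max A1 (max c1 ((B * D.C / D.q) * (1 - 1 / D.q)⁻¹)) := ⟨_, rfl⟩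
  have hAa : A1 ≤ A := by rw [hA]; exact le_max_left _ _
  have hAb : c1 ≤ A := by rw [hA]; exact (le_max_left _ _).trans (le_max_right _ _)
  have hAc : (B * D.C / D.q) * (1 - 1 / D.q)⁻¹ ≤ A := by
    rw [hA]; exact (le_max_right _ _).trans (le_max_right _ _)
  obtain ⟨ρ0, hρ0⟩ : ∃ ρ0, ρ0 = min 1 (min τ1 δ1) := ⟨_, rfl⟩
  have hρ0p : 0 < ρ0 := by rw [hρ0]; exact lt_min one_pos (lt_min hτ1 hδ1)
  have hρ01 : ρ0 ≤ 1 := by rw [hρ0]; exact min_le_left _ _
  have hρ0τ : ρ0 ≤ τ1 := by rw [hρ0]; exact (min_le_right _ _).trans (min_le_left _ _)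
  have hρ0δ : ρ0 ≤ δ1 := by rw [hρ0]; exact (min_le_right _ _).trans (min_le_right _ _)
  have hpowM : ∀ u ∈ ball (0 : ℂ) ρ0, ‖u ^ M‖ ≤ τ1 := by
    intro u hu
    rw [mem_ball_zero_iff] at hu
    have h5 : ‖u ^ M‖ ≤ ‖u‖ := by
      rw [norm_pow]
      exact pow_le_of_le_one (norm_nonneg _) (by linarith) (by omega)
    linarith
  have hz0 : ∀ n, it (v0 + (0 : ℂ) ^ M • v) n (it (v0 + (0 : ℂ) ^ M • v) k (b 0)) = it v0 n x := by
    intro n
    rw [h0M, zero_smul, add_zero, hb0, hx]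
  refine ⟨{ c := c
            M := M
            F := fun u z => it (v0 + u ^ M • v) 1 z
            g := fun n u => it (v0 + u ^ M • v) n (it (v0 + u ^ M • v) k (b u))
            T := kapE v0 v (fun j => it v0 j c) k
            Tn := fun n => XX v0 v k c +
              ∑ i ∈ Finset.range n, xi v0 v (it v0 i x) / trD v0 (i + 1) x
            A := A
            ρ0 := ρ0
            P := fun u => Att (Rf (v0 + u ^ M • v)) ((b u : ℂ) : OnePoint ℂ)
            hc := hc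
            hM := hM
            hT := hκ
            hA := hA1.trans hAa
            hρ0 := hρ0p
            hρ1 := hρ01
            g0 := ?_
            lip0 := ?_
            step := ?_
            pert := ?_
            hol := ?_
            jet := ?_
            hTn := ?_
            att := ?_ }, rfl, fun u => Iff.rfl⟩
  · intro s hs
    exact (hball1 s (ball_subset_ball hρ0δ hs)).1.1.differentiableWithinAt
  · intro u hu
    have h1 := (hball1 u (ball_subset_ball hρ0δ hu)).2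
    rw [sub_zero] at h1
    rw [hxv]
    exact h1.trans (mul_le_mul_of_nonneg_right hAb (norm_nonneg _))
  · intro n u
    rfl
  · intro u hu z hz
    have h1 := (hpert (u ^ M) (hpowM u hu) z hz).2
    rw [norm_pow] at h1
    rw [hR.f]
    exact h1.trans (mul_le_mul_of_nonneg_right hAa (by positivity))
  · intro n U hU hUs hdiff hth u hu
    have h1 : DifferentiableAt ℂ (fun u => it (v0 + u ^ M • v) n (it (v0 + u ^ M • v) k (b u))) u :=
      (hdiff u hu).differentiableAt (hU.mem_nhds hu)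
    have h2 := (hpert (u ^ M) (hpowM u (hUs hu)) _ (hth u hu)).1
    exact (lip_diff h1 h2).differentiableWithinAt
  · intro n
    have h1 := exp_n (v := v) hM n (fun i _ => hdenx i) hcs
    refine h1.congr_left fun s => ?_
    beta_reduce
    rw [hz0 n, rp_XX htrne n, hxv, htr n]
    ring
  · intro n
    have h1 := fcm_tail hq hterm n
    beta_reduce
    rw [hT, add_sub_add_left_eq_sub]
    exact h1.trans (mul_le_mul_of_nonneg_right hAc (by positivity))
  · intro z hz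
    exact fc_att hd hcop hdeg hR hM (fun i _ => hden i) hρ hb hb0 hz

end Pool.Agent.H44.DN
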