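import Pool.Agent.H44.DN.MDefs

/-!
# Module FCP: perturbations of the rational map near its Julia set

PROOF. `K = cthickening D.δ D.J` is compact (`D.hJ.cthickening`), `ev v0.2 ≠ 0` on `K` (`Rep.cl`, `Rep.G`), so `κ ≤ ‖ev v0.2 z‖` and all of `‖ev v0.1 z‖, ‖ev v0.2 z‖, ‖ev v.1 z‖, ‖ev v.2 z‖ ≤ B` on `K`. `ev (v0 + t • v).i z = ev v0.i z + t * ev v.i z`. `‖t‖ ≤ τ = κ / (2 (B + 1))`: `‖ev (v0 + t v).2 z‖ ≥ κ / 2`, and `(a + t a') / (b + t b') - a / b = t (a' b - a b') / (b (b + t b'))`, so `A = 4 B^2 / κ^2 + 1`. `it v 1 z = ev v.1 z / ev v.2 z` by definition.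
-/

set_option autoImplicit false

open Filter Topology Polynomial Metric Set MeasureTheory

namespace Pool.Agent.H44.DN

open Pool.Agent.H44.Fatou Pool.Agent.H32.BT Pool.Agent.H79.Eul Pool.Agent.H79.Par Pool.Agent.H35.RL Pool.Agent.H35.EX Pool.Agent.H91.CE

private theorem fcp_ev {d : ℕ} (p q : Fin (d + 1) → ℂ) (t z : ℂ) :
    ev (p + t • q) z = ev p z + t * ev q z := by
  unfold ev
  rw [Finset.mul_sum, ← Finset.sum_add_distrib]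
  refine Finset.sum_congr rfl fun i _ => ?_
  simp only [Pi.add_apply, Pi.smul_apply, smul_eq_mul]
  ring

private theorem fcp_cont {d : ℕ} (p : Fin (d + 1) → ℂ) : Continuous (ev p) := by
  unfold ev
  fun_prop

private theorem fcp_alg {a b a' b' t : ℂ} {B : ℝ} (hB : 1 ≤ B) (ha : ‖a‖ ≤ B) (hb : ‖b‖ ≤ B)
    (ha' : ‖a'‖ ≤ B) (hb' : ‖b'‖ ≤ B) (hb0 : b ≠ 0) (hbi : ‖b‖⁻¹ ≤ B)
    (ht : ‖t‖ ≤ 1 / (2 * B ^ 2)) : b + t * b' ≠ 0 ∧
      ‖(a + t * a') / (b + t * b') - a / b‖ ≤ 4 * B ^ 4 * ‖t‖ := by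
  have hB0 : 0 < B := by linarith
  have hbn : 0 < ‖b‖ := norm_pos_iff.2 hb0
  have h1 : 1 / B ≤ ‖b‖ := by
    rw [div_le_iff₀ hB0]
    rw [inv_le_iff_one_le_mul₀ hbn] at hbi
    linarith
  have h2 : ‖t * b'‖ ≤ 1 / (2 * B) := by
    rw [norm_mul]
    calc ‖t‖ * ‖b'‖ ≤ 1 / (2 * B ^ 2) * B := mul_le_mul ht hb' (norm_nonneg _) (by positivity)
      _ = 1 / (2 * B) := by field_simp
  have h3 : 1 / (2 * B) ≤ ‖b + t * b'‖ := by
    have h4 : ‖b‖ ≤ ‖b + t * b'‖ + ‖t * b'‖ := by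
      calc ‖b‖ = ‖(b + t * b') - t * b'‖ := by rw [add_sub_cancel_right]
        _ ≤ _ := norm_sub_le _ _
    have h5 : 1 / B = 1 / (2 * B) + 1 / (2 * B) := by
      field_simp
      norm_num
    linarith
  have h6 : 0 < ‖b + t * b'‖ := lt_of_lt_of_le (by positivity) h3
  have h7 : b + t * b' ≠ 0 := norm_pos_iff.1 h6
  refine ⟨h7, ?_⟩
  have h8 : (a + t * a') / (b + t * b') - a / b = t * (a' * b - a * b') / (b * (b + t * b')) := by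
    rw [div_sub_div _ _ h7 hb0, mul_comm b (b + t * b')]
    congr 1
    ring
  rw [h8, norm_div, norm_mul, norm_mul, div_le_iff₀ (mul_pos hbn h6)]
  have h9 : ‖a' * b - a * b'‖ ≤ 2 * B ^ 2 := by
    calc ‖a' * b - a * b'‖ ≤ ‖a' * b‖ + ‖a * b'‖ := norm_sub_le _ _
      _ = ‖a'‖ * ‖b‖ + ‖a‖ * ‖b'‖ := by rw [norm_mul, norm_mul]
      _ ≤ B * B + B * B := add_le_add (mul_le_mul ha' hb (norm_nonneg _) hB0.le)
        (mul_le_mul ha hb' (norm_nonneg _) hB0.le)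
      _ = 2 * B ^ 2 := by ring
  have h10 : 1 / (2 * B ^ 2) ≤ ‖b‖ * ‖b + t * b'‖ := by
    calc 1 / (2 * B ^ 2) = 1 / B * (1 / (2 * B)) := by
          field_simp
      _ ≤ ‖b‖ * ‖b + t * b'‖ := mul_le_mul h1 h3 (by positivity) (norm_nonneg _)
  have ht0 := norm_nonneg t
  calc ‖t‖ * ‖a' * b - a * b'‖ ≤ ‖t‖ * (2 * B ^ 2) := mul_le_mul_of_nonneg_left h9 ht0
    _ = 4 * B ^ 4 * ‖t‖ * (1 / (2 * B ^ 2)) := by
        field_simp
        norm_num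
    _ ≤ 4 * B ^ 4 * ‖t‖ * (‖b‖ * ‖b + t * b'‖) := mul_le_mul_of_nonneg_left h10 (by positivity)

theorem fc_pert {d : ℕ} {v0 : E d} {D : Ds} (hR : Rep v0 D) (v : E d) : ∃ A τ : ℝ, 1 ≤ A ∧ 0 < τ ∧
    ∀ t : ℂ, ‖t‖ ≤ τ → ∀ z ∈ thickening D.δ D.J, ev (v0 + t • v).2 z ≠ 0 ∧
      ‖it (v0 + t • v) 1 z - it v0 1 z‖ ≤ A * ‖t‖ := by
  have hK : IsCompact (cthickening D.δ D.J) := D.hJ.cthickening
  have hne : ∀ z ∈ cthickening D.δ D.J, ev v0.2 z ≠ 0 := fun z hz => (hR.G z).1 (hR.cl hz)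
  have hcont : ContinuousOn (fun z : ℂ => ‖ev v0.1 z‖ + ‖ev v0.2 z‖ + ‖ev v.1 z‖ + ‖ev v.2 z‖ +
      ‖ev v0.2 z‖⁻¹) (cthickening D.δ D.J) := by
    refine ContinuousOn.add ?_ ?_
    · exact ((((fcp_cont v0.1).norm.add (fcp_cont v0.2).norm).add (fcp_cont v.1).norm).add
        (fcp_cont v.2).norm).continuousOn
    · exact (fcp_cont v0.2).norm.continuousOn.inv₀ fun z hz => norm_ne_zero_iff.2 (hne z hz)
  obtain ⟨B0, hB0⟩ := hK.bddAbove_image hcont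
  set B : ℝ := max B0 1 with hB
  have hB1 : 1 ≤ B := le_max_right _ _
  have hbd : ∀ z ∈ cthickening D.δ D.J, ‖ev v0.1 z‖ + ‖ev v0.2 z‖ + ‖ev v.1 z‖ + ‖ev v.2 z‖ +
      ‖ev v0.2 z‖⁻¹ ≤ B := fun z hz => (hB0 (mem_image_of_mem _ hz)).trans (le_max_left _ _)
  have hB4 : 1 ≤ B ^ 4 := one_le_pow₀ hB1
  refine ⟨4 * B ^ 4, 1 / (2 * B ^ 2), by linarith, by positivity, fun t ht z hz => ?_⟩
  have hzK : z ∈ cthickening D.δ D.J := thickening_subset_cthickening _ _ hz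
  have h1 := hbd z hzK
  have n1 := norm_nonneg (ev v0.1 z)
  have n2 := norm_nonneg (ev v0.2 z)
  have n3 := norm_nonneg (ev v.1 z)
  have n4 := norm_nonneg (ev v.2 z)
  have n5 := inv_nonneg.2 n2
  have key := fcp_alg (a := ev v0.1 z) (b := ev v0.2 z) (a' := ev v.1 z) (b' := ev v.2 z) (t := t)
    hB1 (by linarith) (by linarith) (by linarith) (by linarith) (hne z hzK) (by linarith) ht
  have e1 : ev (v0 + t • v).1 z = ev v0.1 z + t * ev v.1 z := fcp_ev v0.1 v.1 t z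
  have e2 : ev (v0 + t • v).2 z = ev v0.2 z + t * ev v.2 z := fcp_ev v0.2 v.2 t z
  refine ⟨by rw [e2]; exact key.1, ?_⟩
  have e3 : it (v0 + t • v) 1 z = ev (v0 + t • v).1 z / ev (v0 + t • v).2 z := rfl
  have e4 : it v0 1 z = ev v0.1 z / ev v0.2 z := rfl
  rw [e3, e4, e1, e2]
  exact key.2

end Pool.Agent.H44.DN
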