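import Pool.Agent.H44.DN.DDefs

/-!
# Definitions for the chapter GR (exponential exit of small discs)

`zt` distance to the critical points, `vv c` the terminal value of `c`, `DD`, `ee` derivatives and distances along its
orbit, `ph z |dz|^(-1)` the metric, `Aw` the derivative in this metric, `Stg` a stage, `Br` a family of inverse
branches on shrinking discs around `f^[n] x`.
-/

set_option autoImplicit false

open Filter Topology Metric Set

namespace Pool.Agent.H44.DN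

namespace Ds

variable (D : Ds)

/-- the distance to the critical points -/
noncomputable def zt (z : ℂ) : ℝ := infDist z (D.Cr : Set ℂ)

/-- the terminal value of the critical point `c` -/
def vv (c : ℂ) : ℂ := D.f^[D.τ c] c

/-- the modulus of the derivative of `f^[n]` at the terminal value -/
noncomputable def DD (c : ℂ) (n : ℕ) : ℝ := ‖deriv (D.f^[n]) (D.vv c)‖

/-- the distance from the critical points along the orbit of the terminal value -/
noncomputable def ee (c : ℂ) (n : ℕ) : ℝ := D.zt (D.f^[n] (D.vv c))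

/-- a bound for the multiplicities -/
def Mx : ℕ := ∑ c ∈ D.Cr, D.M c

/-- the exponent `α` -/
noncomputable def al : ℝ := 1 / (2 * ((D.Mx : ℝ) + 1))

/-- the density of the metric is `1 / ph` -/
noncomputable def ph (z : ℂ) : ℝ :=
  min 1 (D.Cr.inf' D.hne fun c => ‖z - c‖ ^ (1 - D.al * (D.M c : ℝ)))

/-- the size of the values: near `c` it is `‖z - c‖ ^ M c` -/
noncomputable def tt (z : ℂ) : ℝ := min 1 (D.Cr.inf' D.hne fun c => ‖z - c‖ ^ D.M c)

/-- the derivative of `f^[n]` at `x` in the metric -/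
noncomputable def Aw (x : ℂ) (n : ℕ) : ℝ := ‖deriv (D.f^[n]) x‖ * D.ph x / D.ph (D.f^[n] x)

end Ds

/-- the thresholds -/
noncomputable def Kn (K : ℝ) (n : ℕ) : ℝ := K * ((n : ℝ) + 1) ^ 2

/-- `n` is the end of the stage of size `t` at the terminal value of `c` -/
structure Stg (D : Ds) (K : ℝ) (c : ℂ) (t : ℝ) (n : ℕ) : Prop where
  lt : ∀ j < n, Kn K j * (t * D.DD c j) ≤ D.ee c j
  hit : D.ee c n < Kn K n * (t * D.DD c n)

/-- the shrinking factors, from `1` to `1/2` -/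
noncomputable def Del (i : ℕ) : ℝ := (1 + 1 / ((i : ℝ) + 1)) / 2

/-- inverse branches `g i` of `f^[i]`, `i ≤ k`, on the discs of radius `r * Del i` around `f^[n] x`, following the
orbit of `x` backwards -/
structure Br (D : Ds) (x : ℂ) (n k : ℕ) (r : ℝ) (g : ℕ → ℂ → ℂ) : Prop where
  le : k ≤ n
  zero : ∀ w ∈ ball (D.f^[n] x) r, g 0 w = w
  diff : ∀ i ≤ k, DifferentiableOn ℂ (g i) (ball (D.f^[n] x) (r * Del i))
  val : ∀ i ≤ k, g i (D.f^[n] x) = D.f^[n - i] x
  mem : ∀ i ≤ k, ∀ w ∈ ball (D.f^[n] x) (r * Del i), g i w ∈ D.G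
  step : ∀ i < k, ∀ w ∈ ball (D.f^[n] x) (r * Del (i + 1)), D.f (g (i + 1) w) = g i w

/-- the branches exist along the whole orbit, down to `x` -/
def UU (D : Ds) (x : ℂ) (n : ℕ) (r : ℝ) : Prop := ∃ g, Br D x n n r g

/-- the obstruction of the disc of radius `r` around `f^[n] x`: a critical point `c` near `f^[n - 1 - i] x`;
`P` is the common constant factor -/
structure Ob (D : Ds) (x : ℂ) (n : ℕ) (r : ℝ) (i : ℕ) (c : ℂ) (P : ℝ) : Prop where
  lt : i < n
  mem : c ∈ D.Cr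
  free : ∀ j, 1 ≤ j → j ≤ i → D.f^[j] c ∉ D.Cr
  far : r / 2 ≤ ‖D.f^[i + 1] c - D.f^[n] x‖
  near : ‖D.f^[i + 1] c - D.f^[n] x‖ ≤ 2 * r
  d1 : ‖D.f^[n - 1 - i] x - c‖ ^ D.m c * ‖deriv (D.f^[i]) (D.f c)‖ ≤ P * r
  d2 : r ≤ P * (‖D.f^[n - 1 - i] x - c‖ ^ D.m c * ‖deriv (D.f^[i]) (D.f c)‖)
  d3 : ‖deriv (D.f^[i + 1]) (D.f^[n - 1 - i] x)‖ * ‖D.f^[n - 1 - i] x - c‖ ≤ P * r
  d4 : r ≤ P * (‖deriv (D.f^[i + 1]) (D.f^[n - 1 - i] x)‖ * ‖D.f^[n - 1 - i] x - c‖)

/-- `r` is the maximal radius at most `R` of inverse branches at time `n`, up to a factor `2` -/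
structure MR (D : Ds) (x : ℂ) (n : ℕ) (R r : ℝ) : Prop where
  pos : 0 < r
  le : r ≤ R
  ex : UU D x n r
  max : r = R ∨ (2 * r ≤ R ∧ ¬ UU D x n (2 * r))

/-- the orbit of `x` does not meet the critical points -/
def NC (D : Ds) (x : ℂ) : Prop := x ∈ D.J ∧ ∀ k, D.f^[k] x ∉ D.Cr

end Pool.Agent.H44.DN
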