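import Pool.Agent.H44.DN.EXG

/-!
# Module GSC: a good scale

PROOF. `a, b, δ1, δ2` from `exit_exp`, `r1 = min δ2 (δ1 / 4)`, `R` a bound for the norms of the points of `thickening δ J` and of their images (`‖f z - f y‖ ≤ L δ` for `y ∈ J` with `‖z - y‖ < δ`; `J` compact). `Δ_j = ball x (ρ / 2^j)`, `G_i u = f^[i] (h u)`. `k = ⌊a log (1/σ) + b⌋₊ + 1`.
(1) There is `i ≤ k` with `G_i x ∉ thickening δ1 J` or `r1 < ‖G_i u - G_i x‖` for some `u ∈ Δ_N`; otherwise `exit_exp` (point `h x`, radius `σ`; each `w ∈ ball (h x) σ` is `h u` with `u ∈ Δ_N`) gives `k ≤ a log (1/σ) + b`, wrong. Let `i1` be the least such `i`. For `i < i1`: `G_i x ∈ thickening δ1 J`, `‖G_i u - G_i x‖ ≤ r1` on `Δ_N`.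
(2) If `‖G_i1 u - G_i1 x‖ ≤ r1` for all `u ∈ Δ_N` then `G_i1 x ∉ thickening δ1 J`, and `j = N`, `i = i1`, second alternative: `G_i1 u ∉ thickening (δ1/2) J` (`th_add`, `r1 < δ1/2`). (3) Otherwise for `j ≤ N` let `n_j` be the least `i` such that `r1 < ‖G_i u - G_i x‖` for some `u ∈ Δ_j`; `n_j ≤ n_(j+1)`, `n_N = i1` (`≤ i1`, and for `i < i1` there is none on `Δ_N`), `1 ≤ n_0`.
Since `∑_{j<N} (n_(j+1) - n_j) ≤ i1 ≤ k < Q N` (`a log (1/σ) + b + 2 ≤ Q N`), there is `j < N` with `n_(j+1) ≤ n_j + Q`. `i = n_j ≥ 1`. For `l < n_j`: `G_l x ∈ thickening δ1 J`, `‖G_l u - G_l x‖ ≤ r1` on `Δ_j`, so `G_l u ∈ thickening (δ/2) J`. If `‖G_i u - G_i x‖ < r1 / (2 L^Q)` for all `u ∈ Δ_(j+1)`, then by induction for `i ≤ l ≤ n_(j+1)` (`≤ i + Q`): `‖G_l u - G_l x‖ ≤ L^(l-i) r1 / (2 L^Q) < r1` on `Δ_(j+1)`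
(for `l < n_(j+1) ≤ i1` the segment from `G_l x ∈ thickening δ1 J` to `G_l u` is in `thickening δ J`: mean value inequality), in contradiction to the definition of `n_(j+1)` at `l = n_(j+1)`. Bound `R`: for `i ≥ 1` `G_(i-1) u ∈ thickening (δ/2) J`, for `i = 0` `h u ∈ thickening δ J`.
-/

set_option autoImplicit false

open Filter Topology Metric Set

namespace Pool.Agent.H44.DN

private theorem gsc_lip (D : Ds) {y z : ℂ} (hy : y ∈ thickening (D.δ / 2) D.J)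
    (h : ‖z - y‖ < D.δ / 2) : ‖D.f z - D.f y‖ ≤ D.L * ‖z - y‖ := by
  have hδ := D.hδ
  have hsub : ball y (D.δ / 2) ⊆ thickening D.δ D.J := by
    intro w hw
    rw [mem_ball, dist_eq_norm] at hw
    have h1 := th_add hy hw
    have h2 : D.δ / 2 + D.δ / 2 = D.δ := by ring
    rw [h2] at h1
    exact h1
  refine Convex.norm_image_sub_le_of_norm_deriv_le (𝕜 := ℂ) (s := ball y (D.δ / 2)) ?_ ?_
    (convex_ball _ _) (mem_ball_self (by linarith)) ?_
  · intro w hw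
    exact D.hf.differentiableAt (D.hG.mem_nhds (D.hU (hsub hw)))
  · intro w hw
    exact D.hLf w (hsub hw)
  · rw [mem_ball, dist_eq_norm]
    exact h

private theorem gsc_R (D : Ds) : ∃ R : ℝ, 0 < R ∧ (∀ z ∈ thickening D.δ D.J, ‖z‖ ≤ R) ∧
    ∀ z ∈ thickening (D.δ / 2) D.J, ‖D.f z‖ ≤ R := by
  have hδ := D.hδ
  have hL := D.hL
  obtain ⟨R0, hR0⟩ := (D.hJ.isBounded.thickening (δ := D.δ)).exists_norm_le
  refine ⟨|R0| + D.L * D.δ, ?_, ?_, ?_⟩
  · have h1 : 0 < D.L * D.δ := by positivity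
    have h2 := abs_nonneg R0
    linarith
  · intro z hz
    have h1 : 0 < D.L * D.δ := by positivity
    have h2 := hR0 z hz
    have h3 := le_abs_self R0
    linarith
  · intro z hz
    rw [mem_thickening_iff] at hz
    obtain ⟨y, hy, hzy⟩ := hz
    rw [dist_eq_norm] at hzy
    have h1 := gsc_lip D (J_th D hy (by linarith)) hzy
    have h2 := hR0 (D.f y) (J_th D (D.hJf y hy) hδ)
    have h3 : ‖D.f z‖ ≤ ‖D.f z - D.f y‖ + ‖D.f y‖ := by
      have := norm_add_le (D.f z - D.f y) (D.f y)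
      rwa [sub_add_cancel] at this
    have h4 : D.L * ‖z - y‖ ≤ D.L * D.δ :=
      mul_le_mul_of_nonneg_left (by linarith) (by linarith)
    have h5 := le_abs_self R0
    linarith

private theorem gsc_pigeon (n : ℕ → ℕ) (N Q : ℕ)
    (h : ∀ j < N, n j + Q < n (j + 1)) : ∀ j ≤ N, Q * j ≤ n j := by
  intro j
  induction j with
  | zero => intro _; omega
  | succ j ih =>
    intro hj
    have h1 := ih (by omega)
    have h2 := h j (by omega)
    rw [Nat.mul_succ]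
    omega

theorem gsc (D : Ds) : ∃ a b δ1 r1 R : ℝ, 0 < a ∧ 0 < b ∧ 0 < δ1 ∧ δ1 ≤ D.δ / 4 ∧ 0 < r1 ∧
    r1 ≤ δ1 / 4 ∧ 0 < R ∧ ∀ (Q N : ℕ) (h : ℂ → ℂ) (x : ℂ) (ρ σ : ℝ), 0 < ρ → 0 < σ → σ ≤ 1 / 2 →
      a * Real.log (1 / σ) + b + 2 ≤ Q * N →
      (∀ u ∈ ball x ρ, h u ∈ thickening D.δ D.J ∧ ‖h u - h x‖ ≤ r1) →
      ball (h x) σ ⊆ h '' ball x (ρ / 2 ^ N) →
      ∃ j i : ℕ, j ≤ N ∧ (i : ℝ) ≤ a * Real.log (1 / σ) + b + 1 ∧
        (∀ u ∈ ball x (ρ / 2 ^ j), (∀ l < i, D.f^[l] (h u) ∈ thickening (D.δ / 2) D.J) ∧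
          ‖D.f^[i] (h u)‖ ≤ R) ∧
        ((∃ u ∈ ball x (ρ / 2 ^ (j + 1)), r1 / (2 * D.L ^ Q) ≤ ‖D.f^[i] (h u) - D.f^[i] (h x)‖) ∨
          ∀ u ∈ ball x (ρ / 2 ^ j), D.f^[i] (h u) ∉ thickening (δ1 / 2) D.J) := by
  classical
  obtain ⟨a, b, δ1, δ2, ha, hb, hδ1, hδ14, hδ2, hδ24, hex⟩ := exit_exp D
  obtain ⟨R, hR, hR1, hR2⟩ := gsc_R D
  have hδ := D.hδ
  have hL := D.hL
  obtain ⟨r1, hr1⟩ : ∃ r1, r1 = min δ2 (δ1 / 4) := ⟨_, rfl⟩
  have hr1p : 0 < r1 := by rw [hr1]; exact lt_min hδ2 (by linarith)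
  have hr1a : r1 ≤ δ2 := by rw [hr1]; exact min_le_left _ _
  have hr1b : r1 ≤ δ1 / 4 := by rw [hr1]; exact min_le_right _ _
  refine ⟨a, b, δ1, r1, R, ha, hb, hδ1, hδ14, hr1p, hr1b, hR, ?_⟩
  intro Q N h x ρ σ hρ hσ hσ2 hQN hh hcov
  have hlog : 0 ≤ Real.log (1 / σ) := by
    apply Real.log_nonneg
    rw [le_div_iff₀ hσ]
    linarith
  have hab : 0 ≤ a * Real.log (1 / σ) + b := by positivity
  obtain ⟨k, hk⟩ : ∃ k, k = ⌊a * Real.log (1 / σ) + b⌋₊ + 1 := ⟨_, rfl⟩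
  have hk1 : a * Real.log (1 / σ) + b < k := by
    rw [hk]
    push_cast
    exact Nat.lt_floor_add_one _
  have hk2 : (k : ℝ) ≤ a * Real.log (1 / σ) + b + 1 := by
    rw [hk]
    push_cast
    have := Nat.floor_le hab
    linarith
  -- the first exit
  have hS : ∃ i, D.f^[i] (h x) ∉ thickening δ1 D.J ∨
      ∃ u ∈ ball x (ρ / 2 ^ N), r1 < ‖D.f^[i] (h u) - D.f^[i] (h x)‖ := by
    by_contra hno
    push Not at hno
    have := hex (h x) σ k hσ hσ2 (fun i _ => ⟨(hno i).1, fun w hw => ?_⟩)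
    · linarith
    · obtain ⟨u, hu, rfl⟩ := hcov hw
      exact ((hno i).2 u hu).trans hr1a
  have hSk : ∃ i ≤ k, D.f^[i] (h x) ∉ thickening δ1 D.J ∨
      ∃ u ∈ ball x (ρ / 2 ^ N), r1 < ‖D.f^[i] (h u) - D.f^[i] (h x)‖ := by
    by_contra hno
    push Not at hno
    have := hex (h x) σ k hσ hσ2 (fun i hi => ⟨(hno i hi).1, fun w hw => ?_⟩)
    · linarith
    · obtain ⟨u, hu, rfl⟩ := hcov hw
      exact ((hno i hi).2 u hu).trans hr1a
  obtain ⟨i1, hi1⟩ : ∃ i1, i1 = Nat.find hS := ⟨_, rfl⟩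
  have hi1s := Nat.find_spec hS
  rw [← hi1] at hi1s
  have hi1m : ∀ l < i1, D.f^[l] (h x) ∈ thickening δ1 D.J ∧
      ∀ u ∈ ball x (ρ / 2 ^ N), ‖D.f^[l] (h u) - D.f^[l] (h x)‖ ≤ r1 := by
    intro l hl
    rw [hi1] at hl
    have := Nat.find_min hS hl
    push Not at this
    exact this
  have hi1k : i1 ≤ k := by
    obtain ⟨i, hik, hi⟩ := hSk
    have := Nat.find_min' hS hi
    omega
  have hi1k' : (i1 : ℝ) ≤ a * Real.log (1 / σ) + b + 1 := by
    have : (i1 : ℝ) ≤ k := by exact_mod_cast hi1k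
    linarith
  -- bounds along the orbit
  have hbd : ∀ (j i : ℕ), i ≤ i1 →
      (∀ l < i, ∀ u ∈ ball x (ρ / 2 ^ j), ‖D.f^[l] (h u) - D.f^[l] (h x)‖ ≤ r1) →
      ∀ u ∈ ball x (ρ / 2 ^ j), (∀ l < i, D.f^[l] (h u) ∈ thickening (D.δ / 2) D.J) ∧
          ‖D.f^[i] (h u)‖ ≤ R := by
    intro j i hi hl u hu
    have h1 : ∀ l < i, D.f^[l] (h u) ∈ thickening (D.δ / 2) D.J := by
      intro l hli
      have h2 := (hi1m l (by omega)).1
      have h3 := hl l hli u hu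
      have h4 := th_add h2 (lt_of_le_of_lt h3 (by linarith : r1 < δ1))
      exact thickening_mono (by linarith) _ h4
    refine ⟨h1, ?_⟩
    rcases Nat.eq_zero_or_pos i with h0 | h0
    · rw [h0]
      apply hR1
      have hsub : ball x (ρ / 2 ^ j) ⊆ ball x ρ := by
        apply ball_subset_ball
        apply div_le_self hρ.le
        exact one_le_pow₀ (by norm_num)
      exact (hh u (hsub hu)).1
    · obtain ⟨i', rfl⟩ : ∃ i', i = i' + 1 := ⟨i - 1, by omega⟩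
      rw [Function.iterate_succ_apply']
      exact hR2 _ (h1 i' (Nat.lt_succ_self _))
  by_cases hcase : ∀ u ∈ ball x (ρ / 2 ^ N), ‖D.f^[i1] (h u) - D.f^[i1] (h x)‖ ≤ r1
  · refine ⟨N, i1, le_rfl, hi1k', hbd N i1 le_rfl (fun l hl => (hi1m l hl).2), Or.inr ?_⟩
    intro u hu hmem
    have hx1 : D.f^[i1] (h x) ∉ thickening δ1 D.J := by
      rcases hi1s with h1 | ⟨u', hu', h1⟩
      · exact h1
      · exact absurd (hcase u' hu') (not_le.mpr h1)
    apply hx1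
    have h2 : ‖D.f^[i1] (h x) - D.f^[i1] (h u)‖ < δ1 / 2 := by
      rw [norm_sub_rev]
      exact lt_of_le_of_lt (hcase u hu) (by linarith)
    have h3 := th_add hmem h2
    have h4 : δ1 / 2 + δ1 / 2 = δ1 := by ring
    rwa [h4] at h3
  · push Not at hcase
    have hΔ : ∀ {j j' : ℕ}, j ≤ j' → ball x (ρ / 2 ^ j') ⊆ ball x (ρ / 2 ^ j) := by
      intro j j' hjj
      apply ball_subset_ball
      apply div_le_div_of_nonneg_left hρ.le (by positivity)
      exact pow_le_pow_right₀ (by norm_num) hjj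
    -- the times n_j
    have hT : ∀ j ≤ N, ∃ i, ∃ u ∈ ball x (ρ / 2 ^ j), r1 < ‖D.f^[i] (h u) - D.f^[i] (h x)‖ := by
      intro j hj
      obtain ⟨u, hu, h1⟩ := hcase
      exact ⟨i1, u, hΔ hj hu, h1⟩
    obtain ⟨n, hn⟩ : ∃ n : ℕ → ℕ, ∀ j (hj : j ≤ N), n j = Nat.find (hT j hj) := by
      refine ⟨fun j => if hj : j ≤ N then Nat.find (hT j hj) else 0, ?_⟩
      intro j hj
      simp only [hj, dif_pos]
    have hns : ∀ j ≤ N, ∃ u ∈ ball x (ρ / 2 ^ j),
        r1 < ‖D.f^[n j] (h u) - D.f^[n j] (h x)‖ := by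
      intro j hj
      rw [hn j hj]
      exact Nat.find_spec (hT j hj)
    have hnm : ∀ j ≤ N, ∀ l < n j, ∀ u ∈ ball x (ρ / 2 ^ j),
        ‖D.f^[l] (h u) - D.f^[l] (h x)‖ ≤ r1 := by
      intro j hj l hl
      rw [hn j hj] at hl
      have := Nat.find_min (hT j hj) hl
      push Not at this
      exact this
    have hnle : ∀ j ≤ N, ∀ i, (∃ u ∈ ball x (ρ / 2 ^ j), r1 < ‖D.f^[i] (h u) - D.f^[i] (h x)‖) →
        n j ≤ i := by
      intro j hj i hi
      rw [hn j hj]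
      exact Nat.find_min' (hT j hj) hi
    have hnN : ∀ j ≤ N, n j ≤ i1 := by
      intro j hj
      apply hnle j hj
      obtain ⟨u, hu, h1⟩ := hcase
      exact ⟨u, hΔ hj hu, h1⟩
    obtain ⟨j, hjN, hjQ⟩ : ∃ j < N, n (j + 1) ≤ n j + Q := by
      by_contra hno
      push Not at hno
      have h1 := gsc_pigeon n N Q hno N le_rfl
      have h2 := hnN N le_rfl
      have h3 : ((Q * N : ℕ) : ℝ) ≤ i1 := by exact_mod_cast h1.trans h2
      push_cast at h3
      linarith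
    refine ⟨j, n j, hjN.le, ?_, ?_, Or.inl ?_⟩
    · have h1 : (n j : ℝ) ≤ i1 := by exact_mod_cast hnN j hjN.le
      linarith
    · exact hbd j (n j) (hnN j hjN.le) (hnm j hjN.le)
    · by_contra hno
      push Not at hno
      have hLQ : 0 < D.L ^ Q := by positivity
      have key : ∀ t, t ≤ Q → n j + t ≤ n (j + 1) → ∀ u ∈ ball x (ρ / 2 ^ (j + 1)),
          ‖D.f^[n j + t] (h u) - D.f^[n j + t] (h x)‖ ≤ D.L ^ t * (r1 / (2 * D.L ^ Q)) := by
        intro t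
        induction t with
        | zero =>
          intro _ _ u hu
          rw [pow_zero, one_mul]
          exact (hno u hu).le
        | succ t ih =>
          intro ht htn u hu
          have h1 := ih (by omega) (by omega) u hu
          have h2 : D.L ^ t * (r1 / (2 * D.L ^ Q)) ≤ r1 / 2 := by
            have h3 : D.L ^ t ≤ D.L ^ Q := pow_le_pow_right₀ hL (by omega)
            calc D.L ^ t * (r1 / (2 * D.L ^ Q)) ≤ D.L ^ Q * (r1 / (2 * D.L ^ Q)) :=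
                  mul_le_mul_of_nonneg_right h3 (by positivity)
              _ = r1 / 2 := by field_simp
          have hx1 := (hi1m (n j + t) (by have := hnN (j + 1) hjN; omega)).1
          have h4 := gsc_lip D (thickening_mono (by linarith) _ hx1)
            (lt_of_le_of_lt h1 (by linarith) :
              ‖D.f^[n j + t] (h u) - D.f^[n j + t] (h x)‖ < D.δ / 2)
          rw [← Function.iterate_succ_apply' D.f, ← Function.iterate_succ_apply' D.f] at h4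
          refine h4.trans ?_
          rw [pow_succ', mul_assoc]
          exact mul_le_mul_of_nonneg_left h1 (by linarith)
      have hmono : n j ≤ n (j + 1) := by
        apply hnle j hjN.le
        obtain ⟨u, hu, h1⟩ := hns (j + 1) hjN
        exact ⟨u, hΔ (Nat.le_succ j) hu, h1⟩
      obtain ⟨t, ht⟩ : ∃ t, n (j + 1) = n j + t := ⟨n (j + 1) - n j, by omega⟩
      obtain ⟨u, hu, h1⟩ := hns (j + 1) hjN
      have h2 := key t (by omega) (by omega) u hu
      rw [ht] at h1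
      have h3 : D.L ^ t * (r1 / (2 * D.L ^ Q)) ≤ r1 / 2 := by
        have h3 : D.L ^ t ≤ D.L ^ Q := pow_le_pow_right₀ hL (by omega)
        calc D.L ^ t * (r1 / (2 * D.L ^ Q)) ≤ D.L ^ Q * (r1 / (2 * D.L ^ Q)) :=
              mul_le_mul_of_nonneg_right h3 (by positivity)
          _ = r1 / 2 := by field_simp
      linarith

end Pool.Agent.H44.DN
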