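import Mathlib

/-!
# Module IMG: images of discs under nearly affine maps

PROOF. (1) mean value inequality on the convex open ball. (2) For `y ∈ ball (h x) (‖a‖ ρ' / 2)` the map `Φ u = u - (h u - y) / a` satisfies `‖deriv Φ u‖ ≤ 1/4` on `ball x ρ`, and on `closedBall x r`, with `r = 2 ‖y - h x‖ / ‖a‖ < ρ'` (if `y ≠ h x`): `‖Φ u - x‖ ≤ ‖Φ u - Φ x‖ + ‖Φ x - x‖ ≤ r / 4 + r / 2 ≤ r`; it is a contraction of the complete set `closedBall x r` into itself, its fixed point `u` has `h u = y` (`ContractingWith`; or Mathlib `ApproximatesLinearOn.surjOn_closedBall_of_nonlinearRightInverse`; H44/DN/FWD contains a similar argument).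
-/

set_option autoImplicit false

open Filter Topology Metric Set

namespace Pool.Agent.H44.DN

theorem img {h : ℂ → ℂ} {x a : ℂ} {ρ ρ' : ℝ} (hρ' : 0 < ρ') (hρ : ρ' ≤ ρ) (ha : a ≠ 0)
    (hd : DifferentiableOn ℂ h (ball x ρ)) (h1 : ∀ u ∈ ball x ρ, ‖deriv h u - a‖ ≤ 1 / 4 * ‖a‖) :
    (∀ u ∈ ball x ρ, ‖h u - h x‖ ≤ 5 / 4 * ‖a‖ * ‖u - x‖) ∧
      ball (h x) (‖a‖ * ρ' / 2) ⊆ h '' ball x ρ' := by
  have hx : x ∈ ball x ρ := mem_ball_self (hρ'.trans_le hρ)
  have hdf : ∀ u ∈ ball x ρ, DifferentiableAt ℂ h u := fun u hu =>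
    (hd u hu).differentiableAt (isOpen_ball.mem_nhds hu)
  have ha0 : 0 < ‖a‖ := norm_pos_iff.2 ha
  refine ⟨fun u hu => ?_, ?_⟩
  · refine (convex_ball x ρ).norm_image_sub_le_of_norm_deriv_le hdf (fun z hz => ?_) hx hu
    have := h1 z hz
    calc ‖deriv h z‖ = ‖(deriv h z - a) + a‖ := by rw [sub_add_cancel]
      _ ≤ ‖deriv h z - a‖ + ‖a‖ := norm_add_le _ _
      _ ≤ 5 / 4 * ‖a‖ := by linarith
  · intro y hy
    rw [mem_ball, dist_eq_norm] at hy
    set Φ : ℂ → ℂ := fun u => u - (h u - y) / a with hΦ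
    set r : ℝ := 2 * ‖y - h x‖ / ‖a‖ with hr
    have hr0 : 0 ≤ r := by positivity
    have hr1 : r < ρ' := by
      rw [hr, div_lt_iff₀ ha0]
      linarith
    have hsub : closedBall x r ⊆ ball x ρ := (closedBall_subset_ball hr1).trans (ball_subset_ball hρ)
    have hΦd : ∀ u ∈ ball x ρ, HasDerivAt Φ (1 - deriv h u / a) u := fun u hu =>
      (hasDerivAt_id u).sub (((hdf u hu).hasDerivAt.sub_const y).div_const a)
    have hLip : ∀ u ∈ ball x ρ, ∀ v ∈ ball x ρ, ‖Φ u - Φ v‖ ≤ 1 / 4 * ‖u - v‖ := by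
      intro u hu v hv
      refine (convex_ball x ρ).norm_image_sub_le_of_norm_deriv_le
        (fun z hz => (hΦd z hz).differentiableAt) (fun z hz => ?_) hv hu
      rw [(hΦd z hz).deriv]
      have h2 : 1 - deriv h z / a = -(deriv h z - a) / a := by
        field_simp
        ring
      rw [h2, norm_div, norm_neg, div_le_iff₀ ha0]
      exact h1 z hz
    have hΦx : ‖Φ x - x‖ = r / 2 := by
      have h2 : Φ x - x = (y - h x) / a := by
        simp only [hΦ]
        field_simp
        ring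
      rw [h2, norm_div, hr]
      ring
    have hmaps : MapsTo Φ (closedBall x r) (closedBall x r) := by
      intro u hu
      have h3 := hLip u (hsub hu) x hx
      rw [mem_closedBall, dist_eq_norm] at hu ⊢
      calc ‖Φ u - x‖ = ‖(Φ u - Φ x) + (Φ x - x)‖ := by ring_nf
        _ ≤ ‖Φ u - Φ x‖ + ‖Φ x - x‖ := norm_add_le _ _
        _ ≤ 1 / 4 * ‖u - x‖ + r / 2 := by rw [hΦx]; linarith
        _ ≤ r := by linarith
    have hcon : ContractingWith (1 / 4 : NNReal) (hmaps.restrict Φ (closedBall x r) (closedBall x r)) := by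
      refine ⟨?_, LipschitzWith.of_dist_le_mul fun u v => ?_⟩
      · rw [← NNReal.coe_lt_coe]
        norm_num
      · have := hLip u.1 (hsub u.2) v.1 (hsub v.2)
        rw [Subtype.dist_eq, Subtype.dist_eq, dist_eq_norm, dist_eq_norm]
        simpa using this
    obtain ⟨u, hu, hfix, -⟩ := hcon.exists_fixedPoint' isClosed_closedBall.isComplete hmaps
      (mem_closedBall_self hr0) (edist_ne_top x (Φ x))
    refine ⟨u, closedBall_subset_ball hr1 hu, ?_⟩
    have h4 : u - (h u - y) / a = u := hfix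
    have h5 : (h u - y) / a = 0 := by
      linear_combination -h4
    rw [div_eq_zero_iff] at h5
    rcases h5 with h5 | h5
    · exact sub_eq_zero.1 h5
    · exact absurd h5 ha

end Pool.Agent.H44.DN
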