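import Pool.Agent.H44.DN.COMP
import Pool.Agent.H44.DN.NNL
import Pool.Agent.H44.LD.PREN

/-!
# Module LIMU: families: on a good scale most parameters are good

PROOF. Suppose not: for every `k` there are `u_k, ρ_k, n_k` with `‖u_k‖ < 1/(k+1)`, `0 < ρ_k < 1/(k+1)` and all the hypotheses, but `volume (ball u_k (3/4 ρ_k) ∩ {¬ P}) > ofReal (ε ρ_k^2)`. `h_k η = g n_k (u_k + ρ_k η)` on `ball 0 1`: holomorphic, bounded by `R`, and `s0 ≤ ‖h_k η_k - h_k 0‖` for some `η_k ∈ ball 0 (1/2)`. `montel1` with `ρ' = 7/8`: a subsequence (again `k`), the limit `Ψ` on `ball 0 (7/8)` (continuous convergence). `Ψ` is not constant: pass to a further subsequence with `η_k → η' ∈ closedBall 0 (1/2)`, `‖Ψ η' - Ψ 0‖ ≥ s0`.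
`pre_null` (for the function `η ↦ Ψ (7/8 η)` on `ball 0 1`) with `S = J`: `volume {η ∈ ball 0 (7/8) | Ψ η ∈ J} = 0`. For `l : ℕ` let `t = 1/(l+1)`, `C_l = {η ∈ ball 0 (3/4) | Ψ η ∈ cthickening t J}`; these sets decrease to `{η ∈ ball 0 (3/4) | Ψ η ∈ J}` (`J` closed), so `volume C_l < ofReal (ε / 2)` for some `l` (`tendsto_measure_iInter_atTop`; measurable: relatively closed). Fix `l`, `t`; `comp` with `δ1 = t` and `R`: `ε' > 0`. Let `B_k = {η ∈ ball 0 (3/4) | h_k η ∈ thickening t J}`, open.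
For large `k` every `η ∈ ball 0 (3/4) \ B_k` has `u_k + ρ_k η ∈ ball 0 ε'` and hence `P (u_k + ρ_k η)`. So by scaling (`volume (u_k + ρ_k • B) = ofReal (ρ_k^2) volume B`, `Measure.addHaar_smul`, `measure_preimage_add`) `volume B_k > ofReal ε` for large `k`. But `limsup B_k = ⋂_n ⋃_(k ≥ n) B_k ⊆ C_l` (`h_k η → Ψ η`), and the measure of `⋃_(k ≥ n) B_k` (at least `ofReal ε`, contained in `ball 0 (3/4)`) tends to the measure of the intersection (`tendsto_measure_iInter_atTop`): `volume C_l ≥ ofReal ε`. Contradiction.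
-/

set_option autoImplicit false

open Filter Topology Metric Set
open scoped Pointwise

namespace Pool.Agent.H44.DN

/-- a limit of functions which are uniformly not constant -/
theorem limu_ex {h : ℕ → ℂ → ℂ} {s0 R : ℝ}
    (hd : ∀ k, DifferentiableOn ℂ (h k) (ball 0 1)) (hB : ∀ k, ∀ z ∈ ball (0 : ℂ) 1, ‖h k z‖ ≤ R)
    (hex : ∀ k, ∃ η ∈ ball (0 : ℂ) (1 / 2), s0 ≤ ‖h k η - h k 0‖) {ρ' : ℝ} (h1 : 1 / 2 < ρ')
    (h2 : ρ' < 1) :
    ∃ (σ : ℕ → ℕ) (Ψ : ℂ → ℂ), StrictMono σ ∧ DifferentiableOn ℂ Ψ (ball 0 ρ') ∧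
      (∀ z ∈ ball (0 : ℂ) ρ', Tendsto (fun w : ℕ × ℂ => h (σ w.1) w.2) (atTop ×ˢ 𝓝 z) (𝓝 (Ψ z))) ∧
      ∃ η ∈ closedBall (0 : ℂ) (1 / 2), s0 ≤ ‖Ψ η - Ψ 0‖ := by
  obtain ⟨σ, Ψ, hσ, hΨ, hlim⟩ := montel1 (F := h) (x := 0) (ρ := 1) (ρ' := ρ') (B := R)
    (by linarith) h2 hd hB
  choose η hη hs using hex
  have hmem : ∀ k, η (σ k) ∈ closedBall (0 : ℂ) (1 / 2) := fun k => ball_subset_closedBall (hη _)
  obtain ⟨a, ha, φ, hφ, hφ2⟩ := (isCompact_closedBall (0 : ℂ) (1 / 2)).tendsto_subseq hmem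
  refine ⟨σ, Ψ, hσ, hΨ, hlim, a, ha, ?_⟩
  have ha' : a ∈ ball (0 : ℂ) ρ' := closedBall_subset_ball h1 ha
  have h0' : (0 : ℂ) ∈ ball (0 : ℂ) ρ' := mem_ball_self (by linarith)
  have t1 : Tendsto (fun k => h (σ (φ k)) (η (σ (φ k)))) atTop (𝓝 (Ψ a)) :=
    (hlim a ha').comp (hφ.tendsto_atTop.prodMk hφ2)
  have t2 : Tendsto (fun k => h (σ (φ k)) 0) atTop (𝓝 (Ψ 0)) :=
    (hlim 0 h0').comp (hφ.tendsto_atTop.prodMk tendsto_const_nhds)
  exact ge_of_tendsto' (t1.sub t2).norm fun k => hs _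

open MeasureTheory in
/-- the limit function takes values in a null set on a null set only -/
theorem limu_null {Ψ : ℂ → ℂ} {s0 : ℝ} (hs0 : 0 < s0) (hΨ : DifferentiableOn ℂ Ψ (ball 0 (7 / 8)))
    (hnc : ∃ η ∈ closedBall (0 : ℂ) (1 / 2), s0 ≤ ‖Ψ η - Ψ 0‖) {J : Set ℂ} (hJ : volume J = 0) :
    volume {η : ℂ | η ∈ ball (0 : ℂ) (3 / 4) ∧ Ψ η ∈ J} = 0 := by
  have hmap : ∀ η ∈ ball (0 : ℂ) 1, (7 / 8 : ℂ) * η ∈ ball (0 : ℂ) (7 / 8) := by
    intro η hη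
    rw [mem_ball_zero_iff] at hη ⊢
    rw [norm_mul]
    have : ‖(7 / 8 : ℂ)‖ = 7 / 8 := by norm_num
    rw [this]
    linarith
  have hd : DifferentiableOn ℂ (fun η => Ψ ((7 / 8 : ℂ) * η)) (ball 0 1) :=
    hΨ.comp (by fun_prop) hmap
  have h1 := Pool.Agent.H44.LD.pre_null hd (by
    intro hc
    obtain ⟨η, hη, h2⟩ := hnc
    have h3 : (8 / 7 : ℂ) * η ∈ ball (0 : ℂ) 1 := by
      rw [mem_closedBall_zero_iff] at hη
      rw [mem_ball_zero_iff, norm_mul]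
      have : ‖(8 / 7 : ℂ)‖ = 8 / 7 := by norm_num
      rw [this]
      linarith
    have h4 := hc _ h3
    have e1 : (7 / 8 : ℂ) * ((8 / 7 : ℂ) * η) = η := by ring
    have e2 : (7 / 8 : ℂ) * 0 = 0 := by ring
    simp only [e1, e2] at h4
    rw [h4, sub_self, norm_zero] at h2
    linarith) hJ
  have h2 : {η : ℂ | η ∈ ball (0 : ℂ) (3 / 4) ∧ Ψ η ∈ J} ⊆
      (7 / 8 : ℝ) • {η : ℂ | η ∈ ball (0 : ℂ) 1 ∧ Ψ ((7 / 8 : ℂ) * η) ∈ J} := by
    rintro η ⟨hη, hη2⟩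
    refine ⟨(8 / 7 : ℂ) * η, ⟨?_, ?_⟩, ?_⟩
    · rw [mem_ball_zero_iff] at hη ⊢
      rw [norm_mul]
      have : ‖(8 / 7 : ℂ)‖ = 8 / 7 := by norm_num
      rw [this]
      linarith
    · have e1 : (7 / 8 : ℂ) * ((8 / 7 : ℂ) * η) = η := by ring
      rw [e1]
      exact hη2
    · change (7 / 8 : ℝ) • ((8 / 7 : ℂ) * η) = η
      rw [Complex.real_smul]
      push_cast
      ring
  refine measure_mono_null h2 ?_
  rw [Measure.addHaar_smul, h1, mul_zero]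

open MeasureTheory in
/-- reverse Fatou lemma for the sets where the functions are near `J` -/
theorem limu_fatou {h : ℕ → ℂ → ℂ} {Ψ : ℂ → ℂ} {J : Set ℂ} (hJ : IsCompact J)
    (hd : ∀ k, DifferentiableOn ℂ (h k) (ball 0 1)) (hΨ : DifferentiableOn ℂ Ψ (ball 0 (7 / 8)))
    (hlim : ∀ z ∈ ball (0 : ℂ) (7 / 8),
      Tendsto (fun w : ℕ × ℂ => h w.1 w.2) (atTop ×ˢ 𝓝 z) (𝓝 (Ψ z)))
    (hnull : volume {η : ℂ | η ∈ ball (0 : ℂ) (3 / 4) ∧ Ψ η ∈ J} = 0) {ε : ℝ} (hε : 0 < ε) :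
    ∃ t : ℝ, 0 < t ∧ ∃ n : ℕ, ∀ k ≥ n,
      volume {η : ℂ | η ∈ ball (0 : ℂ) (3 / 4) ∧ h k η ∈ thickening t J} ≤ ENNReal.ofReal ε := by
  have hball : volume (ball (0 : ℂ) (3 / 4)) ≠ ⊤ := measure_ball_lt_top.ne
  have hεp : (0 : ENNReal) < ENNReal.ofReal ε := ENNReal.ofReal_pos.2 hε
  -- first step
  let Cs : ℕ → Set ℂ := fun l => {η : ℂ | η ∈ ball (0 : ℂ) (3 / 4) ∧
    Ψ η ∈ cthickening (1 / ((l : ℝ) + 1)) J}
  have hpos : ∀ l : ℕ, (0 : ℝ) < 1 / ((l : ℝ) + 1) := fun l => Nat.one_div_pos_of_nat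
  have hCm : ∀ l, MeasurableSet (Cs l) := by
    intro l
    have h1 : Cs l = ball (0 : ℂ) (3 / 4) \ (ball (0 : ℂ) (3 / 4) ∩
        Ψ ⁻¹' (cthickening (1 / ((l : ℝ) + 1)) J)ᶜ) := by
      ext η
      constructor
      · rintro ⟨a, b⟩
        exact ⟨a, fun hc => hc.2 b⟩
      · rintro ⟨a, b⟩
        exact ⟨a, by_contra fun hc => b ⟨a, hc⟩⟩
    rw [h1]
    refine measurableSet_ball.diff (IsOpen.measurableSet ?_)
    exact (hΨ.continuousOn.mono (ball_subset_ball (by norm_num))).isOpen_inter_preimage isOpen_ball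
      isClosed_cthickening.isOpen_compl
  have hCanti : Antitone Cs := by
    intro a b hab η hη
    refine ⟨hη.1, cthickening_mono ?_ _ hη.2⟩
    apply one_div_le_one_div_of_le (by positivity)
    have : (a : ℝ) ≤ b := by exact_mod_cast hab
    linarith
  have hCint : (⋂ l, Cs l) ⊆ {η : ℂ | η ∈ ball (0 : ℂ) (3 / 4) ∧ Ψ η ∈ J} := by
    intro η hη
    rw [mem_iInter] at hη
    refine ⟨(hη 0).1, ?_⟩
    rw [← hJ.isClosed.closure_eq, closure_eq_iInter_cthickening' J (Set.range fun l : ℕ => 1 / ((l : ℝ) + 1))]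
    · rw [mem_iInter₂]
      rintro _ ⟨l, rfl⟩
      exact (hη l).2
    · intro e he
      obtain ⟨N, hN⟩ := exists_nat_one_div_lt he
      exact ⟨_, ⟨N, rfl⟩, ⟨hpos N, hN.le⟩⟩
  have hCt := tendsto_measure_iInter_atTop (μ := volume) (fun l => (hCm l).nullMeasurableSet) hCanti
    ⟨0, ((measure_mono (fun η hη => hη.1)).trans_lt measure_ball_lt_top).ne⟩
  rw [measure_mono_null hCint hnull] at hCt
  obtain ⟨l, hl⟩ := (hCt.eventually_lt_const hεp).exists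
  refine ⟨1 / ((l : ℝ) + 1), hpos l, ?_⟩
  -- second step
  let Bs : ℕ → Set ℂ := fun k => {η : ℂ | η ∈ ball (0 : ℂ) (3 / 4) ∧
    h k η ∈ thickening (1 / ((l : ℝ) + 1)) J}
  let Ds' : ℕ → Set ℂ := fun n => ⋃ k ≥ n, Bs k
  have hBm : ∀ k, MeasurableSet (Bs k) := fun k =>
    (((hd k).continuousOn.mono (ball_subset_ball (by norm_num))).isOpen_inter_preimage isOpen_ball
      isOpen_thickening).measurableSet
  have hDm : ∀ n, MeasurableSet (Ds' n) := fun n =>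
    MeasurableSet.iUnion fun k => MeasurableSet.iUnion fun _ => hBm k
  have hDanti : Antitone Ds' := by
    intro a b hab η hη
    simp only [Ds', mem_iUnion] at hη ⊢
    obtain ⟨k, hk, h1⟩ := hη
    exact ⟨k, hab.trans hk, h1⟩
  have hDball : Ds' 0 ⊆ ball (0 : ℂ) (3 / 4) := by
    intro η hη
    simp only [Ds', mem_iUnion] at hη
    obtain ⟨k, hk, h1⟩ := hη
    exact h1.1
  have hDint : (⋂ n, Ds' n) ⊆ Cs l := by
    intro η hη
    rw [mem_iInter] at hη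
    have hηb : η ∈ ball (0 : ℂ) (3 / 4) := hDball (hη 0)
    refine ⟨hηb, ?_⟩
    have h1 : Tendsto (fun k => h k η) atTop (𝓝 (Ψ η)) :=
      (hlim η (ball_subset_ball (by norm_num) hηb)).comp (tendsto_id.prodMk tendsto_const_nhds)
    have h2 : ∃ᶠ k in atTop, h k η ∈ cthickening (1 / ((l : ℝ) + 1)) J := by
      rw [frequently_atTop]
      intro n
      have h3 := hη n
      simp only [Ds', mem_iUnion] at h3
      obtain ⟨k, hk, h4⟩ := h3
      exact ⟨k, hk, thickening_subset_cthickening _ _ h4.2⟩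
    exact isClosed_cthickening.mem_of_frequently_of_tendsto h2 h1
  have hDt := tendsto_measure_iInter_atTop (μ := volume) (fun n => (hDm n).nullMeasurableSet) hDanti
    ⟨0, ((measure_mono hDball).trans_lt measure_ball_lt_top).ne⟩
  obtain ⟨n, hn⟩ := (hDt.eventually_lt_const ((measure_mono hDint).trans_lt hl)).exists
  refine ⟨n, fun k hk => (measure_mono ?_).trans hn.le⟩
  intro η hη
  simp only [Ds', mem_iUnion]
  exact ⟨k, hk, hη⟩

open MeasureTheory in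
theorem limu (D : Ds) (hnull : volume D.J = 0) (X : Fam D) {s0 R ε : ℝ} (hs0 : 0 < s0)
    (hε : 0 < ε) : ∃ ρ' : ℝ, 0 < ρ' ∧ ∀ (u0 : ℂ) (ρ : ℝ) (n : ℕ), ‖u0‖ < ρ' → 0 < ρ → ρ < ρ' →
      (∀ i < n, ∀ u ∈ ball u0 ρ, X.g i u ∈ thickening D.δ D.J) →
      DifferentiableOn ℂ (X.g n) (ball u0 ρ) → (∀ u ∈ ball u0 ρ, ‖X.g n u‖ ≤ R) →
      (∃ u ∈ ball u0 (ρ / 2), s0 ≤ ‖X.g n u - X.g n u0‖) →
        volume (ball u0 (3 / 4 * ρ) ∩ {u | ¬ X.P u}) ≤ ENNReal.ofReal (ε * ρ ^ 2) := by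
  by_contra hcon
  push Not at hcon
  have hpos : ∀ l : ℕ, (0 : ℝ) < 1 / ((l : ℝ) + 1) := fun l => Nat.one_div_pos_of_nat
  choose us ρs ns hu hρ0 hρ1 horb hdiff hbd hex hvol using fun k : ℕ => hcon _ (hpos k)
  have hmap : ∀ k, ∀ η ∈ ball (0 : ℂ) 1, us k + (ρs k : ℂ) * η ∈ ball (us k) (ρs k) := by
    intro k η hη
    rw [mem_ball_zero_iff] at hη
    rw [mem_ball, dist_eq_norm, add_sub_cancel_left, norm_mul, Complex.norm_real,
      Real.norm_of_nonneg (hρ0 k).le]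
    exact mul_lt_of_lt_one_right (hρ0 k) hη
  have hd : ∀ k, DifferentiableOn ℂ (fun η => X.g (ns k) (us k + (ρs k : ℂ) * η)) (ball 0 1) :=
    fun k => (hdiff k).comp (by fun_prop) (hmap k)
  obtain ⟨σ, Ψ, hσ, hΨ, hlim, hnc⟩ := limu_ex
    (h := fun k η => X.g (ns k) (us k + (ρs k : ℂ) * η)) (s0 := s0) (R := R) (ρ' := 7 / 8)
    hd (fun k η hη => hbd k _ (hmap k η hη))
    (fun k => by
      obtain ⟨u, hu, hu2⟩ := hex k
      have hne : (ρs k : ℂ) ≠ 0 := Complex.ofReal_ne_zero.2 (hρ0 k).ne'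
      refine ⟨(u - us k) / (ρs k : ℂ), ?_, ?_⟩
      · rw [mem_ball, dist_eq_norm] at hu
        rw [mem_ball_zero_iff, norm_div, Complex.norm_real, Real.norm_of_nonneg (hρ0 k).le,
          div_lt_iff₀ (hρ0 k)]
        linarith
      · have e1 : us k + (ρs k : ℂ) * ((u - us k) / (ρs k : ℂ)) = u := by
          rw [mul_div_cancel₀ _ hne]
          ring
        have e2 : us k + (ρs k : ℂ) * 0 = us k := by ring
        change s0 ≤ ‖X.g (ns k) (us k + (ρs k : ℂ) * ((u - us k) / (ρs k : ℂ))) -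
          X.g (ns k) (us k + (ρs k : ℂ) * 0)‖
        rw [e1, e2]
        exact hu2) (by norm_num) (by norm_num)
  obtain ⟨t, ht, n, hn⟩ := limu_fatou (h := fun k η => X.g (ns (σ k)) (us (σ k) + (ρs (σ k) : ℂ) * η))
    D.hJ (fun k => hd (σ k)) hΨ hlim (limu_null hs0 hΨ hnc hnull) hε
  obtain ⟨ε', hε', hcomp⟩ := comp D X (R := R) ht
  obtain ⟨N, hN⟩ := exists_nat_one_div_lt (half_pos hε')
  set k := max n N with hkdef
  have hkσ : N ≤ σ k := (le_max_right n N).trans (hσ.le_apply)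
  have hsmall : 1 / ((σ k : ℝ) + 1) < ε' / 2 := by
    refine lt_of_le_of_lt ?_ hN
    apply one_div_le_one_div_of_le (by positivity)
    have : (N : ℝ) ≤ (σ k : ℝ) := by exact_mod_cast hkσ
    linarith
  have hB := hn k (le_max_left _ _)
  have hsub : ball (us (σ k)) (3 / 4 * ρs (σ k)) ∩ {u | ¬ X.P u} ⊆
      us (σ k) +ᵥ ((ρs (σ k) : ℝ) • {η : ℂ | η ∈ ball (0 : ℂ) (3 / 4) ∧
        X.g (ns (σ k)) (us (σ k) + (ρs (σ k) : ℂ) * η) ∈ thickening t D.J}) := by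
    rintro u ⟨hu1, hu2⟩
    have hne : (ρs (σ k) : ℂ) ≠ 0 := Complex.ofReal_ne_zero.2 (hρ0 (σ k)).ne'
    have e1 : us (σ k) + (ρs (σ k) : ℂ) * ((u - us (σ k)) / (ρs (σ k) : ℂ)) = u := by
      rw [mul_div_cancel₀ _ hne]
      ring
    refine ⟨u - us (σ k), ⟨(u - us (σ k)) / (ρs (σ k) : ℂ), ⟨?_, ?_⟩, ?_⟩, ?_⟩
    · rw [mem_ball, dist_eq_norm] at hu1
      rw [mem_ball_zero_iff, norm_div, Complex.norm_real, Real.norm_of_nonneg (hρ0 (σ k)).le,
        div_lt_iff₀ (hρ0 (σ k))]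
      linarith
    · rw [e1]
      by_contra hnot
      apply hu2
      have hub : u ∈ ball (us (σ k)) (ρs (σ k)) :=
        ball_subset_ball (by linarith [hρ0 (σ k)]) hu1
      refine hcomp u ?_ (ns (σ k)) (fun i hi => horb (σ k) i hi u hub) (hbd (σ k) u hub) hnot
      rw [mem_ball, dist_eq_norm] at hub
      rw [mem_ball_zero_iff]
      have h3 := hu (σ k)
      have h4 := hρ1 (σ k)
      have h5 : ‖u‖ ≤ ‖u - us (σ k)‖ + ‖us (σ k)‖ := by
        have := norm_add_le (u - us (σ k)) (us (σ k))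
        rwa [sub_add_cancel] at this
      linarith
    · change (ρs (σ k) : ℝ) • ((u - us (σ k)) / (ρs (σ k) : ℂ)) = u - us (σ k)
      rw [Complex.real_smul, mul_div_cancel₀ _ hne]
    · change us (σ k) + (u - us (σ k)) = u
      ring
  have h1 := (measure_mono (μ := volume) hsub)
  rw [measure_vadd, Measure.addHaar_smul, Complex.finrank_real_complex] at h1
  have h2 : ENNReal.ofReal |ρs (σ k) ^ 2| * ENNReal.ofReal ε =
      ENNReal.ofReal (ε * ρs (σ k) ^ 2) := by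
    rw [← ENNReal.ofReal_mul (abs_nonneg _), abs_of_nonneg (sq_nonneg _), mul_comm]
  have h3 : ENNReal.ofReal |ρs (σ k) ^ 2| * volume {η : ℂ | η ∈ ball (0 : ℂ) (3 / 4) ∧
        X.g (ns (σ k)) (us (σ k) + (ρs (σ k) : ℂ) * η) ∈ thickening t D.J} ≤
      ENNReal.ofReal |ρs (σ k) ^ 2| * ENNReal.ofReal ε := by gcongr
  rw [h2] at h3
  exact absurd (h1.trans h3) (not_le.2 (hvol (σ k)))

end Pool.Agent.H44.DN
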