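import Pool.Agent.H44.DN.PAF
import Pool.Agent.H44.DN.IMG
import Pool.Agent.H44.DN.GSC
import Pool.Agent.H44.DN.COMP
import Pool.Agent.H44.DN.LIMU
import Pool.Agent.H44.DN.FAM0

/-!
# Module GOOD1: families: a good disc around a typical parameter

PROOF. `a1` (`paf`), `a, b, δ1, r1, R` (`gsc`), `Q = ⌈10 a log 2⌉₊ + 1`. `c' > 0` with `c' < a1`, `c' ≤ 1/10`, `24 a c' log (L+1) ≤ 1`; `κ = c'`, `ε = c' / 2`. Given `C`, `ϑ`; `J1` large. `paf` with `r = r1 / 2`: `ρ1, al` (the `a` of `paf`). `N = ⌊c' J1⌋₊`, `σ = 2^(-5 c' J1)` (`≤ 1/2`). `img` for `h = g m` on `ball u0 ρ1`: `‖h u - h u0‖ ≤ (5/4) ‖al‖ ρ1 ≤ r1`; with `ρ' = ρ1 / 2^N ≥ ρ1 2^(-c' J1)`: `‖al‖ ρ' / 2 ≥ 2^(-(κ + 2c') J1) 2^(-c' J1) / 2 ≥ σ` for large `J1`: `ball (h u0) σ ⊆ h '' ball u0 (ρ1 / 2^N)`.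
`a log (1/σ) + b + 2 = 5 a c' log 2 * J1 + b + 2 ≤ Q (c' J1 - 1) ≤ Q N` for large `J1`. `gsc`: `j, i`, `i ≤ 5 a c' log 2 J1 + b + 1 ≤ 6 a c' log 2 J1`. `ρ = ρ1 / 2^j`. For `u ∈ ball u0 ρ`: `‖T‖ ‖u‖ ^ M ≤ 2^M (1/2)^J1` (`‖u‖ ≤ 2 ‖u0‖`, `‖T‖ ‖u0‖ ^ M = ‖ww u0 - vv c‖ ≤ (1/2)^J1`), so `A ‖u‖ ^ M (L+1)^i ≤ (A 2^M / ‖T‖) 2^(-J1) 2^(J1/4) =: ω`, small for large `J1` (`6 a c' log 2 log (L+1) ≤ (log 2) / 4`).
`fam_pert` (`n = m`): `‖g (m+i) u - f^[i] (g m u)‖ ≤ ω`, `g (m + l) u ∈ thickening δ J` for `l < i`; with `paf` all `g l u ∈ thickening δ J`, `l < m + i`; `fam_diff`: `g (m+i)` is holomorphic on `ball u0 ρ`. `‖g (m+i) u‖ ≤ R + 1`. Second alternative of `gsc`: `g (m+i) u ∉ thickening (δ1/4) J` (`ω < δ1/4`), `comp` (`u` near `0` since `J1` is large: `‖u‖ ≤ 2 ‖u0‖`, `‖u0‖ ^ M ≤ (1/2)^J1 / ‖T‖`): all `u ∈ ball u0 ρ` satisfy `P`, the set is empty.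
First alternative: `‖g (m+i) u - g (m+i) u0‖ ≥ r1 / (2 L^Q) - 2 ω ≥ r1 / (4 L^Q) =: s0` for some `u ∈ ball u0 (ρ/2)` (`ρ1 / 2^(j+1) = ρ/2`), `limu` with `s0`, `R + 1`, `ϑ`. `ρ ≤ ρ1 ≤ ‖u0‖ / 2`.
-/

set_option autoImplicit false

open Filter Topology Metric Set

namespace Pool.Agent.H44.DN

theorem good1_ev {β η : ℝ} (hβ : 0 < β) (hη : 0 < η) :
    ∃ N : ℕ, ∀ J ≥ N, (2 : ℝ) ^ (-(β * (J : ℝ))) ≤ η := by
  have h1 : Tendsto (fun J : ℕ => (2 : ℝ) ^ (-(β * (J : ℝ)))) atTop (𝓝 0) := by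
    have h2 : (fun J : ℕ => (2 : ℝ) ^ (-(β * (J : ℝ)))) = fun J : ℕ => ((2 : ℝ) ^ (-β)) ^ J := by
      funext J
      rw [← Real.rpow_natCast, ← Real.rpow_mul (by norm_num)]
      congr 1
      ring
    rw [h2]
    refine tendsto_pow_atTop_nhds_zero_of_lt_one (by positivity) ?_
    exact Real.rpow_lt_one_of_one_lt_of_neg (by norm_num) (by linarith)
  have h3 := h1.eventually (eventually_le_nhds hη)
  exact eventually_atTop.1 h3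

open MeasureTheory in
theorem good1 (D : Ds) (hnull : volume D.J = 0) (X : Fam D) {c6 : ℝ} (hc6 : 0 < c6) :
    ∃ κ ε : ℝ, 0 < κ ∧ κ < 1 ∧ 0 < ε ∧ ∀ C ϑ : ℝ, 0 < ϑ → ∃ J2 : ℕ, ∀ J1 ≥ J2,
      ∀ (u0 : ℂ) (m : ℕ), X.ww u0 ∈ An D X.c J1 → Trk D (X.ww u0) J1 C κ ε c6 m →
        ∃ ρ : ℝ, 0 < ρ ∧ ρ ≤ ‖u0‖ / 2 ∧
          volume (ball u0 (3 / 4 * ρ) ∩ {u | ¬ X.P u}) ≤ ENNReal.ofReal (ϑ * ρ ^ 2) := by
  obtain ⟨a1, ha1, ha12, H1⟩ := paf D X hc6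
  obtain ⟨a, b, δ1, r1, R, ha, hb, hδ1, hδ1', hr1, hr1', hR, H2⟩ := gsc D
  have hδ := D.hδ
  have hL := D.hL
  have hlog2 : 0 < Real.log 2 := Real.log_pos (by norm_num)
  have hlogL : 0 < Real.log (D.L + 1) := Real.log_pos (by linarith)
  obtain ⟨c', hc', hca, hc10, hc24⟩ : ∃ c' : ℝ, 0 < c' ∧ c' < a1 ∧ c' ≤ 1 / 10 ∧
      24 * a * c' * Real.log (D.L + 1) ≤ 1 := by
    refine ⟨min (a1 / 2) (min (1 / 10) (1 / (24 * a * Real.log (D.L + 1)))), ?_, ?_, ?_, ?_⟩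
    · exact lt_min (by positivity) (lt_min (by norm_num) (by positivity))
    · exact lt_of_le_of_lt (min_le_left _ _) (by linarith)
    · exact (min_le_right _ _).trans (min_le_left _ _)
    · have h1 : min (a1 / 2) (min (1 / 10) (1 / (24 * a * Real.log (D.L + 1)))) ≤
          1 / (24 * a * Real.log (D.L + 1)) := (min_le_right _ _).trans (min_le_right _ _)
      rw [le_div_iff₀ (by positivity)] at h1
      linarith
  refine ⟨c', c' / 2, hc', by linarith, by positivity, ?_⟩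
  intro C ϑ hϑ
  obtain ⟨Q, hQ⟩ : ∃ Q : ℕ, Q = ⌈10 * a * Real.log 2⌉₊ + 1 := ⟨_, rfl⟩
  have hQ1 : 10 * a * Real.log 2 + 1 ≤ (Q : ℝ) := by
    rw [hQ]
    push_cast
    have := Nat.le_ceil (10 * a * Real.log 2)
    linarith
  have hLQ : 0 < D.L ^ Q := by positivity
  obtain ⟨J3, H3⟩ := H1 c' (c' / 2) c' C (r1 / 2) (by linarith) (by positivity) (by linarith) hca
    (by positivity)
  obtain ⟨ρ', hρ', H4⟩ := limu D hnull X (s0 := r1 / (4 * D.L ^ Q)) (R := R + 1) (ε := ϑ)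
    (by positivity) hϑ
  obtain ⟨εc, hεc, H5⟩ := comp D X (δ1 := δ1 / 4) (R := R + 1) (by positivity)
  have hM := X.hM
  have hA := X.hA
  have hTn : 0 < ‖X.T‖ := norm_pos_iff.2 X.hT
  obtain ⟨ηu, hηu, hηu1, hηu2⟩ : ∃ ηu : ℝ, 0 < ηu ∧ ηu ≤ εc / 4 ∧ ηu ≤ ρ' / 4 :=
    ⟨min (εc / 4) (ρ' / 4), lt_min (by positivity) (by positivity), min_le_left _ _,
      min_le_right _ _⟩
  obtain ⟨ω1, hω1, hω1a, hω1b, hω1c, hω1d⟩ : ∃ ω1 : ℝ, 0 < ω1 ∧ ω1 < D.δ / 4 ∧ ω1 ≤ δ1 / 8 ∧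
      ω1 ≤ 1 ∧ ω1 ≤ r1 / (8 * D.L ^ Q) := by
    refine ⟨min (D.δ / 8) (min (δ1 / 8) (min 1 (r1 / (8 * D.L ^ Q)))), ?_, ?_, ?_, ?_, ?_⟩
    · exact lt_min (by positivity) (lt_min (by positivity) (lt_min one_pos (by positivity)))
    · exact lt_of_le_of_lt (min_le_left _ _) (by linarith)
    · exact (min_le_right _ _).trans (min_le_left _ _)
    · exact (min_le_right _ _).trans ((min_le_right _ _).trans (min_le_left _ _))
    · exact (min_le_right _ _).trans ((min_le_right _ _).trans (min_le_right _ _))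
  obtain ⟨N1, hN1⟩ := good1_ev (β := 1) one_pos (show 0 < ‖X.T‖ * ηu ^ X.M by positivity)
  obtain ⟨N2, hN2⟩ := good1_ev (β := 3 / 4) (by norm_num)
    (show 0 < ω1 * ‖X.T‖ / (X.A * 2 ^ X.M) by positivity)
  obtain ⟨N3, hN3⟩ := exists_nat_ge ((10 * a * Real.log 2 + b + 3) / c')
  obtain ⟨N4, hN4⟩ := exists_nat_ge ((b + 1) / (a * c' * Real.log 2))
  refine ⟨J3 + N1 + N2 + N3 + N4, ?_⟩
  intro J1 hJ1 u0 m hw0 hT
  have E1 := hN1 J1 (by omega)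
  have E2 := hN2 J1 (by omega)
  clear hN1 hN2
  rw [one_mul] at E1
  have hJ0 : (0 : ℝ) ≤ J1 := Nat.cast_nonneg _
  have E3 : 10 * a * Real.log 2 + b + 3 ≤ c' * J1 := by
    have h1 : (N3 : ℝ) ≤ J1 := by exact_mod_cast (by omega : N3 ≤ J1)
    have h2 := hN3.trans h1
    rw [div_le_iff₀ hc'] at h2
    linarith
  have E4 : b + 1 ≤ a * c' * Real.log 2 * J1 := by
    have h1 : (N4 : ℝ) ≤ J1 := by exact_mod_cast (by omega : N4 ≤ J1)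
    have h2 := hN4.trans h1
    rw [div_le_iff₀ (by positivity)] at h2
    linarith
  have hcJ : 3 ≤ c' * J1 := by
    have : 0 < 10 * a * Real.log 2 := by positivity
    linarith
  -- the size
  obtain ⟨s, hs⟩ : ∃ s : ℝ, s = (2 : ℝ) ^ (-(J1 : ℝ)) := ⟨_, rfl⟩
  have hs0 : 0 < s := by rw [hs]; positivity
  have hs2 : (1 / 2 : ℝ) ^ J1 = s := by
    rw [hs, Real.rpow_neg (by norm_num), Real.rpow_natCast, one_div, inv_pow]
  have hww : ∀ u : ℂ, X.ww u = D.vv X.c + X.T * u ^ X.M := fun u => rfl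
  have hTM : ‖X.ww u0 - D.vv X.c‖ = ‖X.T‖ * ‖u0‖ ^ X.M := by
    rw [hww, add_sub_cancel_left, norm_mul, norm_pow]
  have hTM2 : ‖X.T‖ * ‖u0‖ ^ X.M ≤ s := by
    have hA' := hw0
    unfold An at hA'
    rw [mem_setOf_eq, hTM, hs2] at hA'
    exact hA'.2
  have hu0s : ‖u0‖ ≤ ηu := by
    have h1 : ‖X.T‖ * ‖u0‖ ^ X.M ≤ ‖X.T‖ * ηu ^ X.M := by
      rw [hs] at hTM2
      exact hTM2.trans E1
    have h2 : ‖u0‖ ^ X.M ≤ ηu ^ X.M := le_of_mul_le_mul_left h1 hTn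
    exact le_of_pow_le_pow_left₀ (by omega) hηu.le h2
  obtain ⟨ρ1, al, hρ1, hρ1u, hsub, hal, hgm, hgd, hder, halr, halb⟩ := H3 J1 (by omega) u0 m hw0 hT
  have hnu : 0 < ‖u0‖ := by linarith
  -- the scale
  obtain ⟨N, hN⟩ : ∃ N : ℕ, N = ⌊c' * (J1 : ℝ)⌋₊ := ⟨_, rfl⟩
  have hNle : (N : ℝ) ≤ c' * J1 := by rw [hN]; exact Nat.floor_le (by positivity)
  have hNlt : c' * J1 < N + 1 := by rw [hN]; exact Nat.lt_floor_add_one _
  obtain ⟨σ, hσ⟩ : ∃ σ : ℝ, σ = (2 : ℝ) ^ (-(5 * c' * (J1 : ℝ))) := ⟨_, rfl⟩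
  have hσ0 : 0 < σ := by rw [hσ]; positivity
  have hσ1 : σ ≤ 1 / 2 := by
    rw [hσ]
    calc (2 : ℝ) ^ (-(5 * c' * (J1 : ℝ))) ≤ (2 : ℝ) ^ (-1 : ℝ) :=
          Real.rpow_le_rpow_of_exponent_le (by norm_num) (by linarith)
      _ = 1 / 2 := by rw [Real.rpow_neg_one]; norm_num
  have hlogσ : Real.log (1 / σ) = 5 * c' * J1 * Real.log 2 := by
    rw [one_div, Real.log_inv, hσ, Real.log_rpow (by norm_num)]
    ring
  have h2N : (0 : ℝ) < 2 ^ N := by positivity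
  obtain ⟨I1, I2⟩ := img (h := X.g m) (x := u0) (a := al) (ρ := ρ1) (ρ' := ρ1 / 2 ^ N)
    (by positivity) (div_le_self hρ1.le (one_le_pow₀ (by norm_num))) hal hgd hder
  have hna : 0 < ‖al‖ := norm_pos_iff.2 hal
  have hball : ball (X.g m u0) σ ⊆ X.g m '' ball u0 (ρ1 / 2 ^ N) := by
    refine (ball_subset_ball ?_).trans I2
    have h1 : (2 : ℝ) ^ N ≤ (2 : ℝ) ^ (c' * (J1 : ℝ)) := by
      rw [← Real.rpow_natCast]
      exact Real.rpow_le_rpow_of_exponent_le (by norm_num) hNle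
    have h2 : (2 : ℝ) ^ (1 : ℝ) ≤ (2 : ℝ) ^ (c' * (J1 : ℝ)) :=
      Real.rpow_le_rpow_of_exponent_le (by norm_num) (by linarith)
    rw [Real.rpow_one] at h2
    have h3 : σ * ((2 : ℝ) ^ (c' * (J1 : ℝ)) * (2 : ℝ) ^ (c' * (J1 : ℝ))) =
        (2 : ℝ) ^ (-((c' + 2 * c') * (J1 : ℝ))) := by
      rw [hσ, ← Real.rpow_add (by norm_num), ← Real.rpow_add (by norm_num)]
      congr 1
      ring
    have h4 : ‖al‖ * (ρ1 / 2 ^ N) / 2 = ‖al‖ * ρ1 / (2 ^ N * 2) := by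
      field_simp
    rw [h4, le_div_iff₀ (by positivity)]
    calc σ * (2 ^ N * 2) ≤ σ * ((2 : ℝ) ^ (c' * (J1 : ℝ)) * (2 : ℝ) ^ (c' * (J1 : ℝ))) := by
          refine mul_le_mul_of_nonneg_left ?_ hσ0.le
          exact mul_le_mul h1 h2 (by norm_num) (by positivity)
      _ = (2 : ℝ) ^ (-((c' + 2 * c') * (J1 : ℝ))) := h3
      _ ≤ ‖al‖ * ρ1 := halb
  have hr1b : ∀ u ∈ ball u0 ρ1, X.g m u ∈ thickening D.δ D.J ∧ ‖X.g m u - X.g m u0‖ ≤ r1 := by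
    intro u hu
    refine ⟨thickening_mono (by linarith) _ (hgm m le_rfl u hu), ?_⟩
    refine (I1 u hu).trans ?_
    rw [mem_ball, dist_eq_norm] at hu
    have h1 : ‖al‖ * ‖u - u0‖ ≤ ‖al‖ * ρ1 := mul_le_mul_of_nonneg_left hu.le hna.le
    linarith
  have hQN : a * Real.log (1 / σ) + b + 2 ≤ (Q : ℝ) * (N : ℝ) := by
    rw [hlogσ]
    have h1 : (10 * a * Real.log 2 + 1) * (c' * J1 - 1) ≤ (Q : ℝ) * (N : ℝ) :=
      mul_le_mul hQ1 (by linarith) (by linarith) (by positivity)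
    have h2 : 0 ≤ 5 * a * Real.log 2 * (c' * J1) := by positivity
    linarith
  obtain ⟨j, i, hjN, hi, G1, G2⟩ := H2 Q N (X.g m) u0 ρ1 σ hρ1 hσ0 hσ1 hQN hr1b hball
  rw [hlogσ] at hi
  have hi6 : (i : ℝ) ≤ 6 * a * c' * Real.log 2 * J1 := by linarith
  -- the perturbation is small
  obtain ⟨ρ, hρ⟩ : ∃ ρ : ℝ, ρ = ρ1 / 2 ^ j := ⟨_, rfl⟩
  have hρ0 : 0 < ρ := by rw [hρ]; positivity
  have hρρ1 : ρ ≤ ρ1 := by rw [hρ]; exact div_le_self hρ1.le (one_le_pow₀ (by norm_num))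
  have hρ2 : ρ1 / 2 ^ (j + 1) = ρ / 2 := by rw [hρ, pow_succ]; field_simp
  rw [← hρ] at G1 G2
  rw [hρ2] at G2
  have hbb : ball u0 ρ ⊆ ball u0 ρ1 := ball_subset_ball hρρ1
  have hun : ∀ u ∈ ball u0 ρ1, ‖u‖ ≤ 2 * ‖u0‖ := by
    intro u hu
    rw [mem_ball, dist_eq_norm] at hu
    have h1 := norm_add_le (u - u0) u0
    rw [sub_add_cancel] at h1
    linarith
  have hω : ∀ u ∈ ball u0 ρ1, X.A * ‖u‖ ^ X.M * (D.L + 1) ^ i ≤ ω1 := by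
    intro u hu
    have h1 : ‖u‖ ^ X.M ≤ 2 ^ X.M * ‖u0‖ ^ X.M := by
      rw [← mul_pow]
      exact pow_le_pow_left₀ (norm_nonneg _) (hun u hu) _
    have h2 : (D.L + 1) ^ i ≤ (2 : ℝ) ^ (1 / 4 * (J1 : ℝ)) := by
      rw [← Real.rpow_natCast, Real.rpow_def_of_pos (by linarith : (0 : ℝ) < D.L + 1),
        Real.rpow_def_of_pos (by norm_num : (0 : ℝ) < 2)]
      apply Real.exp_le_exp.2
      have h3 : Real.log (D.L + 1) * (i : ℝ) ≤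
          Real.log (D.L + 1) * (6 * a * c' * Real.log 2 * J1) :=
        mul_le_mul_of_nonneg_left hi6 hlogL.le
      have h4 : 0 ≤ Real.log 2 * (J1 : ℝ) := by positivity
      have h5 : (24 * a * c' * Real.log (D.L + 1)) * (Real.log 2 * (J1 : ℝ)) ≤
          1 * (Real.log 2 * (J1 : ℝ)) := mul_le_mul_of_nonneg_right hc24 h4
      linarith
    have h3 : s * (2 : ℝ) ^ (1 / 4 * (J1 : ℝ)) = (2 : ℝ) ^ (-(3 / 4 * (J1 : ℝ))) := by
      rw [hs, ← Real.rpow_add (by norm_num)]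
      congr 1
      ring
    have h4 : ‖X.T‖ * (X.A * ‖u‖ ^ X.M * (D.L + 1) ^ i) ≤ ‖X.T‖ * ω1 := by
      calc ‖X.T‖ * (X.A * ‖u‖ ^ X.M * (D.L + 1) ^ i)
          ≤ ‖X.T‖ * (X.A * (2 ^ X.M * ‖u0‖ ^ X.M) * (2 : ℝ) ^ (1 / 4 * (J1 : ℝ))) := by
            refine mul_le_mul_of_nonneg_left ?_ hTn.le
            refine mul_le_mul ?_ h2 (by positivity) (by positivity)
            exact mul_le_mul_of_nonneg_left h1 (by linarith)
        _ = (X.A * 2 ^ X.M) * ((‖X.T‖ * ‖u0‖ ^ X.M) * (2 : ℝ) ^ (1 / 4 * (J1 : ℝ))) := by ring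
        _ ≤ (X.A * 2 ^ X.M) * (s * (2 : ℝ) ^ (1 / 4 * (J1 : ℝ))) := by
            refine mul_le_mul_of_nonneg_left ?_ (by positivity)
            exact mul_le_mul_of_nonneg_right hTM2 (by positivity)
        _ = (X.A * 2 ^ X.M) * (2 : ℝ) ^ (-(3 / 4 * (J1 : ℝ))) := by rw [h3]
        _ ≤ (X.A * 2 ^ X.M) * (ω1 * ‖X.T‖ / (X.A * 2 ^ X.M)) :=
            mul_le_mul_of_nonneg_left E2 (by positivity)
        _ = ‖X.T‖ * ω1 := by
            have h5 : X.A ≠ 0 := by linarith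
            field_simp
    exact le_of_mul_le_mul_left h4 hTn
  have F : ∀ u ∈ ball u0 ρ, ∀ l ≤ i,
      ‖X.g (m + l) u - D.f^[l] (X.g m u)‖ ≤ X.A * ‖u‖ ^ X.M * (D.L + 1) ^ l ∧
        (l < i → X.g (m + l) u ∈ thickening D.δ D.J) := by
    intro u hu
    refine fam_pert D X (hsub (hbb hu)) (fun l hl => ?_) (lt_of_le_of_lt (hω u (hbb hu)) hω1a)
    exact thickening_mono (by linarith) _ ((G1 u hu).1 l hl)
  have F1 : ∀ u ∈ ball u0 ρ, ‖X.g (m + i) u - D.f^[i] (X.g m u)‖ ≤ ω1 := fun u hu =>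
    (F u hu i le_rfl).1.trans (hω u (hbb hu))
  have F2 : ∀ l < m + i, ∀ u ∈ ball u0 ρ, X.g l u ∈ thickening D.δ D.J := by
    intro l hl u hu
    rcases le_or_gt l m with h | h
    · exact thickening_mono (by linarith) _ (hgm l h u (hbb hu))
    · have h1 := (F u hu (l - m) (by omega)).2 (by omega)
      rwa [show m + (l - m) = l by omega] at h1
  have F3 : DifferentiableOn ℂ (X.g (m + i)) (ball u0 ρ) :=
    fam_diff D X isOpen_ball (hbb.trans hsub) F2 (m + i) le_rfl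
  have F4 : ∀ u ∈ ball u0 ρ, ‖X.g (m + i) u‖ ≤ R + 1 := by
    intro u hu
    have h1 := F1 u hu
    have h2 := (G1 u hu).2
    have h3 := norm_add_le (X.g (m + i) u - D.f^[i] (X.g m u)) (D.f^[i] (X.g m u))
    rw [sub_add_cancel] at h3
    linarith
  have hu0b : u0 ∈ ball u0 ρ := mem_ball_self hρ0
  refine ⟨ρ, hρ0, hρρ1.trans hρ1u, ?_⟩
  rcases G2 with ⟨u, hu, hub⟩ | G3
  · refine H4 u0 ρ (m + i) (by linarith) hρ0 (by linarith) F2 F3 F4 ⟨u, hu, ?_⟩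
    have hu' : u ∈ ball u0 ρ := ball_subset_ball (by linarith) hu
    have h1 := F1 u hu'
    have h2 := F1 u0 hu0b
    have h3 : D.f^[i] (X.g m u) - D.f^[i] (X.g m u0) =
        (X.g (m + i) u - X.g (m + i) u0) - (X.g (m + i) u - D.f^[i] (X.g m u)) +
          (X.g (m + i) u0 - D.f^[i] (X.g m u0)) := by ring
    have h4 : ‖D.f^[i] (X.g m u) - D.f^[i] (X.g m u0)‖ ≤
        ‖X.g (m + i) u - X.g (m + i) u0‖ + ω1 + ω1 := by
      rw [h3]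
      refine (norm_add_le _ _).trans (add_le_add ?_ h2)
      exact (norm_sub_le _ _).trans (add_le_add le_rfl h1)
    have h5 : r1 / (2 * D.L ^ Q) = r1 / (4 * D.L ^ Q) + (r1 / (8 * D.L ^ Q) + r1 / (8 * D.L ^ Q)) := by
      field_simp
      ring
    linarith
  · have h0 : ball u0 (3 / 4 * ρ) ∩ {u | ¬ X.P u} = ∅ := by
      rw [Set.eq_empty_iff_forall_notMem]
      rintro u ⟨hu, hP⟩
      have hu' : u ∈ ball u0 ρ := ball_subset_ball (by linarith) hu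
      apply hP
      refine H5 u ?_ (m + i) (fun l hl => F2 l hl u hu') (F4 u hu') ?_
      · rw [mem_ball, dist_zero_right]
        have := hun u (hbb hu')
        linarith
      · intro hmem
        apply G3 u hu'
        have h1 := F1 u hu'
        have h2 : ‖D.f^[i] (X.g m u) - X.g (m + i) u‖ < δ1 / 4 := by
          rw [norm_sub_rev]
          linarith
        exact thickening_mono (by linarith) _ (th_add hmem h2)
    rw [h0, measure_empty]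
    exact bot_le

end Pool.Agent.H44.DN
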