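import Pool.Agent.H44.DN.ITER

/-!
# Module LONG: short passages from a critical point to another one

PROOF. Finitely many triples `(c, b, j)`; `z4` is half of the minimum of the positive ones among the numbers `‖f^[j + 1] c - b‖`, `j < I` (`1` if there is none).
-/

set_option autoImplicit false

open Filter Topology Metric Set

namespace Pool.Agent.H44.DN

private theorem long_min {α : Type*} (S : Finset α) (g : α → ℝ) (h : ∀ a ∈ S, 0 < g a) :
    ∃ z : ℝ, 0 < z ∧ ∀ a ∈ S, z < g a := by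
  rcases S.eq_empty_or_nonempty with rfl | hne
  · exact ⟨1, one_pos, fun a ha => absurd ha (Finset.notMem_empty _)⟩
  · obtain ⟨a, ha, hmin⟩ := Finset.exists_min_image S g hne
    exact ⟨g a / 2, half_pos (h a ha), fun b hb => lt_of_lt_of_le (half_lt_self (h a ha)) (hmin b hb)⟩

theorem long (D : Ds) (I : ℕ) : ∃ z4 : ℝ, 0 < z4 ∧ ∀ c ∈ D.Cr, ∀ b ∈ D.Cr, ∀ i < I,
    ‖D.f^[i + 1] c - b‖ ≤ z4 → D.f^[i + 1] c = b := by
  classical
  obtain ⟨z, hz, hz'⟩ := long_min
    ((D.Cr ×ˢ D.Cr ×ˢ Finset.range I).filter fun p => D.f^[p.2.2 + 1] p.1 ≠ p.2.1)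
    (fun p => ‖D.f^[p.2.2 + 1] p.1 - p.2.1‖) (fun p hp => by
      rw [norm_pos_iff, sub_ne_zero]
      exact (Finset.mem_filter.1 hp).2)
  refine ⟨z, hz, fun c hc b hb i hi h => ?_⟩
  by_contra hne
  have h1 := hz' (c, b, i) (Finset.mem_filter.2 ⟨Finset.mem_product.2 ⟨hc,
    Finset.mem_product.2 ⟨hb, Finset.mem_range.2 hi⟩⟩, hne⟩)
  exact absurd h (not_le.2 h1)

end Pool.Agent.H44.DN
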