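import Pool.Agent.H44.DN.FAM0
import Pool.Agent.H44.DN.DYN0

/-!
# Module INI: families: comparison with the phase at the initial time

PROOF. `M = X.M`, `T = X.T`, `s = (1/2)^J1`, `n = ⌊c5 J1⌋₊`, `v = vv c`, `dn = deriv (f^[n]) v`, `w = v + T u ^ M`, so `‖w - v‖ = ‖T‖ ‖u‖ ^ M ≤ 2 s`; `‖u‖ ≤ (2 s / ‖T‖) ^ (1/M)`. `c5` small: `c5 log (L+1) (M + 1) ≤ log 2 / (8 M)` and `≤ log 2 / 4`; so `(L+1)^(n (M+1)) ≤ 2^(J1 / (8 M))`.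
(1) `A (L+1)^n ‖u‖ < δ/2`, `‖u‖ < ρ0` for large `J1`: `fam_small`. (2) Let `ρ = min ρ0 (δ / (2 A (L+1)^n))`: on `ball 0 ρ` the function `h = g n - g n 0` is holomorphic (`fam_diff`, `fam_small`) and bounded by `δ/2`; `jet` and `jetb`: `‖g n u - g n 0 - dn Tn u ^ M‖ ≤ δ (‖u‖ / ρ)^(M+1) ≤ C (2 s / ‖T‖)^(1 + 1/M) (L+1)^(n (M+1)) ≤ C' 2^(-J1 (1 + 1/M - 1/(8M)))`. (3) `‖dn (Tn - T) u ^ M‖ ≤ ‖dn‖ A q^(-n) 2 s / ‖T‖`, `q^(-n) ≤ q * 2^(- J1 c5 log q / log 2)`.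
(4) `dyn0`: `‖f^[n] w - f^[n] v - dn (w - v)‖ ≤ C (L+1)^(2n) (2 s)^2 ≤ 4 C 2^(-J1 (2 - 1/2))` (`2 c5 log (L+1) ≤ log 2 / 2`). (5) lower bounds: `‖dn‖ ≥ q^n / C ≥ 1 / C` (`ce1`) and `‖deriv (f^[n]) w - dn‖ ≤ C (L+1)^(2n) 2 s ≤ 2 C 2^(-J1/2) ≤ ‖dn‖ / 2`: so `‖dn‖ ≤ 2 ‖deriv (f^[n]) w‖` and `1 ≤ 2 C ‖deriv (f^[n]) w‖`. `g n 0 = f^[n] v` (`fam_zero`). Sum: `≤ 2^(-(1 + a0) J1) ‖deriv (f^[n]) w‖` with `a0 = min (1 / (2 M)) (min (1/4) (c5 log q / (2 log 2)))` for large `J1`.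
-/

set_option autoImplicit false

open Filter Topology Metric Set

namespace Pool.Agent.H44.DN

private theorem ini_ev (C : ℝ) {η ε : ℝ} (hη : 0 < η) (hε : 0 < ε) :
    ∀ᶠ J : ℕ in atTop, C * (2 : ℝ) ^ (-(η * (J : ℝ))) < ε := by
  have h1 : Tendsto (fun J : ℕ => (2 : ℝ) ^ (-(η * (J : ℝ)))) atTop (𝓝 0) := by
    have h2 : Tendsto (fun J : ℕ => η * (J : ℝ)) atTop atTop :=
      tendsto_natCast_atTop_atTop.const_mul_atTop hη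
    have h3 : (fun J : ℕ => (2 : ℝ) ^ (-(η * (J : ℝ)))) =
        fun J : ℕ => Real.exp (-(Real.log 2 * (η * (J : ℝ)))) := by
      funext J
      rw [Real.rpow_def_of_pos (by norm_num : (0 : ℝ) < 2)]
      congr 1
      ring
    rw [h3]
    exact Real.tendsto_exp_neg_atTop_nhds_zero.comp
      (h2.const_mul_atTop (Real.log_pos (by norm_num)))
  have h4 : Tendsto (fun J : ℕ => C * (2 : ℝ) ^ (-(η * (J : ℝ)))) atTop (𝓝 (C * 0)) :=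
    h1.const_mul C
  rw [mul_zero] at h4
  exact h4.eventually (gt_mem_nhds hε)

theorem ini (D : Ds) (X : Fam D) : ∃ a0 c5 : ℝ, 0 < a0 ∧ 0 < c5 ∧
    c5 * Real.log (D.L + 1) ≤ Real.log 2 / 4 ∧ ∃ J2 : ℕ, ∀ J1 ≥ J2, ∀ u : ℂ,
      ‖X.T‖ * ‖u‖ ^ X.M ≤ 2 * (1 / 2) ^ J1 →
        u ∈ ball (0 : ℂ) X.ρ0 ∧
        (∀ i ≤ ⌊c5 * (J1 : ℝ)⌋₊, X.g i u ∈ thickening (D.δ / 2) D.J) ∧
        ‖X.g ⌊c5 * (J1 : ℝ)⌋₊ u - D.f^[⌊c5 * (J1 : ℝ)⌋₊] (X.ww u)‖ ≤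
          (2 : ℝ) ^ (-((1 + a0) * (J1 : ℝ))) * ‖deriv (D.f^[⌊c5 * (J1 : ℝ)⌋₊]) (X.ww u)‖ := by
  classical
  obtain ⟨Cd, hCd, hdyn⟩ := dyn0 D
  have hδ := D.hδ
  have hL := D.hL
  have hC := D.hC
  have hq := D.hq
  have hMn := X.hM
  have hA := X.hA
  have hρ0 := X.hρ0
  have hT : 0 < ‖X.T‖ := norm_pos_iff.mpr X.hT
  obtain ⟨lam, hlam⟩ : ∃ lam, lam = D.L + 1 := ⟨_, rfl⟩
  have hlam2 : 2 ≤ lam := by rw [hlam]; linarith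
  have hlam0 : 0 < lam := by linarith
  obtain ⟨M, hM⟩ : ∃ M : ℝ, M = (X.M : ℝ) := ⟨_, rfl⟩
  have hM1 : 1 ≤ M := by rw [hM]; exact_mod_cast hMn
  have hM0 : 0 < M := by linarith
  have hlog2 : 0 < Real.log 2 := Real.log_pos (by norm_num)
  have hloglam : 0 < Real.log lam := Real.log_pos (by linarith)
  have hlogq : 0 < Real.log D.q := Real.log_pos hq
  obtain ⟨c5, hc5⟩ : ∃ c5, c5 = Real.log 2 / (8 * M * (M + 1) * Real.log lam) := ⟨_, rfl⟩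
  have hc5p : 0 < c5 := by rw [hc5]; positivity
  have hc5l : c5 * Real.log lam = Real.log 2 / (8 * M * (M + 1)) := by
    rw [hc5]
    field_simp
  obtain ⟨b2, hb2⟩ : ∃ b2, b2 = c5 * Real.log D.q / Real.log 2 := ⟨_, rfl⟩
  have hb2p : 0 < b2 := by rw [hb2]; positivity
  obtain ⟨a0, ha0⟩ : ∃ a0, a0 = min (1 / (2 * M)) (min (1 / 4) (b2 / 2)) := ⟨_, rfl⟩
  have ha0p : 0 < a0 := by
    rw [ha0]
    refine lt_min (by positivity) (lt_min (by norm_num) (by positivity))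
  have ha0a : a0 ≤ 1 / (2 * M) := by rw [ha0]; exact min_le_left _ _
  have ha0b : a0 ≤ 1 / 4 := by
    rw [ha0]; exact (min_le_right _ _).trans (min_le_left _ _)
  have ha0c : a0 ≤ b2 / 2 := by
    rw [ha0]; exact (min_le_right _ _).trans (min_le_right _ _)
  have hM8 : 16 ≤ 8 * M * (M + 1) := by nlinarith
  refine ⟨a0, c5, ha0p, hc5p, ?_, ?_⟩
  · rw [← hlam, hc5l]
    apply div_le_div_of_nonneg_left hlog2.le (by norm_num)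
    linarith
  -- powers
  have h2pos : (0 : ℝ) < 2 := by norm_num
  have hlamn : ∀ J : ℕ, lam ^ ⌊c5 * (J : ℝ)⌋₊ ≤ (2 : ℝ) ^ ((J : ℝ) / (8 * M * (M + 1))) := by
    intro J
    have h1 : (⌊c5 * (J : ℝ)⌋₊ : ℝ) ≤ c5 * (J : ℝ) := Nat.floor_le (by positivity)
    rw [← Real.rpow_natCast]
    calc lam ^ ((⌊c5 * (J : ℝ)⌋₊ : ℕ) : ℝ) ≤ lam ^ (c5 * (J : ℝ)) :=
          Real.rpow_le_rpow_of_exponent_le (by linarith) h1
      _ = (2 : ℝ) ^ ((J : ℝ) / (8 * M * (M + 1))) := by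
          rw [Real.rpow_def_of_pos hlam0, Real.rpow_def_of_pos h2pos]
          congr 1
          calc Real.log lam * (c5 * (J : ℝ)) = (c5 * Real.log lam) * (J : ℝ) := by ring
            _ = Real.log 2 / (8 * M * (M + 1)) * (J : ℝ) := by rw [hc5l]
            _ = Real.log 2 * ((J : ℝ) / (8 * M * (M + 1))) := by ring
  have hqn : ∀ J : ℕ, (1 / D.q) ^ ⌊c5 * (J : ℝ)⌋₊ ≤ D.q * (2 : ℝ) ^ (-(b2 * (J : ℝ))) := by
    intro J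
    have h1 : c5 * (J : ℝ) < (⌊c5 * (J : ℝ)⌋₊ : ℝ) + 1 := Nat.lt_floor_add_one _
    have hq0 : 0 < D.q := by linarith
    have e1 : (1 / D.q) ^ ⌊c5 * (J : ℝ)⌋₊ = D.q ^ (-((⌊c5 * (J : ℝ)⌋₊ : ℕ) : ℝ)) := by
      rw [one_div, inv_pow, Real.rpow_neg hq0.le, Real.rpow_natCast]
    rw [e1]
    calc D.q ^ (-((⌊c5 * (J : ℝ)⌋₊ : ℕ) : ℝ)) ≤ D.q ^ (1 + -(c5 * (J : ℝ))) :=
          Real.rpow_le_rpow_of_exponent_le hq.le (by linarith)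
      _ = D.q * (2 : ℝ) ^ (-(b2 * (J : ℝ))) := by
          rw [Real.rpow_add hq0, Real.rpow_one, Real.rpow_def_of_pos hq0,
            Real.rpow_def_of_pos h2pos]
          congr 2
          rw [hb2]
          field_simp
  obtain ⟨K1, hK1⟩ : ∃ K1, K1 = (2 / ‖X.T‖) ^ (M⁻¹) := ⟨_, rfl⟩
  have hK1p : 0 < K1 := by rw [hK1]; positivity
  obtain ⟨cc, hcc⟩ : ∃ cc, cc = min X.ρ0 (D.δ / (2 * X.A)) := ⟨_, rfl⟩
  have hA0 : 0 < X.A := by linarith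
  have hccp : 0 < cc := by rw [hcc]; exact lt_min hρ0 (by positivity)
  have hcc1 : cc ≤ X.ρ0 := by rw [hcc]; exact min_le_left _ _
  have hcc2 : X.A * cc ≤ D.δ / 2 := by
    have h1 : cc ≤ D.δ / (2 * X.A) := by rw [hcc]; exact min_le_right _ _
    rw [le_div_iff₀ (by positivity)] at h1
    linarith
  obtain ⟨C1, hC1⟩ : ∃ C1, C1 = D.δ / cc ^ (X.M + 1) * (2 / ‖X.T‖) * K1 := ⟨_, rfl⟩
  have hC1p : 0 < C1 := by rw [hC1]; positivity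
  obtain ⟨C2, hC2⟩ : ∃ C2, C2 = X.A * D.q * (2 / ‖X.T‖) := ⟨_, rfl⟩
  have hq0 : 0 < D.q := by linarith
  have hC2p : 0 < C2 := by rw [hC2]; positivity
  have hM2 : 1 / (2 * M) < 7 / (8 * M) := by
    rw [div_lt_div_iff₀ (by positivity) (by positivity)]
    nlinarith
  have hev : ∀ᶠ J : ℕ in atTop,
      K1 * (2 : ℝ) ^ (-((1 / (2 * M)) * (J : ℝ))) < cc ∧
      2 * Cd * (2 : ℝ) ^ (-((7 / 8) * (J : ℝ))) < 1 / (2 * D.C) ∧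
      2 * D.C * C1 * (2 : ℝ) ^ (-((7 / (8 * M) - a0) * (J : ℝ))) < 1 / 3 ∧
      2 * C2 * (2 : ℝ) ^ (-((b2 - a0) * (J : ℝ))) < 1 / 3 ∧
      8 * D.C * Cd * (2 : ℝ) ^ (-((7 / 8 - a0) * (J : ℝ))) < 1 / 3 := by
    have e1 := ini_ev K1 (η := 1 / (2 * M)) (ε := cc) (by positivity) hccp
    have e2 := ini_ev (2 * Cd) (η := 7 / 8) (ε := 1 / (2 * D.C)) (by norm_num) (by positivity)
    have e3 := ini_ev (2 * D.C * C1) (η := 7 / (8 * M) - a0) (ε := 1 / 3) (by linarith)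
      (by norm_num)
    have e4 := ini_ev (2 * C2) (η := b2 - a0) (ε := 1 / 3) (by linarith) (by norm_num)
    have e5 := ini_ev (8 * D.C * Cd) (η := 7 / 8 - a0) (ε := 1 / 3) (by linarith) (by norm_num)
    filter_upwards [e1, e2, e3, e4, e5] with J h1 h2 h3 h4 h5
    exact ⟨h1, h2, h3, h4, h5⟩
  rw [eventually_atTop] at hev
  obtain ⟨J2, hJ2⟩ := hev
  refine ⟨J2, ?_⟩
  intro J1 hJ1 u hu
  obtain ⟨E1, E2, E3, E4, E5⟩ := hJ2 J1 hJ1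
  have hJ0 : (0 : ℝ) ≤ (J1 : ℝ) := Nat.cast_nonneg _
  have hhalf : ((1 : ℝ) / 2) ^ J1 = (2 : ℝ) ^ (-(J1 : ℝ)) := by
    rw [one_div, inv_pow, Real.rpow_neg h2pos.le, Real.rpow_natCast]
  rw [hhalf] at hu
  have hln := hlamn J1
  have hqn1 := hqn J1
  obtain ⟨n, hn⟩ : ∃ n, n = ⌊c5 * (J1 : ℝ)⌋₊ := ⟨_, rfl⟩
  rw [← hn] at hln hqn1 ⊢
  have hlamn1 : 1 ≤ lam ^ n := one_le_pow₀ (by linarith)
  -- size of u
  have huM : ‖u‖ ^ X.M ≤ 2 / ‖X.T‖ * (2 : ℝ) ^ (-(J1 : ℝ)) := by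
    rw [div_mul_eq_mul_div, le_div_iff₀ hT]
    linarith
  have hu1 : ‖u‖ ≤ K1 * (2 : ℝ) ^ (-((J1 : ℝ) / M)) := by
    have h1 : ‖u‖ = (‖u‖ ^ X.M) ^ (M⁻¹) := by
      rw [hM]
      exact (Real.pow_rpow_inv_natCast (norm_nonneg u) (by omega)).symm
    rw [h1]
    calc (‖u‖ ^ X.M) ^ (M⁻¹) ≤ (2 / ‖X.T‖ * (2 : ℝ) ^ (-(J1 : ℝ))) ^ (M⁻¹) :=
          Real.rpow_le_rpow (by positivity) huM (by positivity)
      _ = K1 * (2 : ℝ) ^ (-((J1 : ℝ) / M)) := by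
          rw [Real.mul_rpow (by positivity) (by positivity), ← Real.rpow_mul h2pos.le, hK1]
          congr 2
          rw [div_eq_mul_inv]
          ring
  have hexp1 : (2 : ℝ) ^ ((J1 : ℝ) / (8 * M * (M + 1))) * (2 : ℝ) ^ (-((J1 : ℝ) / M)) ≤
      (2 : ℝ) ^ (-((1 / (2 * M)) * (J1 : ℝ))) := by
    rw [← Real.rpow_add h2pos]
    apply Real.rpow_le_rpow_of_exponent_le (by norm_num)
    have h1 : (J1 : ℝ) / (8 * M * (M + 1)) ≤ (J1 : ℝ) / (2 * M) := by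
      apply div_le_div_of_nonneg_left hJ0 (by positivity)
      nlinarith
    have h2 : (J1 : ℝ) / M = 2 * ((J1 : ℝ) / (2 * M)) := by
      field_simp
    have h3 : (1 / (2 * M)) * (J1 : ℝ) = (J1 : ℝ) / (2 * M) := by ring
    rw [h2, h3]
    linarith
  have hlu : lam ^ n * ‖u‖ < cc := by
    refine lt_of_le_of_lt ?_ E1
    calc lam ^ n * ‖u‖ ≤ (2 : ℝ) ^ ((J1 : ℝ) / (8 * M * (M + 1))) *
          (K1 * (2 : ℝ) ^ (-((J1 : ℝ) / M))) :=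
          mul_le_mul hln hu1 (norm_nonneg _) (by positivity)
      _ = K1 * ((2 : ℝ) ^ ((J1 : ℝ) / (8 * M * (M + 1))) * (2 : ℝ) ^ (-((J1 : ℝ) / M))) := by ring
      _ ≤ K1 * (2 : ℝ) ^ (-((1 / (2 * M)) * (J1 : ℝ))) :=
          mul_le_mul_of_nonneg_left hexp1 hK1p.le
  -- smallness
  have hsm : ∀ t : ℂ, lam ^ n * ‖t‖ < cc → t ∈ ball (0 : ℂ) X.ρ0 ∧
      X.A * (D.L + 1) ^ n * ‖t‖ < D.δ / 2 := by
    intro t ht
    have h0 := norm_nonneg t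
    constructor
    · rw [mem_ball_zero_iff]
      nlinarith
    · rw [← hlam]
      calc X.A * lam ^ n * ‖t‖ = X.A * (lam ^ n * ‖t‖) := by ring
        _ < X.A * cc := mul_lt_mul_of_pos_left ht hA0
        _ ≤ D.δ / 2 := hcc2
  have hub := hsm u hlu
  have hfs := fam_small D X hub.1 hub.2
  refine ⟨hub.1, fun i hi => (hfs i hi).1, ?_⟩
  -- jets
  have hρ : 0 < cc / lam ^ n := by positivity
  have hmemρ : ∀ t ∈ ball (0 : ℂ) (cc / lam ^ n), lam ^ n * ‖t‖ < cc := by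
    intro t ht
    rw [mem_ball_zero_iff, lt_div_iff₀ (by positivity)] at ht
    linarith
  have hdiff : DifferentiableOn ℂ (X.g n) (ball 0 (cc / lam ^ n)) := by
    refine fam_diff D X (n := n) isOpen_ball (fun t ht => (hsm t (hmemρ t ht)).1) ?_ n le_rfl
    intro i hi t ht
    have h1 := hsm t (hmemρ t ht)
    have h2 := (fam_small D X h1.1 h1.2 i hi.le).1
    exact thickening_mono (by linarith) _ h2
  have hg0 := fam_zero D X n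
  obtain ⟨dn, hdn⟩ : ∃ dn, dn = deriv (D.f^[n]) (D.vv X.c) := ⟨_, rfl⟩
  have hjet := X.jet n
  rw [← hdn] at hjet
  have hjb := jetb (h := fun t => X.g n t - X.g n 0) (a := dn * X.Tn n) (M := X.M)
    (ρ := cc / lam ^ n) (B := D.δ / 2) hρ (hdiff.sub_const _) (by
      intro t ht
      have h1 := hsm t (hmemρ t ht)
      have h2 := (fam_small D X h1.1 h1.2 n le_rfl).2
      beta_reduce
      rw [hg0]
      exact h2.trans h1.2.le) hjet u (by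
      rw [mem_ball_zero_iff, lt_div_iff₀ (by positivity)]
      linarith)
  beta_reduce at hjb
  -- first term
  have ht1 : 2 * (D.δ / 2) * (‖u‖ / (cc / lam ^ n)) ^ (X.M + 1) ≤
      C1 * (2 : ℝ) ^ (-((1 + 7 / (8 * M)) * (J1 : ℝ))) := by
    have e1 : 2 * (D.δ / 2) * (‖u‖ / (cc / lam ^ n)) ^ (X.M + 1) =
        D.δ / cc ^ (X.M + 1) * (‖u‖ ^ X.M * ‖u‖ * (lam ^ n) ^ (X.M + 1)) := by
      rw [div_div_eq_mul_div, div_pow, mul_pow, pow_succ ‖u‖]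
      ring
    have e2 : (lam ^ n) ^ (X.M + 1) ≤ (2 : ℝ) ^ ((J1 : ℝ) / (8 * M)) := by
      calc (lam ^ n) ^ (X.M + 1) ≤ ((2 : ℝ) ^ ((J1 : ℝ) / (8 * M * (M + 1)))) ^ (X.M + 1) :=
            pow_le_pow_left₀ (by positivity) hln _
        _ = (2 : ℝ) ^ ((J1 : ℝ) / (8 * M)) := by
            rw [← Real.rpow_natCast, ← Real.rpow_mul h2pos.le]
            congr 1
            push_cast
            rw [← hM]
            field_simp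
    rw [e1]
    calc D.δ / cc ^ (X.M + 1) * (‖u‖ ^ X.M * ‖u‖ * (lam ^ n) ^ (X.M + 1))
        ≤ D.δ / cc ^ (X.M + 1) * ((2 / ‖X.T‖ * (2 : ℝ) ^ (-(J1 : ℝ))) *
          (K1 * (2 : ℝ) ^ (-((J1 : ℝ) / M))) * (2 : ℝ) ^ ((J1 : ℝ) / (8 * M))) := by
          refine mul_le_mul_of_nonneg_left ?_ (by positivity)
          refine mul_le_mul (mul_le_mul huM hu1 (norm_nonneg _) (by positivity)) e2
            (by positivity) (by positivity)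
      _ = C1 * ((2 : ℝ) ^ (-(J1 : ℝ)) * (2 : ℝ) ^ (-((J1 : ℝ) / M)) *
          (2 : ℝ) ^ ((J1 : ℝ) / (8 * M))) := by
          rw [hC1]
          ring
      _ = C1 * (2 : ℝ) ^ (-((1 + 7 / (8 * M)) * (J1 : ℝ))) := by
          rw [← Real.rpow_add h2pos, ← Real.rpow_add h2pos]
          congr 2
          field_simp
          ring
  -- second term
  have hTn := X.hTn n
  have ht2 : ‖dn * (X.Tn n - X.T) * u ^ X.M‖ ≤
      ‖dn‖ * (C2 * (2 : ℝ) ^ (-((1 + b2) * (J1 : ℝ)))) := by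
    rw [norm_mul, norm_mul, norm_pow, mul_assoc]
    refine mul_le_mul_of_nonneg_left ?_ (norm_nonneg _)
    calc ‖X.Tn n - X.T‖ * ‖u‖ ^ X.M ≤ (X.A * (D.q * (2 : ℝ) ^ (-(b2 * (J1 : ℝ))))) *
          (2 / ‖X.T‖ * (2 : ℝ) ^ (-(J1 : ℝ))) := by
          refine mul_le_mul (hTn.trans ?_) huM (by positivity) (by positivity)
          exact mul_le_mul_of_nonneg_left hqn1 hA0.le
      _ = C2 * ((2 : ℝ) ^ (-(b2 * (J1 : ℝ))) * (2 : ℝ) ^ (-(J1 : ℝ))) := by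
          rw [hC2]
          ring
      _ = C2 * (2 : ℝ) ^ (-((1 + b2) * (J1 : ℝ))) := by
          rw [← Real.rpow_add h2pos]
          congr 2
          ring
  -- third term
  have hwv : X.ww u - D.vv X.c = X.T * u ^ X.M := by
    unfold Fam.ww
    ring
  have hwvn : ‖X.ww u - D.vv X.c‖ ≤ 2 * (2 : ℝ) ^ (-(J1 : ℝ)) := by
    rw [hwv, norm_mul, norm_pow]
    exact hu
  have hl2 : (D.L + 1) ^ (2 * n) ≤ (2 : ℝ) ^ ((1 / 8) * (J1 : ℝ)) := by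
    rw [← hlam, mul_comm 2 n, pow_mul]
    calc (lam ^ n) ^ 2 ≤ ((2 : ℝ) ^ ((J1 : ℝ) / (8 * M * (M + 1)))) ^ 2 :=
          pow_le_pow_left₀ (by positivity) hln _
      _ = (2 : ℝ) ^ ((J1 : ℝ) / (8 * M * (M + 1)) * 2) := by
          rw [Real.rpow_mul h2pos.le]
          norm_num
      _ ≤ (2 : ℝ) ^ ((1 / 8) * (J1 : ℝ)) := by
          apply Real.rpow_le_rpow_of_exponent_le (by norm_num)
          have h1 : (J1 : ℝ) / (8 * M * (M + 1)) ≤ (J1 : ℝ) / 16 :=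
            div_le_div_of_nonneg_left hJ0 (by norm_num) hM8
          linarith
  have hl3 : Cd * (D.L + 1) ^ (2 * n) * ‖X.ww u - D.vv X.c‖ ≤
      2 * Cd * (2 : ℝ) ^ (-((7 / 8) * (J1 : ℝ))) := by
    calc Cd * (D.L + 1) ^ (2 * n) * ‖X.ww u - D.vv X.c‖
        ≤ Cd * (2 : ℝ) ^ ((1 / 8) * (J1 : ℝ)) * (2 * (2 : ℝ) ^ (-(J1 : ℝ))) := by
          refine mul_le_mul (mul_le_mul_of_nonneg_left hl2 (by linarith)) hwvn
            (norm_nonneg _) (by positivity)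
      _ = 2 * Cd * ((2 : ℝ) ^ ((1 / 8) * (J1 : ℝ)) * (2 : ℝ) ^ (-(J1 : ℝ))) := by ring
      _ = 2 * Cd * (2 : ℝ) ^ (-((7 / 8) * (J1 : ℝ))) := by
          rw [← Real.rpow_add h2pos]
          congr 2
          ring
  have hDC : 1 / (2 * D.C) ≤ 1 := by
    rw [div_le_one (by positivity)]
    linarith
  obtain ⟨-, hd1, hd2⟩ := hdyn X.c X.hc n (X.ww u) (by linarith)
  rw [← hdn] at hd1 hd2
  have ht3 : ‖D.f^[n] (X.ww u) - D.f^[n] (D.vv X.c) - dn * (X.ww u - D.vv X.c)‖ ≤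
      4 * Cd * (2 : ℝ) ^ (-((1 + 7 / 8) * (J1 : ℝ))) := by
    refine hd1.trans ?_
    calc Cd * (D.L + 1) ^ (2 * n) * ‖X.ww u - D.vv X.c‖ ^ 2
        = Cd * (D.L + 1) ^ (2 * n) * ‖X.ww u - D.vv X.c‖ * ‖X.ww u - D.vv X.c‖ := by ring
      _ ≤ 2 * Cd * (2 : ℝ) ^ (-((7 / 8) * (J1 : ℝ))) * (2 * (2 : ℝ) ^ (-(J1 : ℝ))) :=
          mul_le_mul hl3 hwvn (norm_nonneg _) (by positivity)
      _ = 4 * Cd * ((2 : ℝ) ^ (-((7 / 8) * (J1 : ℝ))) * (2 : ℝ) ^ (-(J1 : ℝ))) := by ring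
      _ = 4 * Cd * (2 : ℝ) ^ (-((1 + 7 / 8) * (J1 : ℝ))) := by
          rw [← Real.rpow_add h2pos]
          congr 2
          ring
  -- lower bounds
  have hce := D.ce1 X.c X.hc n
  have hdn1 : 1 ≤ D.C * ‖dn‖ := by
    have h1 : (1 : ℝ) ≤ D.q ^ n := one_le_pow₀ hq.le
    rw [hdn]
    exact h1.trans hce
  have hdn2 : 1 / (2 * D.C) ≤ ‖dn‖ / 2 := by
    rw [div_le_iff₀ (by positivity)]
    nlinarith
  obtain ⟨Dw, hDw⟩ : ∃ Dw, Dw = deriv (D.f^[n]) (X.ww u) := ⟨_, rfl⟩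
  rw [← hDw] at hd2 ⊢
  have hDw1 : ‖dn‖ ≤ 2 * ‖Dw‖ := by
    have h1 : ‖dn‖ ≤ ‖Dw‖ + ‖Dw - dn‖ := by
      have := norm_sub_norm_le dn (dn - Dw)
      have h2 : dn - (dn - Dw) = Dw := by ring
      rw [h2, norm_sub_rev dn Dw] at this
      linarith
    linarith
  have hDw2 : 1 ≤ 2 * D.C * ‖Dw‖ := by
    have : D.C * ‖dn‖ ≤ D.C * (2 * ‖Dw‖) := mul_le_mul_of_nonneg_left hDw1 (by linarith)
    linarith
  -- the sum
  have hsplit : X.g n u - D.f^[n] (X.ww u) =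
      (X.g n u - X.g n 0 - dn * X.Tn n * u ^ X.M) + dn * (X.Tn n - X.T) * u ^ X.M -
        (D.f^[n] (X.ww u) - D.f^[n] (D.vv X.c) - dn * (X.ww u - D.vv X.c)) := by
    rw [hwv, hg0]
    ring
  have hnorm : ‖X.g n u - D.f^[n] (X.ww u)‖ ≤
      C1 * (2 : ℝ) ^ (-((1 + 7 / (8 * M)) * (J1 : ℝ))) +
      ‖dn‖ * (C2 * (2 : ℝ) ^ (-((1 + b2) * (J1 : ℝ)))) +
      4 * Cd * (2 : ℝ) ^ (-((1 + 7 / 8) * (J1 : ℝ))) := by
    rw [hsplit]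
    refine (norm_sub_le _ _).trans (add_le_add ((norm_add_le _ _).trans (add_le_add ?_ ht2)) ht3)
    exact hjb.trans ht1
  have hpw : ∀ b : ℝ, (2 : ℝ) ^ (-((1 + b) * (J1 : ℝ))) =
      (2 : ℝ) ^ (-((1 + a0) * (J1 : ℝ))) * (2 : ℝ) ^ (-((b - a0) * (J1 : ℝ))) := by
    intro b
    rw [← Real.rpow_add h2pos]
    congr 1
    ring
  refine hnorm.trans ?_
  rw [hpw (7 / (8 * M)), hpw b2, hpw (7 / 8)]
  obtain ⟨P, hP⟩ : ∃ P, P = (2 : ℝ) ^ (-((1 + a0) * (J1 : ℝ))) := ⟨_, rfl⟩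
  have hPp : 0 < P := by rw [hP]; positivity
  rw [← hP]
  have hDwn : 0 ≤ ‖Dw‖ := norm_nonneg _
  have i1 : C1 * (P * (2 : ℝ) ^ (-((7 / (8 * M) - a0) * (J1 : ℝ)))) ≤ P * ‖Dw‖ * (1 / 3) := by
    calc C1 * (P * (2 : ℝ) ^ (-((7 / (8 * M) - a0) * (J1 : ℝ))))
        ≤ C1 * (P * (2 : ℝ) ^ (-((7 / (8 * M) - a0) * (J1 : ℝ)))) * (2 * D.C * ‖Dw‖) :=
          le_mul_of_one_le_right (by positivity) hDw2
      _ = P * ‖Dw‖ * (2 * D.C * C1 * (2 : ℝ) ^ (-((7 / (8 * M) - a0) * (J1 : ℝ)))) := by ring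
      _ ≤ P * ‖Dw‖ * (1 / 3) := mul_le_mul_of_nonneg_left E3.le (by positivity)
  have i2 : ‖dn‖ * (C2 * (P * (2 : ℝ) ^ (-((b2 - a0) * (J1 : ℝ))))) ≤ P * ‖Dw‖ * (1 / 3) := by
    calc ‖dn‖ * (C2 * (P * (2 : ℝ) ^ (-((b2 - a0) * (J1 : ℝ)))))
        ≤ (2 * ‖Dw‖) * (C2 * (P * (2 : ℝ) ^ (-((b2 - a0) * (J1 : ℝ))))) :=
          mul_le_mul_of_nonneg_right hDw1 (by positivity)
      _ = P * ‖Dw‖ * (2 * C2 * (2 : ℝ) ^ (-((b2 - a0) * (J1 : ℝ)))) := by ring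
      _ ≤ P * ‖Dw‖ * (1 / 3) := mul_le_mul_of_nonneg_left E4.le (by positivity)
  have i3 : 4 * Cd * (P * (2 : ℝ) ^ (-((7 / 8 - a0) * (J1 : ℝ)))) ≤ P * ‖Dw‖ * (1 / 3) := by
    calc 4 * Cd * (P * (2 : ℝ) ^ (-((7 / 8 - a0) * (J1 : ℝ))))
        ≤ 4 * Cd * (P * (2 : ℝ) ^ (-((7 / 8 - a0) * (J1 : ℝ)))) * (2 * D.C * ‖Dw‖) :=
          le_mul_of_one_le_right (by positivity) hDw2
      _ = P * ‖Dw‖ * (8 * D.C * Cd * (2 : ℝ) ^ (-((7 / 8 - a0) * (J1 : ℝ)))) := by ring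
      _ ≤ P * ‖Dw‖ * (1 / 3) := mul_le_mul_of_nonneg_left E5.le (by positivity)
  linarith

end Pool.Agent.H44.DN
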