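import Pool.Agent.H44.DN.MDefs

/-!
# Module LOC0: factorisation of a holomorphic function near its zeros

PROOF. `d = analyticOrderNatAt f' c` for the zeros `c` of `f'` (the order is finite: otherwise `f' = 0` near `c`, but the zeros of `f'` in the open set `N` are the finitely many points of `S`). Induction on the finite set `S` (removing one factor): for `c ∈ S`: `f' z = (z - c) ^ d * h z` near `c` with `h` analytic, `h c ≠ 0` (`AnalyticAt.analyticOrderAt_eq_natCast` or `exists_eventuallyEq_pow_smul_nonzero_iff`); define `h z = f' z / (z - c) ^ d` for `z ≠ c`,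
extended over `c` (`Function.update`, or `dslope` iterated). The quotient is differentiable on `N`, with zeros exactly `S \ {c}` in `N`. The statement is for `F = f'` directly.
-/

set_option autoImplicit false

open Filter Topology Metric Set

namespace Pool.Agent.H44.DN

/-- a function with finitely many zeros `S` on `N` is a product of powers and a function without zeros -/
theorem loc0 {F : ℂ → ℂ} {N : Set ℂ} (hN : IsOpen N) (hF : DifferentiableOn ℂ F N) (S : Finset ℂ)
    (hS : ∀ c ∈ S, c ∈ N) (hz : ∀ z ∈ N, (F z = 0 ↔ z ∈ S)) :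
    ∃ (k : ℂ → ℕ) (h : ℂ → ℂ), (∀ c ∈ S, 1 ≤ k c) ∧ DifferentiableOn ℂ h N ∧ (∀ z ∈ N, h z ≠ 0) ∧
      ∀ z ∈ N, F z = (∏ c ∈ S, (z - c) ^ k c) * h z := by
  classical
  induction S using Finset.induction_on generalizing F with
  | empty =>
    refine ⟨fun _ => 0, F, fun c hc => absurd hc (Finset.notMem_empty c), hF, fun z hzN h0 => ?_,
      fun z _ => by simp⟩
    exact Finset.notMem_empty z ((hz z hzN).mp h0)
  | insert c S hcS ih =>
    have hcN : c ∈ N := hS c (Finset.mem_insert_self c S)
    have hNc : N ∈ 𝓝 c := hN.mem_nhds hcN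
    have hFa : AnalyticAt ℂ F c := hF.analyticAt hNc
    have hF0 : F c = 0 := (hz c hcN).mpr (Finset.mem_insert_self c S)
    have hne : ¬ ∀ᶠ z in 𝓝 c, F z = 0 := by
      intro hev
      have h1 : ((insert c S : Finset ℂ) : Set ℂ) ∈ 𝓝 c := by
        filter_upwards [hev, hNc] with z h2 h3
        exact (hz z h3).mp h2
      exact (infinite_of_mem_nhds c h1) (Finset.finite_toSet _)
    obtain ⟨n, g, hga, hg0, hgev⟩ := hFa.exists_eventuallyEq_pow_smul_nonzero_iff.mpr hne
    have hn : 1 ≤ n := by
      rcases Nat.eq_zero_or_pos n with h0 | h0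
      · exfalso
        have h1 := hgev.self_of_nhds
        rw [h0, pow_zero, one_smul, hF0] at h1
        exact hg0 h1.symm
      · exact h0
    -- the quotient
    set F' : ℂ → ℂ := fun z => if z = c then g c else F z / (z - c) ^ n with hF'
    have hF'c : F' c = g c := by simp [hF']
    have hF'n : ∀ z, z ≠ c → F' z = F z / (z - c) ^ n := fun z hzc => by simp [hF', hzc]
    have hF'ev : ∀ᶠ z in 𝓝 c, F' z = g z := by
      filter_upwards [hgev] with z h2
      by_cases hzc : z = c
      · rw [hzc, hF'c]
      · rw [hF'n z hzc, h2, smul_eq_mul, mul_comm, mul_div_assoc, div_self, mul_one]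
        exact pow_ne_zero _ (sub_ne_zero.mpr hzc)
    have hF'd : DifferentiableOn ℂ F' N := by
      intro z hzN
      by_cases hzc : z = c
      · rw [hzc]
        exact ((hga.differentiableAt).congr_of_eventuallyEq hF'ev).differentiableWithinAt
      · have h1 : DifferentiableAt ℂ F z := (hF z hzN).differentiableAt (hN.mem_nhds hzN)
        have h2 : DifferentiableAt ℂ (fun z => F z / (z - c) ^ n) z :=
          h1.div ((differentiableAt_id.sub_const c).pow n) (pow_ne_zero _ (sub_ne_zero.mpr hzc))
        refine (h2.congr_of_eventuallyEq ?_).differentiableWithinAt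
        filter_upwards [isOpen_ne.mem_nhds hzc] with w hw
        exact hF'n w hw
    have hF'z : ∀ z ∈ N, (F' z = 0 ↔ z ∈ S) := by
      intro z hzN
      by_cases hzc : z = c
      · rw [hzc, hF'c]
        exact ⟨fun h => absurd h hg0, fun h => absurd h hcS⟩
      · rw [hF'n z hzc, div_eq_zero_iff]
        have h1 : (z - c) ^ n ≠ 0 := pow_ne_zero _ (sub_ne_zero.mpr hzc)
        have h2 := hz z hzN
        rw [Finset.mem_insert] at h2
        constructor
        · rintro (h3 | h3)
          · exact (h2.mp h3).resolve_left hzc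
          · exact absurd h3 h1
        · intro h3
          exact Or.inl (h2.mpr (Or.inr h3))
    obtain ⟨k, h, hk, hhd, hh0, hfac⟩ := ih hF'd
      (fun c' hc' => hS c' (Finset.mem_insert_of_mem hc')) hF'z
    refine ⟨Function.update k c n, h, ?_, hhd, hh0, fun z hzN => ?_⟩
    · intro c' hc'
      rcases Finset.mem_insert.mp hc' with h1 | h1
      · rw [h1, Function.update_self]
        exact hn
      · rw [Function.update_of_ne (show c' ≠ c from fun h2 => hcS (h2 ▸ h1))]
        exact hk c' h1
    · rw [Finset.prod_insert hcS, Function.update_self]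
      have h1 : ∏ c' ∈ S, (z - c') ^ Function.update k c n c' = ∏ c' ∈ S, (z - c') ^ k c' := by
        refine Finset.prod_congr rfl fun c' hc' => ?_
        rw [Function.update_of_ne (show c' ≠ c from fun h2 => hcS (h2 ▸ hc'))]
      rw [h1, mul_assoc, ← hfac z hzN]
      by_cases hzc : z = c
      · rw [hzc, hF0, sub_self, zero_pow (by omega), zero_mul]
      · rw [hF'n z hzc, mul_div_cancel₀]
        exact pow_ne_zero _ (sub_ne_zero.mpr hzc)

end Pool.Agent.H44.DN
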