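import Pool.Agent.H44.DN.UNB

/-!
# Module MACRO: points far from the critical points: growth in the metric

PROOF. Let `X = {x ∈ J | z1 ≤ zt x}`, compact. For `x ∈ X` there is `k ≥ 1` such that `f^[j] x ∈ J` for all `j`, `deriv (f^[k]) x ≠ 0` and `2 ph (f^[k] x) < ‖deriv (f^[k]) x‖ ph x`: if the orbit of `x` meets `Cr` take the first such time `k` (`k ≥ 1` since `zt x > 0`; `it_ne`; `ph_zero`, `ph_pos`), otherwise `unb` with `Q = 2` (`Aw x 0 = 1`, so `k ≥ 1`).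
Both sides are continuous at `x` (`ph_cont`; `f^[k]` is holomorphic near `x`, `it_diff`, `it_ev`), so there is an open `V ∋ x` such that for all `y ∈ V`: `(3/2) ph (f^[k] y) ≤ ‖deriv (f^[k]) y‖ ph y`, `‖deriv (f^[k]) y‖ ≥ ‖deriv (f^[k]) x‖ / 2`, `f^[j] y ∈ thickening (δ/4) J` for `j ≤ k`. Finitely many `V` cover `X`; let `W` be their union, `N`, `κ` the maximum and minimum of the finitely many values.
`δ1`: otherwise there are `x_j` with `infDist x_j J → 0`, `z1 ≤ zt x_j`, `x_j ∉ W`; a limit point is in `X \ W` (`W` open): contradiction. (If `X` is empty: the same argument with `W = ∅`, `N = 1`, `κ = 1`.)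
-/

set_option autoImplicit false

open Filter Topology Metric Set

namespace Pool.Agent.H44.DN

/-- one point -/
private theorem far_pt (D : Ds) {x : ℂ} (hx : x ∈ D.J) (hxc : x ∉ D.Cr) : ∃ k : ℕ, 1 ≤ k ∧
    2 * D.ph (D.f^[k] x) < ‖deriv (D.f^[k]) x‖ * D.ph x ∧ deriv (D.f^[k]) x ≠ 0 := by
  classical
  by_cases h : ∃ k, D.f^[k] x ∈ D.Cr
  · have hk := Nat.find_spec h
    have hlt : ∀ i < Nat.find h, D.f^[i] x ∉ D.Cr := fun i hi => Nat.find_min h hi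
    have hne : deriv (D.f^[Nat.find h]) x ≠ 0 :=
      it_ne D fun i hi => ⟨J_th D (it_J D hx i) D.hδ, hlt i hi⟩
    refine ⟨Nat.find h, ?_, ?_, hne⟩
    · rw [Nat.one_le_iff_ne_zero]
      intro h0
      rw [h0] at hk
      exact hxc hk
    · rw [ph_zero D hk, mul_zero]
      exact mul_pos (norm_pos_iff.mpr hne) (ph_pos D hxc)
  · push Not at h
    obtain ⟨k, hk⟩ := unb D (⟨hx, h⟩ : NC D x) 2
    have hp : 0 < D.ph (D.f^[k] x) := ph_pos D (h k)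
    have hne : deriv (D.f^[k]) x ≠ 0 :=
      it_ne D fun i hi => ⟨J_th D (it_J D hx i) D.hδ, h i⟩
    refine ⟨k, ?_, ?_, hne⟩
    · rw [Nat.one_le_iff_ne_zero]
      rintro rfl
      unfold Ds.Aw at hk
      have h1 : D.f^[0] = id := rfl
      rw [h1, deriv_id, norm_one, one_mul] at hk
      have h2 : D.ph x / D.ph (id x) = 1 := div_self (ph_pos D hxc).ne'
      rw [h2] at hk
      linarith
    · unfold Ds.Aw at hk
      rwa [lt_div_iff₀ hp] at hk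

/-- the property of a point -/
private def FarP (D : Ds) (N : ℕ) (κ : ℝ) (x : ℂ) : Prop := ∃ k : ℕ, 1 ≤ k ∧ k ≤ N ∧
  3 / 2 * D.ph (D.f^[k] x) ≤ ‖deriv (D.f^[k]) x‖ * D.ph x ∧ κ ≤ ‖deriv (D.f^[k]) x‖ ∧
    ∀ j ≤ k, D.f^[j] x ∈ thickening (D.δ / 4) D.J

private theorem far_nhd (D : Ds) {x : ℂ} (hx : x ∈ D.J) (hxc : x ∉ D.Cr) : ∃ (N : ℕ) (κ : ℝ),
    1 ≤ N ∧ 0 < κ ∧ ∀ᶠ y in 𝓝 x, FarP D N κ y := by
  obtain ⟨k, hk1, hk2, hk3⟩ := far_pt D hx hxc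
  have hJG : ∀ i, D.f^[i] x ∈ D.G := fun i => D.hU (J_th D (it_J D hx i) D.hδ)
  refine ⟨k, ‖deriv (D.f^[k]) x‖ / 2, hk1, by positivity, ?_⟩
  have hev := it_ev D (z := x) (n := k) fun i _ => hJG i
  have han : AnalyticAt ℂ (D.f^[k]) x := by
    rw [Complex.analyticAt_iff_eventually_differentiableAt]
    filter_upwards [hev] with w hw
    exact it_diff D hw
  have hcd : ContinuousAt (fun y => ‖deriv (D.f^[k]) y‖) x := han.deriv.continuousAt.norm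
  have hck : ContinuousAt (D.f^[k]) x := han.continuousAt
  have hph : ContinuousAt D.ph x := (ph_cont D).continuousAt
  have hphk : ContinuousAt (fun y => D.ph (D.f^[k] y)) x :=
    ContinuousAt.comp (g := D.ph) (ph_cont D).continuousAt hck
  have e1 : ∀ᶠ y in 𝓝 x, 0 < ‖deriv (D.f^[k]) y‖ * D.ph y - 3 / 2 * D.ph (D.f^[k] y) := by
    have hc : ContinuousAt (fun y => ‖deriv (D.f^[k]) y‖ * D.ph y - 3 / 2 * D.ph (D.f^[k] y)) x :=
      (hcd.mul hph).sub (continuousAt_const.mul hphk)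
    refine hc.eventually (lt_mem_nhds ?_)
    have := ph_nonneg D (D.f^[k] x)
    linarith
  have e2 : ∀ᶠ y in 𝓝 x, ‖deriv (D.f^[k]) x‖ / 2 < ‖deriv (D.f^[k]) y‖ := by
    refine hcd.eventually (lt_mem_nhds ?_)
    have : 0 < ‖deriv (D.f^[k]) x‖ := norm_pos_iff.mpr hk3
    linarith
  have e3 : ∀ᶠ y in 𝓝 x, ∀ j ∈ Finset.range (k + 1), D.f^[j] y ∈ thickening (D.δ / 4) D.J := by
    rw [Filter.eventually_all_finset]
    intro j _
    have hcj : ContinuousAt (D.f^[j]) x := (it_diff D fun i _ => hJG i).continuousAt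
    refine hcj.eventually_mem (isOpen_thickening.mem_nhds ?_)
    exact J_th D (it_J D hx j) (by linarith [D.hδ])
  filter_upwards [e1, e2, e3] with y h1 h2 h3
  exact ⟨k, hk1, le_rfl, by linarith, h2.le, fun j hj => h3 j (Finset.mem_range.mpr (by omega))⟩

theorem far (D : Ds) {z1 : ℝ} (hz : 0 < z1) : ∃ (N : ℕ) (κ δ1 : ℝ), 1 ≤ N ∧ 0 < κ ∧ 0 < δ1 ∧
    δ1 ≤ D.δ / 4 ∧ ∀ x ∈ thickening δ1 D.J, z1 ≤ D.zt x → ∃ k : ℕ, 1 ≤ k ∧ k ≤ N ∧
      3 / 2 * D.ph (D.f^[k] x) ≤ ‖deriv (D.f^[k]) x‖ * D.ph x ∧ κ ≤ ‖deriv (D.f^[k]) x‖ ∧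
      ∀ j ≤ k, D.f^[j] x ∈ thickening (D.δ / 4) D.J := by
  have hztc : Continuous D.zt := by
    unfold Ds.zt
    exact continuous_infDist_pt _
  have hXc : IsCompact (D.J ∩ {x | z1 ≤ D.zt x}) :=
    D.hJ.inter_right (isClosed_le continuous_const hztc)
  obtain ⟨N, κ, hN, hκ, W, hWo, hXW, hW⟩ : ∃ (N : ℕ) (κ : ℝ), 1 ≤ N ∧ 0 < κ ∧
      ∃ W : Set ℂ, IsOpen W ∧ D.J ∩ {x | z1 ≤ D.zt x} ⊆ W ∧ ∀ y ∈ W, FarP D N κ y := by
    refine hXc.induction_on (p := fun s => ∃ (N : ℕ) (κ : ℝ), 1 ≤ N ∧ 0 < κ ∧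
      ∃ W : Set ℂ, IsOpen W ∧ s ⊆ W ∧ ∀ y ∈ W, FarP D N κ y) ?_ ?_ ?_ ?_
    · exact ⟨1, 1, le_rfl, one_pos, ∅, isOpen_empty, subset_rfl, fun y hy => absurd hy (by simp)⟩
    · rintro s t hst ⟨N, κ, h1, h2, W, h3, h4, h5⟩
      exact ⟨N, κ, h1, h2, W, h3, hst.trans h4, h5⟩
    · rintro s t ⟨N, κ, h1, h2, W, h3, h4, h5⟩ ⟨N', κ', h1', h2', W', h3', h4', h5'⟩
      refine ⟨max N N', min κ κ', h1.trans (le_max_left _ _), lt_min h2 h2', W ∪ W', h3.union h3',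
        union_subset_union h4 h4', ?_⟩
      rintro y (hy | hy)
      · obtain ⟨k, a1, a2, a3, a4, a5⟩ := h5 y hy
        exact ⟨k, a1, a2.trans (le_max_left _ _), a3, (min_le_left _ _).trans a4, a5⟩
      · obtain ⟨k, a1, a2, a3, a4, a5⟩ := h5' y hy
        exact ⟨k, a1, a2.trans (le_max_right _ _), a3, (min_le_right _ _).trans a4, a5⟩
    · rintro x ⟨hx, hxz⟩
      have hxc : x ∉ D.Cr := by
        intro h
        have h1 : z1 ≤ D.zt x := hxz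
        rw [zt_zero D h] at h1
        linarith
      obtain ⟨N, κ, h1, h2, h3⟩ := far_nhd D hx hxc
      obtain ⟨W, hW, hWo, hxW⟩ := _root_.eventually_nhds_iff.mp h3
      exact ⟨W, mem_nhdsWithin_of_mem_nhds (hWo.mem_nhds hxW), N, κ, h1, h2, W, hWo, subset_rfl,
        hW⟩
  have hcl : IsClosed ({x | z1 ≤ D.zt x} ∩ Wᶜ) :=
    (isClosed_le continuous_const hztc).inter hWo.isClosed_compl
  have hdis : Disjoint D.J ({x | z1 ≤ D.zt x} ∩ Wᶜ) := by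
    rw [Set.disjoint_left]
    rintro x hx ⟨h1, h2⟩
    exact h2 (hXW ⟨hx, h1⟩)
  obtain ⟨ε, hε, hε'⟩ := hdis.exists_thickenings D.hJ hcl
  refine ⟨N, κ, min ε (D.δ / 4), hN, hκ, lt_min hε (by linarith [D.hδ]), min_le_right _ _, ?_⟩
  intro x hx hz1
  have hxε : x ∈ thickening ε D.J := thickening_mono (min_le_left _ _) _ hx
  have hxW : x ∈ W := by
    by_contra hcon
    exact (Set.disjoint_left.mp hε') hxε (self_subset_thickening hε _ ⟨hz1, hcon⟩)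
  exact hW x hxW

end Pool.Agent.H44.DN
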