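import Pool.Agent.H44.DN.DDefs
import Pool.Agent.H91.CE.CDefs

/-!
# Definitions for the chapter MK (construction of the data `Ds`)

`D0`: a map near its Julia set before the constants are chosen. `mm c`: the local degree at `c`, `tau c`: the first
time `≥ 1` after which the orbit of `c` does not meet `Cr`, `MM c`: the product of the local degrees before this
time. `JJ v0`: the points of the plane which are not attracted by a sink of the rational map `Rf v0`. `Rep v0 D`: the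
data `D` belong to the rational map `Rf v0`. `Sol f G g h U`: on `U` the function `h` is a branch of `f^(-1) ∘ g`.
-/

set_option autoImplicit false

open Filter Topology Polynomial Metric Set

namespace Pool.Agent.H44.DN

open Pool.Agent.H44.Fatou Pool.Agent.H32.BT Pool.Agent.H79.Eul Pool.Agent.H79.Par

/-- a map near its Julia set, before the constants are chosen -/
structure D0 where
  f : ℂ → ℂ
  J : Set ℂ
  G : Set ℂ
  Cr : Finset ℂ
  δ : ℝ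
  hJ : IsCompact J
  hJf : ∀ z ∈ J, f z ∈ J
  hG : IsOpen G
  hf : DifferentiableOn ℂ f G
  hδ : 0 < δ
  hδ1 : δ ≤ 1
  hU : cthickening δ J ⊆ G
  hCr : ∀ c ∈ Cr, c ∈ J
  hne : Cr.Nonempty
  hcr : ∀ z ∈ cthickening δ J, (deriv f z = 0 ↔ z ∈ Cr)
  ce : ∀ c ∈ Cr, ∃ (m : ℕ) (C q : ℝ), 1 < q ∧ ∀ n : ℕ, q ^ n ≤ C * ‖deriv (f^[n]) (f^[m] c)‖
  nn : ∀ x ∈ J, ∀ ρ : ℝ, 0 < ρ → ∃ N : ℕ, ∀ n ≥ N,
    ¬ ((∀ i < n, ∀ z ∈ ball x ρ, f^[i] z ∈ G) ∧ ∀ z ∈ ball x ρ, f^[n] z ∈ thickening δ J)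
  cn : ∀ (i : ℕ) (x : ℂ) (r : ℝ) (g : ℂ → ℂ) (u0 : ℂ), 0 < r → ball x r ⊆ thickening δ J →
    DifferentiableOn ℂ g (ball x r) →
    (∀ w ∈ ball x r, f^[i] (g w) = w ∧ ∀ j < i, f^[j] (g w) ∈ G) →
    u0 ∈ G → f u0 = g x → deriv f u0 ≠ 0 →
    (∃ h : ℂ → ℂ, DifferentiableOn ℂ h (ball x r) ∧ h x = u0 ∧
      ∀ w ∈ ball x r, h w ∈ G ∧ f (h w) = g w) ∨
    ∃ (ρ : ℝ) (b c : ℂ) (h : ℂ → ℂ), 0 < ρ ∧ ρ < r ∧ ‖b - x‖ = ρ ∧ c ∈ Cr ∧ g b = f c ∧
      DifferentiableOn ℂ h (ball x ρ) ∧ h x = u0 ∧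
      (∀ w ∈ ball x ρ, h w ∈ G ∧ f (h w) = g w) ∧ Tendsto h (𝓝[ball x ρ] b) (𝓝 c)

namespace D0

variable (X : D0)

/-- the local degree -/
noncomputable def mm (c : ℂ) : ℕ := analyticOrderNatAt (fun z => X.f z - X.f c) c

/-- the first time after which the orbit does not meet the critical points -/
noncomputable def tau (c : ℂ) : ℕ := sInf {n : ℕ | 1 ≤ n ∧ ∀ j, n ≤ j → X.f^[j] c ∉ X.Cr}

open Classical in
/-- the product of the local degrees along the orbit, before the time `i` -/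
noncomputable def Mi (c : ℂ) (i : ℕ) : ℕ :=
  ∏ j ∈ Finset.range i, if X.f^[j] c ∈ X.Cr then X.mm (X.f^[j] c) else 1

/-- the local degree of the iterate which maps `c` to its terminal value -/
noncomputable def MM (c : ℂ) : ℕ := X.Mi c (X.tau c)

end D0

/-- the points of the plane which are not attracted -/
def JJ {d : ℕ} (v0 : E d) : Set ℂ := {z | ¬ Att (Rf v0) (z : OnePoint ℂ)}

/-- `D` belongs to the rational map `Rf v0` -/
structure Rep {d : ℕ} (v0 : E d) (D : Ds) : Prop where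
  f : D.f = it v0 1
  J : D.J = JJ v0
  G : ∀ z, z ∈ D.G ↔ ev v0.2 z ≠ 0
  Cr : ∀ z, z ∈ D.Cr ↔ wv v0 z = 0 ∧ z ∈ JJ v0
  cl : cthickening D.δ D.J ⊆ D.G

/-- `h` is a branch of `f^(-1) ∘ g` on `U` -/
def Sol (f : ℂ → ℂ) (G : Set ℂ) (g h : ℂ → ℂ) (U : Set ℂ) : Prop :=
  DifferentiableOn ℂ h U ∧ ∀ w ∈ U, h w ∈ G ∧ f (h w) = g w

end Pool.Agent.H44.DN
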