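import Pool.Agent.H44.DN.NNL
import Pool.Agent.H44.DN.ATB
import Pool.Agent.H44.DN.ITG

/-!
# Module NNF: no normality at the points which are not attracted

PROOF. `f = it v0 1`, `F = Rf v0`. Suppose that for every `N` there is `n ≥ N` with the two properties. Take a strictly increasing sequence `n_k`. `f^[n_k]` is holomorphic on `ball x ρ` (`itg_diff`) and bounded (`J` compact, `thickening δ J` bounded), `F^[i] z = f^[i] z` for `i ≤ n_k` (`rat_coe_of_ne`). `montel1`: a subsequence (again `n_k`) with the limit `g` on `ball x (ρ/2)`.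
By density there is an attracted `z0 ∈ ball x (ρ/2)`, and a ball `B0 = ball z0 r ⊆ ball x (ρ/2)` of attracted points (`att_isOpen`). For `z ∈ B0`: `F^[n k] z → y` for a sink `y` of period `n`, so the orbit `F^[i] z` accumulates only at the points `F^[j] y`, `j < n`, which are sinks (`sink_step`): for infinitely many `k` the residue of `n_k` mod `n` is the same `j`, and along these `f^[n_k] z = F^[n_k] z → F^[j] y`. So `(g z : OnePoint ℂ)` is a sink. The sinks are periodic points, and the periodic points are countable (`per_all_countable`, used in `chart_ld`).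
So `g '' B0` is countable; `g` is constant on `B0` (open mapping theorem: `AnalyticOnNhd.is_constant_or_isOpen`; an open nonempty set is not countable) and on `ball x (ρ/2)` (identity theorem, preconnected), say `= p`, `p` a sink. So `F^[n_k] x = f^[n_k] x → p`; a neighbourhood of `p` consists of attracted points (`att_isOpen`; the sink itself is attracted), so `F^[n_k] x` is attracted for large `k`, and `x` is (`att_iter`). Contradiction to `x ∈ JJ v0`.
-/

set_option autoImplicit false

open Filter Topology Polynomial Metric Set MeasureTheory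

namespace Pool.Agent.H44.DN

open Pool.Agent.H44.Fatou Pool.Agent.H32.BT Pool.Agent.H79.Eul Pool.Agent.H79.Par Pool.Agent.H91.CE

theorem nn_rat {d : ℕ} (hd : 2 ≤ d) {v0 : E d} (hcop : IsCoprime (pol v0.1) (pol v0.2))
    (hdeg : max (pol v0.1).natDegree (pol v0.2).natDegree = d)
    (hinf : Att (Rf v0) OnePoint.infty) (hdn : Dense {z : ℂ | Att (Rf v0) (z : OnePoint ℂ)})
    {δ : ℝ} {x : ℂ} (hx : x ∈ JJ v0) {ρ : ℝ} (hρ : 0 < ρ) : ∃ N : ℕ, ∀ n ≥ N,
      ¬ ((∀ i < n, ∀ z ∈ ball x ρ, ev v0.2 ((it v0 1)^[i] z) ≠ 0) ∧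
        ∀ z ∈ ball x ρ, (it v0 1)^[n] z ∈ thickening δ (JJ v0)) := by
  classical
  have hcont : Continuous (Rf v0) := rat_continuous hcop
  by_contra hcon
  push Not at hcon
  have hfr : ∃ᶠ n in atTop, ((∀ i < n, ∀ z ∈ ball x ρ, ev v0.2 ((it v0 1)^[i] z) ≠ 0) ∧
        ∀ z ∈ ball x ρ, (it v0 1)^[n] z ∈ thickening δ (JJ v0)) := by
    rw [frequently_atTop]
    intro N
    obtain ⟨n, hn, h1, h2⟩ := hcon N
    exact ⟨n, hn, h1, h2⟩
  obtain ⟨φ, hφ, hP⟩ := extraction_of_frequently_atTop hfr
  -- the finite chart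
  have hne : ∀ i, ∀ z ∈ ball x ρ, ev v0.2 ((it v0 1)^[i] z) ≠ 0 := by
    intro i z hz
    obtain ⟨k, hk⟩ : ∃ k, i < φ k := ⟨i + 1, lt_of_lt_of_le (Nat.lt_succ_self i) hφ.le_apply⟩
    exact (hP k).1 i hk z hz
  have hit1 : ∀ z, it v0 1 z = (pol v0.1).eval z / (pol v0.2).eval z := by
    intro z
    rw [pol_eval, pol_eval]
    rfl
  have hF : ∀ i, ∀ z ∈ ball x ρ, (Rf v0)^[i] (z : OnePoint ℂ) = (((it v0 1)^[i] z : ℂ) : OnePoint ℂ) := by
    intro i z hz
    induction i with
    | zero => rfl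
    | succ i ih =>
      rw [Function.iterate_succ_apply', ih, Function.iterate_succ_apply']
      have h1 : (pol v0.2).eval ((it v0 1)^[i] z) ≠ 0 := by
        rw [pol_eval]
        exact hne i z hz
      have h2 := rat_coe_of_ne (P := pol v0.1) h1
      rw [hit1]
      exact h2
  set G : Set ℂ := {z | (pol v0.2).eval z ≠ 0} with hG
  have hGo : IsOpen G := by
    have : Continuous fun z : ℂ => (pol v0.2).eval z := (pol v0.2).continuous
    exact isOpen_ne_fun this continuous_const
  have hfG : DifferentiableOn ℂ (it v0 1) G := by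
    have h1 : (it v0 1) = fun z => (pol v0.1).eval z / (pol v0.2).eval z := funext hit1
    rw [h1]
    intro z hz
    exact ((pol v0.1).differentiableAt.div (pol v0.2).differentiableAt hz).differentiableWithinAt
  have hdiff : ∀ n, DifferentiableOn ℂ ((it v0 1)^[n]) (ball x ρ) := by
    intro n z hz
    refine (itg_diff hGo hfG fun i _ => ?_).differentiableWithinAt
    have := hne i z hz
    rw [← pol_eval] at this
    exact this
  -- bounded
  have hcpt : IsCompact (JJ v0) := jj_cpt hcop hinf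
  obtain ⟨B, hB⟩ := (hcpt.isBounded.thickening (δ := δ)).exists_norm_le
  obtain ⟨σ, g, hσ, hg, hlim⟩ := montel1 (F := fun k => (it v0 1)^[φ k]) (x := x) (ρ := ρ)
    (ρ' := ρ / 2) (B := B) (by linarith) (by linarith) (fun k => hdiff _)
    (fun k z hz => hB _ ((hP k).2 z hz))
  have hsub : ball x (ρ / 2) ⊆ ball x ρ := ball_subset_ball (by linarith)
  have hlim' : ∀ z ∈ ball x (ρ / 2), Tendsto (fun k => (it v0 1)^[φ (σ k)] z) atTop (𝓝 (g z)) := by
    intro z hz
    have h1 : Tendsto (fun k : ℕ => (k, z)) atTop (atTop ×ˢ 𝓝 z) :=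
      tendsto_id.prodMk tendsto_const_nhds
    exact (hlim z hz).comp h1
  have hψ : StrictMono fun k => φ (σ k) := hφ.comp hσ
  -- the attracted points
  have hatt : ∀ z ∈ ball x (ρ / 2), Att (Rf v0) (z : OnePoint ℂ) →
      ∃ (y : OnePoint ℂ) (n j : ℕ), IsSink (Rf v0) y n ∧ ((g z : ℂ) : OnePoint ℂ) = (Rf v0)^[j] y := by
    intro z hz ⟨y, n, hs, hy⟩
    have hn : 0 < n := hs.1
    have hpig : ∃ j < n, ∃ᶠ k in atTop, φ (σ k) % n = j := by
      by_contra hno
      push Not at hno
      have h1 : ∀ j ∈ Finset.range n, ∀ᶠ k in atTop, φ (σ k) % n ≠ j := by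
        intro j hj
        have := hno j (Finset.mem_range.mp hj)
        exact this
      have h2 := (eventually_all_finset (Finset.range n)).mpr h1
      obtain ⟨k, hk⟩ := h2.exists
      exact hk (φ (σ k) % n) (Finset.mem_range.mpr (Nat.mod_lt _ hn)) rfl
    obtain ⟨j, hj, hfj⟩ := hpig
    obtain ⟨τ, hτ, hmod⟩ := extraction_of_frequently_atTop hfj
    refine ⟨y, n, j, hs, ?_⟩
    have hT : Tendsto (fun k => φ (σ (τ k)) / n) atTop atTop :=
      (Nat.tendsto_div_const_atTop hn.ne').comp (hψ.comp hτ).tendsto_atTop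
    have h3 : Tendsto (fun k => (Rf v0)^[j] ((Rf v0)^[n * (φ (σ (τ k)) / n)] (z : OnePoint ℂ)))
        atTop (𝓝 ((Rf v0)^[j] y)) :=
      ((hcont.iterate j).tendsto y).comp (hy.comp hT)
    have h4 : Tendsto (fun k => (((it v0 1)^[φ (σ (τ k))] z : ℂ) : OnePoint ℂ)) atTop
        (𝓝 ((g z : ℂ) : OnePoint ℂ)) :=
      (OnePoint.continuous_coe.tendsto _).comp ((hlim' z hz).comp hτ.tendsto_atTop)
    have h5 : (fun k => (((it v0 1)^[φ (σ (τ k))] z : ℂ) : OnePoint ℂ)) =
        fun k => (Rf v0)^[j] ((Rf v0)^[n * (φ (σ (τ k)) / n)] (z : OnePoint ℂ)) := by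
      funext k
      rw [← hF _ z (hsub hz), ← Function.iterate_add_apply]
      congr 2
      have h6 := Nat.mod_add_div (φ (σ (τ k))) n
      rw [hmod k] at h6
      exact h6.symm
    rw [h5] at h4
    exact tendsto_nhds_unique h4 h3
  have hopen : IsOpen {z : ℂ | Att (Rf v0) (z : OnePoint ℂ)} :=
    (att_isOpen hcont).preimage OnePoint.continuous_coe
  obtain ⟨z0, hz0a, hz0⟩ := hdn.exists_mem_open isOpen_ball
    (⟨x, mem_ball_self (by linarith)⟩ : (ball x (ρ / 2)).Nonempty)
  have hganal : AnalyticOnNhd ℂ g (ball x (ρ / 2)) := hg.analyticOnNhd isOpen_ball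
  have hcst : ∃ w, ∀ z ∈ ball x (ρ / 2), g z = w := by
    rcases hganal.is_constant_or_isOpen (convex_ball x (ρ / 2)).isPreconnected with h1 | h1
    · exact h1
    · exfalso
      set U0 : Set ℂ := ball x (ρ / 2) ∩ {z : ℂ | Att (Rf v0) (z : OnePoint ℂ)} with hU0
      have hU0o : IsOpen (g '' U0) := h1 U0 inter_subset_left (isOpen_ball.inter hopen)
      have hcount : (g '' U0).Countable := by
        have h2 := per_all_countable hcop (by rw [hdeg]; exact hd)
        have h3 : ({p : ℂ | ∃ n : ℕ, 0 < n ∧ (Rf v0)^[n] (p : OnePoint ℂ) = (p : OnePoint ℂ)}).Countable :=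
          h2.preimage_of_injOn (f := fun p : ℂ => (p : OnePoint ℂ))
            (OnePoint.coe_injective.injOn)
        refine h3.mono ?_
        rintro p ⟨z, ⟨hz, hza⟩, rfl⟩
        obtain ⟨y, n, j, hs, he⟩ := hatt z hz hza
        refine ⟨n, hs.1, ?_⟩
        rw [he, ← Function.iterate_add_apply, add_comm, Function.iterate_add_apply, hs.2.1]
      have h4 : volume (g '' U0) = 0 := hcount.measure_zero volume
      have h5 : (g '' U0).Nonempty := ⟨g z0, z0, ⟨hz0, hz0a⟩, rfl⟩
      exact (hU0o.measure_pos volume h5).ne' h4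
  obtain ⟨w, hw⟩ := hcst
  obtain ⟨y, n, j, hs, he⟩ := hatt z0 hz0 hz0a
  have hAy : Att (Rf v0) y := by
    refine ⟨y, n, hs, ?_⟩
    have : (fun k : ℕ => (Rf v0)^[n * k] y) = fun _ => y := by
      funext k
      rw [Function.iterate_mul]
      exact Function.iterate_fixed hs.2.1 k
    rw [this]
    exact tendsto_const_nhds
  have hAw : Att (Rf v0) ((g x : ℂ) : OnePoint ℂ) := by
    have h1 : g x = g z0 := by
      rw [hw z0 hz0, hw x (mem_ball_self (by linarith))]
    rw [h1, he, att_iter hcont]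
    exact hAy
  have hev : ∀ᶠ k in atTop, (it v0 1)^[φ (σ k)] x ∈ {z : ℂ | Att (Rf v0) (z : OnePoint ℂ)} :=
    (hlim' x (mem_ball_self (by linarith))).eventually (hopen.mem_nhds hAw)
  obtain ⟨k, hk⟩ := hev.exists
  have hk' : Att (Rf v0) (((it v0 1)^[φ (σ k)] x : ℂ) : OnePoint ℂ) := hk
  rw [← hF _ x (mem_ball_self hρ), att_iter hcont] at hk'
  exact hx hk'

end Pool.Agent.H44.DN
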