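import Mathlib

/-!
# Module SPK: the Schwarz-Pick inequality for functions without zeros

PROOF. `F` has no zeros on the disc, so `F = exp ∘ H` with `H` holomorphic on `ball z σ` (a primitive of `deriv F / F` on the disc, `DifferentiableOn.isExactOn_ball`; adjust the constant). `Re (H w) < log X`. Borel-Caratheodory (Mathlib, `Analysis/Complex/BorelCaratheodory`) for `H - H z` with bound `M = log X - Re (H z) = log (X / ‖F z‖) > 0`: `‖H w - H z‖ ≤ 2 M ‖w - z‖ / (σ - ‖w - z‖)` (on slightly smaller discs if necessary); divide by `‖w - z‖` and let `w → z`: `‖deriv H z‖ ≤ 2 M / σ`. `deriv F z = F z * deriv H z`.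
-/

set_option autoImplicit false

open Filter Topology Metric Set

namespace Pool.Agent.H44.DN

theorem spk {F : ℂ → ℂ} {z : ℂ} {σ X : ℝ} (hσ : 0 < σ) (hF : DifferentiableOn ℂ F (ball z σ))
    (h : ∀ w ∈ ball z σ, F w ≠ 0 ∧ ‖F w‖ < X) :
    ‖deriv F z‖ * σ ≤ 2 * ‖F z‖ * Real.log (X / ‖F z‖) := by
  have hz : z ∈ ball z σ := mem_ball_self hσ
  have hFz := h z hz
  have hn0 : 0 < ‖F z‖ := norm_pos_iff.2 hFz.1
  have hX : 0 < X := lt_trans hn0 hFz.2
  have hG : DifferentiableOn ℂ (fun w => deriv F w / F w) (ball z σ) :=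
    (hF.deriv isOpen_ball).div hF fun w hw => (h w hw).1
  obtain ⟨H, hHz, hH⟩ := hG.isExactOn_ball.with_val_at z (Complex.log (F z))
  have hexp : ∀ w ∈ ball z σ, F w = Complex.exp (H w) := by
    have hd : ∀ w ∈ ball z σ, HasDerivAt (fun w => F w * Complex.exp (-H w)) 0 w := by
      intro w hw
      have h1 : HasDerivAt F (deriv F w) w :=
        (hF.differentiableAt (isOpen_ball.mem_nhds hw)).hasDerivAt
      have h2 := h1.mul (hH w hw).neg.cexp
      have h3 := (h w hw).1
      have h4 : deriv F w * Complex.exp (-H w) + F w *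
          (Complex.exp (-H w) * -(deriv F w / F w)) = 0 := by
        field_simp
        ring
      have h5 := h2
      rw [show (0 : ℂ) = deriv F w * Complex.exp (-H w) + F w *
          (Complex.exp (-H w) * -(deriv F w / F w)) from h4.symm]
      exact h5
    intro w hw
    have h4 := isOpen_ball.is_const_of_deriv_eq_zero (convex_ball z σ).isPreconnected
      (fun w hw => (hd w hw).differentiableAt.differentiableWithinAt)
      (fun w hw => (hd w hw).deriv) hw hz
    have h5 : F z * Complex.exp (-H z) = 1 := by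
      rw [hHz, Complex.exp_neg, Complex.exp_log hFz.1, mul_inv_cancel₀ hFz.1]
    have h6 : F w * Complex.exp (-H w) = 1 := by
      rw [← h5]
      exact h4
    rw [Complex.exp_neg] at h6
    have h7 := Complex.exp_ne_zero (H w)
    field_simp at h6
    exact h6
  obtain ⟨M, hM⟩ : ∃ M : ℝ, M = Real.log (X / ‖F z‖) := ⟨_, rfl⟩
  have hM0 : 0 < M := by
    rw [hM]
    exact Real.log_pos ((one_lt_div hn0).2 hFz.2)
  have hre : ∀ w ∈ ball z σ, (H w - H z).re ≤ M := by
    intro w hw
    have h1 : (H w).re < Real.log X := by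
      have h2 := (h w hw).2
      rw [hexp w hw, Complex.norm_exp] at h2
      exact (Real.lt_log_iff_exp_lt hX).2 h2
    have h3 : (H z).re = Real.log ‖F z‖ := by rw [hHz, Complex.log_re]
    rw [Complex.sub_re, h3, hM, Real.log_div hX.ne' hn0.ne']
    linarith
  -- the shifted function
  have hK : ∀ u ∈ ball (0 : ℂ) σ, HasDerivAt (fun u => H (z + u) - H z)
      (deriv F (z + u) / F (z + u)) u := by
    intro u hu
    have h1 : z + u ∈ ball z σ := by
      rw [mem_ball, dist_eq_norm, add_sub_cancel_left]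
      rwa [mem_ball_zero_iff] at hu
    exact ((hH _ h1).comp_const_add z u).sub_const _
  have hbc : ∀ u ∈ ball (0 : ℂ) σ, ‖H (z + u) - H z‖ ≤ 2 * M * ‖u‖ / (σ - ‖u‖) := by
    intro u hu
    refine Complex.borelCaratheodory_zero (f := fun u => H (z + u) - H z) hM0
      (fun w hw => (hK w hw).differentiableAt.differentiableWithinAt) ?_ hσ hu (by simp)
    intro w hw
    have h1 : z + w ∈ ball z σ := by
      rw [mem_ball, dist_eq_norm, add_sub_cancel_left]
      rwa [mem_ball_zero_iff] at hw
    exact hre _ h1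
  have hder : ‖deriv F z / F z‖ ≤ 2 * M / σ := by
    have h1 := hK 0 (mem_ball_self hσ)
    rw [add_zero] at h1
    have h2 := (hasDerivAt_iff_tendsto_slope.1 h1).norm
    have h3 : Tendsto (fun u : ℂ => 2 * M / (σ - ‖u‖)) (𝓝[≠] 0) (𝓝 (2 * M / σ)) := by
      have h4 : Tendsto (fun u : ℂ => 2 * M / (σ - ‖u‖)) (𝓝 0) (𝓝 (2 * M / (σ - ‖(0 : ℂ)‖))) := by
        refine Tendsto.div tendsto_const_nhds ?_ (by simpa using hσ.ne')
        exact (tendsto_const_nhds).sub (continuous_norm.tendsto 0)
      rw [norm_zero, sub_zero] at h4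
      exact h4.mono_left nhdsWithin_le_nhds
    refine le_of_tendsto_of_tendsto h2 h3 ?_
    have h5 : ∀ᶠ u in 𝓝[≠] (0 : ℂ), u ∈ ball (0 : ℂ) σ :=
      nhdsWithin_le_nhds (ball_mem_nhds 0 hσ)
    filter_upwards [h5, self_mem_nhdsWithin] with u hu hu0
    have hu1 : 0 < ‖u‖ := norm_pos_iff.2 hu0
    have h6 := hbc u hu
    rw [slope_def_field, norm_div]
    simp only [add_zero, sub_self, sub_zero]
    rw [div_le_iff₀ hu1]
    refine h6.trans (le_of_eq ?_)
    ring
  rw [norm_div, div_le_div_iff₀ hn0 hσ] at hder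
  rw [← hM]
  linarith

end Pool.Agent.H44.DN
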