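import Pool.Agent.H44.DN.GSC
import Pool.Agent.H44.DN.NNL
import Pool.Agent.H44.DN.ITER

/-!
# Module NUL1: discs around a point of `J` are blown up

PROOF. `a, b, δ1, r1, R` (`gsc`), `Q = ⌈a log 2⌉₊ + 1`, `s0 = r1 / (2 L^Q)`. Given `x ∈ J` and `ρ > 0` (`ρ ≤ r1`, `ρ < δ`, `ρ ≤ 1/2` without restriction): `h = id`, `σ = ρ / 2^N` for `N` large: `a log (1/σ) + b + 2 = a N log 2 + a log (1/ρ) + b + 2 ≤ Q N`. `gsc`: `j, i`. The second alternative is impossible at `u = x` (`f^[i] x ∈ J`). So `ρ' = ρ / 2^j`. `f^[i]` is holomorphic on `ball x ρ'` (`it_diff`).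
-/

set_option autoImplicit false

open Filter Topology Metric Set

namespace Pool.Agent.H44.DN

theorem blow (D : Ds) : ∃ s0 R : ℝ, 0 < s0 ∧ ∀ x ∈ D.J, ∀ ρ : ℝ, 0 < ρ → ∃ (ρ' : ℝ) (i : ℕ),
    0 < ρ' ∧ ρ' ≤ ρ ∧ DifferentiableOn ℂ (D.f^[i]) (ball x ρ') ∧
      (∀ u ∈ ball x ρ', (∀ l < i, D.f^[l] u ∈ thickening D.δ D.J) ∧ ‖D.f^[i] u‖ ≤ R) ∧
      ∃ u ∈ ball x (ρ' / 2), s0 ≤ ‖D.f^[i] u - D.f^[i] x‖ := by
  obtain ⟨a, b, δ1, r1, R, ha, hb, hδ1, hδ14, hr1, hr14, hR, H⟩ := gsc D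
  have hL := D.hL
  have hδ := D.hδ
  obtain ⟨Q, hQ⟩ : ∃ Q : ℕ, a * Real.log 2 + 1 ≤ (Q : ℝ) := exists_nat_ge _
  refine ⟨r1 / (2 * D.L ^ Q), R, by positivity, ?_⟩
  intro x hx ρ hρ
  obtain ⟨ρ2, hρ2⟩ : ∃ ρ2 : ℝ, ρ2 = min ρ (min r1 (min (D.δ / 2) (1 / 2))) := ⟨_, rfl⟩
  have p0 : 0 < ρ2 := by
    rw [hρ2]
    exact lt_min hρ (lt_min hr1 (lt_min (by linarith) (by norm_num)))
  have p1 : ρ2 ≤ ρ := by rw [hρ2]; exact min_le_left _ _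
  have p2 : ρ2 ≤ r1 := by rw [hρ2]; exact (min_le_right _ _).trans (min_le_left _ _)
  have p3 : ρ2 ≤ D.δ / 2 := by
    rw [hρ2]
    exact (min_le_right _ _).trans ((min_le_right _ _).trans (min_le_left _ _))
  have p4 : ρ2 ≤ 1 / 2 := by
    rw [hρ2]
    exact (min_le_right _ _).trans ((min_le_right _ _).trans (min_le_right _ _))
  obtain ⟨N, hN⟩ : ∃ N : ℕ, a * Real.log (1 / ρ2) + b + 2 ≤ (N : ℝ) := exists_nat_ge _
  have h2N : (1 : ℝ) ≤ 2 ^ N := one_le_pow₀ (by norm_num)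
  have hσ : 0 < ρ2 / 2 ^ N := by positivity
  have hσ2 : ρ2 / 2 ^ N ≤ 1 / 2 := (div_le_self p0.le h2N).trans p4
  have hlog : Real.log (1 / (ρ2 / 2 ^ N)) = N * Real.log 2 + Real.log (1 / ρ2) := by
    have h1 : 1 / (ρ2 / 2 ^ N) = (2 : ℝ) ^ N * (1 / ρ2) := by
      field_simp
    rw [h1, Real.log_mul (by positivity) (by positivity), Real.log_pow]
  have hQN : a * Real.log (1 / (ρ2 / 2 ^ N)) + b + 2 ≤ Q * N := by
    rw [hlog]
    have h1 : (a * Real.log 2 + 1) * (N : ℝ) ≤ (Q : ℝ) * N :=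
      mul_le_mul_of_nonneg_right hQ (Nat.cast_nonneg _)
    nlinarith
  have hb1 : ∀ u ∈ ball x ρ2, id u ∈ thickening D.δ D.J ∧ ‖id u - id x‖ ≤ r1 := by
    intro u hu
    rw [mem_ball, dist_eq_norm] at hu
    refine ⟨?_, by simpa using (hu.le.trans p2)⟩
    rw [id, mem_thickening_iff]
    exact ⟨x, hx, by rw [dist_eq_norm]; linarith⟩
  obtain ⟨j, i, hj, hi, H1, H2⟩ := H Q N id x ρ2 (ρ2 / 2 ^ N) p0 hσ hσ2 hQN hb1
    (by rw [image_id]; exact Subset.rfl)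
  have h2j : (1 : ℝ) ≤ 2 ^ j := one_le_pow₀ (by norm_num)
  refine ⟨ρ2 / 2 ^ j, i, by positivity, (div_le_self p0.le h2j).trans p1, ?_, ?_, ?_⟩
  · intro u hu
    refine (it_diff D fun l hl => D.hU ?_).differentiableWithinAt
    exact thickening_mono (by linarith) _ ((H1 u hu).1 l hl)
  · intro u hu
    refine ⟨fun l hl => ?_, (H1 u hu).2⟩
    exact thickening_mono (by linarith) _ ((H1 u hu).1 l hl)
  · rcases H2 with ⟨u, hu, h3⟩ | h3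
    · refine ⟨u, ?_, h3⟩
      have h4 : ρ2 / 2 ^ (j + 1) = ρ2 / 2 ^ j / 2 := by
        rw [pow_succ]
        field_simp
      rwa [h4] at hu
    · exact absurd (J_th D (it_J D hx i) (by linarith))
        (h3 x (mem_ball_self (by positivity)))

end Pool.Agent.H44.DN
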