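import Pool.Agent.H44.DN.NUL1

/-!
# Module NUL2: the complement of `J` is fat at every point of `J`

PROOF. `blow` with `ρ = 1/(k+1)`: `ρ_k, i_k`. `h_k η = f^[i_k] (x + ρ_k η)` on `ball 0 1`, bounded by `R`; `montel1` (`ρ' = 3/4`): along a subsequence `h_k → Ψ` continuously on `ball 0 (3/4)`, `Ψ` holomorphic and not constant (the points `η_k ∈ ball 0 (1/2)` with `‖h_k η_k - h_k 0‖ ≥ s0`, along a further subsequence `η_k → η' ∈ closedBall 0 (1/2)`). `Ψ (ball 0 (3/4))` is open (`AnalyticOnNhd.is_constant_or_isOpen`), nonempty, so it contains a point `Ψ η0 ∉ J` (density of the complement). `J` closed: there is `r > 0`, `ball η0 r ⊆ ball 0 (3/4)`, such that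
`Ψ (closedBall η0 r)` has positive distance from `J`, and by uniform convergence on the compact set (continuous convergence) `h_k η ∉ J` for `η ∈ ball η0 r`, `k` large; then `x + ρ_k η ∉ J` (`it_J`).
-/

set_option autoImplicit false

open Filter Topology Metric Set

namespace Pool.Agent.H44.DN

/-- a limit of functions which are uniformly not constant -/
theorem nul2_ex {h : ℕ → ℂ → ℂ} {s0 R : ℝ}
    (hd : ∀ k, DifferentiableOn ℂ (h k) (ball 0 1)) (hB : ∀ k, ∀ z ∈ ball (0 : ℂ) 1, ‖h k z‖ ≤ R)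
    (hex : ∀ k, ∃ η ∈ ball (0 : ℂ) (1 / 2), s0 ≤ ‖h k η - h k 0‖) {ρ' : ℝ} (h1 : 1 / 2 < ρ')
    (h2 : ρ' < 1) :
    ∃ (σ : ℕ → ℕ) (Ψ : ℂ → ℂ), StrictMono σ ∧ DifferentiableOn ℂ Ψ (ball 0 ρ') ∧
      (∀ z ∈ ball (0 : ℂ) ρ', Tendsto (fun w : ℕ × ℂ => h (σ w.1) w.2) (atTop ×ˢ 𝓝 z) (𝓝 (Ψ z))) ∧
      ∃ η ∈ closedBall (0 : ℂ) (1 / 2), s0 ≤ ‖Ψ η - Ψ 0‖ := by
  obtain ⟨σ, Ψ, hσ, hΨ, hlim⟩ := montel1 (F := h) (x := 0) (ρ := 1) (ρ' := ρ') (B := R)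
    (by linarith) h2 hd hB
  choose η hη hs using hex
  have hmem : ∀ k, η (σ k) ∈ closedBall (0 : ℂ) (1 / 2) := fun k => ball_subset_closedBall (hη _)
  obtain ⟨a, ha, φ, hφ, hφ2⟩ := (isCompact_closedBall (0 : ℂ) (1 / 2)).tendsto_subseq hmem
  refine ⟨σ, Ψ, hσ, hΨ, hlim, a, ha, ?_⟩
  have ha' : a ∈ ball (0 : ℂ) ρ' := closedBall_subset_ball h1 ha
  have h0' : (0 : ℂ) ∈ ball (0 : ℂ) ρ' := mem_ball_self (by linarith)
  have t1 : Tendsto (fun k => h (σ (φ k)) (η (σ (φ k)))) atTop (𝓝 (Ψ a)) :=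
    (hlim a ha').comp (hφ.tendsto_atTop.prodMk hφ2)
  have t2 : Tendsto (fun k => h (σ (φ k)) 0) atTop (𝓝 (Ψ 0)) :=
    (hlim 0 h0').comp (hφ.tendsto_atTop.prodMk tendsto_const_nhds)
  exact ge_of_tendsto' (t1.sub t2).norm fun k => hs _

theorem fat_compl (D : Ds) (hd : Dense D.Jᶜ) {x : ℂ} (hx : x ∈ D.J) : ∃ (η0 : ℂ) (r : ℝ), 0 < r ∧
    ball η0 r ⊆ ball 0 1 ∧ ∀ ρ : ℝ, 0 < ρ → ∃ ρ' : ℝ, 0 < ρ' ∧ ρ' ≤ ρ ∧
      ∀ η ∈ ball η0 r, x + ρ' * η ∉ D.J := by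
  obtain ⟨s0, R, hs0, hbl⟩ := blow D
  have hk : ∀ k : ℕ, (0 : ℝ) < 1 / ((k : ℝ) + 1) := fun k => Nat.one_div_pos_of_nat
  choose ρs is hρs hρle hdiff hbd hex using fun k : ℕ => hbl x hx (1 / ((k : ℝ) + 1)) (hk k)
  have hmap : ∀ k, ∀ η ∈ ball (0 : ℂ) 1, x + (ρs k : ℂ) * η ∈ ball x (ρs k) := by
    intro k η hη
    rw [mem_ball_zero_iff] at hη
    rw [mem_ball, dist_eq_norm, add_sub_cancel_left, norm_mul, Complex.norm_real,
      Real.norm_of_nonneg (hρs k).le]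
    exact mul_lt_of_lt_one_right (hρs k) hη
  obtain ⟨σ, Ψ, hσ, hΨ, hlim, η', hη', hnc⟩ := nul2_ex
    (h := fun k η => D.f^[is k] (x + (ρs k : ℂ) * η)) (s0 := s0) (R := R) (ρ' := 3 / 4)
    (fun k => (hdiff k).comp (by fun_prop) (hmap k)) (fun k η hη => (hbd k _ (hmap k η hη)).2)
    (fun k => by
      obtain ⟨u, hu, hu2⟩ := hex k
      have hne : (ρs k : ℂ) ≠ 0 := Complex.ofReal_ne_zero.2 (hρs k).ne'
      refine ⟨(u - x) / (ρs k : ℂ), ?_, ?_⟩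
      · rw [mem_ball, dist_eq_norm] at hu
        rw [mem_ball_zero_iff, norm_div, Complex.norm_real, Real.norm_of_nonneg (hρs k).le,
          div_lt_iff₀ (hρs k)]
        linarith
      · have e1 : x + (ρs k : ℂ) * ((u - x) / (ρs k : ℂ)) = u := by
          rw [mul_div_cancel₀ _ hne]
          ring
        have e2 : x + (ρs k : ℂ) * 0 = x := by ring
        change s0 ≤ ‖D.f^[is k] (x + (ρs k : ℂ) * ((u - x) / (ρs k : ℂ))) -
          D.f^[is k] (x + (ρs k : ℂ) * 0)‖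
        rw [e1, e2]
        exact hu2) (by norm_num) (by norm_num)
  have hopen : IsOpen (Ψ '' ball (0 : ℂ) (3 / 4)) := by
    rcases (hΨ.analyticOnNhd isOpen_ball).is_constant_or_isOpen
      (convex_ball (0 : ℂ) (3 / 4)).isPreconnected with ⟨w, hw⟩ | h
    · exfalso
      have e1 := hw η' (closedBall_subset_ball (by norm_num) hη')
      have e2 := hw 0 (mem_ball_self (by norm_num))
      rw [e1, e2, sub_self, norm_zero] at hnc
      linarith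
    · exact h _ Subset.rfl isOpen_ball
  obtain ⟨y, ⟨η0, hη0, rfl⟩, hy⟩ := hd.inter_open_nonempty _ hopen
    ⟨Ψ 0, 0, mem_ball_self (by norm_num), rfl⟩ |>.imp fun y hy => And.intro hy.1 hy.2
  have hev := (hlim η0 hη0) (D.hJ.isClosed.isOpen_compl.mem_nhds hy)
  rw [Filter.mem_map, Filter.mem_prod_iff] at hev
  obtain ⟨A, hA, B, hB, hAB⟩ := hev
  obtain ⟨K, hK⟩ := Filter.mem_atTop_sets.1 hA
  obtain ⟨r1, hr1, hBr⟩ := Metric.mem_nhds_iff.1 hB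
  obtain ⟨r2, hr2, hBr2⟩ := Metric.mem_nhds_iff.1
    ((isOpen_ball : IsOpen (ball (0 : ℂ) 1)).mem_nhds (ball_subset_ball (by norm_num) hη0))
  refine ⟨η0, min r1 r2, lt_min hr1 hr2, (ball_subset_ball (min_le_right _ _)).trans hBr2, ?_⟩
  intro ρ hρ
  obtain ⟨N, hN⟩ := exists_nat_one_div_lt hρ
  set k := max K N with hkdef
  have hkσ : N ≤ σ k := (le_max_right K N).trans (hσ.le_apply)
  refine ⟨ρs (σ k), hρs _, ?_, ?_⟩
  · calc ρs (σ k) ≤ 1 / ((σ k : ℝ) + 1) := hρle _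
      _ ≤ 1 / ((N : ℝ) + 1) := by
        apply one_div_le_one_div_of_le (by positivity)
        have : (N : ℝ) ≤ (σ k : ℝ) := by exact_mod_cast hkσ
        linarith
      _ ≤ ρ := hN.le
  · intro η hη hin
    have h1 : (k, η) ∈ A ×ˢ B :=
      ⟨hK k (le_max_left _ _), hBr (ball_subset_ball (min_le_left _ _) hη)⟩
    have h2 := hAB h1
    exact h2 (it_J D hin _)

end Pool.Agent.H44.DN
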