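import Pool.Agent.H44.DN.ITER

/-!
# Module PATH: a connected set whose values are close to a critical value

PROOF. Decrease `z` to `z ≤ r0 / 2`. `ε = (z / 2) ^ (max of the m c) / (2 C)` (or the minimum over the finite set `Cr` of `(z/2) ^ m c / (2 C)`). On the circle `‖u - c‖ = z / 2`: `‖f u - f c‖ ≥ (z/2) ^ m c / C > ε` (`D.l1`), so `S` does not meet the circle; `S` meets `ball c (z/2)` (`c ∈ closure S`) and is preconnected, so `S ⊆ ball c (z/2)` (`IsPreconnected.subset_left_of_subset_union` with the open sets `ball c (z/2)` and the complement of the closed ball).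
-/

set_option autoImplicit false

open Filter Topology Metric Set

namespace Pool.Agent.H44.DN

theorem path_near (D : Ds) {z : ℝ} (hz : 0 < z) : ∃ ε : ℝ, 0 < ε ∧ ∀ c ∈ D.Cr, ∀ S : Set ℂ,
    IsPreconnected S → c ∈ closure S → (∀ u ∈ S, ‖D.f u - D.f c‖ ≤ ε) → S ⊆ ball c z := by
  obtain ⟨a, ha⟩ : ∃ a : ℝ, a = min (min z (D.r0 / 2)) 1 := ⟨_, rfl⟩
  have hr0 := D.hr0
  have hC := D.hC
  have ha0 : 0 < a := by
    rw [ha]
    exact lt_min (lt_min hz (by linarith)) one_pos
  have haz : a ≤ z := by
    rw [ha]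
    exact (min_le_left _ _).trans (min_le_left _ _)
  have har : a < D.r0 := by
    have h1 : a ≤ D.r0 / 2 := by
      rw [ha]
      exact (min_le_left _ _).trans (min_le_right _ _)
    linarith
  have ha1 : a ≤ 1 := by
    rw [ha]
    exact min_le_right _ _
  have hp : 0 < a ^ D.Mx := pow_pos ha0 _
  refine ⟨a ^ D.Mx / (2 * D.C), by positivity, fun c hc S hS hcS hf => ?_⟩
  have hm : D.m c ≤ D.Mx := by
    refine (D.hmM c hc).trans ?_
    unfold Ds.Mx
    exact Finset.single_le_sum (f := fun c => D.M c) (fun _ _ => Nat.zero_le _) hc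
  have hcirc : ∀ u ∈ S, dist u c ≠ a := by
    intro u hu hd
    rw [dist_eq_norm] at hd
    have h1 := (D.l1 c hc u (by rw [mem_ball, dist_eq_norm, hd]; exact har)).2
    rw [hd] at h1
    have h2 : a ^ D.Mx ≤ a ^ D.m c := pow_le_pow_of_le_one ha0.le ha1 hm
    have h3 := mul_le_mul_of_nonneg_left (hf u hu) (by linarith : (0 : ℝ) ≤ D.C)
    have h4 : D.C * (a ^ D.Mx / (2 * D.C)) = a ^ D.Mx / 2 := by
      field_simp
    rw [h4] at h3
    linarith
  have hsub : S ⊆ ball c a := by
    refine IsPreconnected.subset_left_of_subset_union isOpen_ball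
      (isClosed_closedBall (x := c) (ε := a)).isOpen_compl ?_ ?_ ?_ hS
    · rw [Set.disjoint_left]
      intro u hu hu'
      exact hu' (ball_subset_closedBall hu)
    · intro u hu
      rcases lt_or_gt_of_ne (hcirc u hu) with h | h
      · exact Or.inl h
      · right
        intro h'
        rw [mem_closedBall] at h'
        linarith
    · obtain ⟨u, hu, hd⟩ := Metric.mem_closure_iff.1 hcS a ha0
      refine ⟨u, hu, ?_⟩
      rw [mem_ball, dist_comm]
      exact hd
  exact hsub.trans (ball_subset_ball haz)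

end Pool.Agent.H44.DN
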