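import Pool.Agent.H44.DN.PSH

/-!
# Module PAF: families: the parameter map is nearly affine

PROOF. `a1` (`psh`; keep it), `M = X.M`, `λ = 2^(-c' J1)`, `ρ = ‖u0‖ λ`, `ρ1 = ρ / 2`, `w0 = ww u0`, `Λ = ‖deriv (f^[m]) w0‖ > 0` (`it_ne`), `a = deriv (f^[m]) w0 * (T * (M * u0 ^ (M-1)))`; `‖a‖ ‖u0‖ = Λ M ‖T‖ ‖u0‖ ^ M = Λ M ‖w0 - vv c‖`, between `Λ M 2^(-J1) / 2` and `Λ M 2^(-J1)` (`An`); `u0 ≠ 0`.
(1) `psh` on `ball u0 ρ`; `fam_diff`: `g m` is holomorphic there. (2) `G u = f^[m] (ww u)` is holomorphic on `ball u0 ρ` with `deriv G u = deriv (f^[m]) (ww u) * (T * (M * u ^ (M-1)))`; by `trk3` (`A' = 2^M`, `θ` small) and `‖(u / u0)^(M-1) - 1‖ ≤ 2^M λ`: `‖deriv G u - a‖ ≤ ‖a‖ / 8` for large `J1`. (3) `e u = g m u - G u`, `‖e‖ ≤ 2^(-(1+a1) J1) Λ` on `ball u0 ρ`; Cauchy estimate on `ball u0 ρ1`: `‖deriv e u‖ ≤ 2^(-(1+a1) J1) Λ / (ρ / 2) ≤ ‖a‖ * 4 * 2^(-(a1 - c')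 J1) ≤ ‖a‖ / 8` for large `J1`.
(4) `‖a‖ ρ1 = ‖a‖ ‖u0‖ λ / 2 ≤ M Cz 2^((1+ε) J1) 2^(-J1) 2^(-c' J1) ≤ r` (`trk_up`, `ε < c'`), and `≥ M 2^((1-κ) J1) 2^(-J1) 2^(-c' J1) / 4 ≥ 2^(-(κ + 2 c') J1)` for large `J1` (`Trk.big`).
-/

set_option autoImplicit false

open Filter Topology Metric Set

namespace Pool.Agent.H44.DN

theorem paf_pow {u u0 : ℂ} {l : ℝ} (hl : 0 ≤ l) (hl1 : l ≤ 1) (h : ‖u - u0‖ ≤ l * ‖u0‖) (k : ℕ) :
    ‖u ^ k - u0 ^ k‖ ≤ (2 ^ k - 1) * l * ‖u0‖ ^ k := by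
  induction k with
  | zero => simp
  | succ k ih =>
    have h1 : u ^ (k + 1) - u0 ^ (k + 1) = u * (u ^ k - u0 ^ k) + (u - u0) * u0 ^ k := by ring
    have h2 : ‖u‖ ≤ 2 * ‖u0‖ := by
      have h3 : ‖u‖ ≤ ‖u - u0‖ + ‖u0‖ := by
        have := norm_add_le (u - u0) u0
        rwa [sub_add_cancel] at this
      have h4 : l * ‖u0‖ ≤ 1 * ‖u0‖ := mul_le_mul_of_nonneg_right hl1 (norm_nonneg _)
      linarith
    have h5 : (0 : ℝ) ≤ (2 ^ k - 1) * l * ‖u0‖ ^ k := le_trans (norm_nonneg _) ih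
    rw [h1]
    calc ‖u * (u ^ k - u0 ^ k) + (u - u0) * u0 ^ k‖
        ≤ ‖u * (u ^ k - u0 ^ k)‖ + ‖(u - u0) * u0 ^ k‖ := norm_add_le _ _
      _ = ‖u‖ * ‖u ^ k - u0 ^ k‖ + ‖u - u0‖ * ‖u0‖ ^ k := by rw [norm_mul, norm_mul, norm_pow]
      _ ≤ (2 * ‖u0‖) * ((2 ^ k - 1) * l * ‖u0‖ ^ k) + (l * ‖u0‖) * ‖u0‖ ^ k := by
          refine add_le_add ?_ ?_
          · exact mul_le_mul h2 ih (norm_nonneg _) (by positivity)
          · exact mul_le_mul_of_nonneg_right h (by positivity)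
      _ = (2 ^ (k + 1) - 1) * l * ‖u0‖ ^ (k + 1) := by ring

theorem paf_ev {β η : ℝ} (hβ : 0 < β) (hη : 0 < η) :
    ∃ N : ℕ, ∀ J ≥ N, (2 : ℝ) ^ (-(β * (J : ℝ))) ≤ η := by
  have h1 : Tendsto (fun J : ℕ => (2 : ℝ) ^ (-(β * (J : ℝ)))) atTop (𝓝 0) := by
    have h2 : (fun J : ℕ => (2 : ℝ) ^ (-(β * (J : ℝ)))) = fun J : ℕ => ((2 : ℝ) ^ (-β)) ^ J := by
      funext J
      rw [← Real.rpow_natCast, ← Real.rpow_mul (by norm_num)]
      congr 1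
      ring
    rw [h2]
    refine tendsto_pow_atTop_nhds_zero_of_lt_one (by positivity) ?_
    exact Real.rpow_lt_one_of_one_lt_of_neg (by norm_num) (by linarith)
  have h3 := h1.eventually (eventually_le_nhds hη)
  exact eventually_atTop.1 h3

theorem paf (D : Ds) (X : Fam D) {c6 : ℝ} (hc6 : 0 < c6) : ∃ a1 : ℝ, 0 < a1 ∧ a1 ≤ 1 / 2 ∧
    ∀ κ ε c' C r : ℝ, κ ≤ 1 / 2 → 0 < ε → ε < c' → c' < a1 → 0 < r → ∃ J2 : ℕ, ∀ J1 ≥ J2,
      ∀ (u0 : ℂ) (m : ℕ), X.ww u0 ∈ An D X.c J1 → Trk D (X.ww u0) J1 C κ ε c6 m →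
        ∃ (ρ1 : ℝ) (a : ℂ), 0 < ρ1 ∧ ρ1 ≤ ‖u0‖ / 2 ∧ ball u0 ρ1 ⊆ ball 0 X.ρ0 ∧ a ≠ 0 ∧
          (∀ i ≤ m, ∀ u ∈ ball u0 ρ1, X.g i u ∈ thickening (3 * D.δ / 4) D.J) ∧
          DifferentiableOn ℂ (X.g m) (ball u0 ρ1) ∧
          (∀ u ∈ ball u0 ρ1, ‖deriv (X.g m) u - a‖ ≤ 1 / 4 * ‖a‖) ∧ ‖a‖ * ρ1 ≤ r ∧
          (2 : ℝ) ^ (-((κ + 2 * c') * (J1 : ℝ))) ≤ ‖a‖ * ρ1 := by
  obtain ⟨a1, ha1, ha12, H1⟩ := psh D X hc6
  refine ⟨a1, ha1, ha12, ?_⟩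
  intro κ ε c' C r hκ hε hεc hca hr
  obtain ⟨J3, H2⟩ := H1 κ ε c' C hκ hε hεc (by linarith)
  have hM := X.hM
  have h2M : (0 : ℝ) < 2 ^ X.M := by positivity
  have h2M1 : (1 : ℝ) ≤ 2 ^ X.M := one_le_pow₀ (by norm_num)
  obtain ⟨J4, H3⟩ := trk3 D κ ε c' C c6 (2 ^ X.M) (1 / (16 * 2 ^ X.M)) hε hεc h2M1 (by positivity)
  obtain ⟨Cz, hCz, H4⟩ := trk_up D
  have hc' : 0 < c' := by linarith
  have hMr : (0 : ℝ) < X.M := by exact_mod_cast Nat.lt_of_lt_of_le Nat.zero_lt_one hM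
  have hM1r : (1 : ℝ) ≤ X.M := by exact_mod_cast hM
  obtain ⟨N1, hN1⟩ := paf_ev hc' (show (0 : ℝ) < 1 / (16 * 2 ^ X.M) by positivity)
  obtain ⟨N2, hN2⟩ := paf_ev (show 0 < a1 - c' by linarith) (show (0 : ℝ) < 1 / 64 by positivity)
  obtain ⟨N3, hN3⟩ := paf_ev (show 0 < c' - ε by linarith)
    (show (0 : ℝ) < r / (X.M * Cz) by positivity)
  refine ⟨max (max J3 J4) (max N1 (max N2 N3)), ?_⟩
  intro J1 hJ1 u0 m hw0 hT
  have hJ3 : J3 ≤ J1 := le_trans (le_trans (le_max_left _ _) (le_max_left _ _)) hJ1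
  have hJ4 : J4 ≤ J1 := le_trans (le_trans (le_max_right _ _) (le_max_left _ _)) hJ1
  have hK1 : N1 ≤ J1 := le_trans (le_trans (le_max_left _ _) (le_max_right _ _)) hJ1
  have hK2 : N2 ≤ J1 :=
    le_trans (le_trans (le_trans (le_max_left _ _) (le_max_right _ _)) (le_max_right _ _)) hJ1
  have hK3 : N3 ≤ J1 :=
    le_trans (le_trans (le_trans (le_max_right _ _) (le_max_right _ _)) (le_max_right _ _)) hJ1
  have E1 := hN1 J1 hK1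
  have E2 := hN2 J1 hK2
  have E3 := hN3 J1 hK3
  clear hN1 hN2 hN3
  -- notation
  obtain ⟨lam, hlam⟩ : ∃ lam : ℝ, lam = (2 : ℝ) ^ (-(c' * (J1 : ℝ))) := ⟨_, rfl⟩
  have hlam0 : 0 < lam := by rw [hlam]; positivity
  rw [← hlam] at E1
  have hlam1 : lam ≤ 1 / 16 := by
    refine le_trans E1 ?_
    rw [div_le_div_iff₀ (by positivity) (by norm_num)]
    nlinarith
  have hJ0 : (0 : ℝ) ≤ J1 := Nat.cast_nonneg _
  obtain ⟨s, hs⟩ : ∃ s : ℝ, s = (2 : ℝ) ^ (-(J1 : ℝ)) := ⟨_, rfl⟩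
  have hs0 : 0 < s := by rw [hs]; positivity
  have hs2 : (1 / 2 : ℝ) ^ J1 = s := by
    rw [hs, Real.rpow_neg (by norm_num), Real.rpow_natCast, one_div, inv_pow]
  -- the phase
  have hww : ∀ u : ℂ, X.ww u = D.vv X.c + X.T * u ^ X.M := fun u => rfl
  have hTM : ‖X.ww u0 - D.vv X.c‖ = ‖X.T‖ * ‖u0‖ ^ X.M := by
    rw [hww, add_sub_cancel_left, norm_mul, norm_pow]
  have hA := hw0
  unfold An at hA
  rw [mem_setOf_eq, hTM, pow_succ, hs2] at hA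
  have hTM1 : s / 2 < ‖X.T‖ * ‖u0‖ ^ X.M := by linarith [hA.1]
  have hTM2 : ‖X.T‖ * ‖u0‖ ^ X.M ≤ s := hA.2
  have hu0 : u0 ≠ 0 := by
    intro h
    rw [h, norm_zero, zero_pow (by omega), mul_zero] at hTM1
    linarith
  have hnu : 0 < ‖u0‖ := norm_pos_iff.2 hu0
  have hTn : 0 < ‖X.T‖ := norm_pos_iff.2 X.hT
  -- derivative at w0
  obtain ⟨Dw, hDw⟩ : ∃ Dw : ℂ, Dw = deriv (D.f^[m]) (X.ww u0) := ⟨_, rfl⟩
  have hbig := hT.big
  have hup := H4 (X.ww u0) J1 C κ ε c6 m hε hT m le_rfl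
  rw [← hDw] at hbig hup
  have hD0 : 0 < ‖Dw‖ := lt_of_lt_of_le (by positivity) hbig
  have hDne : Dw ≠ 0 := norm_pos_iff.1 hD0
  obtain ⟨a, ha⟩ : ∃ a : ℂ, a = Dw * (X.T * (X.M * u0 ^ (X.M - 1))) := ⟨_, rfl⟩
  have hna : ‖a‖ = ‖Dw‖ * (‖X.T‖ * (X.M * ‖u0‖ ^ (X.M - 1))) := by
    rw [ha, norm_mul, norm_mul, norm_mul, norm_pow, Complex.norm_natCast]
  have hane : a ≠ 0 := by
    rw [ha]
    refine mul_ne_zero hDne (mul_ne_zero X.hT (mul_ne_zero ?_ (pow_ne_zero _ hu0)))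
    exact_mod_cast (by omega : X.M ≠ 0)
  have hna0 : 0 < ‖a‖ := norm_pos_iff.2 hane
  have hau : ‖a‖ * ‖u0‖ = ‖Dw‖ * X.M * (‖X.T‖ * ‖u0‖ ^ X.M) := by
    have h1 : ‖u0‖ ^ X.M = ‖u0‖ ^ (X.M - 1) * ‖u0‖ := by
      rw [← pow_succ, Nat.sub_add_cancel hM]
    rw [hna, h1]
    ring
  have hau1 : ‖Dw‖ * s ≤ 2 * (‖a‖ * ‖u0‖) := by
    rw [hau]
    have h1 : ‖Dw‖ * (s / 2) ≤ ‖Dw‖ * (‖X.T‖ * ‖u0‖ ^ X.M) :=
      mul_le_mul_of_nonneg_left hTM1.le hD0.le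
    have h2 : ‖Dw‖ * (‖X.T‖ * ‖u0‖ ^ X.M) * 1 ≤ ‖Dw‖ * (‖X.T‖ * ‖u0‖ ^ X.M) * X.M :=
      mul_le_mul_of_nonneg_left hM1r (by positivity)
    nlinarith
  have hau2 : ‖a‖ * ‖u0‖ ≤ X.M * (‖Dw‖ * s) := by
    rw [hau]
    have h1 : ‖Dw‖ * X.M * (‖X.T‖ * ‖u0‖ ^ X.M) ≤ ‖Dw‖ * X.M * s :=
      mul_le_mul_of_nonneg_left hTM2 (by positivity)
    linarith
  -- the radius
  obtain ⟨ρ, hρ⟩ : ∃ ρ : ℝ, ρ = ‖u0‖ * lam := ⟨_, rfl⟩
  have hρ0 : 0 < ρ := by rw [hρ]; positivity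
  have P := H2 J1 hJ3 u0 m hw0 hT
  rw [← hlam, ← hρ] at P
  -- phase estimate
  have hnear : ∀ u ∈ ball u0 ρ, ‖u - u0‖ ≤ lam * ‖u0‖ := by
    intro u hu
    rw [mem_ball, dist_eq_norm] at hu
    rw [mul_comm lam]
    rw [← hρ]
    exact hu.le
  have hpw : ∀ u ∈ ball u0 ρ, ∀ k : ℕ, ‖u ^ k - u0 ^ k‖ ≤ 2 ^ k * lam * ‖u0‖ ^ k := by
    intro u hu k
    refine le_trans (paf_pow hlam0.le (by linarith) (hnear u hu) k) ?_
    have h1 : 0 ≤ lam * ‖u0‖ ^ k := by positivity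
    nlinarith
  have hph : ∀ u ∈ ball u0 ρ, ‖X.ww u - X.ww u0‖ ≤
      2 ^ X.M * (2 : ℝ) ^ (-((1 + c') * (J1 : ℝ))) := by
    intro u hu
    have h1 : X.ww u - X.ww u0 = X.T * (u ^ X.M - u0 ^ X.M) := by
      rw [hww, hww]
      ring
    have h2 : (2 : ℝ) ^ (-((1 + c') * (J1 : ℝ))) = s * lam := by
      rw [hs, hlam, ← Real.rpow_add (by norm_num)]
      congr 1
      ring
    rw [h1, norm_mul, h2]
    calc ‖X.T‖ * ‖u ^ X.M - u0 ^ X.M‖ ≤ ‖X.T‖ * (2 ^ X.M * lam * ‖u0‖ ^ X.M) :=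
          mul_le_mul_of_nonneg_left (hpw u hu _) hTn.le
      _ = 2 ^ X.M * ((‖X.T‖ * ‖u0‖ ^ X.M) * lam) := by ring
      _ ≤ 2 ^ X.M * (s * lam) := by
          refine mul_le_mul_of_nonneg_left ?_ h2M.le
          exact mul_le_mul_of_nonneg_right hTM2 hlam0.le
  have Q : ∀ u ∈ ball u0 ρ, (∀ n ≤ m, D.f^[n] (X.ww u) ∈ thickening (D.δ / 2) D.J ∧
      ‖deriv (D.f^[n]) (X.ww u) - deriv (D.f^[n]) (X.ww u0)‖ ≤
        1 / (16 * 2 ^ X.M) * ‖deriv (D.f^[n]) (X.ww u0)‖) := by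
    intro u hu
    exact (H3 J1 hJ4 (X.ww u0) m hT (X.ww u) (hph u hu)).1
  have hδ := D.hδ
  have hfd : ∀ u ∈ ball u0 ρ, DifferentiableAt ℂ (D.f^[m]) (X.ww u) := by
    intro u hu
    refine it_diff D fun i hi => D.hU ?_
    exact thickening_mono (by linarith) _ ((Q u hu) i hi.le).1
  have hwd : ∀ u : ℂ, HasDerivAt X.ww (X.T * (X.M * u ^ (X.M - 1))) u := by
    intro u
    have h1 : HasDerivAt (fun u : ℂ => D.vv X.c + X.T * u ^ X.M) (X.T * (X.M * u ^ (X.M - 1))) u :=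
      ((hasDerivAt_pow X.M u).const_mul X.T).const_add _
    exact h1
  have hGd : ∀ u ∈ ball u0 ρ, HasDerivAt (fun u => D.f^[m] (X.ww u))
      (deriv (D.f^[m]) (X.ww u) * (X.T * (X.M * u ^ (X.M - 1)))) u := by
    intro u hu
    exact (hfd u hu).hasDerivAt.comp u (hwd u)
  have hGb : ∀ u ∈ ball u0 ρ,
      ‖deriv (D.f^[m]) (X.ww u) * (X.T * (X.M * u ^ (X.M - 1))) - a‖ ≤ 1 / 8 * ‖a‖ := by
    intro u hu
    have h1 := ((Q u hu) m le_rfl).2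
    rw [← hDw] at h1
    have h2 : deriv (D.f^[m]) (X.ww u) * (X.T * (X.M * u ^ (X.M - 1))) - a =
        (deriv (D.f^[m]) (X.ww u) - Dw) * (X.T * (X.M * u ^ (X.M - 1))) +
          Dw * (X.T * (X.M * (u ^ (X.M - 1) - u0 ^ (X.M - 1)))) := by
      rw [ha]
      ring
    have h3 := hpw u hu (X.M - 1)
    have h4 : (2 : ℝ) ^ (X.M - 1) * 2 = 2 ^ X.M := by
      rw [← pow_succ, Nat.sub_add_cancel hM]
    have h5 : ‖u ^ (X.M - 1)‖ ≤ 2 ^ X.M * ‖u0‖ ^ (X.M - 1) := by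
      have h6 : ‖u ^ (X.M - 1)‖ ≤ ‖u ^ (X.M - 1) - u0 ^ (X.M - 1)‖ + ‖u0 ^ (X.M - 1)‖ := by
        have := norm_add_le (u ^ (X.M - 1) - u0 ^ (X.M - 1)) (u0 ^ (X.M - 1))
        rwa [sub_add_cancel] at this
      rw [norm_pow u0] at h6
      have h7 : (0 : ℝ) ≤ ‖u0‖ ^ (X.M - 1) := by positivity
      have h8 : (1 : ℝ) ≤ 2 ^ (X.M - 1) := one_le_pow₀ (by norm_num)
      have h9 : 2 ^ (X.M - 1) * lam * ‖u0‖ ^ (X.M - 1) ≤ 2 ^ (X.M - 1) * 1 * ‖u0‖ ^ (X.M - 1) := by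
        refine mul_le_mul_of_nonneg_right ?_ h7
        exact mul_le_mul_of_nonneg_left (by linarith) (by positivity)
      have h10 : (1 : ℝ) * ‖u0‖ ^ (X.M - 1) ≤ 2 ^ (X.M - 1) * ‖u0‖ ^ (X.M - 1) :=
        mul_le_mul_of_nonneg_right h8 h7
      calc ‖u ^ (X.M - 1)‖ ≤ 2 ^ (X.M - 1) * lam * ‖u0‖ ^ (X.M - 1) + ‖u0‖ ^ (X.M - 1) := by
            linarith
        _ ≤ (2 ^ (X.M - 1) * 2) * ‖u0‖ ^ (X.M - 1) := by linarith
        _ = 2 ^ X.M * ‖u0‖ ^ (X.M - 1) := by rw [h4]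
    rw [h2]
    refine le_trans (norm_add_le _ _) ?_
    have h11 : ‖(deriv (D.f^[m]) (X.ww u) - Dw) * (X.T * (X.M * u ^ (X.M - 1)))‖ ≤
        1 / 16 * ‖a‖ := by
      rw [norm_mul, norm_mul, norm_mul, Complex.norm_natCast]
      calc ‖deriv (D.f^[m]) (X.ww u) - Dw‖ * (‖X.T‖ * (X.M * ‖u ^ (X.M - 1)‖))
          ≤ (1 / (16 * 2 ^ X.M) * ‖Dw‖) * (‖X.T‖ * (X.M * (2 ^ X.M * ‖u0‖ ^ (X.M - 1)))) := by
            refine mul_le_mul h1 ?_ (by positivity) (by positivity)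
            refine mul_le_mul_of_nonneg_left ?_ hTn.le
            exact mul_le_mul_of_nonneg_left h5 hMr.le
        _ = 1 / 16 * ‖a‖ := by
            rw [hna]
            field_simp
    have h12 : ‖Dw * (X.T * (X.M * (u ^ (X.M - 1) - u0 ^ (X.M - 1))))‖ ≤ 1 / 16 * ‖a‖ := by
      rw [norm_mul, norm_mul, norm_mul, Complex.norm_natCast]
      have h13 : ‖u ^ (X.M - 1) - u0 ^ (X.M - 1)‖ ≤ 1 / 16 * ‖u0‖ ^ (X.M - 1) := by
        refine le_trans h3 (mul_le_mul_of_nonneg_right ?_ (by positivity))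
        have h14 : (2 : ℝ) ^ (X.M - 1) * lam ≤ 2 ^ X.M * (1 / (16 * 2 ^ X.M)) := by
          refine mul_le_mul ?_ E1 hlam0.le h2M.le
          have h15 : (0 : ℝ) < 2 ^ (X.M - 1) := by positivity
          linarith
        have h16 : (2 : ℝ) ^ X.M * (1 / (16 * 2 ^ X.M)) = 1 / 16 := by
          field_simp
        linarith
      calc ‖Dw‖ * (‖X.T‖ * (X.M * ‖u ^ (X.M - 1) - u0 ^ (X.M - 1)‖))
          ≤ ‖Dw‖ * (‖X.T‖ * (X.M * (1 / 16 * ‖u0‖ ^ (X.M - 1)))) := by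
            refine mul_le_mul_of_nonneg_left ?_ hD0.le
            refine mul_le_mul_of_nonneg_left ?_ hTn.le
            exact mul_le_mul_of_nonneg_left h13 hMr.le
        _ = 1 / 16 * ‖a‖ := by
            rw [hna]
            ring
    linarith
  -- g is holomorphic
  have hsub : ball u0 ρ ⊆ ball 0 X.ρ0 := fun u hu => (P u hu).1
  have hgd : DifferentiableOn ℂ (X.g m) (ball u0 ρ) := by
    refine fam_diff D X isOpen_ball hsub (fun i hi u hu => ?_) m le_rfl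
    exact thickening_mono (by linarith) _ ((P u hu).2.1 i hi.le)
  have hgda : ∀ u ∈ ball u0 ρ, DifferentiableAt ℂ (X.g m) u := fun u hu =>
    hgd.differentiableAt (isOpen_ball.mem_nhds hu)
  have hsub2 : ball u0 (ρ / 2) ⊆ ball u0 ρ := ball_subset_ball (by linarith)
  -- Cauchy
  have hea : a1 = c' + (a1 - c') := by ring
  have hlamA : (2 : ℝ) ^ (-((1 + a1) * (J1 : ℝ))) = s * lam * (2 : ℝ) ^ (-((a1 - c') * (J1 : ℝ))) := by
    rw [hs, hlam, ← Real.rpow_add (by norm_num), ← Real.rpow_add (by norm_num)]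
    congr 1
    ring
  have hed : ∀ u ∈ ball u0 (ρ / 2),
      ‖deriv (fun u => X.g m u - D.f^[m] (X.ww u)) u‖ ≤ 1 / 8 * ‖a‖ := by
    intro u hu
    have hcb : closedBall u (ρ / 4) ⊆ ball u0 ρ := by
      intro v hv
      rw [mem_closedBall] at hv
      rw [mem_ball] at hu ⊢
      have := dist_triangle v u u0
      linarith
    have hdc : DiffContOnCl ℂ (fun u => X.g m u - D.f^[m] (X.ww u)) (ball u (ρ / 4)) := by
      refine DifferentiableOn.diffContOnCl ?_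
      rw [closure_ball u (by positivity)]
      intro v hv
      have hv2 := hcb hv
      exact ((hgda v hv2).sub (hGd v hv2).differentiableAt).differentiableWithinAt
    have h1 := Complex.norm_deriv_le_of_forall_mem_sphere_norm_le (c := u) (R := ρ / 4)
      (C := (2 : ℝ) ^ (-((1 + a1) * (J1 : ℝ))) * ‖Dw‖) (by positivity) hdc (fun v hv => by
        have hv2 := hcb (sphere_subset_closedBall hv)
        have h2 := (P v hv2).2.2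
        rw [← hDw] at h2
        exact h2)
    refine le_trans h1 ?_
    rw [div_le_iff₀ (by positivity), hlamA, hρ]
    calc s * lam * (2 : ℝ) ^ (-((a1 - c') * (J1 : ℝ))) * ‖Dw‖
        = (2 : ℝ) ^ (-((a1 - c') * (J1 : ℝ))) * (lam * (‖Dw‖ * s)) := by ring
      _ ≤ (1 / 64) * (lam * (2 * (‖a‖ * ‖u0‖))) := by
          refine mul_le_mul E2 ?_ (by positivity) (by norm_num)
          exact mul_le_mul_of_nonneg_left hau1 hlam0.le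
      _ = 1 / 8 * ‖a‖ * (‖u0‖ * lam / 4) := by ring
  -- conclusion
  have hsz : ‖a‖ * (ρ / 2) = (‖a‖ * ‖u0‖) * lam / 2 := by
    rw [hρ]
    ring
  refine ⟨ρ / 2, a, by positivity, ?_, hsub2.trans hsub, hane, ?_, hgd.mono hsub2, ?_, ?_, ?_⟩
  · have h1 : ρ ≤ ‖u0‖ := by
      rw [hρ]
      calc ‖u0‖ * lam ≤ ‖u0‖ * 1 := mul_le_mul_of_nonneg_left (by linarith) hnu.le
        _ = ‖u0‖ := mul_one _
    linarith
  · intro i hi u hu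
    exact (P u (hsub2 hu)).2.1 i hi
  · intro u hu
    have hu2 := hsub2 hu
    have h1 : deriv (fun u => X.g m u - D.f^[m] (X.ww u)) u = deriv (X.g m) u -
        deriv (D.f^[m]) (X.ww u) * (X.T * (X.M * u ^ (X.M - 1))) := by
      have h2 := (hgda u hu2).hasDerivAt.sub (hGd u hu2)
      exact h2.deriv
    have h3 := hed u hu
    rw [h1] at h3
    have h4 := hGb u hu2
    have h5 := norm_add_le (deriv (X.g m) u -
        deriv (D.f^[m]) (X.ww u) * (X.T * (X.M * u ^ (X.M - 1))))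
        (deriv (D.f^[m]) (X.ww u) * (X.T * (X.M * u ^ (X.M - 1))) - a)
    rw [sub_add_sub_cancel] at h5
    linarith
  · rw [hsz]
    have h1 : ‖Dw‖ * s * lam ≤ Cz * (2 : ℝ) ^ (-((c' - ε) * (J1 : ℝ))) := by
      calc ‖Dw‖ * s * lam ≤ (Cz * (2 : ℝ) ^ ((1 + ε) * (J1 : ℝ))) * s * lam := by
            refine mul_le_mul_of_nonneg_right ?_ hlam0.le
            exact mul_le_mul_of_nonneg_right hup hs0.le
        _ = Cz * (2 : ℝ) ^ (-((c' - ε) * (J1 : ℝ))) := by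
            rw [hs, hlam, mul_assoc, mul_assoc, ← Real.rpow_add (by norm_num),
              ← Real.rpow_add (by norm_num)]
            congr 2
            ring
    have h2 : Cz * (2 : ℝ) ^ (-((c' - ε) * (J1 : ℝ))) ≤ Cz * (r / (X.M * Cz)) :=
      mul_le_mul_of_nonneg_left E3 (by linarith)
    have h3 : X.M * (Cz * (r / (X.M * Cz))) = r := by
      have : Cz ≠ 0 := by linarith
      field_simp
    have h4 : (‖a‖ * ‖u0‖) * lam ≤ X.M * (‖Dw‖ * s) * lam :=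
      mul_le_mul_of_nonneg_right hau2 hlam0.le
    have h5 : X.M * (‖Dw‖ * s * lam) ≤ X.M * (Cz * (r / (X.M * Cz))) :=
      mul_le_mul_of_nonneg_left (h1.trans h2) hMr.le
    rw [h3] at h5
    have h6 : X.M * (‖Dw‖ * s) * lam = X.M * (‖Dw‖ * s * lam) := by ring
    linarith
  · rw [hsz]
    have h1 : (2 : ℝ) ^ ((1 - κ) * (J1 : ℝ)) * s * lam ≤ 2 * (‖a‖ * ‖u0‖) * lam := by
      refine mul_le_mul_of_nonneg_right ?_ hlam0.le
      exact le_trans (mul_le_mul_of_nonneg_right hbig hs0.le) hau1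
    have h2 : (2 : ℝ) ^ (-((κ + 2 * c') * (J1 : ℝ))) =
        (2 : ℝ) ^ ((1 - κ) * (J1 : ℝ)) * s * lam * lam := by
      rw [hs, hlam, mul_assoc, mul_assoc, ← Real.rpow_add (by norm_num),
        ← Real.rpow_add (by norm_num), ← Real.rpow_add (by norm_num)]
      congr 1
      ring
    rw [h2]
    have h3 : (2 : ℝ) ^ ((1 - κ) * (J1 : ℝ)) * s * lam * lam ≤
        (2 * (‖a‖ * ‖u0‖) * lam) * (1 / 16) :=
      mul_le_mul h1 hlam1 hlam0.le (by positivity)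
    have h4 : 0 ≤ ‖a‖ * ‖u0‖ * lam := by positivity
    linarith

end Pool.Agent.H44.DN
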