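import Pool.Agent.H44.DN.ITER

/-!
# Module SH: shadowing

PROOF. `Z` (`zt_bd`). `ε1 ≤ 1/8`, `16 C ε1 ≤ 1`, `2 ε1 Z < δ / 4`. `w_n = f^[n] w`, `Λ_n = ‖deriv (f^[n]) w‖ > 0` (`it_ne`), `ζ_n = zt w_n`, `S1 = ∑_{n0 ≤ n < m} Λ_n / ζ_n`, `E' = E + η ∑ 1 / Λ_(n+1)`, `E' S1 ≤ ε1`, in particular `E' Λ_n ≤ ε1 ζ_n` for `n0 ≤ n < m`.
Claim by induction on `n` (`n0 ≤ n ≤ m`): `‖x_n - w_n‖ ≤ F_n Λ_n` with `F_n = (E + η ∑_{n0 ≤ k < n} 1 / Λ_(k+1)) * exp (8 C E' ∑_{n0 ≤ k < n} Λ_k / ζ_k)`; since the exponent is at most `8 C ε1 ≤ 1/2`, `F_n ≤ 2 E'` (`exp (1/2) ≤ 2`).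
Step: `e = ‖x_n - w_n‖ ≤ 2 E' Λ_n ≤ 2 ε1 ζ_n ≤ ζ_n / 4`, `< δ/4`; so `x_n ∈ thickening δ J` (`w_n ∈ thickening (δ/2) J`, `th_add`). By `D.hdist` on the segment: `‖f x_n - f w_n - deriv f w_n (x_n - w_n)‖ ≤ C ‖deriv f w_n‖ e^2 / ζ_n` (mean value inequality on the convex ball of radius `e`). So
`‖x_(n+1) - w_(n+1)‖ ≤ η + ‖deriv f w_n‖ e (1 + C e / ζ_n)`, `‖deriv f w_n‖ Λ_n = Λ_(n+1)` (`it_succ`), `C e / ζ_n ≤ 2 C E' Λ_n / ζ_n`: divide by `Λ_(n+1)`: `≤ η / Λ_(n+1) + F_n (1 + 2 C E' Λ_n / ζ_n) ≤ F_(n+1)`.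
-/

set_option autoImplicit false

open Filter Topology Metric Set

namespace Pool.Agent.H44.DN

theorem sh (D : Ds) : ∃ ε1 : ℝ, 0 < ε1 ∧ ∀ (w : ℂ) (n0 m : ℕ) (x : ℕ → ℂ) (η E : ℝ), n0 ≤ m →
    (∀ n < m, D.f^[n] w ∈ thickening (D.δ / 2) D.J ∧ D.f^[n] w ∉ D.Cr) → 0 ≤ η → 0 ≤ E →
    ‖x n0 - D.f^[n0] w‖ ≤ E * ‖deriv (D.f^[n0]) w‖ →
    (∀ n, n0 ≤ n → n < m → x n ∈ thickening D.δ D.J → ‖x (n + 1) - D.f (x n)‖ ≤ η) →
    (E + η * ∑ n ∈ Finset.Ico n0 m, 1 / ‖deriv (D.f^[n + 1]) w‖) *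
      (∑ n ∈ Finset.Ico n0 m, ‖deriv (D.f^[n]) w‖ / D.zt (D.f^[n] w)) ≤ ε1 →
    ∀ n, n0 ≤ n → n ≤ m → ‖x n - D.f^[n] w‖ ≤
      2 * (E + η * ∑ k ∈ Finset.Ico n0 m, 1 / ‖deriv (D.f^[k + 1]) w‖) * ‖deriv (D.f^[n]) w‖ := by
  obtain ⟨Z, hZ1, hZ⟩ := zt_bd D
  have hC := D.hC
  have hδ := D.hδ
  have hZ0 : 0 < Z := by linarith
  have hC0 : 0 < D.C := by linarith
  refine ⟨min (1 / 8) (min (1 / (16 * D.C)) (D.δ / (16 * Z))), ?_, ?_⟩
  · refine lt_min (by norm_num) (lt_min (by positivity) (by positivity))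
  set ε1 : ℝ := min (1 / 8) (min (1 / (16 * D.C)) (D.δ / (16 * Z))) with hε1
  have he1 : ε1 ≤ 1 / 8 := min_le_left _ _
  have he2 : 16 * D.C * ε1 ≤ 1 := by
    have h1 : ε1 ≤ 1 / (16 * D.C) := (min_le_right _ _).trans (min_le_left _ _)
    rw [le_div_iff₀ (by positivity)] at h1
    linarith
  have he3 : 16 * Z * ε1 ≤ D.δ := by
    have h1 : ε1 ≤ D.δ / (16 * Z) := (min_le_right _ _).trans (min_le_right _ _)
    rw [le_div_iff₀ (by positivity)] at h1
    linarith
  intro w n0 m x η E hnm hw hη hE hx0 hx hS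
  have hthδ : ∀ n < m, D.f^[n] w ∈ thickening D.δ D.J ∧ D.f^[n] w ∉ D.Cr := fun n hn =>
    ⟨thickening_mono (by linarith) _ (hw n hn).1, (hw n hn).2⟩
  -- positivity of the derivatives
  have hΛ : ∀ n ≤ m, 0 < ‖deriv (D.f^[n]) w‖ := fun n hn =>
    norm_pos_iff.2 (it_ne D fun i hi => hthδ i (lt_of_lt_of_le hi hn))
  have hζ : ∀ n < m, 0 < D.zt (D.f^[n] w) := fun n hn => zt_pos D (hw n hn).2
  set A : ℕ → ℝ := fun n => ∑ k ∈ Finset.Ico n0 n, 1 / ‖deriv (D.f^[k + 1]) w‖ with hA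
  set B : ℕ → ℝ := fun n => ∑ k ∈ Finset.Ico n0 n, ‖deriv (D.f^[k]) w‖ / D.zt (D.f^[k] w) with hB
  have hA0 : ∀ n, 0 ≤ A n := fun n => Finset.sum_nonneg fun k _ => by positivity
  have hBterm : ∀ k, 0 ≤ ‖deriv (D.f^[k]) w‖ / D.zt (D.f^[k] w) := fun k =>
    div_nonneg (norm_nonneg _) (zt_nonneg D _)
  have hB0 : ∀ n, 0 ≤ B n := fun n => Finset.sum_nonneg fun k _ => hBterm k
  have hAm : ∀ n, n ≤ m → A n ≤ A m := fun n hn =>
    Finset.sum_le_sum_of_subset_of_nonneg (Finset.Ico_subset_Ico le_rfl hn) fun k _ _ => by positivity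
  have hBm : ∀ n, n ≤ m → B n ≤ B m := fun n hn =>
    Finset.sum_le_sum_of_subset_of_nonneg (Finset.Ico_subset_Ico le_rfl hn) fun k _ _ => hBterm k
  have hBk : ∀ n, n0 ≤ n → n < m → ‖deriv (D.f^[n]) w‖ / D.zt (D.f^[n] w) ≤ B m := fun n h1 h2 =>
    Finset.single_le_sum (f := fun k => ‖deriv (D.f^[k]) w‖ / D.zt (D.f^[k] w))
      (fun k _ => hBterm k) (Finset.mem_Ico.2 ⟨h1, h2⟩)
  set E' : ℝ := E + η * A m with hE'
  have hE'0 : 0 ≤ E' := add_nonneg hE (mul_nonneg hη (hA0 m))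
  have hSS : E' * B m ≤ ε1 := hS
  set F : ℕ → ℝ := fun n => (E + η * A n) * Real.exp (8 * D.C * E' * B n) with hF
  have hF0 : ∀ n, 0 ≤ F n := fun n =>
    mul_nonneg (add_nonneg hE (mul_nonneg hη (hA0 n))) (Real.exp_pos _).le
  have hexp2 : Real.exp (1 / 2) ≤ 2 := by
    have h1 := Real.exp_one_lt_d9
    have h2 : Real.exp (1 / 2) ^ 2 = Real.exp 1 := by
      rw [← Real.exp_nat_mul]
      norm_num
    nlinarith [Real.exp_pos (1 / 2 : ℝ)]
  have hF2 : ∀ n, n ≤ m → F n ≤ 2 * E' := by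
    intro n hn
    have h1 : E + η * A n ≤ E' := by
      rw [hE']
      have := mul_le_mul_of_nonneg_left (hAm n hn) hη
      linarith
    have h2 : Real.exp (8 * D.C * E' * B n) ≤ 2 := by
      refine le_trans (Real.exp_le_exp.2 ?_) hexp2
      have h3 : E' * B n ≤ ε1 := (mul_le_mul_of_nonneg_left (hBm n hn) hE'0).trans hSS
      calc 8 * D.C * E' * B n = 8 * D.C * (E' * B n) := by ring
        _ ≤ 8 * D.C * ε1 := mul_le_mul_of_nonneg_left h3 (by positivity)
        _ ≤ 1 / 2 := by linarith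
    calc F n = (E + η * A n) * Real.exp (8 * D.C * E' * B n) := rfl
      _ ≤ E' * 2 := mul_le_mul h1 h2 (Real.exp_pos _).le hE'0
      _ = 2 * E' := by ring
  have key : ∀ n, n0 ≤ n → n ≤ m → ‖x n - D.f^[n] w‖ ≤ F n * ‖deriv (D.f^[n]) w‖ := by
    intro n hn
    induction n, hn using Nat.le_induction with
    | base =>
      intro _
      have h1 : F n0 = E := by
        simp [hF, hA, hB]
      rw [h1]
      exact hx0
    | succ n hn ih =>
      intro hnm1
      have hnm' : n < m := by omega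
      have ih1 := ih hnm'.le
      set wn := D.f^[n] w with hwn
      set Λ := ‖deriv (D.f^[n]) w‖ with hΛn
      set ζ := D.zt wn with hζn
      have hΛ0 : 0 < Λ := hΛ n hnm'.le
      have hζ0 : 0 < ζ := hζ n hnm'
      set e := ‖x n - wn‖ with he
      have he0 : 0 ≤ e := norm_nonneg _
      have hEΛ : E' * Λ ≤ ε1 * ζ := by
        have h1 : E' * (Λ / ζ) ≤ ε1 := (mul_le_mul_of_nonneg_left (hBk n hn hnm') hE'0).trans hSS
        rw [← mul_div_assoc, div_le_iff₀ hζ0] at h1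
        exact h1
      have heE : e ≤ 2 * (E' * Λ) := by
        have h1 := mul_le_mul_of_nonneg_right (hF2 n hnm'.le) hΛ0.le
        linarith
      have heζ : e ≤ 2 * (ε1 * ζ) := by linarith
      have heζ4 : e ≤ ζ / 4 := by
        have : ε1 * ζ ≤ 1 / 8 * ζ := mul_le_mul_of_nonneg_right he1 hζ0.le
        linarith
      have hζZ : ζ ≤ Z := hZ _ (hthδ n hnm').1
      have heδ : e < D.δ / 4 := by
        have h1 : ε1 * ζ ≤ ε1 * Z := mul_le_mul_of_nonneg_left hζZ
          (le_min (by norm_num) (le_min (by positivity) (by positivity)))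
        have h2 : e ≤ D.δ / 8 := by nlinarith
        linarith
      have hxn : x n ∈ thickening D.δ D.J := by
        have h1 := th_add (hw n hnm').1 heδ
        exact thickening_mono (by linarith) _ h1
      have hstep := hx n hn hnm' hxn
      -- the mean value inequality
      set d := deriv D.f wn with hd
      have hball : ∀ u ∈ closedBall wn e, HasDerivWithinAt (fun v => D.f v - d * v)
          (deriv D.f u - d) (closedBall wn e) u := by
        intro u hu
        rw [mem_closedBall, dist_eq_norm] at hu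
        have h1 : u ∈ thickening (D.δ / 2 + D.δ / 4) D.J :=
          th_add (hw n hnm').1 (lt_of_le_of_lt hu heδ)
        have h2 : u ∈ D.G := D.hU (thickening_mono (by linarith) _ h1)
        have h3 := (D.hf.differentiableAt (D.hG.mem_nhds h2)).hasDerivAt
        have h4 := h3.sub ((hasDerivAt_id u).const_mul d)
        rw [mul_one] at h4
        exact h4.hasDerivWithinAt
      have hbd : ∀ u ∈ closedBall wn e, ‖deriv D.f u - d‖ ≤ D.C * ‖d‖ * e / ζ := by
        intro u hu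
        rw [mem_closedBall, dist_eq_norm] at hu
        have h1 := D.hdist wn (hw n hnm').1 u (by linarith) (by
          have : infDist wn (D.Cr : Set ℂ) = ζ := rfl
          rw [this]
          linarith)
        have h2 : infDist wn (D.Cr : Set ℂ) = ζ := rfl
        rw [h2] at h1
        rw [le_div_iff₀ hζ0]
        refine h1.trans ?_
        exact mul_le_mul_of_nonneg_left hu (by positivity)
      have hmv := Convex.norm_image_sub_le_of_norm_hasDerivWithin_le hball hbd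
        (convex_closedBall wn e) (mem_closedBall_self he0)
        (show x n ∈ closedBall wn e by rw [mem_closedBall, dist_eq_norm])
      have hmv2 : ‖D.f (x n) - D.f wn‖ ≤ ‖d‖ * e + D.C * ‖d‖ * e / ζ * e := by
        have h1 : D.f (x n) - D.f wn = d * (x n - wn) +
            ((D.f (x n) - d * x n) - (D.f wn - d * wn)) := by ring
        rw [h1]
        refine (norm_add_le _ _).trans ?_
        rw [norm_mul]
        exact add_le_add le_rfl hmv
      have hw1 : D.f^[n + 1] w = D.f wn := Function.iterate_succ_apply' D.f n w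
      have hΛ1 : ‖deriv (D.f^[n + 1]) w‖ = ‖d‖ * Λ := by
        rw [it_succ D fun i hi => D.hU (hthδ i (by omega)).1, norm_mul]
      have hΛ10 : 0 < ‖d‖ * Λ := by
        rw [← hΛ1]
        exact hΛ (n + 1) hnm1
      have hd0 : 0 < ‖d‖ := by
        by_contra hcon
        have : ‖d‖ = 0 := le_antisymm (not_lt.1 hcon) (norm_nonneg _)
        rw [this, zero_mul] at hΛ10
        exact lt_irrefl _ hΛ10
      have h1 : ‖x (n + 1) - D.f^[n + 1] w‖ ≤ η + (‖d‖ * e + D.C * ‖d‖ * e / ζ * e) := by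
        rw [hw1]
        have h2 : x (n + 1) - D.f wn = (x (n + 1) - D.f (x n)) + (D.f (x n) - D.f wn) := by ring
        rw [h2]
        exact (norm_add_le _ _).trans (add_le_add hstep hmv2)
      rw [hΛ1]
      -- comparison
      have hA1 : A (n + 1) = A n + 1 / (‖d‖ * Λ) := by
        rw [hA]
        simp only
        rw [Finset.sum_Ico_succ_top hn, hΛ1]
      have hB1 : B (n + 1) = B n + Λ / ζ := by
        rw [hB]
        simp only
        rw [Finset.sum_Ico_succ_top hn]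
      have hFs : F n * (1 + 8 * D.C * E' * (Λ / ζ)) + η / (‖d‖ * Λ) ≤ F (n + 1) := by
        have h2 : F (n + 1) = ((E + η * A n) + η / (‖d‖ * Λ)) *
            (Real.exp (8 * D.C * E' * B n) * Real.exp (8 * D.C * E' * (Λ / ζ))) := by
          show (E + η * A (n + 1)) * Real.exp (8 * D.C * E' * B (n + 1)) = _
          rw [hA1, hB1, ← Real.exp_add]
          congr 1
          · ring
          · congr 1
            ring
        rw [h2]
        have h3 : 1 + 8 * D.C * E' * (Λ / ζ) ≤ Real.exp (8 * D.C * E' * (Λ / ζ)) := by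
          have := Real.add_one_le_exp (8 * D.C * E' * (Λ / ζ))
          linarith
        have h4 : 1 ≤ Real.exp (8 * D.C * E' * B n) :=
          Real.one_le_exp (mul_nonneg (by positivity) (hB0 n))
        have h5 : 1 ≤ Real.exp (8 * D.C * E' * (Λ / ζ)) :=
          Real.one_le_exp (by positivity)
        have h6 : F n * (1 + 8 * D.C * E' * (Λ / ζ)) ≤
            (E + η * A n) * (Real.exp (8 * D.C * E' * B n) * Real.exp (8 * D.C * E' * (Λ / ζ))) := by
          rw [← mul_assoc]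
          exact mul_le_mul_of_nonneg_left h3 (hF0 n)
        have h7 : η / (‖d‖ * Λ) ≤ η / (‖d‖ * Λ) *
            (Real.exp (8 * D.C * E' * B n) * Real.exp (8 * D.C * E' * (Λ / ζ))) :=
          le_mul_of_one_le_right (by positivity) (one_le_mul_of_one_le_of_one_le h4 h5)
        linarith
      have h2 : η + (‖d‖ * e + D.C * ‖d‖ * e / ζ * e) ≤
          (F n * (1 + 8 * D.C * E' * (Λ / ζ)) + η / (‖d‖ * Λ)) * (‖d‖ * Λ) := by
        have h3 : (F n * (1 + 8 * D.C * E' * (Λ / ζ)) + η / (‖d‖ * Λ)) * (‖d‖ * Λ) =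
            η + ‖d‖ * (F n * Λ) * (1 + 8 * D.C * E' * (Λ / ζ)) := by
          field_simp
          ring
        rw [h3]
        have h4 : ‖d‖ * e + D.C * ‖d‖ * e / ζ * e = ‖d‖ * e * (1 + D.C * (e / ζ)) := by
          field_simp
        rw [h4]
        have h5 : e / ζ ≤ 8 * E' * (Λ / ζ) := by
          rw [← mul_div_assoc]
          apply div_le_div_of_nonneg_right _ hζ0.le
          nlinarith [mul_nonneg hE'0 hΛ0.le]
        have h6 : 1 + D.C * (e / ζ) ≤ 1 + 8 * D.C * E' * (Λ / ζ) := by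
          have := mul_le_mul_of_nonneg_left h5 hC0.le
          nlinarith
        have h7 : ‖d‖ * e ≤ ‖d‖ * (F n * Λ) := mul_le_mul_of_nonneg_left ih1 hd0.le
        have h8 : ‖d‖ * e * (1 + D.C * (e / ζ)) ≤
            ‖d‖ * (F n * Λ) * (1 + 8 * D.C * E' * (Λ / ζ)) :=
          mul_le_mul h7 h6 (by positivity) (le_trans (by positivity) h7)
        linarith
      have h3 := mul_le_mul_of_nonneg_right hFs hΛ10.le
      linarith
  intro n h1 h2
  refine (key n h1 h2).trans ?_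
  exact mul_le_mul_of_nonneg_right (hF2 n h2) (norm_nonneg _)

end Pool.Agent.H44.DN
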