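import Pool.Agent.H44.DN.IND
import Pool.Agent.H44.DN.FWD

/-!
# Module UNB: the derivatives in the metric are unbounded

PROOF. Suppose `Aw x k ≤ Q` for all `k`. `χ, R0` (`ind`), `P0, N0` and for `z = z2` (`fwd`: `z2, c2, C2`) `R0'` (`obs`); `R = min R0 R0'`. `cx` from `ind`, `N` from `norm_fin` (`‖deriv (f^[n]) x‖ ≤ Q / ph x`).
Let `n ≥ N`, `MR D x n R r` (`mr_ex`): `r ≠ R`. `obs`: `i, c`, `Ob`, `m = n - 1 - i`, `ζ = ‖x_m - c‖ ≤ z2`, `P(i) = P0 (i+1)^N0`. `num`: `UU D x m ρ`, `ρ = r / (32 Λ) ≥ ζ / (32 P(i))` (`Ob.d3`). `fwd` at `m`: `b ≥ c2 log (1/ζ)`, `r'` with `UU D x (m+b) r'` and `zt x_(m+b) / (32 P(i)) ≤ C2 (b+1)^2 r'`. `MR D x (m+b) R r''` (`mr_ex`), `r'' ≥ min R r' / 2` (`mr_big`).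
So `min 1 (r'' / zt x_(m+b)) ≥ a / (P(i) (b+1)^2)` with `a > 0` depending on `R` (`zt ≤ Z`, `zt_bd`). `ind`: `cx exp (χ (m+b)) (a / (P(i) (b+1)^2)) ^ (1-α) ≤ Q`. (*)
`Ob.d1`, `D.ce3`: `q^i / C ≤ E ≤ P(i) r ζ^(-m c) ≤ P(i) ζ ^ (-Mx)` (`m c ≤ M c ≤ Mx`), so `i log q ≤ log C + log P(i) + Mx log (1/ζ)`, hence `i ≤ A + A b` for a constant `A` of `D` (`log P(i) ≤ (i log q)/2 + const`). So (*) bounds `m + b` (`P(i)` is polynomial in `b`), hence `i` and `n = m + i + 1`, by a constant depending on `x`, `Q`, `R`. But `n ≥ N` was arbitrary. Contradiction.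
-/

set_option autoImplicit false

open Filter Topology Metric Set

namespace Pool.Agent.H44.DN

private theorem unb_exp {χ : ℝ} (hχ : 0 < χ) (K : ℝ) (p : ℕ) : ∃ B : ℕ, ∀ k : ℕ,
    Real.exp (χ * k) ≤ K * ((k : ℝ) + 1) ^ p → k ≤ B := by
  have hr : 1 < Real.exp χ := Real.one_lt_exp_iff.2 hχ
  have h1 : Tendsto (fun n : ℕ => (n : ℝ) ^ p / Real.exp χ ^ n) atTop (𝓝 0) :=
    tendsto_pow_const_div_const_pow_of_one_lt p hr
  have h2 : Tendsto (fun k : ℕ => K * Real.exp χ * (((k + 1 : ℕ) : ℝ) ^ p / Real.exp χ ^ (k + 1)))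
      atTop (𝓝 (K * Real.exp χ * 0)) :=
    (h1.comp (tendsto_add_atTop_nat 1)).const_mul _
  rw [mul_zero] at h2
  obtain ⟨B, hB⟩ := eventually_atTop.1 (h2.eventually (gt_mem_nhds (zero_lt_one)))
  refine ⟨B, fun k hk => ?_⟩
  by_contra hcon
  have h3 := hB k (not_le.1 hcon).le
  have h4 : Real.exp (χ * k) = Real.exp χ ^ k := by
    rw [mul_comm, Real.exp_nat_mul]
  rw [h4] at hk
  have hp : 0 < Real.exp χ ^ k := pow_pos (Real.exp_pos _) _
  have h5 : K * Real.exp χ * (((k + 1 : ℕ) : ℝ) ^ p / Real.exp χ ^ (k + 1)) =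
      K * ((k : ℝ) + 1) ^ p / Real.exp χ ^ k := by
    have := (Real.exp_pos χ).ne'
    push_cast
    rw [pow_succ (Real.exp χ) k]
    field_simp
  rw [h5, div_lt_one hp] at h3
  exact absurd hk (not_le.2 h3)

private theorem unb_i {q K c2 : ℝ} (hq : 1 < q) (hK : 0 < K) (hc2 : 0 < c2) (N0 Mx : ℕ) :
    ∃ A : ℝ, 0 ≤ A ∧ ∀ (i b : ℕ) (z : ℝ), 0 < z → c2 * Real.log (1 / z) ≤ b →
      q ^ i * z ^ Mx ≤ K * ((i : ℝ) + 1) ^ N0 → (i : ℝ) ≤ A * ((b : ℝ) + 1) := by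
  set s := Real.sqrt q with hs
  have hs1 : 1 < s := by
    rw [hs, Real.lt_sqrt (by norm_num)]
    linarith
  have hs0 : 0 < s := by linarith
  have hss : s * s = q := Real.mul_self_sqrt (by linarith)
  have hlog : 0 < Real.log s := Real.log_pos hs1
  -- a bound of the polynomial
  obtain ⟨K2, hK2, hK2'⟩ : ∃ K2 : ℝ, 0 < K2 ∧ ∀ i : ℕ, ((i : ℝ) + 1) ^ N0 ≤ K2 * s ^ i := by
    have h1 : Tendsto (fun n : ℕ => (n : ℝ) ^ N0 / s ^ n) atTop (𝓝 0) :=
      tendsto_pow_const_div_const_pow_of_one_lt N0 hs1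
    have h2 := (h1.comp (tendsto_add_atTop_nat 1)).bddAbove_range
    obtain ⟨M, hM⟩ := h2
    refine ⟨(|M| + 1) * s, by positivity, fun i => ?_⟩
    have h3 : (((i + 1 : ℕ) : ℝ)) ^ N0 / s ^ (i + 1) ≤ M := hM ⟨i, rfl⟩
    rw [div_le_iff₀ (pow_pos hs0 _)] at h3
    push_cast at h3
    refine h3.trans ?_
    rw [pow_succ]
    have h4 : M ≤ |M| + 1 := (le_abs_self M).trans (by linarith)
    have h5 : 0 < s ^ i * s := by positivity
    calc M * (s ^ i * s) ≤ (|M| + 1) * (s ^ i * s) := mul_le_mul_of_nonneg_right h4 h5.le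
      _ = (|M| + 1) * s * s ^ i := by ring
  refine ⟨(|Real.log (K * K2)| + Mx / c2) / Real.log s, by positivity, ?_⟩
  intro i b z hz hb hi
  have hL : Real.log (1 / z) ≤ b / c2 := by
    rw [le_div_iff₀ hc2]
    linarith
  -- `s ^ i * z ^ Mx ≤ K K2`
  have h1 : s ^ i * z ^ Mx ≤ K * K2 := by
    have h2 : q ^ i = s ^ i * s ^ i := by rw [← hss, mul_pow]
    have h3 : s ^ i * (s ^ i * z ^ Mx) ≤ s ^ i * (K * K2) := by
      calc s ^ i * (s ^ i * z ^ Mx) = q ^ i * z ^ Mx := by rw [h2]; ring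
        _ ≤ K * ((i : ℝ) + 1) ^ N0 := hi
        _ ≤ K * (K2 * s ^ i) := mul_le_mul_of_nonneg_left (hK2' i) hK.le
        _ = s ^ i * (K * K2) := by ring
    exact le_of_mul_le_mul_left h3 (pow_pos hs0 _)
  have h2 : Real.log (s ^ i * z ^ Mx) ≤ Real.log (K * K2) :=
    Real.log_le_log (by positivity) h1
  rw [Real.log_mul (by positivity) (by positivity), Real.log_pow, Real.log_pow] at h2
  have h3 : Real.log (1 / z) = - Real.log z := by rw [one_div, Real.log_inv]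
  rw [h3] at hL
  have h4 : (Mx : ℝ) * (-Real.log z) ≤ Mx * (b / c2) :=
    mul_le_mul_of_nonneg_left hL (Nat.cast_nonneg _)
  have h5 : (i : ℝ) * Real.log s ≤ |Real.log (K * K2)| + Mx * (b / c2) := by
    have := le_abs_self (Real.log (K * K2))
    linarith
  rw [div_mul_eq_mul_div, le_div_iff₀ hlog]
  refine h5.trans ?_
  have h6 : 0 ≤ |Real.log (K * K2)| := abs_nonneg _
  have h7 : (0 : ℝ) ≤ Mx / c2 := by positivity
  have h8 : (Mx : ℝ) * (b / c2) = Mx / c2 * b := by ring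
  rw [h8]
  have h9 : (0 : ℝ) ≤ b := Nat.cast_nonneg _
  nlinarith

theorem unb (D : Ds) {x : ℂ} (hx : NC D x) (Q : ℝ) : ∃ k : ℕ, Q < D.Aw x k := by
  by_contra hcon
  push Not at hcon
  obtain ⟨χ, R0, hχ, hR0, hR01, hR0δ, hind⟩ := ind D
  obtain ⟨z2, c2, C2, hz2, hz2', hc2, hC2, hfwd⟩ := fwd D
  obtain ⟨P0, N0, hP0, hobs⟩ := obs D
  obtain ⟨R0', hR0', hR0'δ, hobs⟩ := hobs z2 hz2
  obtain ⟨Z, hZ1, hZ⟩ := zt_bd D
  set R := min R0 R0' with hR
  have hRpos : 0 < R := lt_min hR0 hR0'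
  have hR1 : R ≤ 1 := (min_le_left _ _).trans hR01
  have hRδ : R ≤ D.δ := (min_le_left _ _).trans hR0δ
  obtain ⟨cx, hcx, hcx'⟩ := hind R hRpos (min_le_left _ _) x hx Q hcon
  have hphx : 0 < D.ph x := ph_pos D (by simpa using hx.2 0)
  have hph : ∀ n, 0 < D.ph (D.f^[n] x) := fun n => ph_pos D (hx.2 n)
  have hQ0 : 0 ≤ Q := by
    refine le_trans ?_ (hcon 0)
    unfold Ds.Aw
    have := ph_nonneg D x
    have := ph_nonneg D (D.f^[0] x)
    positivity
  have hder : ∀ n, ‖deriv (D.f^[n]) x‖ ≤ Q / D.ph x := by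
    intro n
    have h1 := hcon n
    unfold Ds.Aw at h1
    rw [div_le_iff₀ (hph n)] at h1
    rw [le_div_iff₀ hphx]
    calc ‖deriv (D.f^[n]) x‖ * D.ph x ≤ Q * D.ph (D.f^[n] x) := h1
      _ ≤ Q * 1 := mul_le_mul_of_nonneg_left (ph_le_one D _) hQ0
      _ = Q := mul_one Q
  obtain ⟨N, hN⟩ := norm_fin hx hder hRpos hRδ
  -- the constants
  have hC := D.hC
  obtain ⟨A, hA0, hA⟩ := unb_i (q := D.q) (K := D.C * P0) (c2 := c2) D.hq (by positivity) hc2 N0 D.Mx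
  set a : ℝ := min 1 (R / Z) / (64 * C2) with ha
  have hZ0 : 0 < Z := by linarith
  have hRZ : 0 < R / Z := div_pos hRpos hZ0
  have ha0 : 0 < a := div_pos (lt_min one_pos hRZ) (by linarith)
  have ha1 : 64 * C2 * a = min 1 (R / Z) := by
    rw [ha]
    field_simp
  obtain ⟨B, hB⟩ := unb_exp hχ (Q / (cx * a) * P0 * (A + 1) ^ N0) (N0 + 2)
  obtain ⟨n1, hn1⟩ := exists_nat_gt ((B : ℝ) + A * (B + 1) + 1)
  set n := max N n1 with hn
  have hNn : ¬ UU D x n R := hN n (le_max_left _ _)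
  obtain ⟨r, hr⟩ := mr_ex hx n hRpos
  have hrR : r ≠ R := by
    intro h
    have := hr.ex
    rw [h] at this
    exact hNn this
  obtain ⟨h2r, hUU⟩ := hr.max.resolve_left hrR
  obtain ⟨i, c, hOb, hζz⟩ := hobs x hx n r hr.pos (h2r.trans (min_le_right _ _)) hr.ex hUU
  set m := n - 1 - i with hm
  set z : ℝ := ‖D.f^[m] x - c‖ with hz
  have hi : i < n := hOb.lt
  have hz0 : 0 < z := by
    rw [hz, norm_pos_iff, sub_ne_zero]
    intro h
    exact hx.2 m (h ▸ hOb.mem)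
  set P : ℝ := P0 * ((i : ℝ) + 1) ^ N0 with hP
  have hP1 : 1 ≤ P := by
    have h1 : (1 : ℝ) ≤ ((i : ℝ) + 1) ^ N0 := one_le_pow₀ (by
      have : (0 : ℝ) ≤ i := Nat.cast_nonneg _
      linarith)
    exact one_le_mul_of_one_le_of_one_le hP0 h1
  set Λ : ℝ := ‖deriv (D.f^[i + 1]) (D.f^[m] x)‖ with hΛ
  have hΛ0 : 0 < Λ := by
    have h1 : 0 < P * (Λ * z) := lt_of_lt_of_le hr.pos hOb.d4
    have h2 : 0 ≤ Λ := norm_nonneg _
    rcases h2.lt_or_eq with h3 | h3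
    · exact h3
    · rw [← h3, zero_mul, mul_zero] at h1
      exact absurd h1 (lt_irrefl _)
  have hUm : UU D x m (r / (32 * Λ)) := num hx hr.pos hr.ex hi
  have hrpos : 0 < r := hr.pos
  obtain ⟨b, r', hb1, hr', hUb, hb2⟩ := hfwd x hx m c hOb.mem hζz (r / (32 * Λ))
    (by positivity) hUm
  -- the ratio
  have hratio : 1 / (32 * P) ≤ min 1 (r / (32 * Λ) / z) := by
    apply le_min
    · rw [div_le_one (by positivity)]
      linarith
    · rw [div_div, div_le_div_iff₀ (by positivity) (by positivity)]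
      have := hOb.d3
      nlinarith
  obtain ⟨r'', hr''⟩ := mr_ex hx (m + b) hRpos
  have hbig := mr_big hr'' hr' hUb
  have hzt0 : 0 < D.zt (D.f^[m + b] x) := zt_pos D (hx.2 _)
  have hztZ : D.zt (D.f^[m + b] x) ≤ Z := hZ _ (J_th D (it_J D hx.1 _) D.hδ)
  set ζ' := D.zt (D.f^[m + b] x) with hζ'
  have hbpos : (0 : ℝ) ≤ b := Nat.cast_nonneg _
  have hb1' : (1 : ℝ) ≤ ((b : ℝ) + 1) ^ 2 := one_le_pow₀ (by linarith)
  have hy : a / (P * ((b : ℝ) + 1) ^ 2) ≤ min 1 (r'' / ζ') := by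
    have hPb : 1 ≤ P * ((b : ℝ) + 1) ^ 2 := one_le_mul_of_one_le_of_one_le hP1 hb1'
    have hmin1 : min 1 (R / Z) ≤ 1 := min_le_left _ _
    have hmin2 : min 1 (R / Z) ≤ R / Z := min_le_right _ _
    have ha2 : 64 * a ≤ min 1 (R / Z) := by
      rw [← ha1]
      nlinarith
    apply le_min
    · rw [div_le_one (by positivity)]
      linarith
    · rw [div_le_div_iff₀ (by positivity) hzt0]
      have h1 : min R r' ≤ 2 * r'' := by linarith
      rcases le_total R r' with h2 | h2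
      · rw [min_eq_left h2] at h1
        have h3 : a * ζ' ≤ a * Z := mul_le_mul_of_nonneg_left hztZ ha0.le
        have h4 : 64 * a * Z ≤ R := by
          have h5 : 64 * a * Z ≤ R / Z * Z :=
            mul_le_mul_of_nonneg_right (ha2.trans hmin2) hZ0.le
          rwa [div_mul_cancel₀ _ hZ0.ne'] at h5
        have h6 : a * ζ' ≤ r'' := by nlinarith
        have h7 : 0 ≤ r'' := hr''.pos.le
        calc a * ζ' ≤ r'' * 1 := by linarith
          _ ≤ r'' * (P * ((b : ℝ) + 1) ^ 2) := mul_le_mul_of_nonneg_left hPb h7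
      · rw [min_eq_right h2] at h1
        have h3 : ζ' * (1 / (32 * P)) ≤ C2 * ((b : ℝ) + 1) ^ 2 * r' :=
          (mul_le_mul_of_nonneg_left hratio hzt0.le).trans hb2
        have h4 : ζ' ≤ 32 * P * (C2 * ((b : ℝ) + 1) ^ 2 * r') := by
          rw [mul_one_div, div_le_iff₀ (by positivity)] at h3
          linarith
        have h5 : a * ζ' ≤ a * (32 * P * (C2 * ((b : ℝ) + 1) ^ 2 * r')) :=
          mul_le_mul_of_nonneg_left h4 ha0.le
        have h6 : a * (32 * P * (C2 * ((b : ℝ) + 1) ^ 2 * r')) =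
            (64 * C2 * a) * (r' / 2 * (P * ((b : ℝ) + 1) ^ 2)) := by ring
        have h7 : (64 * C2 * a) * (r' / 2 * (P * ((b : ℝ) + 1) ^ 2)) ≤
            1 * (r' / 2 * (P * ((b : ℝ) + 1) ^ 2)) := by
          rw [ha1]
          exact mul_le_mul_of_nonneg_right hmin1 (by positivity)
        have h8 : r' / 2 * (P * ((b : ℝ) + 1) ^ 2) ≤ r'' * (P * ((b : ℝ) + 1) ^ 2) :=
          mul_le_mul_of_nonneg_right (by linarith) (by positivity)
        linarith
  have hypos : 0 < min 1 (r'' / ζ') := lt_min one_pos (div_pos hr''.pos hzt0)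
  have hy2 : min 1 (r'' / ζ') ≤ (min 1 (r'' / ζ')) ^ (1 - D.al) := by
    have h1 := Real.rpow_le_rpow_of_exponent_ge hypos (min_le_left _ _)
      (by linarith [al_pos D] : 1 - D.al ≤ 1)
    rwa [Real.rpow_one] at h1
  have hmain := (hcx' (m + b) r'' hr'').trans (hcon (m + b))
  set k := m + b with hk
  have hexp : 0 < Real.exp (χ * (k : ℕ)) := Real.exp_pos _
  have h1 : cx * Real.exp (χ * (k : ℕ)) * (a / (P * ((b : ℝ) + 1) ^ 2)) ≤ Q :=
    (mul_le_mul_of_nonneg_left (hy.trans hy2) (by positivity)).trans hmain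
  have h2 : Real.exp (χ * (k : ℕ)) ≤ Q / (cx * a) * (P * ((b : ℝ) + 1) ^ 2) := by
    rw [mul_div_assoc', div_le_iff₀ (by positivity)] at h1
    rw [div_mul_eq_mul_div, le_div_iff₀ (by positivity)]
    linarith
  -- the bound for `i`
  have hiA : (i : ℝ) ≤ A * ((b : ℝ) + 1) := by
    refine hA i b z hz0 hb1 ?_
    have h3 := D.ce3 c hOb.mem i hOb.free
    have hD0 : 0 ≤ ‖deriv (D.f^[i]) (D.f c)‖ := norm_nonneg _
    have h4 : z ^ D.Mx ≤ z ^ D.m c := by
      apply pow_le_pow_of_le_one hz0.le (by linarith)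
      refine (D.hmM c hOb.mem).trans ?_
      unfold Ds.Mx
      exact Finset.single_le_sum (f := D.M) (fun _ _ => Nat.zero_le _) hOb.mem
    have h5 : z ^ D.m c * ‖deriv (D.f^[i]) (D.f c)‖ ≤ P := by
      refine hOb.d1.trans ?_
      have : r ≤ 1 := hr.le.trans hR1
      calc P * r ≤ P * 1 := mul_le_mul_of_nonneg_left this (by linarith)
        _ = P := mul_one P
    calc D.q ^ i * z ^ D.Mx ≤ (D.C * ‖deriv (D.f^[i]) (D.f c)‖) * z ^ D.m c :=
          mul_le_mul h3 h4 (by positivity) (by positivity)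
      _ = D.C * (z ^ D.m c * ‖deriv (D.f^[i]) (D.f c)‖) := by ring
      _ ≤ D.C * P := mul_le_mul_of_nonneg_left h5 (by linarith)
      _ = D.C * P0 * ((i : ℝ) + 1) ^ N0 := by rw [hP]; ring
  have hbk : (b : ℝ) ≤ k := by
    have : b ≤ k := by omega
    exact_mod_cast this
  have hk0 : (0 : ℝ) ≤ k := Nat.cast_nonneg _
  have hi1 : (i : ℝ) + 1 ≤ (A + 1) * ((k : ℝ) + 1) := by
    have h3 : A * ((b : ℝ) + 1) ≤ A * ((k : ℝ) + 1) :=
      mul_le_mul_of_nonneg_left (by linarith) hA0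
    nlinarith
  have h3 : Real.exp (χ * (k : ℕ)) ≤
      Q / (cx * a) * P0 * (A + 1) ^ N0 * ((k : ℝ) + 1) ^ (N0 + 2) := by
    refine h2.trans ?_
    have hQa : 0 ≤ Q / (cx * a) := by positivity
    have h4 : P * ((b : ℝ) + 1) ^ 2 ≤ P0 * ((A + 1) * ((k : ℝ) + 1)) ^ N0 * ((k : ℝ) + 1) ^ 2 := by
      rw [hP]
      apply mul_le_mul
      · apply mul_le_mul_of_nonneg_left _ (by linarith)
        exact pow_le_pow_left₀ (by positivity) hi1 _
      · exact pow_le_pow_left₀ (by positivity) (by linarith) _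
      · positivity
      · positivity
    calc Q / (cx * a) * (P * ((b : ℝ) + 1) ^ 2)
        ≤ Q / (cx * a) * (P0 * ((A + 1) * ((k : ℝ) + 1)) ^ N0 * ((k : ℝ) + 1) ^ 2) :=
          mul_le_mul_of_nonneg_left h4 hQa
      _ = Q / (cx * a) * P0 * (A + 1) ^ N0 * ((k : ℝ) + 1) ^ (N0 + 2) := by
          rw [mul_pow, pow_add]
          ring
  have hkB := hB k h3
  have hkB' : (k : ℝ) ≤ B := by exact_mod_cast hkB
  have hmk : (m : ℝ) ≤ k := by
    have : m ≤ k := by omega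
    exact_mod_cast this
  have hmi : (n : ℝ) = m + i + 1 := by
    have : n = m + i + 1 := by omega
    rw [this]
    push_cast
    ring
  have hiB : (i : ℝ) ≤ A * (B + 1) :=
    hiA.trans (mul_le_mul_of_nonneg_left (by linarith) hA0)
  have hn1n : (n1 : ℝ) ≤ n := by
    have : n1 ≤ n := le_max_right _ _
    exact_mod_cast this
  linarith

end Pool.Agent.H44.DN
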